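import Pool.Agent.P.MP_824f38_ag.Defs

/-! Relative differential forms over an arbitrary base ring: universal property, pull-back,
exterior derivative, contraction, Lie derivative, degree projectors. -/

set_option linter.style.haveILetI false
set_option linter.unusedSimpArgs false
set_option linter.unusedVariables false

namespace Pool.Agent.P.MP_824f38_ag.V

open ExteriorAlgebra

/-- relative differential forms -/
abbrev DRk (k A : Type) [CommRing k] [CommRing A] [Algebra k A] : Type :=
  ExteriorAlgebra A (KaehlerDifferential k A)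

/-- relative `p`-forms -/
noncomputable abbrev Fk (k A : Type) [CommRing k] [CommRing A] [Algebra k A] (p : ℕ) :
    Submodule A (DRk k A) :=
  ExteriorAlgebra.exteriorPower A p (KaehlerDifferential k A)

section
variable (k : Type) {A : Type} [CommRing k] [CommRing A] [Algebra k A]

/-- a function as a zero-form -/
noncomputable abbrev fn : A →+* DRk k A := algebraMap A (DRk k A)

/-- the one-form `d a` -/
noncomputable def dk (a : A) : DRk k A := ι A (KaehlerDifferential.D k A a)

end

section
variable {k A : Type} [CommRing k] [CommRing A] [Algebra k A]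

/-- the sign involution -/
noncomputable def inv : DRk k A →ₐ[A] DRk k A := CliffordAlgebra.involute

@[simp] theorem inv_fn (a : A) : inv (fn k a) = fn k a := inv.commutes a
@[simp] theorem inv_dk (a : A) : inv (dk k a) = -dk k a := CliffordAlgebra.involute_ι _
@[simp] theorem inv_inv (x : DRk k A) : inv (inv x) = x := CliffordAlgebra.involute_involute x

theorem dk_add (a b : A) : dk k (a + b) = dk k a + dk k b := by simp [dk]
@[simp] theorem dk_zero : dk k (0 : A) = 0 := by simp [dk]
@[simp] theorem dk_one : dk k (1 : A) = 0 := by simp [dk]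
theorem dk_neg (a : A) : dk k (-a) = -dk k a := by simp [dk]
theorem dk_sub (a b : A) : dk k (a - b) = dk k a - dk k b := by simp [dk]
theorem dk_mul (a b : A) : dk k (a * b) = fn k a * dk k b + fn k b * dk k a := by
  simp [dk, Algebra.smul_def]
@[simp] theorem dk_algebraMap (c : k) : dk k (algebraMap k A c) = 0 := by simp [dk]
@[simp] theorem dk_sq (a : A) : dk k a * dk k a = 0 := ι_sq_zero _
theorem dk_anti (a b : A) : dk k a * dk k b = -(dk k b * dk k a) :=
  eq_neg_of_add_eq_zero_left (ι_add_mul_swap _ _)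
theorem fn_comm (a : A) (x : DRk k A) : fn k a * x = x * fn k a := Algebra.commutes a x
theorem smul_eq (a : A) (x : DRk k A) : a • x = fn k a * x := Algebra.smul_def a x
theorem dk_pow (a : A) (n : ℕ) : dk k (a ^ (n + 1)) = fn k ((n + 1 : ℕ) * a ^ n) * dk k a := by
  unfold dk
  rw [Derivation.leibniz_pow, ← smul_eq, Nat.add_sub_cancel, mul_smul,
    Nat.cast_smul_eq_nsmul, map_nsmul, map_smul]

/-- `d` as an additive map on functions -/
noncomputable def dkHom (k : Type) [CommRing k] [Algebra k A] : A →+ DRk k A :=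
  AddMonoidHom.mk' (dk k) dk_add

@[simp] theorem dkHom_apply (a : A) : dkHom k a = dk k a := rfl

theorem iota_induction {P : KaehlerDifferential k A → Prop} (h0 : P 0)
    (h1 : ∀ a b : A, P (a • KaehlerDifferential.D k A b)) (hadd : ∀ x y, P x → P y → P (x + y))
    (m : KaehlerDifferential k A) : P m := by
  have hm : m ∈ Submodule.span A (Set.range (KaehlerDifferential.D k A)) := by
    rw [KaehlerDifferential.span_range_derivation]; trivial
  suffices h : ∀ a : A, P (a • m) by simpa using h 1
  induction hm using Submodule.span_induction with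
  | mem x hx => obtain ⟨b, rfl⟩ := hx; exact fun a => h1 a b
  | zero => simpa using h0
  | add x y _ _ hx hy => intro a; rw [smul_add]; exact hadd _ _ (hx a) (hy a)
  | smul c x _ hx => intro a; rw [smul_smul]; exact hx _

theorem DR_induction {P : DRk k A → Prop} (h0 : ∀ a, P (fn k a))
    (h1 : ∀ a, P (dk k a)) (hadd : ∀ x y, P x → P y → P (x + y))
    (hmul : ∀ x y, P x → P y → P (x * y)) (ω : DRk k A) : P ω := by
  induction ω using ExteriorAlgebra.induction with
  | algebraMap a => exact h0 a
  | ι m =>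
    induction m using iota_induction with
    | h0 => simpa using h0 0
    | h1 a b => rw [map_smul, smul_eq]; exact hmul _ _ (h0 a) (h1 b)
    | hadd x y hx hy => rw [map_add]; exact hadd _ _ hx hy
  | mul x y hx hy => exact hmul _ _ hx hy
  | add x y hx hy => exact hadd _ _ hx hy

theorem DR_ext {T : Type} [Semiring T] {F G : DRk k A →+* T} (h0 : ∀ a, F (fn k a) = G (fn k a))
    (h1 : ∀ a, F (dk k a) = G (dk k a)) : F = G := by
  refine RingHom.ext fun x => ?_
  induction x using DR_induction with
  | h0 a => exact h0 a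
  | h1 a => exact h1 a
  | hadd x y hx hy => rw [map_add, map_add, hx, hy]
  | hmul x y hx hy => rw [map_mul, map_mul, hx, hy]

theorem dk_mul_comm (a : A) (x : DRk k A) : dk k a * x = inv x * dk k a := by
  induction x using DR_induction with
  | h0 b => rw [inv_fn, fn_comm]
  | h1 b => rw [inv_dk, dk_anti, neg_mul]
  | hadd x y hx hy => rw [mul_add, map_add, add_mul, hx, hy]
  | hmul x y hx hy => rw [← mul_assoc, hx, mul_assoc, hy, map_mul, mul_assoc]

theorem exists_lift_central {T : Type} [Ring T] (φ : A →+* T) (hφ : ∀ a t, φ a * t = t * φ a)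
    (D : A →+ T) (hD : ∀ a b, D (a * b) = φ a * D b + φ b * D a)
    (hk : ∀ c : k, D (algebraMap k A c) = 0) (hsq : ∀ a, D a * D a = 0) :
    ∃ F : DRk k A →+* T, (∀ a, F (fn k a) = φ a) ∧ ∀ a, F (dk k a) = D a := by
  letI : Algebra A T := φ.toAlgebra' hφ
  letI : Module k T := Module.compHom T (algebraMap k A)
  have hs : ∀ (a : A) (t : T), a • t = φ a * t := fun _ _ => rfl
  have hs' : ∀ (c : k) (t : T), c • t = φ (algebraMap k A c) * t := fun _ _ => rfl
  haveI : IsScalarTower k A T := ⟨fun c a t => by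
    rw [hs, hs', hs, Algebra.smul_def, map_mul, mul_assoc]⟩
  let D' : Derivation k A T := Derivation.mk'
    { toFun := D
      map_add' := D.map_add
      map_smul' := fun c a => by
        rw [Algebra.smul_def, hD, hk, mul_zero, add_zero]; rfl }
    (fun a b => hD a b)
  let l := D'.liftKaehlerDifferential
  have hl : ∀ a, l (KaehlerDifferential.D k A a) = D a := fun a =>
    Derivation.liftKaehlerDifferential_comp_D D' a
  have hanti : ∀ a b, D a * D b + D b * D a = 0 := fun a b => by
    have := hsq (a + b)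
    rw [map_add, add_mul, mul_add, mul_add, hsq, hsq, zero_add, add_zero] at this
    exact this
  have h2 : ∀ m m', l m * l m' + l m' * l m = 0 := by
    intro m m'
    induction m using iota_induction with
    | h0 => simp
    | hadd x y hx hy =>
      rw [map_add, add_mul, mul_add, add_add_add_comm, hx, hy, add_zero]
    | h1 a b =>
      induction m' using iota_induction with
      | h0 => simp
      | hadd x y hx hy =>
        rw [map_add, add_mul, mul_add, add_add_add_comm, hx, hy, add_zero]
      | h1 a' b' =>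
        rw [map_smul, map_smul, hl, hl, smul_mul_smul_comm, smul_mul_smul_comm, mul_comm a' a,
          ← smul_add, hanti, smul_zero]
  have h3 : ∀ m, l m * l m = 0 := by
    intro m
    induction m using iota_induction with
    | h0 => simp
    | hadd x y hx hy =>
      rw [map_add, add_mul, mul_add, mul_add, hx, hy, zero_add, add_zero, h2]
    | h1 a b => rw [map_smul, hl, smul_mul_smul_comm, hsq, smul_zero]
  refine ⟨(ExteriorAlgebra.lift A ⟨l, h3⟩).toRingHom, fun a => ?_, fun a => ?_⟩
  · exact (ExteriorAlgebra.lift A ⟨l, h3⟩).commutes a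
  · exact (ExteriorAlgebra.lift_ι_apply A l h3 _).trans (hl a)

/-- Universal property of the algebra of forms. -/
theorem exists_lift {T : Type} [Ring T] (φ : A →+* T) (D : A →+ T)
    (hφ : ∀ a b, φ a * D b = D b * φ a) (hD : ∀ a b, D (a * b) = φ a * D b + φ b * D a)
    (hk : ∀ c : k, D (algebraMap k A c) = 0) (hsq : ∀ a, D a * D a = 0) :
    ∃ F : DRk k A →+* T, (∀ a, F (fn k a) = φ a) ∧ ∀ a, F (dk k a) = D a := by
  let C : Subring T := Subring.centralizer (Set.range φ)
  have h1 : ∀ a, φ a ∈ C := fun a => Subring.mem_centralizer_iff.2 (by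
    rintro _ ⟨b, rfl⟩; rw [← map_mul, ← map_mul, mul_comm])
  have h2 : ∀ a, D a ∈ C := fun a => Subring.mem_centralizer_iff.2 (by
    rintro _ ⟨b, rfl⟩; exact hφ b a)
  obtain ⟨F, hF, hF'⟩ := exists_lift_central (k := k) (φ.codRestrict C h1)
    (fun a t => Subtype.ext (Subring.mem_centralizer_iff.1 t.2 _ ⟨a, rfl⟩))
    (D.codRestrict C h2) (fun a b => Subtype.ext (hD a b)) (fun c => Subtype.ext (hk c))
    (fun a => Subtype.ext (hsq a))
  exact ⟨C.subtype.comp F, fun a => congrArg Subtype.val (hF a),
    fun a => congrArg Subtype.val (hF' a)⟩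

theorem exists_odd (α β : A →+ DRk k A) (h1 : α 1 = 0)
    (hα : ∀ a b, α (a * b) = fn k a * α b + α a * fn k b)
    (hc : ∀ a b, α a * dk k b = -(dk k b * α a))
    (hβ : ∀ a b, β (a * b) = fn k a * β b + α a * dk k b + (fn k b * β a + α b * dk k a))
    (hk : ∀ c : k, β (algebraMap k A c) = 0) (hsq : ∀ a, β a * dk k a = dk k a * β a) :
    ∃ δ : DRk k A →+ DRk k A, (∀ a, δ (fn k a) = α a) ∧ (∀ a, δ (dk k a) = β a) ∧
      ∀ x y, δ (x * y) = δ x * y + inv x * δ y := by
  let φ : A →+* Matrix (Fin 2) (Fin 2) (DRk k A) :=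
    { toFun := fun a => !![fn k a, α a; 0, fn k a]
      map_one' := by ext i j; fin_cases i <;> fin_cases j <;> simp [h1]
      map_mul' := fun a b => by
        ext i j; fin_cases i <;> fin_cases j <;> simp [hα, Matrix.mul_apply]
      map_zero' := by ext i j; fin_cases i <;> fin_cases j <;> simp
      map_add' := fun a b => by ext i j; fin_cases i <;> fin_cases j <;> simp }
  let D : A →+ Matrix (Fin 2) (Fin 2) (DRk k A) := AddMonoidHom.mk'
    (fun a => !![-dk k a, β a; 0, dk k a])
    (fun a b => by ext i j; fin_cases i <;> fin_cases j <;> simp [dk_add, add_comm])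
  have hφ : ∀ a, φ a = !![fn k a, α a; 0, fn k a] := fun _ => rfl
  have hD : ∀ a, D a = !![-dk k a, β a; 0, dk k a] := fun _ => rfl
  obtain ⟨G, hG, hG'⟩ := exists_lift (k := k) φ D
    (fun a b => by
      rw [hφ, hD]
      ext i j; fin_cases i <;> fin_cases j <;> simp [Matrix.mul_apply, hc]
      · exact fn_comm _ _
      · rw [add_comm]; congr 1; exact fn_comm _ _
      · exact fn_comm _ _)
    (fun a b => by
      rw [hφ, hφ, hD, hD, hD]
      ext i j; fin_cases i <;> fin_cases j <;> simp [Matrix.mul_apply, hβ, dk_mul, add_comm, smul_eq])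
    (fun c => by rw [hD]; ext i j; fin_cases i <;> fin_cases j <;> simp [hk])
    (fun a => by
      rw [hD]; ext i j; fin_cases i <;> fin_cases j <;> simp [Matrix.mul_apply, hsq])
  have key : ∀ x, G x 0 0 = inv x ∧ G x 1 0 = 0 ∧ G x 1 1 = x := by
    intro x
    induction x using DR_induction with
    | h0 a => rw [hG, hφ]; simp
    | h1 a => rw [hG', hD]; simp
    | hadd x y hx hy => simp [hx, hy]
    | hmul x y hx hy => simp [Matrix.mul_apply, hx, hy]
  refine ⟨AddMonoidHom.mk' (fun x => G x 0 1) (fun x y => by simp), fun a => ?_, fun a => ?_,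
    fun x y => ?_⟩
  · change G _ 0 1 = _
    rw [hG, hφ]; simp
  · change G _ 0 1 = _
    rw [hG', hD]; simp
  · change G _ 0 1 = G x 0 1 * y + inv x * G y 0 1
    simp [Matrix.mul_apply, key, add_comm]

theorem exists_d : ∃ δ : DRk k A →+ DRk k A, (∀ a, δ (fn k a) = dk k a) ∧
    (∀ a, δ (dk k a) = 0) ∧ ∀ x y, δ (x * y) = δ x * y + inv x * δ y :=
  exists_odd (dkHom k) 0 (by simp) (fun a b => by simp [dk_mul, fn_comm b])
    (fun a b => dk_anti a b) (fun a b => by simp [dk_anti a b]) (by simp) (by simp)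

/-- the exterior derivative -/
noncomputable def dR : DRk k A →+ DRk k A := exists_d.choose

@[simp] theorem dR_fn (a : A) : dR (fn k a) = dk k a := exists_d.choose_spec.1 a
@[simp] theorem dR_dk (a : A) : dR (dk k a) = 0 := exists_d.choose_spec.2.1 a
theorem dR_mul (x y : DRk k A) : dR (x * y) = dR x * y + inv x * dR y :=
  exists_d.choose_spec.2.2 x y
@[simp] theorem dR_one : dR (1 : DRk k A) = 0 := by simpa using dR_fn (k := k) (1 : A)

theorem dR_inv (x : DRk k A) : dR (inv x) = -inv (dR x) := by
  induction x using DR_induction with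
  | h0 a => simp
  | h1 a => simp
  | hadd x y hx hy => simp only [map_add, hx, hy, neg_add]
  | hmul x y hx hy =>
    simp only [map_mul, dR_mul, map_add, hx, hy, inv_inv, neg_add, neg_mul, mul_neg]

@[simp] theorem dR_dR (x : DRk k A) : dR (dR x) = 0 := by
  induction x using DR_induction with
  | h0 a => simp
  | h1 a => simp
  | hadd x y hx hy => simp only [map_add, hx, hy, add_zero]
  | hmul x y hx hy => simp [dR_mul, hx, hy, dR_inv]

theorem dR_fn_mul {a : A} (h : dk k a = 0) (x : DRk k A) : dR (fn k a * x) = fn k a * dR x := by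
  simp [dR_mul, h]

theorem dR_ksmul (c : k) (x : DRk k A) : dR (c • x) = c • dR x := by
  rw [← algebraMap_smul A c x, ← algebraMap_smul A c (dR x), smul_eq, smul_eq,
    dR_fn_mul (dk_algebraMap c)]

theorem exists_iota (θ : Derivation k A A) : ∃ δ : DRk k A →+ DRk k A,
    (∀ a, δ (fn k a) = 0) ∧ (∀ a, δ (dk k a) = fn k (θ a)) ∧
      ∀ x y, δ (x * y) = δ x * y + inv x * δ y :=
  exists_odd 0 ((fn k).toAddMonoidHom.comp θ.toLinearMap.toAddMonoidHom) (by simp) (by simp)
    (by simp) (fun a b => by simp) (by simp) (fun a => fn_comm _ _)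

/-- contraction with a vector field -/
noncomputable def iota (θ : Derivation k A A) : DRk k A →+ DRk k A := (exists_iota θ).choose

variable (θ : Derivation k A A)

@[simp] theorem iota_fn (a : A) : iota θ (fn k a) = 0 := (exists_iota θ).choose_spec.1 a
@[simp] theorem iota_dk (a : A) : iota θ (dk k a) = fn k (θ a) :=
  (exists_iota θ).choose_spec.2.1 a
theorem iota_mul (x y : DRk k A) : iota θ (x * y) = iota θ x * y + inv x * iota θ y :=
  (exists_iota θ).choose_spec.2.2 x y
theorem iota_fn_mul (a : A) (x : DRk k A) : iota θ (fn k a * x) = fn k a * iota θ x := by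
  simp [iota_mul]

theorem iota_inv (x : DRk k A) : iota θ (inv x) = -inv (iota θ x) := by
  induction x using DR_induction with
  | h0 a => simp
  | h1 a => simp
  | hadd x y hx hy => simp only [map_add, hx, hy, neg_add]
  | hmul x y hx hy =>
    simp only [map_mul, iota_mul, map_add, hx, hy, inv_inv, neg_add, neg_mul, mul_neg]

@[simp] theorem iota_iota (x : DRk k A) : iota θ (iota θ x) = 0 := by
  induction x using DR_induction with
  | h0 a => simp
  | h1 a => simp
  | hadd x y hx hy => simp only [map_add, hx, hy, add_zero]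
  | hmul x y hx hy => simp [iota_mul, hx, hy, iota_inv]

/-- the Lie derivative -/
noncomputable def lie : DRk k A →+ DRk k A := dR.comp (iota θ) + (iota θ).comp dR

theorem lie_def (x : DRk k A) : lie θ x = dR (iota θ x) + iota θ (dR x) := rfl
@[simp] theorem lie_fn (a : A) : lie θ (fn k a) = fn k (θ a) := by simp [lie_def]
@[simp] theorem lie_dk (a : A) : lie θ (dk k a) = dk k (θ a) := by simp [lie_def]
theorem lie_mul (x y : DRk k A) : lie θ (x * y) = lie θ x * y + x * lie θ y := by
  simp only [lie_def, dR_mul, iota_mul, map_add, dR_inv, iota_inv, inv_inv, add_mul, mul_add,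
    neg_mul]
  abel
theorem lie_dR (x : DRk k A) : lie θ (dR x) = dR (lie θ x) := by simp [lie_def]

theorem fn_mem (a : A) : fn k a ∈ Fk k A 0 := by
  change _ ∈ _ ^ 0
  rw [pow_zero]; exact Submodule.algebraMap_mem a

theorem dk_mem (a : A) : dk k a ∈ Fk k A 1 := by
  change _ ∈ _ ^ 1
  rw [pow_one]; exact LinearMap.mem_range_self _ _

theorem mul_mem {p q : ℕ} {x y : DRk k A} (hx : x ∈ Fk k A p) (hy : y ∈ Fk k A q) :
    x * y ∈ Fk k A (p + q) := by
  change _ ∈ _ ^ (p + q)
  rw [pow_add]; exact Submodule.mul_mem_mul hx hy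

theorem fn_mul_mem {p : ℕ} (a : A) {x : DRk k A} (hx : x ∈ Fk k A p) : fn k a * x ∈ Fk k A p :=
  smul_eq a x ▸ Submodule.smul_mem _ a hx

theorem dk_mul_mem {p : ℕ} (a : A) {x : DRk k A} (hx : x ∈ Fk k A p) :
    dk k a * x ∈ Fk k A (p + 1) := add_comm 1 p ▸ mul_mem (dk_mem a) hx

theorem fn_dk_mul_mem {p : ℕ} (a b : A) {x : DRk k A} (hx : x ∈ Fk k A p) :
    fn k a * dk k b * x ∈ Fk k A (p + 1) := mul_assoc (fn k a) _ x ▸ fn_mul_mem a (dk_mul_mem b hx)

theorem Fk_induction {P : ∀ p x, x ∈ Fk k A p → Prop} (h0 : ∀ a, P 0 (fn k a) (fn_mem a))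
    (hz : ∀ p, P p 0 (zero_mem _))
    (hadd : ∀ p x y hx hy, P p x hx → P p y hy → P p (x + y) (add_mem hx hy))
    (hs : ∀ p a b x hx, P p x hx → P (p + 1) (fn k a * dk k b * x) (fn_dk_mul_mem a b hx))
    {p : ℕ} {x : DRk k A} (hx : x ∈ Fk k A p) : P p x hx := by
  induction hx using Submodule.pow_induction_on_left' with
  | algebraMap a => exact h0 a
  | add x y i hx hy h1 h2 => exact hadd i x y hx hy h1 h2
  | mem_mul m hm i x hx h =>
    obtain ⟨m, rfl⟩ := hm
    have hm : ∀ w, ι A w * x ∈ Fk k A (i + 1) := fun w => by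
      change _ ∈ _ ^ (i + 1)
      rw [pow_succ']; exact Submodule.mul_mem_mul ⟨w, rfl⟩ hx
    suffices h : P (i + 1) (ι A m * x) (hm m) from h
    induction m using iota_induction with
    | h0 => simpa using hz _
    | h1 a b => simpa only [map_smul, smul_eq, dk] using hs i a b x hx h
    | hadd y z hy hz' => simpa only [map_add, add_mul] using hadd _ _ _ (hm y) (hm z) hy hz'

theorem inv_of_mem {p : ℕ} {x : DRk k A} (hx : x ∈ Fk k A p) : inv x = (-1) ^ p * x := by
  induction hx using Fk_induction with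
  | h0 a => simp
  | hz p => simp
  | hadd p x y _ _ h1 h2 => rw [map_add, h1, h2, mul_add]
  | hs p a b x _ h =>
    rw [map_mul, map_mul, h, inv_fn, inv_dk, pow_succ, ← mul_assoc,
      ← ((Commute.neg_one_left (fn k a * -dk k b)).pow_left p).eq]
    simp [mul_assoc]

theorem inv_mem {p : ℕ} {x : DRk k A} (hx : x ∈ Fk k A p) : inv x ∈ Fk k A p := by
  rw [inv_of_mem hx]
  rcases neg_one_pow_eq_or (DRk k A) p with h | h <;> simp [h, hx]

theorem dR_mem {p : ℕ} {x : DRk k A} (hx : x ∈ Fk k A p) : dR x ∈ Fk k A (p + 1) := by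
  induction hx using Fk_induction with
  | h0 a => simpa using dk_mem a
  | hz p => simp
  | hadd p x y _ _ h1 h2 => rw [map_add]; exact add_mem h1 h2
  | hs p a b x hx h =>
    simp only [dR_mul, dR_fn, dR_dk, mul_zero, add_zero, map_mul, inv_fn, inv_dk, mul_assoc,
      zero_mul, zero_add, neg_mul, mul_neg]
    exact add_mem (dk_mul_mem _ (dk_mul_mem _ hx)) (neg_mem (fn_mul_mem _ (dk_mul_mem _ h)))

theorem iota_mem_aux {p : ℕ} {x : DRk k A} (hx : x ∈ Fk k A p) :
    (p = 0 → iota θ x = 0) ∧ iota θ x ∈ Fk k A (p - 1) := by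
  induction hx using Fk_induction with
  | h0 a => simp
  | hz p => simp
  | hadd p x y _ _ h1 h2 =>
    rw [map_add]
    exact ⟨fun h => by rw [h1.1 h, h2.1 h, add_zero], add_mem h1.2 h2.2⟩
  | hs p a b x hx h =>
    refine ⟨by simp, ?_⟩
    simp only [iota_mul, iota_fn, iota_dk, zero_mul, zero_add, map_mul, inv_fn, inv_dk, mul_assoc,
      neg_mul, mul_neg, Nat.add_sub_cancel]
    refine fn_mul_mem _ (add_mem (fn_mul_mem _ hx) (neg_mem ?_))
    rcases p with _ | p
    · simp [h.1 rfl]
    · exact dk_mul_mem _ h.2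

theorem iota_mem {p : ℕ} {x : DRk k A} (hx : x ∈ Fk k A (p + 1)) : iota θ x ∈ Fk k A p :=
  (iota_mem_aux θ hx).2

theorem iota_zero {x : DRk k A} (hx : x ∈ Fk k A 0) : iota θ x = 0 := (iota_mem_aux θ hx).1 rfl

/-- projection onto the forms of degree `p` -/
noncomputable def ep (p : ℕ) : DRk k A →ₗ[A] DRk k A :=
  GradedAlgebra.proj (fun i : ℕ => Fk k A i) p

theorem ep_mem (p : ℕ) (x : DRk k A) : ep p x ∈ Fk k A p :=
  (DirectSum.decompose (fun i : ℕ => Fk k A i) x p).2

theorem ep_of_mem {p : ℕ} {x : DRk k A} (hx : x ∈ Fk k A p) : ep p x = x :=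
  DirectSum.decompose_of_mem_same (fun i : ℕ => Fk k A i) hx

theorem ep_of_ne {p q : ℕ} {x : DRk k A} (hx : x ∈ Fk k A p) (h : p ≠ q) : ep q x = 0 :=
  DirectSum.decompose_of_mem_ne (fun i : ℕ => Fk k A i) hx h

theorem homog_induction {P : DRk k A → Prop} (h0 : ∀ p, ∀ x ∈ Fk k A p, P x)
    (hadd : ∀ x y, P x → P y → P (x + y)) (x : DRk k A) : P x := by
  induction x using DirectSum.Decomposition.inductionOn (fun i : ℕ => Fk k A i) with
  | zero => exact h0 0 0 (zero_mem _)
  | homogeneous m => exact h0 _ _ m.2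
  | add x y hx hy => exact hadd x y hx hy

theorem exists_sum_ep (x : DRk k A) :
    ∃ N : ℕ, ∀ M, N ≤ M → ∑ p ∈ Finset.range M, ep p x = x := by
  induction x using homog_induction with
  | h0 p x hx =>
    refine ⟨p + 1, fun M hM => ?_⟩
    rw [Finset.sum_eq_single p (fun q _ hq => ep_of_ne hx hq.symm)
      (fun h => absurd (Finset.mem_range.2 (by omega)) h), ep_of_mem hx]
  | hadd x y hx hy =>
    obtain ⟨N, hN⟩ := hx
    obtain ⟨N', hN'⟩ := hy
    refine ⟨max N N', fun M hM => ?_⟩
    simp only [map_add, Finset.sum_add_distrib]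
    rw [hN M (le_of_max_le_left hM), hN' M (le_of_max_le_right hM)]

end

section
variable {k A k' A' k'' A'' : Type} [CommRing k] [CommRing A] [Algebra k A]
  [CommRing k'] [CommRing A'] [Algebra k' A'] [CommRing k''] [CommRing A''] [Algebra k'' A'']

/-- an additive map that shifts the degree by an injective rule commutes with the projectors -/
theorem ep_comm (f : DRk k A →+ DRk k' A') (s : ℕ → ℕ) (hs : Function.Injective s)
    (hf : ∀ p, ∀ x ∈ Fk k A p, f x ∈ Fk k' A' (s p)) (p : ℕ) (x : DRk k A) :
    ep (s p) (f x) = f (ep p x) := by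
  induction x using homog_induction with
  | h0 q x hx =>
    by_cases h : q = p
    · subst h; rw [ep_of_mem hx, ep_of_mem (hf _ _ hx)]
    · rw [ep_of_ne hx h, ep_of_ne (hf _ _ hx) (fun e => h (hs e)), map_zero]
  | hadd x y hx hy => simp only [map_add, hx, hy]

theorem ep_dR (p : ℕ) (x : DRk k A) : ep (p + 1) (dR x) = dR (ep p x) :=
  ep_comm dR (· + 1) (add_left_injective 1) (fun _ _ h => dR_mem h) p x

theorem ep_zero_dR (x : DRk k A) : ep 0 (dR x) = 0 := by
  induction x using homog_induction with
  | h0 q x hx => exact ep_of_ne (dR_mem hx) (by omega)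
  | hadd x y hx hy => simp only [map_add, hx, hy, add_zero]

theorem ep_inv (p : ℕ) (x : DRk k A) : ep p (inv x) = inv (ep p x) :=
  ep_comm (inv (k := k) (A := A)).toRingHom.toAddMonoidHom id Function.injective_id
    (fun _ _ h => inv_mem h) p x

theorem ep_iota (θ : Derivation k A A) (p : ℕ) (x : DRk k A) :
    ep p (iota θ x) = iota θ (ep (p + 1) x) := by
  induction x using homog_induction with
  | h0 q x hx =>
    rcases q with _ | q
    · rw [iota_zero θ hx, ep_of_ne hx (by omega), map_zero, map_zero]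
    · by_cases h : q = p
      · subst h; rw [ep_of_mem hx, ep_of_mem (iota_mem θ hx)]
      · rw [ep_of_ne hx (by omega), ep_of_ne (iota_mem θ hx) h, map_zero]
  | hadd x y hx hy => simp only [map_add, hx, hy]

/-- `φ` sends the constants to closed functions -/
def Compat (k k' : Type) [CommRing k] [CommRing k'] [Algebra k A] [Algebra k' A']
    (φ : A →+* A') : Prop := ∀ c : k, dk k' (φ (algebraMap k A c)) = 0

theorem Compat.of_square {φ : A →+* A'} (f : k → k')
    (h : ∀ c, φ (algebraMap k A c) = algebraMap k' A' (f c)) : Compat k k' φ := fun c => by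
  rw [h, dk_algebraMap]

theorem Compat.of_algHom [Algebra k A'] (φ : A →ₐ[k] A') : Compat k k (φ : A →+* A') :=
  Compat.of_square id φ.commutes

theorem exists_pullk (φ : A →+* A') (h : Compat k k' φ) : ∃ F : DRk k A →+* DRk k' A',
    (∀ a, F (fn k a) = fn k' (φ a)) ∧ ∀ a, F (dk k a) = dk k' (φ a) :=
  exists_lift ((fn k').comp φ) ((dkHom k').comp φ.toAddMonoidHom) (fun _ _ => fn_comm _ _)
    (fun a b => by simp [dk_mul]) h (fun _ => dk_sq _)

/-- pull-back of forms -/
noncomputable def pullk (φ : A →+* A') (h : Compat k k' φ) : DRk k A →+* DRk k' A' :=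
  (exists_pullk φ h).choose

variable (φ : A →+* A') (h : Compat k k' φ)

@[simp] theorem pullk_fn (a : A) : pullk φ h (fn k a) = fn k' (φ a) :=
  (exists_pullk φ h).choose_spec.1 a
@[simp] theorem pullk_dk (a : A) : pullk φ h (dk k a) = dk k' (φ a) :=
  (exists_pullk φ h).choose_spec.2 a

theorem pullk_smul (a : A) (x : DRk k A) : pullk φ h (a • x) = φ a • pullk φ h x := by
  rw [smul_eq, smul_eq, map_mul, pullk_fn]

theorem Compat.comp {φ : A →+* A'} (h : Compat k k' φ) {ψ : A' →+* A''} (h' : Compat k' k'' ψ) :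
    Compat k k'' (ψ.comp φ) := fun c => by
  have := congrArg (pullk ψ h') (h c)
  rwa [pullk_dk, map_zero] at this

theorem pullk_pullk (ψ : A' →+* A'') (h' : Compat k' k'' ψ) (χ : A →+* A'')
    (h'' : Compat k k'' χ) (e : ∀ a, ψ (φ a) = χ a) (x : DRk k A) :
    pullk ψ h' (pullk φ h x) = pullk χ h'' x :=
  DFunLike.congr_fun (DR_ext (F := (pullk ψ h').comp (pullk φ h)) (G := pullk χ h'')
    (fun a => by simp [e]) (fun a => by simp [e])) x

theorem pullk_id (φ : A →+* A) (h : Compat k k φ) (e : ∀ a, φ a = a) (x : DRk k A) :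
    pullk φ h x = x :=
  DFunLike.congr_fun (DR_ext (F := pullk φ h) (G := RingHom.id _)
    (fun a => by simp [e]) (fun a => by simp [e])) x

theorem pullk_inv (x : DRk k A) : pullk φ h (inv x) = inv (pullk φ h x) := by
  induction x using DR_induction with
  | h0 a => simp
  | h1 a => simp
  | hadd x y hx hy => simp only [map_add, hx, hy]
  | hmul x y hx hy => simp only [map_mul, hx, hy]

theorem pullk_dR (x : DRk k A) : pullk φ h (dR x) = dR (pullk φ h x) := by
  induction x using DR_induction with
  | h0 a => simp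
  | h1 a => simp
  | hadd x y hx hy => simp only [map_add, hx, hy]
  | hmul x y hx hy => simp only [map_mul, dR_mul, map_add, hx, hy, pullk_inv]

theorem pullk_mem {p : ℕ} {x : DRk k A} (hx : x ∈ Fk k A p) : pullk φ h x ∈ Fk k' A' p := by
  induction hx using Fk_induction with
  | h0 a => rw [pullk_fn]; exact fn_mem _
  | hz p => simp
  | hadd p x y _ _ h1 h2 => rw [map_add]; exact add_mem h1 h2
  | hs p a b x hx h =>
    simp only [map_mul, pullk_fn, pullk_dk, mul_assoc]
    exact fn_mul_mem _ (dk_mul_mem _ h)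

theorem pullk_ep (p : ℕ) (x : DRk k A) : ep p (pullk φ h x) = pullk φ h (ep p x) :=
  ep_comm (pullk φ h).toAddMonoidHom id Function.injective_id (fun _ _ hx => pullk_mem φ h hx) p x

theorem pullk_surjective (hφ : Function.Surjective φ) : Function.Surjective (pullk φ h) := by
  intro y
  induction y using DR_induction with
  | h0 a => obtain ⟨a, rfl⟩ := hφ a; exact ⟨_, pullk_fn φ h a⟩
  | h1 a => obtain ⟨a, rfl⟩ := hφ a; exact ⟨_, pullk_dk φ h a⟩
  | hadd x y hx hy =>
    obtain ⟨x, rfl⟩ := hx; obtain ⟨y, rfl⟩ := hy; exact ⟨x + y, map_add _ _ _⟩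
  | hmul x y hx hy =>
    obtain ⟨x, rfl⟩ := hx; obtain ⟨y, rfl⟩ := hy; exact ⟨x * y, map_mul _ _ _⟩

end

/-- the pull-back of the statement is the pull-back of this file -/
theorem pull_eq_pullk {A B : Type} [CommRing A] [Algebra ℂ A] [CommRing B] [Algebra ℂ B]
    (φ : A →ₐ[ℂ] B) : pull φ = pullk (φ : A →+* B) (Compat.of_algHom φ) :=
  DR_ext (k := ℂ) (fun a => ((exists_pull φ).choose_spec.1 a).trans (pullk_fn _ _ a).symm)
    (fun a => ((exists_pull φ).choose_spec.2 a).trans (pullk_dk _ _ a).symm)

end Pool.Agent.P.MP_824f38_ag.V
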