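import Pool.Agent.P.MP_824f38_ag.V.Defs

/-! The statements that block V delivers. -/

set_option linter.unusedVariables false

namespace Pool.Agent.P.MP_824f38_ag.V

open AddMonoidAlgebra

/-- a graded ring in the sense of Mathlib gives a coaction -/
theorem exists_coaction {k S M : Type} [CommRing k] [CommRing S] [Algebra k S] [AddCommGroup M]
    [DecidableEq M] (𝒮 : M → Submodule k S) [GradedAlgebra 𝒮] :
    ∃ ρ : S →+* AddMonoidAlgebra S M, IsCo ρ ∧ ∀ l x, x ∈ Hg ρ l ↔ x ∈ 𝒮 l := by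
  let f : DirectSum M (fun i => 𝒮 i) →+* AddMonoidAlgebra S M :=
    DirectSum.toSemiring (fun i => (singleAddHom i).comp (𝒮 i).subtype.toAddMonoidHom) rfl
      (fun {i j} a b => (single_mul_single i j (a : S) (b : S)).symm)
  let ρ := f.comp (DirectSum.decomposeRingEquiv 𝒮).toRingHom
  have h1 : ∀ l, ∀ x ∈ 𝒮 l, x ∈ Hg ρ l := fun l x hx => by
    change f (DirectSum.decompose 𝒮 x) = _
    rw [DirectSum.decompose_of_mem 𝒮 hx]
    exact DirectSum.toSemiring_of _ _ _ _ _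
  have h2 : ∀ x, (∀ l, pr ρ l x ∈ 𝒮 l) ∧ x ∈ AddSubgroup.closure {y | ∃ l, y ∈ Hg ρ l} := by
    intro x
    induction x using DirectSum.Decomposition.inductionOn 𝒮 with
    | zero => exact ⟨fun l => by simp, zero_mem _⟩
    | add x y hx hy =>
      exact ⟨fun l => by rw [map_add]; exact add_mem (hx.1 l) (hy.1 l), add_mem hx.2 hy.2⟩
    | @homogeneous i x =>
      refine ⟨fun l => ?_, IsCo.of_mem (h1 _ _ x.2)⟩
      by_cases h : i = l
      · subst h; rw [pr_of_mem (h1 _ _ x.2)]; exact x.2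
      · rw [pr_of_ne (h1 _ _ x.2) h]; exact zero_mem _
  exact ⟨ρ, fun x => (h2 x).2, fun l x => ⟨fun h => pr_of_mem h ▸ (h2 x).1 l, h1 l x⟩⟩

theorem compat_of_sigma_one {k K : Type} [CommRing k] [CommRing K] [Algebra k K] {m : ℕ}
    {V : Type} (X : Mod k m V) (I : Finset V) (ψ : X.Ch I →ₐ[k] K)
    (h : ∀ j, ψ (algebraMap X.S _ (X.σ j)) = 1) : Compat (Pk k m) k (ψ : X.Ch I →+* K) := by
  refine Compat.of_square (MvPolynomial.eval fun _ => 1) fun c => ?_
  induction c using MvPolynomial.induction_on with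
  | C a =>
    rw [← MvPolynomial.algebraMap_eq, ← IsScalarTower.algebraMap_apply]
    simp
  | add p q hp hq => simp only [map_add, hp, hq]
  | mul_X p j hp =>
    simp only [map_mul, hp, MvPolynomial.eval_X, map_one]
    rw [IsScalarTower.algebraMap_apply (Pk k m) X.S]
    exact congrArg _ (h j)

/-- V1: graded Steenbrink vanishing -/
def VanishStmt : Prop :=
  ∀ (m : ℕ) (V : Type) [LinearOrder V] [Fintype V] (X : Mod ℂ m V), Algebra.FiniteType ℂ X.S →
    (∀ j, 1 ≤ X.χ j) → X.Proper → X.Sm → ∀ n, X.Dim n →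
    ∀ p q, 1 ≤ q → n < p + q → CEx X.res (X.L p 1) q

/-- V2 (i): finiteness of the cohomology over the ring of degree zero -/
def FinStmt : Prop :=
  ∀ (m : ℕ) (V : Type) [LinearOrder V] [Fintype V] (X : Mod ℂ m V), Algebra.FiniteType ℂ X.S →
    X.Proper → ∀ p l q, ∃ T : Finset (∀ I, X.W I), (∀ t ∈ T, IsCyc X.res (X.L p l) q t) ∧
      ∀ z, IsCyc X.res (X.L p l) q z → ∃ a : (∀ I, X.W I) → X.S, (∀ t, a t ∈ X.H 0) ∧
        IsBd X.res (X.L p l) q (z - ∑ t ∈ T, a t • t)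

/-- V2 (ii): generation of the cohomology in a second direction -/
def GenStmt : Prop :=
  ∀ (m : ℕ) (V : Type) [LinearOrder V] [Fintype V] (X : Mod ℂ m V), Algebra.FiniteType ℂ X.S →
    ∀ (ι : Type) [Fintype ι] (c : Dg m) (μ : ι → X.S), X.Rad c μ → ∀ p l q, ∃ a0 : ℕ,
      ∀ a : ℕ, a0 ≤ a → ∀ z, IsCyc X.res (X.L p (l + (a + 1) • c)) q z →
        ∃ y : ι → ∀ I, X.W I, (∀ i, IsCyc X.res (X.L p (l + a • c)) q (y i)) ∧
          IsBd X.res (X.L p (l + (a + 1) • c)) q (z - ∑ i, μ i • y i)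

/-- V4: homogeneous relative forms inject into the forms of the function field -/
def InjStmt : Prop :=
  ∀ (m : ℕ) (V : Type) (X : Mod ℂ m V) (I : Finset V), Algebra.Smooth (Pk ℂ m) (X.Ch I) →
    ∀ (K : Type) [Field K] [Algebra ℂ K] (ψ : X.Ch I →ₐ[ℂ] K),
      (∀ j, ψ (algebraMap X.S _ (X.σ j)) = 1) →
      (∀ l, ∀ s ∈ X.H l, ψ (algebraMap X.S _ s) = 0 → algebraMap X.S (X.Ch I) s = 0) →
      ∀ (h : Compat (Pk ℂ m) ℂ (ψ : X.Ch I →+* K)) (l : Dg m), ∀ x ∈ X.LL l I,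
        pullk (ψ : X.Ch I →+* K) h x = 0 → x = 0

/-- smoothness and dimension can be read on the basic charts -/
def ChartStmt : Prop :=
  ∀ (m : ℕ) (V : Type) (X : Mod ℂ m V),
    ((∀ i, Algebra.Smooth (Pk ℂ m) (Localization.Away (X.g i))) → X.Sm) ∧
    ∀ n, (∀ i, ∀ x ∈ Fk (Pk ℂ m) (Localization.Away (X.g i)) (n + 1), x = 0) → X.Dim n

/-- integrality over the bigraded Rees algebra gives properness -/
def RadStmt : Prop :=
  ∀ (m : ℕ) (V : Type) (X : Mod ℂ m V) (ι : Type) (c : Dg m) (μ : ι → X.S), (∀ l, μ l ∈ X.H c) →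
    (∀ a e : ℕ, ∀ f ∈ X.H (a • c + e • X.χ), IsIntegral
      (Algebra.adjoin X.S0
        (Set.range (fun l => MvPolynomial.C (μ l) * MvPolynomial.X (0 : Fin 2)) ∪
          Set.range (fun i => MvPolynomial.C (X.g i) * MvPolynomial.X (1 : Fin 2))))
      (MvPolynomial.C f * MvPolynomial.X (0 : Fin 2) ^ a * MvPolynomial.X 1 ^ e)) →
    X.Rad c μ

/-- forms on a smooth domain inject into the forms of any field that contains it -/
def FieldInjStmt : Prop :=
  ∀ (B K : Type) [CommRing B] [Algebra ℂ B] [Algebra.Smooth ℂ B] [Field K] [Algebra ℂ K]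
    (ψ : B →ₐ[ℂ] K), Function.Injective ψ → Function.Injective (pull ψ)

end Pool.Agent.P.MP_824f38_ag.V
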