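import Pool.Agent.P.MP_824f38_ag.V.FieldInj

set_option linter.unusedVariables false
set_option linter.unusedSectionVars false
set_option linter.style.haveILetI false

namespace Pool.Agent.P.MP_824f38_ag.V

open TensorProduct

/-- the fibre of a smooth `k[σ]`-algebra over `σ = 1` -/
theorem Inj_fib {k B : Type} [CommRing k] [CommRing B] {m : ℕ} [Algebra k B] [Algebra (Pk k m) B]
    [IsScalarTower k (Pk k m) B] [Algebra.Smooth (Pk k m) B] :
    ∃ (B0 : Type) (_ : CommRing B0) (_ : Algebra k B0) (_ : Algebra.Smooth k B0)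
      (π : B →ₐ[k] B0), Function.Surjective π ∧
      (∀ j, π (algebraMap (Pk k m) B (MvPolynomial.X j)) = 1) ∧
      ∀ (T : Type) [CommRing T] (f : B →+* T),
        (∀ j, f (algebraMap (Pk k m) B (MvPolynomial.X j)) = 1) →
          ∃ f0 : B0 →+* T, ∀ b, f0 (π b) = f b := by
  letI : Algebra (Pk k m) k := (MvPolynomial.eval fun _ => (1 : k)).toAlgebra
  have ha : ∀ p : Pk k m, algebraMap (Pk k m) k p = MvPolynomial.eval (fun _ => (1 : k)) p :=
    fun _ => rfl
  have hb : ∀ p : Pk k m, (1 : k) ⊗ₜ[Pk k m] algebraMap (Pk k m) B p =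
      MvPolynomial.eval (fun _ => (1 : k)) p ⊗ₜ[Pk k m] (1 : B) := fun p => by
    rw [← ha, Algebra.algebraMap_eq_smul_one, Algebra.algebraMap_eq_smul_one, smul_tmul]
  have hc : ∀ c : k, algebraMap k B c = algebraMap (Pk k m) B (MvPolynomial.C c) := fun c =>
    IsScalarTower.algebraMap_apply k (Pk k m) B c
  refine ⟨k ⊗[Pk k m] B, inferInstance, inferInstance, inferInstance,
    ⟨(Algebra.TensorProduct.includeRight : B →ₐ[Pk k m] k ⊗[Pk k m] B).toRingHom, fun c => ?_⟩,
    fun y => ?_, fun j => ?_, fun T _ f hf => ?_⟩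
  · exact (congrArg _ (hc c)).trans ((hb _).trans (by simp))
  · induction y using TensorProduct.induction_on with
    | zero => exact ⟨0, map_zero _⟩
    | add x y hx hy =>
      obtain ⟨x, rfl⟩ := hx
      obtain ⟨y, rfl⟩ := hy
      exact ⟨x + y, map_add _ _ _⟩
    | tmul c b =>
      refine ⟨algebraMap (Pk k m) B (MvPolynomial.C c) * b, ?_⟩
      change (1 : k) ⊗ₜ[Pk k m] (_ * b) = _
      rw [← Algebra.smul_def, ← smul_tmul, Algebra.smul_def, ha, MvPolynomial.eval_C, mul_one]
  · exact (hb _).trans (by simp [Algebra.TensorProduct.one_def])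
  · letI : Algebra (Pk k m) T := (f.comp (algebraMap (Pk k m) B)).toAlgebra
    let fa : B →ₐ[Pk k m] T := ⟨f, fun _ => rfl⟩
    have hg : (f.comp (algebraMap k B)).comp (MvPolynomial.eval fun _ => (1 : k)) =
        f.comp (algebraMap (Pk k m) B) :=
      MvPolynomial.ringHom_ext (fun c => by simp [hc]) (fun j => by simp [hf])
    let ga : k →ₐ[Pk k m] T := ⟨f.comp (algebraMap k B), fun p => DFunLike.congr_fun hg p⟩
    refine ⟨(Algebra.TensorProduct.productMap ga fa).toRingHom, fun b => ?_⟩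
    exact Algebra.TensorProduct.productMap_right_apply ga fa b

section

variable {k : Type} [CommRing k] {m : ℕ} {V : Type} (X : Mod k m V) (I : Finset V)

/-- every class modulo `σ = 1` has a homogeneous representative -/
theorem Inj_rep {T : Type} [CommRing T] (f : X.Ch I →+* T)
    (hf : ∀ j, f (algebraMap X.S _ (X.σ j)) = 1) (b : X.Ch I) :
    ∃ l, ∃ b' ∈ X.Hc I l, f b' = f b := by
  have hp : ∀ r, f (algebraMap X.S _ (X.σp r)) = 1 := fun r => by
    simp [Mod.σp, hf]
  induction b using (X.coc I).induction with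
  | h0 l b hb => exact ⟨l, b, hb, rfl⟩
  | hadd x y hx hy =>
    obtain ⟨l, x', hx, ex⟩ := hx
    obtain ⟨l', y', hy, ey⟩ := hy
    have h1 := Hg_mul (X.alg_mem I (X.σp_mem fun j => (l j - l' j).toNat)) hx
    have h2 := Hg_mul (X.alg_mem I (X.σp_mem fun j => (l' j - l j).toNat)) hy
    refine ⟨_, _, add_mem h1 (Hg_cast h2 ?_), by simp [hp, ex, ey]⟩
    funext j
    simp only [Pi.add_apply, Pi.neg_apply]
    omega

theorem Inj_hom {T : Type} [CommRing T] (f : X.Ch I →+* T)
    (hf : ∀ l, ∀ s ∈ X.H l, f (algebraMap X.S _ s) = 0 → algebraMap X.S (X.Ch I) s = 0)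
    {l : Dg m} {b : X.Ch I} (hb : b ∈ X.Hc I l) (h : f b = 0) : b = 0 := by
  obtain ⟨e, s, hs, he⟩ := X.mem_Hc.1 hb
  have h1 := hf _ s hs (by rw [← he, map_mul, h, mul_zero])
  rw [← he] at h1
  exact ((X.isUnit_gI (Finset.Subset.refl I)).pow e).mul_right_eq_zero.1 h1

end

/-- units with vanishing differential -/
noncomputable def Inj_cl (P B : Type) [CommRing P] [CommRing B] [Algebra P B] : Subgroup Bˣ where
  carrier := {v | dk P (v : B) = 0}
  one_mem' := dk_one
  mul_mem' := fun {a b} ha hb => by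
    simp only [Set.mem_ofPred_eq] at *
    rw [Units.val_mul, dk_mul, ha, hb, mul_zero, mul_zero, add_zero]
  inv_mem' := fun {a} ha => by
    simp only [Set.mem_ofPred_eq] at *
    have h := dk_mul (k := P) (a : B) (a⁻¹ : Bˣ)
    rw [Units.mul_inv, dk_one, ha, mul_zero, add_zero] at h
    exact (a.isUnit.map (fn P)).mul_right_eq_zero.1 h.symm

theorem Inj_comm {P B : Type} [CommRing P] [CommRing B] [Algebra P B] (a u v w : B)
    (x y : DRk P B) : fn P a * fn P u * (fn P v * x) * (fn P w * y) =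
      fn P u * fn P v * fn P w * (fn P a * x * y) := by
  simp only [mul_assoc, ← smul_eq, smul_mul_assoc, mul_smul_comm, smul_smul]
  congr 1
  ring

/-- homogeneous forms inject into the forms of the fibre -/
theorem Inj_main {k : Type} [CommRing k] [IsDomain k] {m : ℕ} {V : Type} (X : Mod k m V)
    (I : Finset V) [Algebra.Smooth (Pk k m) (X.Ch I)] {B0 : Type} [CommRing B0] [Algebra k B0]
    (π : X.Ch I →ₐ[k] B0) (hπ : Compat (Pk k m) k (π : X.Ch I →+* B0))
    (hu : ∀ (T : Type) [CommRing T] (f : X.Ch I →+* T),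
      (∀ j, f (algebraMap (Pk k m) _ (MvPolynomial.X j)) = 1) →
        ∃ f0 : B0 →+* T, ∀ b, f0 (π b) = f b)
    {l : Dg m} {x : X.W I} (hx : x ∈ X.LL l I) (h : pullk (π : X.Ch I →+* B0) hπ x = 0) :
    x = 0 := by
  let τ : X.Ch I := algebraMap (Pk k m) _ (∏ j, MvPolynomial.X j)
  let Bσ := Localization.Away τ
  have hv : ∀ j, IsUnit (algebraMap (Pk k m) Bσ (MvPolynomial.X j)) := fun j => by
    refine isUnit_of_dvd_unit ?_ (IsLocalization.Away.algebraMap_isUnit τ)
    rw [← IsScalarTower.algebraMap_apply]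
    exact map_dvd _ (Finset.dvd_prod_of_mem _ (Finset.mem_univ j))
  let u : Multiplicative (Dg m) →* Bσˣ :=
    { toFun := fun l => ∏ j, (hv j).unit ^ (l.toAdd j)
      map_one' := by simp
      map_mul' := fun a b => by simp [zpow_add, Finset.prod_mul_distrib] }
  have hcl : ∀ l, dk (Pk k m) (u l : Bσ) = 0 := fun l =>
    (Inj_cl (Pk k m) Bσ).prod_mem (t := Finset.univ) fun j _ =>
      Subgroup.zpow_mem _ (dk_algebraMap _) _
  let e : X.Ch I →+* Bσ := (AddMonoidAlgebra.liftNCRingHom (algebraMap (X.Ch I) Bσ)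
    ((Units.coeHom Bσ).comp u) fun _ _ => Commute.all _ _).comp (X.ρc I)
  have he : ∀ l, ∀ a ∈ X.Hc I l, e a = algebraMap _ Bσ a * u (Multiplicative.ofAdd l) :=
    fun l a ha => by
      refine (RingHom.comp_apply _ _ _).trans ?_
      rw [mem_Hg.1 ha]
      exact AddMonoidAlgebra.liftNC_single _ _ _ _
  obtain ⟨e0, he0⟩ := hu Bσ e fun j => by
    rw [IsScalarTower.algebraMap_apply (Pk k m) X.S, he _ _ (X.alg_mem I (X.hσ j)),
      ← IsScalarTower.algebraMap_apply (Pk k m) X.S, ← IsScalarTower.algebraMap_apply,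
      ofAdd_neg, map_inv, Units.mul_inv_eq_one]
    change _ = ((∏ i, (hv i).unit ^ (Pi.single j (1 : ℤ) : Dg m) i : Bσˣ) : Bσ)
    rw [Finset.prod_eq_single j (fun i _ hi => by simp [Pi.single_eq_of_ne hi]) (by simp)]
    simp
  have hc0 : Compat k (Pk k m) e0 := fun c => by
    rw [← π.commutes, he0, IsScalarTower.algebraMap_apply k X.S, he _ _ (X.alg_mem I (X.hk c)),
      ofAdd_zero, map_one, Units.val_one, mul_one, IsScalarTower.algebraMap_apply k (Pk k m) X.S,
      ← IsScalarTower.algebraMap_apply (Pk k m) X.S, ← IsScalarTower.algebraMap_apply (Pk k m),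
      dk_algebraMap]
  have hce : Compat (Pk k m) (Pk k m) e := fun c => by
    rw [← he0]
    exact hπ.comp hc0 c
  have hca : Compat (Pk k m) (Pk k m) (algebraMap (X.Ch I) Bσ) :=
    Compat.of_square id fun c => (IsScalarTower.algebraMap_apply _ _ _ c).symm
  have h1 : pullk e hce x = 0 := by
    rw [← pullk_pullk _ hπ e0 hc0 e hce he0, h, map_zero]
  have h2 : ∀ p l, ∀ x ∈ X.L p l I, pullk e hce x =
      fn _ (u (Multiplicative.ofAdd l) : Bσ) * pullk _ hca x := fun p l x hx => by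
    refine Mod.L_induction (P := fun _ l x => pullk e hce x =
      fn _ (u (Multiplicative.ofAdd l) : Bσ) * pullk _ hca x) (fun l a ha => ?_)
      (fun _ _ => by simp) (fun _ _ x y h1 h2 => by rw [map_add, map_add, h1, h2, mul_add])
      (fun p l l' l'' a b x ha hb _ h => ?_) hx
    · rw [pullk_fn, pullk_fn, he l a ha, mul_comm, map_mul]
    · simp only [map_mul, pullk_fn, pullk_dk, h, he l a ha, he l' b hb, dk_mul, hcl, mul_zero,
        zero_add, ofAdd_add, Units.val_mul]
      exact Inj_comm _ _ _ _ _ _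
  have h3 : pullk _ hca x = 0 := by
    refine ((u (Multiplicative.ofAdd l)).isUnit.map (fn (Pk k m))).mul_right_eq_zero.1 ?_
    rw [← h1]
    obtain ⟨N, hN⟩ := exists_sum_ep x
    rw [← hN N le_rfl, map_sum, map_sum, Finset.mul_sum]
    exact Finset.sum_congr rfl fun p _ => (h2 p l _ (Mod.ep_mem_L p hx)).symm
  obtain ⟨n, hn⟩ := loc_inj τ hca x h3
  refine regular_DR ((∏ j, MvPolynomial.X j) ^ n) (mem_nonZeroDivisors_of_ne_zero
    (pow_ne_zero _ (Finset.prod_ne_zero_iff.2 fun j _ => MvPolynomial.X_ne_zero j))) x ?_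
  rwa [map_pow, map_pow]

/- The image of `x` in the forms of the fibre over `σ = 1` vanishes (`field_inj`), and
homogeneous forms inject into the forms of the fibre. -/
theorem inj : InjStmt := by
  intro m V X I hs K _ _ ψ hσ hψ h l x hx h0
  have ha : ∀ j, algebraMap (Pk ℂ m) (X.Ch I) (MvPolynomial.X j) = algebraMap X.S _ (X.σ j) :=
    fun j => IsScalarTower.algebraMap_apply _ X.S _ _
  obtain ⟨B0, _, _, _, π, hπ, h1, hu⟩ := Inj_fib (k := ℂ) (B := X.Ch I) (m := m)
  have h1' : ∀ j, π (algebraMap X.S _ (X.σ j)) = 1 := fun j => ha j ▸ h1 j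
  obtain ⟨f0, hf0⟩ := hu K ψ fun j => (congrArg ψ (ha j)).trans (hσ j)
  let ψ0 : B0 →ₐ[ℂ] K := ⟨f0, fun c => by
    rw [← π.commutes]
    exact (hf0 _).trans (ψ.commutes c)⟩
  have hi : Function.Injective ψ0 := (injective_iff_map_eq_zero _).2 fun y hy => by
    obtain ⟨b, rfl⟩ := hπ y
    obtain ⟨l, b', hb', e⟩ := Inj_rep X I (π : X.Ch I →+* B0) h1' b
    have e' : π b' = π b := e
    rw [← e'] at hy ⊢
    rw [Inj_hom X I (ψ : X.Ch I →+* K) hψ hb' ((hf0 _).symm.trans hy), map_zero]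
  refine Inj_main X I π (compat_of_sigma_one X I π h1') hu hx (field_inj B0 K ψ0 hi ?_)
  rw [map_zero, pull_eq_pullk, ← h0]
  exact pullk_pullk _ _ _ _ _ h hf0 x

end Pool.Agent.P.MP_824f38_ag.V
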