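import Pool.Agent.P.MP_824f38_ag.V.Stmts

set_option linter.unusedVariables false
set_option linter.unusedSectionVars false

namespace Pool.Agent.P.MP_824f38_ag.V

theorem Rad_nil {R : Type} [CommRing R] (f : R) (n : ℕ) (hn : 1 ≤ n)
    (h : IsIntegral R (Polynomial.C f * Polynomial.X ^ n : Polynomial R)) : IsNilpotent f := by
  obtain ⟨p, hp, h0⟩ := h
  refine ⟨p.natDegree, ?_⟩
  rw [Polynomial.eval₂_eq_sum_range] at h0
  have h1 := congrArg (fun q => Polynomial.coeff q (n * p.natDegree)) h0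
  simp only [Polynomial.finsetSum_coeff, Polynomial.coeff_zero] at h1
  rw [Finset.sum_eq_single p.natDegree] at h1
  · rw [mul_pow, ← pow_mul, ← map_pow, Polynomial.algebraMap_apply, Algebra.algebraMap_self,
      RingHom.id_apply, ← mul_assoc, ← map_mul, Polynomial.coeff_C_mul_X_pow, if_pos rfl,
      hp.coeff_natDegree, one_mul] at h1
    exact h1
  · intro i _ hi
    rw [mul_pow, ← pow_mul, ← map_pow, Polynomial.algebraMap_apply, Algebra.algebraMap_self,
      RingHom.id_apply, ← mul_assoc, ← map_mul, Polynomial.coeff_C_mul_X_pow, if_neg]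
    intro h
    exact hi (Nat.eq_of_mul_eq_mul_left hn h).symm
  · intro h
    exact absurd (Finset.self_mem_range_succ _) h

theorem Rad_key {S0 S : Type} [CommRing S0] [CommRing S] [Algebra S0 S] (J : Ideal S)
    (w : Fin 2 → Polynomial (S ⧸ J)) (G : Set (MvPolynomial (Fin 2) S))
    (hG : ∀ x ∈ G,
      MvPolynomial.eval₂Hom (Polynomial.C.comp (Ideal.Quotient.mk J)) w x = 0)
    (y : MvPolynomial (Fin 2) S) (f : S) (n : ℕ) (hn : 1 ≤ n)
    (hy : MvPolynomial.eval₂Hom (Polynomial.C.comp (Ideal.Quotient.mk J)) w y =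
      Polynomial.C (Ideal.Quotient.mk J f) * Polynomial.X ^ n)
    (h : IsIntegral (Algebra.adjoin S0 G) y) : f ∈ J.radical := by
  set φ := MvPolynomial.eval₂Hom (Polynomial.C.comp (Ideal.Quotient.mk J)) w with hφ
  have hc : ∀ x ∈ Algebra.adjoin S0 G, ∃ c : S ⧸ J, φ x = Polynomial.C c := by
    intro x hx
    induction hx using Algebra.adjoin_induction with
    | mem x hx => exact ⟨0, by rw [hG x hx, map_zero]⟩
    | algebraMap r =>
      refine ⟨Ideal.Quotient.mk J (algebraMap S0 S r), ?_⟩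
      rw [MvPolynomial.algebraMap_apply, hφ, MvPolynomial.eval₂Hom_C]
      rfl
    | add x y _ _ hx hy =>
      obtain ⟨a, ha⟩ := hx
      obtain ⟨b, hb⟩ := hy
      exact ⟨a + b, by rw [map_add, ha, hb, map_add]⟩
    | mul x y _ _ hx hy =>
      obtain ⟨a, ha⟩ := hx
      obtain ⟨b, hb⟩ := hy
      exact ⟨a * b, by rw [map_mul, ha, hb, map_mul]⟩
  let ψ : Algebra.adjoin S0 G →+* S ⧸ J :=
    Polynomial.constantCoeff.comp (φ.comp (Algebra.adjoin S0 G).val.toRingHom)
  have hψ : (algebraMap (S ⧸ J) (Polynomial (S ⧸ J))).comp ψ =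
      φ.comp (algebraMap (Algebra.adjoin S0 G) (MvPolynomial (Fin 2) S)) := by
    refine RingHom.ext fun x => ?_
    obtain ⟨c, hx⟩ := hc x.1 x.2
    change algebraMap _ _ (Polynomial.constantCoeff (φ x.1)) = φ x.1
    rw [hx, Polynomial.constantCoeff_apply, Polynomial.coeff_C_zero, Polynomial.algebraMap_apply]
    rfl
  have h1 : IsIntegral (S ⧸ J) (φ y) := IsIntegral.map_of_comp_eq ψ φ hψ h
  rw [hy] at h1
  obtain ⟨r, hr⟩ := Rad_nil _ n hn h1
  refine ⟨r, ?_⟩
  rw [← map_pow] at hr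
  exact Ideal.Quotient.eq_zero_iff_mem.1 hr

/- For an ideal `J` of `X.S` and a set of variables sent to zero, map `MvPolynomial (Fin 2) X.S` to
`MvPolynomial (Fin 2) (X.S ⧸ J)` so that all generators `μ l * t`, `g i * T` die
(`J = span μ ⊔ span g`; or `t ↦ 0`, `J = span g` when `a = 0`; or `T ↦ 0`, `J = span μ` when
`e = 0`). The subalgebra is sent to constants. In the image of a monic equation of degree `r` take
the coefficient of the monomial `(t ^ a T ^ e) ^ r`: it is the class of `f ^ r`. -/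
theorem rad : RadStmt := by
  intro m V X ι c μ hμ H
  refine ⟨hμ, fun e he f hf => ?_, fun a ha f hf => ?_, fun a e ha he f hf => ?_⟩
  · refine Rad_key (S0 := X.S0) _ ![0, Polynomial.X] _ ?_ _ f e he ?_
      (H 0 e f (by rwa [zero_smul, zero_add]))
    · rintro x (⟨l, rfl⟩ | ⟨i, rfl⟩)
      · simp
      · have : Ideal.Quotient.mk (Ideal.span (Set.range X.g)) (X.g i) = 0 :=
          Ideal.Quotient.eq_zero_iff_mem.2 (Ideal.subset_span ⟨i, rfl⟩)
        simp [this]
    · simp
  · refine Rad_key (S0 := X.S0) _ ![Polynomial.X, 0] _ ?_ _ f a ha ?_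
      (H a 0 f (by rwa [zero_smul, add_zero]))
    · rintro x (⟨l, rfl⟩ | ⟨i, rfl⟩)
      · have : Ideal.Quotient.mk (Ideal.span (Set.range μ)) (μ l) = 0 :=
          Ideal.Quotient.eq_zero_iff_mem.2 (Ideal.subset_span ⟨l, rfl⟩)
        simp [this]
      · simp
    · simp
  · refine Rad_key (S0 := X.S0) _ ![Polynomial.X, Polynomial.X] _ ?_ _ f (a + e) (by omega) ?_
      (H a e f hf)
    · rintro x (⟨l, rfl⟩ | ⟨i, rfl⟩)
      · have : Ideal.Quotient.mk (Ideal.span (Set.range μ) ⊔ Ideal.span (Set.range X.g))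
            (μ l) = 0 :=
          Ideal.Quotient.eq_zero_iff_mem.2 (Ideal.mem_sup_left (Ideal.subset_span ⟨l, rfl⟩))
        simp [this]
      · have : Ideal.Quotient.mk (Ideal.span (Set.range μ) ⊔ Ideal.span (Set.range X.g))
            (X.g i) = 0 :=
          Ideal.Quotient.eq_zero_iff_mem.2 (Ideal.mem_sup_right (Ideal.subset_span ⟨i, rfl⟩))
        simp [this]
    · simp [pow_add, mul_assoc]

end Pool.Agent.P.MP_824f38_ag.V
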