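import Pool.Agent.P.MP_824f38_ag.V.Main
import Pool.Agent.P.MP_824f38_ag.V.Rad
import Pool.Agent.P.MP_824f38_ag.V.Inj

/-! The statements of block V. -/

namespace Pool.Agent.P.MP_824f38_ag.V

theorem fin : FinStmt := by
  classical
  intro m V _ _ X ft hP p l q
  obtain ⟨n, t, ht, h⟩ := X.serre_fin hP p l q
  refine ⟨Finset.univ.image t, fun x hx => ?_, fun z hz => ?_⟩
  · obtain ⟨j, -, rfl⟩ := Finset.mem_image.1 hx
    exact ht j
  · obtain ⟨a, ha, hb⟩ := h z hz
    refine ⟨fun x => ∑ j with t j = x, a j, fun x => sum_mem fun j _ => ha j, ?_⟩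
    have : ∑ x ∈ Finset.univ.image t, (∑ j with t j = x, a j) • x = ∑ j, a j • t j := by
      rw [← Finset.sum_fiberwise_of_maps_to (fun j hj => Finset.mem_image_of_mem t hj)]
      refine Finset.sum_congr rfl fun x _ => ?_
      rw [Finset.sum_smul]
      exact Finset.sum_congr rfl fun j hj => by rw [(Finset.mem_filter.1 hj).2]
    rwa [this]

theorem gen : GenStmt := fun _ _ _ _ X _ _ _ _ _ h p l q => X.serre_gen h p l q

theorem chart : ChartStmt := fun _ _ X => ⟨X.sm_of, X.dim_of⟩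

end Pool.Agent.P.MP_824f38_ag.V
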