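import Pool.Agent.P.MP_824f38_ag.V.Defs

set_option linter.unusedVariables false
set_option linter.unusedSectionVars false

namespace Pool.Agent.P.MP_824f38_ag.V

theorem FlatDR_ext {B M : Type} [CommRing B] [AddCommGroup M] [Module B M]
    [h : Module.Projective B M] : Module.Flat B (ExteriorAlgebra B M) := by
  classical
  obtain ⟨i, hi⟩ := h
  have : LinearOrder M := linearOrderOfSTO WellOrderingRel
  have : Module.Free B (ExteriorAlgebra B (M →₀ B)) :=
    Module.Free.of_basis (Finsupp.basisSingleOne (ι := M) (R := B)).ExteriorAlgebra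
  refine Module.Flat.of_retract (ExteriorAlgebra.map i).toLinearMap
    (ExteriorAlgebra.map (Finsupp.linearCombination B id)).toLinearMap ?_
  rw [← AlgHom.comp_toLinearMap, ExteriorAlgebra.map_comp_map,
    show (Finsupp.linearCombination B id).comp i = LinearMap.id from LinearMap.ext hi,
    ExteriorAlgebra.map_id]
  rfl

theorem flat_DR {P B : Type} [CommRing P] [CommRing B] [Algebra P B] [Algebra.Smooth P B] :
    Module.Flat B (DRk P B) := FlatDR_ext

theorem flat_DR_base {k P B : Type} [CommRing k] [CommRing P] [CommRing B] [Algebra k P]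
    [Algebra P B] [Algebra k B] [IsScalarTower k P B] [Algebra.Smooth P B] [Module.Flat k P] :
    Module.Flat k (DRk P B) ∧ Module.Flat k B := by
  have h1 : Module.Flat k B := Module.Flat.trans k P B
  have h2 := flat_DR (P := P) (B := B)
  exact ⟨Module.Flat.trans k B (DRk P B), h1⟩

theorem regular_DR {P B : Type} [CommRing P] [CommRing B] [Algebra P B] [Algebra.Smooth P B]
    (c : P) (hc : c ∈ nonZeroDivisors P) (x : DRk P B) (hx : fn P (algebraMap P B c) * x = 0) :
    x = 0 := by
  have h := (flat_DR_base (k := P) (P := P) (B := B)).1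
  refine Module.Flat.isSMulRegular_of_nonZeroDivisors (M := DRk P B) hc ?_
  change c • x = c • (0 : DRk P B)
  rw [smul_zero, ← algebraMap_smul B c x, smul_eq, hx]

theorem regular_DR' {P B : Type} [CommRing P] [CommRing B] [Algebra P B] [Algebra.Smooth P B]
    (b : B) (hb : b ∈ nonZeroDivisors B) (x : DRk P B) (hx : fn P b * x = 0) : x = 0 := by
  have h := flat_DR (P := P) (B := B)
  refine Module.Flat.isSMulRegular_of_nonZeroDivisors (M := DRk P B) hb ?_
  change b • x = b • (0 : DRk P B)
  rw [smul_zero, smul_eq, hx]

end Pool.Agent.P.MP_824f38_ag.V
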