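import Pool.Agent.P.MP_824f38_ag.V.BCPull
import Pool.Agent.P.MP_824f38_ag.V.FlatDR

set_option linter.style.haveILetI false
set_option linter.unusedVariables false
set_option linter.unusedSectionVars false

namespace Pool.Agent.P.MP_824f38_ag.V

open TensorProduct

theorem BCCh_push {k k' B B' : Type} [CommRing k] [CommRing k'] [CommRing B] [CommRing B']
    [Algebra k k'] [Algebra k B] [Algebra k' B'] [Algebra B B'] [Algebra k B']
    [IsScalarTower k B B'] [IsScalarTower k k' B'] :
    IsBC k k' (algebraMap B B') ↔ Algebra.IsPushout k k' B B' := by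
  constructor
  · rintro ⟨e, he⟩
    exact ⟨IsBaseChange.of_equiv e he⟩
  · intro h
    exact ⟨h.out.equiv, fun x => by rw [h.out.equiv_tmul, one_smul]; rfl⟩

theorem BCCh_base {k k' B B' : Type} [CommRing k] [CommRing k'] [CommRing B] [CommRing B']
    [Algebra k k'] [Algebra k B] [Algebra k' B'] (φ : B →+* B') (h : IsBC k k' φ) (c : k) :
    φ (algebraMap k B c) = algebraMap k' B' (algebraMap k k' c) := by
  rw [Algebra.algebraMap_eq_smul_one, h.map_smul, map_one, ← Algebra.algebraMap_eq_smul_one]

theorem BCCh_loc {k k' S S' L L' : Type} [CommRing k] [CommRing k'] [CommRing S] [CommRing S']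
    [CommRing L] [CommRing L'] [Algebra k k'] [Algebra k S] [Algebra k' S'] [Algebra S L]
    [Algebra k L] [IsScalarTower k S L] [Algebra S' L'] [Algebra k' L'] [IsScalarTower k' S' L']
    (β : S →+* S') (hβ : IsBC k k' β) (g : S) [IsLocalization.Away g L]
    [IsLocalization.Away (β g) L'] (φ : L →+* L')
    (hφ : ∀ s, φ (algebraMap S L s) = algebraMap S' L' (β s)) : IsBC k k' φ := by
  letI : Algebra S S' := β.toAlgebra
  letI : Algebra L L' := φ.toAlgebra
  letI : Algebra k S' := ((algebraMap k' S').comp (algebraMap k k')).toAlgebra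
  letI : Algebra k L' := ((algebraMap k' L').comp (algebraMap k k')).toAlgebra
  letI : Algebra S L' := ((algebraMap S' L').comp β).toAlgebra
  have hb := BCCh_base β hβ
  haveI : IsScalarTower k k' S' := .of_algebraMap_eq fun _ => rfl
  haveI : IsScalarTower k k' L' := .of_algebraMap_eq fun _ => rfl
  haveI : IsScalarTower k S S' := .of_algebraMap_eq fun c => (hb c).symm
  haveI : IsScalarTower S S' L' := .of_algebraMap_eq fun _ => rfl
  haveI : IsScalarTower S L L' := .of_algebraMap_eq fun s => (hφ s).symm
  haveI : IsScalarTower k S' L' := .of_algebraMap_eq fun c =>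
    IsScalarTower.algebraMap_apply k' S' L' (algebraMap k k' c)
  haveI : IsScalarTower k L L' := .of_algebraMap_eq fun c => by
    change algebraMap k' L' (algebraMap k k' c) = φ (algebraMap k L c)
    rw [IsScalarTower.algebraMap_apply k S L, hφ, hb, ← IsScalarTower.algebraMap_apply k' S' L']
  haveI h1 : Algebra.IsPushout k S k' S' := (BCCh_push.1 hβ).symm
  haveI : IsLocalization (Algebra.algebraMapSubmonoid S' (Submonoid.powers g)) L' := by
    rw [Algebra.algebraMapSubmonoid_powers]
    assumption
  have h2 : Algebra.IsPushout S S' L L' :=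
    Algebra.isPushout_of_isLocalization (Submonoid.powers g) L S' L'
  exact BCCh_push.2 ((Algebra.IsPushout.comp_iff k S k' S').2 h2.symm).symm

theorem BCCh_smooth {k k' P P' B B' : Type} [CommRing k] [CommRing k'] [CommRing P] [CommRing P']
    [CommRing B] [CommRing B'] [Algebra k k'] [Algebra k P] [Algebra P B] [Algebra k B]
    [IsScalarTower k P B] [Algebra k' P'] [Algebra P' B'] [Algebra k' B'] [IsScalarTower k' P' B']
    [Algebra P P'] [Algebra k P'] [IsScalarTower k P P'] [IsScalarTower k k' P']
    [Algebra.IsPushout k k' P P'] (φ : B →+* B') (hφ : IsBC k k' φ)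
    (hc : ∀ c : P, φ (algebraMap P B c) = algebraMap P' B' (algebraMap P P' c))
    [Algebra.Smooth P B] : Algebra.Smooth P' B' := by
  letI : Algebra B B' := φ.toAlgebra
  letI : Algebra k B' := ((algebraMap k' B').comp (algebraMap k k')).toAlgebra
  letI : Algebra P B' := ((algebraMap P' B').comp (algebraMap P P')).toAlgebra
  have hb := BCCh_base φ hφ
  haveI : IsScalarTower k k' B' := .of_algebraMap_eq fun _ => rfl
  haveI : IsScalarTower k B B' := .of_algebraMap_eq fun c => (hb c).symm
  haveI : IsScalarTower P P' B' := .of_algebraMap_eq fun _ => rfl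
  haveI : IsScalarTower P B B' := .of_algebraMap_eq fun s => (hc s).symm
  haveI : IsScalarTower k P' B' := .of_algebraMap_eq fun c => by
    change algebraMap k' B' (algebraMap k k' c) = _
    rw [IsScalarTower.algebraMap_apply k k' P', ← IsScalarTower.algebraMap_apply k' P' B']
  haveI h1 : Algebra.IsPushout k P k' P' := .symm inferInstance
  have h2 : Algebra.IsPushout k B k' B' := (BCCh_push.1 hφ).symm
  haveI h3 : Algebra.IsPushout P P' B B' := ((Algebra.IsPushout.comp_iff k P k' P').1 h2).symm
  exact Algebra.Smooth.of_equiv (Algebra.IsPushout.equiv P P' B B')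

namespace BC

variable {k k' : Type} [CommRing k] [CommRing k'] [Algebra k k'] {m : ℕ} {V : Type}
  {X : Mod k m V} {X' : Mod k' m V} (b : BC X X')

/- `k' ⊗ X.Ch I` is a localisation of `k' ⊗ X.S ≃ X'.S` away from `X'.gI I`. Directly: inverse
ring map `X'.Ch I → k' ⊗ X.Ch I` by `IsLocalization.Away.lift` of
`(id ⊗ algebraMap) ∘ e.symm`, `e` from `IsBC.exists_algEquiv`. -/
theorem isBC_ch (I : Finset V) : IsBC k k' (b.ch I) := by
  haveI : IsLocalization.Away (b.β (X.gI I)) (X'.Ch I) := by
    rw [b.β_gI]; infer_instance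
  exact BCCh_loc b.β b.bc (X.gI I) (b.ch I) (b.ch_alg I)

/- `isBC_pullk`, `b.ch_base` -/
theorem isBC_w (I : Finset V) : IsBC k k' (b.w I) := by
  refine isBC_pullk (b.ch I) (b.isBC_ch I) (b.compat I) fun c => ?_
  induction c using MvPolynomial.induction_on with
  | C a =>
    rw [← MvPolynomial.algebraMap_eq, ← IsScalarTower.algebraMap_apply]
    exact Subalgebra.algebraMap_mem _ a
  | add p q hp hq => rw [map_add]; exact add_mem hp hq
  | mul_X p j hp =>
    rw [map_mul]
    refine Subalgebra.mul_mem _ hp (Algebra.subset_adjoin ⟨MvPolynomial.X j, ?_⟩)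
    simp only [b.ch_base, MvPolynomial.map_X]

/- `X'.Ch I ≃ Pk k' m ⊗[Pk k m] X.Ch I` over `Pk k' m` (with
`letI := MvPolynomial.algebraMvPolynomial`): `Algebra.IsPushout.comp_iff` with the instance
`IsPushout k k' (Pk k m) (Pk k' m)`, or write both ring maps by hand; then
`Algebra.Smooth.baseChange` and `Algebra.Smooth.of_equiv`. -/
include b in
theorem smooth (I : Finset V) (h : Algebra.Smooth (Pk k m) (X.Ch I)) :
    Algebra.Smooth (Pk k' m) (X'.Ch I) := by
  letI : Algebra (Pk k m) (Pk k' m) := MvPolynomial.algebraMvPolynomial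
  exact BCCh_smooth (k := k) (k' := k') (P := Pk k m) (b.ch I) (b.isBC_ch I) (b.ch_base I)

include b in
theorem sm (h : X.Sm) : X'.Sm := fun I hI => b.smooth I (h I hI)

/- `IsBC.induction` for `ep p y = 0`, `b.w_ep` -/
include b in
theorem dim_up {n : ℕ} (h : X.Dim n) : X'.Dim n := by
  intro I hI p hp x hx
  have key : ∀ y : X'.W I, ep p y = 0 := fun y => by
    refine (b.isBC_w I).induction (P := fun y => ep p y = 0) (map_zero _) (fun c z => ?_)
      (fun y z hy hz => by rw [map_add, hy, hz, add_zero]) y
    rw [← algebraMap_smul (X'.Ch I) c, map_smul, b.w_ep, h I hI p hp _ (ep_mem p z), map_zero,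
      smul_zero]
  rw [← ep_of_mem hx, key]

/- `IsBC.injective`, `flat_DR_base` -/
include b in
theorem dim_down (hk : Function.Injective (algebraMap k k')) (hs : X.Sm) {n : ℕ}
    (h : X'.Dim n) : X.Dim n := by
  intro I hI p hp x hx
  haveI := hs I hI
  haveI : Module.Flat k (X.W I) := (flat_DR_base (k := k) (P := Pk k m) (B := X.Ch I)).1
  refine (b.isBC_w I).injective hk ?_
  rw [map_zero]
  exact h I hI p hp _ (pullk_mem _ _ hx)

end BC

end Pool.Agent.P.MP_824f38_ag.V
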