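import Pool.Agent.P.MP_824f38_ag.V.BCCx
import Pool.Agent.P.MP_824f38_ag.V.BCCh

set_option linter.unusedVariables false
set_option linter.unusedSectionVars false

namespace Pool.Agent.P.MP_824f38_ag.V

namespace Mod

variable {k : Type} [CommRing k] {m : ℕ} {V : Type} [LinearOrder V] (X : Mod k m V)

/-- the Cech cohomology in degree `q` is killed by `t` -/
def CTors (t : k) (p : ℕ) (l : Dg m) (q : ℕ) : Prop :=
  ∀ z, IsCyc X.res (X.L p l) q z → IsBd X.res (X.L p l) q (t • z)

end Mod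

/-- a family of modules with restriction maps and projectors onto subgroups -/
structure BCCech_D (k : Type) [CommRing k] {V : Type} [LinearOrder V] (F : Finset V → Type)
    [∀ I, AddCommGroup (F I)] [∀ I, Module k (F I)] where
  r : Res F
  G : ∀ I, AddSubgroup (F I)
  e : ∀ I, F I →ₗ[k] F I
  isFun : IsFun r
  r_smul : ∀ I J h (c : k) x, r I J h (c • x) = c • r I J h x
  r_mem : ∀ I J h, ∀ x ∈ G I, r I J h x ∈ G J
  e_mem : ∀ I x, e I x ∈ G I
  e_of_mem : ∀ I, ∀ x ∈ G I, e I x = x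

namespace BCCech_D

section
variable {k : Type} [CommRing k] {V : Type} [LinearOrder V] {F : Finset V → Type}
  [∀ I, AddCommGroup (F I)] [∀ I, Module k (F I)] (D : BCCech_D k F)

theorem smul_mem (I : Finset V) (c : k) {x : F I} (hx : x ∈ D.G I) : c • x ∈ D.G I := by
  rw [← D.e_of_mem I x hx, ← map_smul]
  exact D.e_mem I _

/-- the cochains of Cech degree `q` -/
def C (q : ℕ) : Submodule k (∀ I, F I) where
  carrier := Coch D.G (q + 1)
  add_mem' := fun ha hb => add_mem ha hb
  zero_mem' := zero_mem _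
  smul_mem' := fun c x hx I => ⟨D.smul_mem I c (hx I).1, fun h => by
    rw [Pi.smul_apply, (hx I).2 h, smul_zero]⟩

theorem mem_C {q : ℕ} {c : ∀ I, F I} : c ∈ D.C q ↔ c ∈ Coch D.G (q + 1) := Iff.rfl

theorem cech_smul (c : k) (x : ∀ I, F I) : cech D.r (c • x) = c • cech D.r x := by
  funext J
  simp only [cech_apply, Pi.smul_apply, D.r_smul, Finset.smul_sum, smul_comm c]

/-- the differential -/
def d (q : ℕ) : D.C q →ₗ[k] D.C (q + 1) where
  toFun := fun x => ⟨cech D.r x, cech_mem D.r_mem x.2⟩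
  map_add' := fun x y => Subtype.ext (map_add (cech D.r) x.1 y.1)
  map_smul' := fun c x => Subtype.ext (D.cech_smul c x.1)

theorem d_val (q : ℕ) (x : D.C q) : (D.d q x).1 = cech D.r x.1 := rfl

/-- the projector onto the cochains of Cech degree `q` -/
def E (q : ℕ) : (∀ I, F I) →ₗ[k] (∀ I, F I) where
  toFun := fun c I => if I.card = q + 1 then D.e I (c I) else 0
  map_add' := fun x y => by funext I; by_cases h : I.card = q + 1 <;> simp [h]
  map_smul' := fun c x => by funext I; by_cases h : I.card = q + 1 <;> simp [h]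

theorem E_apply (q : ℕ) (c : ∀ I, F I) (I : Finset V) :
    D.E q c I = if I.card = q + 1 then D.e I (c I) else 0 := rfl

theorem E_mem (q : ℕ) (c : ∀ I, F I) : D.E q c ∈ D.C q :=
  cpart_mem (q + 1) (c := fun I => D.e I (c I)) fun I => D.e_mem I _

theorem E_of_mem (q : ℕ) (c : ∀ I, F I) (hc : c ∈ D.C q) : D.E q c = c := by
  funext I
  rw [E_apply]
  split_ifs with h
  · exact D.e_of_mem I _ (hc I).1
  · exact ((hc I).2 h).symm

theorem flat [Fintype V] (hF : ∀ I : Finset V, I.Nonempty → Module.Flat k (F I)) (q : ℕ) :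
    Module.Flat k (D.C q) := by
  classical
  have : ∀ I : {I : Finset V // I.Nonempty}, Module.Flat k (F I.1) := fun I => hF I.1 I.2
  have : Module.Flat k (∀ I : {I : Finset V // I.Nonempty}, F I.1) :=
    Module.Flat.of_linearEquiv
      (DirectSum.linearEquivFunOnFintype k _ (fun I : {I : Finset V // I.Nonempty} => F I.1)).symm
  let i : D.C q →ₗ[k] (∀ I : {I : Finset V // I.Nonempty}, F I.1) :=
    { toFun := fun x I => x.1 I.1
      map_add' := fun x y => rfl
      map_smul' := fun c x => rfl }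
  let ex : (∀ I : {I : Finset V // I.Nonempty}, F I.1) →ₗ[k] (∀ I, F I) :=
    { toFun := fun x I => if h : I.Nonempty then x ⟨I, h⟩ else 0
      map_add' := fun x y => by funext I; by_cases h : I.Nonempty <;> simp [h]
      map_smul' := fun c x => by funext I; by_cases h : I.Nonempty <;> simp [h] }
  refine Module.Flat.of_retract i (((D.E q).codRestrict (D.C q) (D.E_mem q)).comp ex) ?_
  refine LinearMap.ext fun x => Subtype.ext ?_
  have h1 : ex (i x) = x.1 := by
    funext I
    change (if h : I.Nonempty then x.1 I else 0) = x.1 I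
    split_ifs with h
    · rfl
    · refine ((x.2 I).2 ?_).symm
      rw [Finset.not_nonempty_iff_eq_empty.1 h]
      simp
  change D.E q (ex (i x)) = x.1
  rw [h1, D.E_of_mem q _ x.2]

theorem subsingleton [Fintype V] (q : ℕ) (hq : Fintype.card V ≤ q) : Subsingleton (D.C q) := by
  refine ⟨fun x y => Subtype.ext (funext fun I => ?_)⟩
  have h : I.card ≠ q + 1 := by have := Finset.card_le_univ I; omega
  rw [(x.2 I).2 h, (y.2 I).2 h]

theorem isBd_d (q : ℕ) (y : D.C q) : IsBd D.r D.G (q + 1) (D.d q y).1 :=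
  ⟨y.1, y.2, (y.2 ∅).2 (by simp), rfl⟩

end

section
variable {k k' : Type} [CommRing k] [CommRing k'] [Algebra k k'] {V : Type} [LinearOrder V]
  [Fintype V] {F F' : Finset V → Type} [∀ I, AddCommGroup (F I)] [∀ I, Module k (F I)]
  [∀ I, AddCommGroup (F' I)] [∀ I, Module k' (F' I)] (D : BCCech_D k F) (D' : BCCech_D k' F')

/-- a base change of families -/
structure Hm where
  f : ∀ I, F I →+ F' I
  bc : ∀ I, IsBC k k' (f I)
  f_r : ∀ I J h x, D'.r I J h (f I x) = f J (D.r I J h x)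
  f_e : ∀ I x, D'.e I (f I x) = f I (D.e I x)

variable {D D'} (φ : Hm D D')

theorem Hm.f_mem (I : Finset V) (x : F I) (hx : x ∈ D.G I) : φ.f I x ∈ D'.G I := by
  rw [← D.e_of_mem I x hx, ← φ.f_e]
  exact D'.e_mem I _

/-- the complex of cochains and its base change -/
def Hm.cx : CxBC k k' (fun q => D.C q) (fun q => D'.C q) where
  d := D.d
  d' := D'.d
  f := fun q x => ⟨cmap φ.f x.1, cmap_mem φ.f φ.f_mem x.2⟩
  bc := fun q => by
    classical
    refine (IsBC.pi φ.bc).retract (D.C q) (D'.C q) (D.E q) (D'.E q) (D.E_mem q) (D.E_of_mem q)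
      (D'.E_mem q) (D'.E_of_mem q) (fun x => ?_) (fun x hx => cmap_mem φ.f φ.f_mem hx)
    funext I
    simp only [E_apply]
    split_ifs with h
    · exact φ.f_e I _
    · exact (map_zero _).symm
  comm := fun q x => Subtype.ext (cech_cmap φ.f φ.f_r x.1)
  dd := fun q x => Subtype.ext (cech_cech D.isFun x.1)

theorem Hm.tors (t : k) (q : ℕ)
    (h : ∀ z, IsCyc D.r D.G (q + 1) z → IsBd D.r D.G (q + 1) (t • z)) : φ.cx.Tors t q := by
  intro z hz
  obtain ⟨y, hy, -, hy'⟩ := h z.1 ⟨z.2, congrArg Subtype.val hz⟩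
  exact ⟨⟨y, hy⟩, Subtype.ext hy'⟩

theorem Hm.cex (q : ℕ) (h : φ.cx.Ex' q) : CEx D'.r D'.G (q + 1) := by
  intro z hz
  obtain ⟨y, hy⟩ := h ⟨z, hz.1⟩ (Subtype.ext hz.2)
  have h1 := D'.isBd_d q y
  have h2 : (D'.d q y).1 = z := congrArg Subtype.val hy
  rwa [h2] at h1

theorem Hm.ex (q : ℕ) (h : CEx D'.r D'.G (q + 1)) : φ.cx.Ex' q := by
  intro z hz
  obtain ⟨y, hy, -, hy'⟩ := h z.1 ⟨z.2, congrArg Subtype.val hz⟩
  exact ⟨⟨y, hy⟩, Subtype.ext hy'⟩

include φ in
theorem Hm.down (hsurj : Function.Surjective (algebraMap k k'))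
    (hF : ∀ I : Finset V, I.Nonempty → Module.Flat k (F I)) (t : k)
    (ht : IsUnit (algebraMap k k' t)) (j : ℕ)
    (h : ∀ q, j + 1 ≤ q → ∀ z, IsCyc D.r D.G (q + 1) z → IsBd D.r D.G (q + 1) (t • z))
    (hex : CEx D'.r D'.G (j + 1)) (z : ∀ I, F I) (hz : IsCyc D.r D.G (j + 1) z) :
    ∃ (n : ℕ) (c : Fin n → k) (y : Fin n → ∀ I, F I),
      (∀ i, algebraMap k k' (c i) = 0 ∧ IsCyc D.r D.G (j + 1) (y i)) ∧
        IsBd D.r D.G (j + 1) (z - ∑ i, c i • y i) := by
  obtain ⟨n, c, y, a, h1, h2⟩ := φ.cx.down hsurj (D.flat hF) _ D.subsingleton t ht j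
    (fun q hq => φ.tors t q (h q hq)) (φ.ex j hex) ⟨z, hz.1⟩ (Subtype.ext hz.2)
  refine ⟨n, c, fun i => (y i).1,
    fun i => ⟨(h1 i).1, (y i).2, congrArg Subtype.val (h1 i).2⟩, ?_⟩
  have h3 := D.isBd_d j a
  have h4 : z - ∑ i, c i • (y i).1 = (D.d j a).1 := by
    have h5 := congrArg (D.C (j + 1)).subtype h2
    simp only [map_sub, map_sum, map_smul, Submodule.subtype_apply] at h5
    exact h5
  rwa [h4]

end

end BCCech_D

namespace Mod

variable {k : Type} [CommRing k] {m : ℕ} {V : Type} [LinearOrder V] (X : Mod k m V)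

theorem BCCech_prW_smul (l : Dg m) (I : Finset V) (c : k) (x : X.W I) :
    X.prW l I (c • x) = c • X.prW l I x := by
  have h := prW_smul (X.hk c) l x
  rw [zero_add] at h
  rw [X.ksmul_def I c x, X.ksmul_def I c (X.prW l I x), h]

theorem BCCech_ep_smul (p : ℕ) (I : Finset V) (c : k) (x : X.W I) :
    ep p (c • x) = c • ep p x := by
  rw [← algebraMap_smul (X.Ch I) c x, map_smul, algebraMap_smul]

theorem BCCech_res_smul (I J : Finset V) (h : I ⊆ J) (c : k) (x : X.W I) :
    X.res I J h (c • x) = c • X.res I J h x := by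
  rw [X.ksmul_def I c x, X.ksmul_def J c (X.res I J h x)]
  exact X.resH_smul I J h _ x

/-- the projector onto the homogeneous forms -/
noncomputable def BCCech_e (p : ℕ) (l : Dg m) (I : Finset V) : X.W I →ₗ[k] X.W I where
  toFun := fun x => X.prW l I (ep p x)
  map_add' := fun x y =>
    (congrArg (X.prW l I) ((ep p).map_add x y)).trans ((X.prW l I).map_add _ _)
  map_smul' := fun c x =>
    (congrArg (X.prW l I) (X.BCCech_ep_smul p I c x)).trans (X.BCCech_prW_smul l I c _)

theorem BCCech_e_apply (p : ℕ) (l : Dg m) (I : Finset V) (x : X.W I) :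
    X.BCCech_e p l I x = X.prW l I (ep p x) := rfl

theorem BCCech_e_of_mem (p : ℕ) (l : Dg m) (I : Finset V) (x : X.W I) (hx : x ∈ X.L p l I) :
    X.BCCech_e p l I x = x := by
  rw [BCCech_e_apply, ep_of_mem (mem_L.1 hx).1, prW_of_mem (mem_L.1 hx).2]

theorem BCCech_flat (hs : X.Sm) (I : Finset V) (hI : I.Nonempty) : Module.Flat k (X.W I) := by
  have := hs I hI
  exact (flat_DR_base (k := k) (P := Pk k m) (B := X.Ch I)).1

/-- the family of the homogeneous forms -/
noncomputable def BCCech_fam (p : ℕ) (l : Dg m) : BCCech_D k X.W where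
  r := X.res
  G := X.L p l
  e := X.BCCech_e p l
  isFun := X.isFun_res
  r_smul := X.BCCech_res_smul
  r_mem := fun I J h x hx => res_mem_L I J h x hx
  e_mem := fun I x => prW_mem_L l (ep_mem p x)
  e_of_mem := X.BCCech_e_of_mem p l

end Mod

namespace BC

variable {k k' : Type} [CommRing k] [CommRing k'] [Algebra k k'] {m : ℕ} {V : Type}
  [LinearOrder V] [Fintype V] {X : Mod k m V} {X' : Mod k' m V} (b : BC X X')

/-- the base change of the families of homogeneous forms -/
noncomputable def BCCech_hm (p : ℕ) (l : Dg m) :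
    BCCech_D.Hm (X.BCCech_fam p l) (X'.BCCech_fam p l) where
  f := fun I => (b.w I).toAddMonoidHom
  bc := fun I => b.isBC_w I
  f_r := fun I J h x => b.w_res I J h x
  f_e := fun I x => (congrArg (X'.prW l I) (b.w_ep p I x)).trans (b.w_prW l I _)

/- Build a `CxBC k k' C C'` with `C q` = the `k`-submodule `Coch (X.L p l) (q + 1)` of
`∀ I, X.W I`. It is the image of the `k`-linear idempotent
`c ↦ cpart (q + 1) (fun I => X.prW l I (ep p (c I)))`; `IsBC.pi`, `IsBC.retract`, `isBC_w`.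
Flatness: `C q` is a retract of the finite product of the `X.W I`, `I` non-empty
(`flat_DR_base`; replace `X.W ∅` by working with the product over `{I // I.Nonempty}`).
`C q` is trivial for `q ≥ Fintype.card V`. Do this construction once, then read off the three
theorems from BCCx. For `q ≥ 1` the condition `b ∅ = 0` in `IsBd` is automatic. -/
include b in
theorem cex_of_flat [Module.Flat k k'] (t : k) (ht : IsUnit (algebraMap k k' t)) (p : ℕ)
    (l : Dg m) (q : ℕ) (hq : 1 ≤ q) (h : X.CTors t p l q) : CEx X'.res (X'.L p l) q := by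
  obtain ⟨q, rfl⟩ : ∃ q', q = q' + 1 := ⟨q - 1, by omega⟩
  exact (b.BCCech_hm p l).cex q
    ((b.BCCech_hm p l).cx.ex_of_flat t ht q ((b.BCCech_hm p l).tors t q h))

include b in
theorem cex_of_bounded (hs : X.Sm) (t : k) (ht : IsUnit (algebraMap k k' t)) (p : ℕ) (l : Dg m)
    (j : ℕ) (hj : 1 ≤ j) (h : ∀ q, j ≤ q → X.CTors t p l q) (q : ℕ) (hq : j ≤ q) :
    CEx X'.res (X'.L p l) q := by
  obtain ⟨j, rfl⟩ : ∃ j', j = j' + 1 := ⟨j - 1, by omega⟩
  obtain ⟨q, rfl⟩ : ∃ q', q = q' + 1 := ⟨q - 1, by omega⟩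
  exact (b.BCCech_hm p l).cex q
    ((b.BCCech_hm p l).cx.ex_of_bounded ((X.BCCech_fam p l).flat (X.BCCech_flat hs)) _
      (X.BCCech_fam p l).subsingleton t ht j
      (fun r hr => (b.BCCech_hm p l).tors t r (h (r + 1) (by omega))) q (by omega))

include b in
theorem cyc_down (hsurj : Function.Surjective (algebraMap k k')) (hs : X.Sm) (t : k)
    (ht : IsUnit (algebraMap k k' t)) (p : ℕ) (l : Dg m) (j : ℕ) (hj : 1 ≤ j)
    (h : ∀ q, j + 1 ≤ q → X.CTors t p l q) (hex : CEx X'.res (X'.L p l) j) (z : ∀ I, X.W I)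
    (hz : IsCyc X.res (X.L p l) j z) :
    ∃ (n : ℕ) (c : Fin n → k) (y : Fin n → ∀ I, X.W I),
      (∀ i, algebraMap k k' (c i) = 0 ∧ IsCyc X.res (X.L p l) j (y i)) ∧
        IsBd X.res (X.L p l) j (z - ∑ i, c i • y i) := by
  obtain ⟨j, rfl⟩ : ∃ j', j = j' + 1 := ⟨j - 1, by omega⟩
  exact (b.BCCech_hm p l).down hsurj (X.BCCech_flat hs) t ht j
    (fun q hq => h (q + 1) (by omega)) hex z hz

end BC

end Pool.Agent.P.MP_824f38_ag.V
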