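import Pool.Agent.P.MP_824f38_ag.V.BCLib

set_option linter.unusedVariables false
set_option linter.unusedSectionVars false

namespace Pool.Agent.P.MP_824f38_ag.V

/-- a complex of modules and its base change -/
structure CxBC (A A' : Type) [CommRing A] [CommRing A'] [Algebra A A'] (C C' : ℕ → Type)
    [∀ q, AddCommGroup (C q)] [∀ q, Module A (C q)] [∀ q, AddCommGroup (C' q)]
    [∀ q, Module A' (C' q)] where
  d : ∀ q, C q →ₗ[A] C (q + 1)
  d' : ∀ q, C' q →ₗ[A'] C' (q + 1)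
  f : ∀ q, C q → C' q
  bc : ∀ q, IsBC A A' (f q)
  comm : ∀ q x, d' q (f q x) = f (q + 1) (d q x)
  dd : ∀ q x, d (q + 1) (d q x) = 0

namespace CxBC

variable {A A' : Type} [CommRing A] [CommRing A'] [Algebra A A'] {C C' : ℕ → Type}
  [∀ q, AddCommGroup (C q)] [∀ q, Module A (C q)] [∀ q, AddCommGroup (C' q)]
  [∀ q, Module A' (C' q)] (K : CxBC A A' C C')

/-- the cohomology in degree `q + 1` is killed by `t` -/
def Tors (t : A) (q : ℕ) : Prop := ∀ z, K.d (q + 1) z = 0 → ∃ y, K.d q y = t • z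

/-- the base change is exact in degree `q + 1` -/
def Ex' (q : ℕ) : Prop := ∀ z, K.d' (q + 1) z = 0 → ∃ y, K.d' q y = z

open TensorProduct LinearMap

theorem BCCx_swap {M M' P P' : Type} [AddCommMonoid M] [Module A M] [AddCommMonoid M']
    [Module A M'] [AddCommMonoid P] [Module A P] [AddCommMonoid P'] [Module A P'] (g : M →ₗ[A] M')
    (d : P →ₗ[A] P') (x : M ⊗[A] P) :
    d.lTensor M' (g.rTensor P x) = g.rTensor P' (d.lTensor M x) := by
  rw [← comp_apply, ← comp_apply, lTensor_comp_rTensor, rTensor_comp_lTensor]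

theorem BCCx_dd (M : Type) [AddCommGroup M] [Module A M] (q : ℕ) (x : M ⊗[A] C q) :
    (K.d (q + 1)).lTensor M ((K.d q).lTensor M x) = 0 := by
  rw [← comp_apply, ← lTensor_comp, show K.d (q + 1) ∘ₗ K.d q = 0 from LinearMap.ext (K.dd q),
    lTensor_zero, LinearMap.zero_apply]

/-- `s` kills the cohomology in degree `q + 1` with arbitrary coefficients -/
def BCCx_P (s : A) (q : ℕ) : Prop :=
  ∀ (M : Type) [AddCommGroup M] [Module A M] (z : M ⊗[A] C (q + 1)),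
    (K.d (q + 1)).lTensor M z = 0 → ∃ y, (K.d q).lTensor M y = s • z

theorem BCCx_tors {t : A} {q : ℕ} (h : K.Tors t q) (M : Type) [AddCommGroup M] [Module A M]
    (x : M ⊗[A] ker (K.d (q + 1))) :
    ∃ y, (K.d q).lTensor M y = t • (ker (K.d (q + 1))).subtype.lTensor M x := by
  induction x with
  | zero => exact ⟨0, by simp⟩
  | tmul m z =>
    obtain ⟨y, hy⟩ := h z.1 z.2
    exact ⟨m ⊗ₜ y, by simp [hy]⟩
  | add a b ha hb =>
    obtain ⟨y, hy⟩ := ha
    obtain ⟨y', hy'⟩ := hb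
    exact ⟨y + y', by rw [map_add, map_add, smul_add, hy, hy']⟩

theorem BCCx_pres (M : Type) [AddCommGroup M] [Module A M] :
    ∃ (L F : Type) (_ : AddCommGroup L) (_ : Module A L) (_ : AddCommGroup F) (_ : Module A F)
      (_ : Module.Flat A F) (ι : L →ₗ[A] F) (π : F →ₗ[A] M),
      Function.Injective ι ∧ Function.Exact ι π ∧ Function.Surjective π := by
  let π : (M →₀ A) →ₗ[A] M := Finsupp.linearCombination A _root_.id
  exact ⟨ker π, M →₀ A, inferInstance, inferInstance, inferInstance, inferInstance, inferInstance,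
    (ker π).subtype, π, (ker π).injective_subtype, exact_subtype_ker_map π,
    Finsupp.linearCombination_id_surjective A M⟩

/-- dimension shifting: cocycles with coefficients come from cocycles, up to `s` -/
theorem BCCx_cyc {s : A} {q : ℕ} [Module.Flat A (C (q + 1 + 1))] (h : K.BCCx_P s q) (M : Type)
    [AddCommGroup M] [Module A M] (z : M ⊗[A] C q) (hz : (K.d q).lTensor M z = 0) :
    ∃ x, (ker (K.d q)).subtype.lTensor M x = s • z := by
  obtain ⟨L, F, _, _, _, _, _, ι, π, hι, he, hπ⟩ := BCCx_pres (A := A) M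
  have ex := fun q => rTensor_exact (C q) he hπ
  obtain ⟨z', rfl⟩ := rTensor_surjective (C q) hπ z
  rw [BCCx_swap] at hz
  obtain ⟨w, hw⟩ := (ex (q + 1) _).1 hz
  have h1 : (K.d (q + 1)).lTensor _ w = 0 := by
    apply Module.Flat.rTensor_preserves_injective_linearMap _ hι
    rw [← BCCx_swap, hw, K.BCCx_dd, map_zero]
  obtain ⟨u, hu⟩ := h _ w h1
  have h2 : (K.d q).lTensor _ (s • z' - ι.rTensor _ u) = 0 := by
    rw [map_sub, map_smul, BCCx_swap, hu, map_smul, hw, sub_self]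
  obtain ⟨x, hx⟩ := (Module.Flat.lTensor_exact F (exact_subtype_ker_map (K.d q)) _).1 h2
  refine ⟨π.rTensor _ x, ?_⟩
  rw [BCCx_swap, hx, map_sub, map_smul, (ex q).apply_apply_eq_zero, sub_zero]

theorem BCCx_pow (hflat : ∀ q, Module.Flat A (C q)) (N : ℕ)
    (hN : ∀ q, N ≤ q → Subsingleton (C q)) (t : A) (j : ℕ) (h : ∀ q, j ≤ q → K.Tors t q)
    (n : ℕ) : ∀ q, j ≤ q → N ≤ q + n → K.BCCx_P (t ^ n) q := by
  induction n with
  | zero =>
    intro q _ hq M _ _ z _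
    have := hN (q + 1) (by omega)
    exact ⟨0, Subsingleton.elim _ _⟩
  | succ n ih =>
    intro q hj hq M _ _ z hz
    have := hflat (q + 1 + 1 + 1)
    obtain ⟨x, hx⟩ := K.BCCx_cyc (ih (q + 1) (by omega) (by omega)) M z hz
    obtain ⟨y, hy⟩ := K.BCCx_tors (h q hj) M x
    exact ⟨y, by rw [hy, hx, smul_smul, pow_succ']⟩

theorem BCCx_comm {q : ℕ} {e : A' ⊗[A] C q ≃ₗ[A'] C' q} (he : ∀ x, e (1 ⊗ₜ x) = K.f q x)
    {e' : A' ⊗[A] C (q + 1) ≃ₗ[A'] C' (q + 1)} (he' : ∀ x, e' (1 ⊗ₜ x) = K.f (q + 1) x)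
    (x : A' ⊗[A] C q) : K.d' q (e x) = e' ((K.d q).lTensor A' x) := by
  induction x with
  | zero => simp
  | tmul a c =>
    have h1 : ∀ {P : Type} [AddCommGroup P] [Module A P] (c : P),
        a ⊗ₜ[A] c = a • ((1 : A') ⊗ₜ[A] c) := fun c => by rw [smul_tmul', smul_eq_mul, mul_one]
    rw [lTensor_tmul, h1 c, h1 (K.d q c), map_smul, map_smul, map_smul, he, he', K.comm]
  | add a b ha hb => simp only [map_add, ha, hb]

theorem BCCx_fin {s : A} (hs : IsUnit (algebraMap A A' s)) {q : ℕ}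
    (h : ∀ z : A' ⊗[A] C (q + 1), (K.d (q + 1)).lTensor A' z = 0 →
      ∃ y, (K.d q).lTensor A' y = s • z) : K.Ex' q := by
  intro z hz
  obtain ⟨e₀, h₀⟩ := K.bc q
  obtain ⟨e₁, h₁⟩ := K.bc (q + 1)
  obtain ⟨e₂, h₂⟩ := K.bc (q + 1 + 1)
  obtain ⟨z, rfl⟩ := e₁.surjective z
  rw [K.BCCx_comm h₁ h₂, map_eq_zero_iff e₂ e₂.injective] at hz
  obtain ⟨y, hy⟩ := h z hz
  obtain ⟨u, hu⟩ := hs
  refine ⟨(↑u⁻¹ : A') • e₀ y, ?_⟩
  rw [map_smul, K.BCCx_comm h₀ h₁, hy, ← algebraMap_smul A' s z, map_smul, smul_smul, ← hu,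
    Units.inv_mul, one_smul]

theorem ex_of_flat [Module.Flat A A'] (t : A) (ht : IsUnit (algebraMap A A' t)) (q : ℕ)
    (h : K.Tors t q) : K.Ex' q := by
  refine K.BCCx_fin ht fun z hz => ?_
  obtain ⟨x, rfl⟩ := (Module.Flat.lTensor_exact A' (exact_subtype_ker_map (K.d (q + 1))) _).1 hz
  exact K.BCCx_tors h A' x

theorem ex_of_bounded (hflat : ∀ q, Module.Flat A (C q)) (N : ℕ)
    (hN : ∀ q, N ≤ q → Subsingleton (C q)) (t : A) (ht : IsUnit (algebraMap A A' t)) (j : ℕ)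
    (h : ∀ q, j ≤ q → K.Tors t q) (q : ℕ) (hq : j ≤ q) : K.Ex' q :=
  K.BCCx_fin (s := t ^ N) (by rw [map_pow]; exact ht.pow N)
    (K.BCCx_pow hflat N hN t j h N q hq (by omega) A')

theorem down (hs : Function.Surjective (algebraMap A A')) (hflat : ∀ q, Module.Flat A (C q))
    (N : ℕ) (hN : ∀ q, N ≤ q → Subsingleton (C q)) (t : A) (ht : IsUnit (algebraMap A A' t))
    (j : ℕ) (h : ∀ q, j + 1 ≤ q → K.Tors t q) (hex : K.Ex' j) (z : C (j + 1))
    (hz : K.d (j + 1) z = 0) :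
    ∃ (n : ℕ) (c : Fin n → A) (y : Fin n → C (j + 1)) (b : C j),
      (∀ i, algebraMap A A' (c i) = 0 ∧ K.d (j + 1) (y i) = 0) ∧
        z - ∑ i, c i • y i = K.d j b := by
  obtain ⟨e₁, h₁⟩ := K.bc (j + 1)
  obtain ⟨e₂, h₂⟩ := K.bc (j + 1 + 1)
  obtain ⟨y', hy'⟩ := hex (K.f _ z) (by rw [K.comm, hz, ← h₂, tmul_zero, map_zero])
  obtain ⟨b, rfl⟩ := (K.bc j).surjective hs y'
  rw [K.comm, ← h₁, ← h₁, e₁.injective.eq_iff] at hy'
  have hz₁ : K.d (j + 1) (z - K.d j b) = 0 := by rw [map_sub, hz, K.dd, sub_zero]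
  let φ := Algebra.linearMap A A'
  obtain ⟨w, hw⟩ := (rTensor_exact (C (j + 1)) (exact_subtype_ker_map φ) hs
    ((1 : A) ⊗ₜ (z - K.d j b))).1 (by simp [φ, tmul_sub, hy'])
  have := hflat (j + 1 + 1)
  have := hflat (j + 1 + 1 + 1)
  have h1 : (K.d (j + 1)).lTensor _ w = 0 := by
    apply Module.Flat.rTensor_preserves_injective_linearMap _ (ker φ).injective_subtype
    rw [← BCCx_swap, hw, lTensor_tmul, hz₁, tmul_zero, map_zero]
  obtain ⟨x, hx⟩ := K.BCCx_cyc (K.BCCx_pow hflat N hN t (j + 1) h N (j + 1) le_rfl (by omega))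
    _ w h1
  obtain ⟨u, hu⟩ := ht.pow N
  obtain ⟨s, hs'⟩ := hs (↑u⁻¹ : A')
  have hc : s * t ^ N - 1 ∈ ker φ := by
    simp [φ, hs', ← hu]
  obtain ⟨n, c, y, hxy⟩ := exists_sum_tmul_eq
    (s • x - (⟨_, hc⟩ : ker φ) ⊗ₜ (⟨_, hz₁⟩ : ker (K.d (j + 1))))
  refine ⟨n, fun i => c i, fun i => y i, b, fun i => ⟨(c i).2, (y i).2⟩, ?_⟩
  have h2 := congrArg (fun v => TensorProduct.lid A _
    ((ker φ).subtype.rTensor _ ((ker (K.d (j + 1))).subtype.lTensor _ v))) hxy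
  simp only [map_sub, map_smul, hx, hw, map_sum, lTensor_tmul, rTensor_tmul, lid_tmul,
    Submodule.subtype_apply, one_smul] at h2
  rw [← h2]
  module

end CxBC

end Pool.Agent.P.MP_824f38_ag.V
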