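import Pool.Agent.P.MP_824f38_ag.V.Defs

set_option linter.unusedVariables false
set_option linter.unusedSectionVars false

namespace Pool.Agent.P.MP_824f38_ag.V

open TensorProduct

variable {k k' k'' : Type} [CommRing k] [CommRing k'] [CommRing k''] [Algebra k k']
  {N N' N'' : Type} [AddCommGroup N] [Module k N] [AddCommGroup N'] [Module k' N']
  [AddCommGroup N''] [Module k'' N'']

/- Elementary API for `IsBC` (Defs.lean). All short: unfold to the linear equivalence `e`. -/

theorem BCLib_tmul (e : k' ⊗[k] N ≃ₗ[k'] N') (c : k') (x : N) :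
    e (c ⊗ₜ x) = c • e (1 ⊗ₜ x) := by
  rw [← _root_.map_smul, smul_tmul', smul_eq_mul, mul_one]

theorem BCLib_zero {f : N → N'} (h : IsBC k k' f) : f 0 = 0 := by
  obtain ⟨e, he⟩ := h
  rw [← he, tmul_zero, map_zero]

theorem IsBC.map_add {f : N → N'} (h : IsBC k k' f) (x y : N) : f (x + y) = f x + f y := by
  obtain ⟨e, he⟩ := h
  rw [← he, ← he, ← he, tmul_add, _root_.map_add]

theorem IsBC.map_smul {f : N → N'} (h : IsBC k k' f) (c : k) (x : N) :
    f (c • x) = algebraMap k k' c • f x := by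
  obtain ⟨e, he⟩ := h
  rw [← he, ← he, tmul_smul, ← algebraMap_smul k' c, _root_.map_smul]

theorem IsBC.induction {f : N → N'} (h : IsBC k k' f) {P : N' → Prop} (h0 : P 0)
    (h1 : ∀ (c : k') (x : N), P (c • f x)) (hadd : ∀ x y, P x → P y → P (x + y)) (y : N') :
    P y := by
  obtain ⟨e, he⟩ := h
  obtain ⟨t, rfl⟩ := e.surjective y
  induction t with
  | zero => rwa [map_zero]
  | tmul c x =>
    rw [BCLib_tmul, he]
    exact h1 c x
  | add a b ha hb =>
    rw [_root_.map_add]
    exact hadd _ _ ha hb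

/- `AlgebraTensorModule.cancelBaseChange` -/
theorem IsBC.trans [Algebra k' k''] [Algebra k k''] [IsScalarTower k k' k''] {f : N → N'}
    {g : N' → N''} (h : IsBC k k' f) (h' : IsBC k' k'' g) : IsBC k k'' (fun x => g (f x)) := by
  obtain ⟨e, he⟩ := h
  obtain ⟨e', he'⟩ := h'
  refine ⟨(AlgebraTensorModule.cancelBaseChange k k' k'' k'' N).symm ≪≫ₗ
    (AlgebraTensorModule.congr (LinearEquiv.refl k'' k'') e ≪≫ₗ e'), fun x => ?_⟩
  simp [he, he']

/- `TensorProduct.piRight` -/
theorem IsBC.pi {ι : Type} [Fintype ι] [DecidableEq ι] {M M' : ι → Type} [∀ i, AddCommGroup (M i)]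
    [∀ i, Module k (M i)] [∀ i, AddCommGroup (M' i)] [∀ i, Module k' (M' i)]
    {f : ∀ i, M i → M' i} (h : ∀ i, IsBC k k' (f i)) :
    IsBC k k' (fun (x : ∀ i, M i) (i : ι) => f i (x i)) := by
  choose e he using h
  exact ⟨piRight k k' k' M ≪≫ₗ LinearEquiv.piCongrRight e, fun x => funext fun i => he i (x i)⟩

/- Retracts: `U`, `U'` are the images of the idempotents `e`, `e'`, which commute with `f`.
The map `k' ⊗ U → U'` is injective because `k' ⊗ U → k' ⊗ N` has the retraction
`k' ⊗ (codRestrict e)`, surjective by `IsBC.induction`. -/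
theorem IsBC.retract {f : N → N'} (h : IsBC k k' f) (U : Submodule k N) (U' : Submodule k' N')
    (e : N →ₗ[k] N) (e' : N' →ₗ[k'] N') (he : ∀ x, e x ∈ U) (he1 : ∀ x ∈ U, e x = x)
    (he' : ∀ x, e' x ∈ U') (he1' : ∀ x ∈ U', e' x = x) (hc : ∀ x, e' (f x) = f (e x))
    (hU : ∀ x ∈ U, f x ∈ U') : IsBC k k' (fun x : U => (⟨f x, hU x x.2⟩ : U')) := by
  obtain ⟨g, hg⟩ := id h
  have h1 : ∀ t, (g.toLinearMap ∘ₗ U.subtype.baseChange k') t ∈ U' := by
    intro t
    induction t with
    | zero => simp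
    | tmul c x =>
      show g (c ⊗ₜ (x : N)) ∈ U'
      rw [BCLib_tmul, hg]
      exact U'.smul_mem c (hU x x.2)
    | add a b ha hb =>
      rw [_root_.map_add]
      exact U'.add_mem ha hb
  have h2 : (e.codRestrict U he).baseChange k' ∘ₗ U.subtype.baseChange k' = LinearMap.id := by
    rw [← LinearMap.baseChange_comp, ← LinearMap.baseChange_id]
    congr 1
    exact LinearMap.ext fun x => Subtype.ext (he1 x x.2)
  have h3 : ∀ y, ∃ t, (g.toLinearMap ∘ₗ U.subtype.baseChange k') t = e' y := by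
    refine h.induction ⟨0, by simp⟩ (fun c x => ⟨c ⊗ₜ ⟨e x, he x⟩, ?_⟩) ?_
    · show g (c ⊗ₜ e x) = _
      rw [BCLib_tmul, hg, _root_.map_smul, hc]
    · rintro x y ⟨a, ha⟩ ⟨b, hb⟩
      exact ⟨a + b, by rw [_root_.map_add, ha, hb, _root_.map_add]⟩
  refine ⟨LinearEquiv.ofBijective (LinearMap.codRestrict U' _ h1) ⟨fun a b hab => ?_, fun y => ?_⟩,
    fun x => Subtype.ext (hg x)⟩
  · have := congrArg ((e.codRestrict U he).baseChange k') (g.injective (congrArg Subtype.val hab))
    exact (LinearMap.congr_fun h2 a).symm.trans (this.trans (LinearMap.congr_fun h2 b))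
  · obtain ⟨t, ht⟩ := h3 y
    exact ⟨t, Subtype.ext (ht.trans (he1' y y.2))⟩

/- `x ↦ 1 ⊗ x` is `rTensor N (Algebra.linearMap k k')` composed with `lid.symm`. -/
theorem IsBC.injective {f : N → N'} (h : IsBC k k' f) [Module.Flat k N]
    (hk : Function.Injective (algebraMap k k')) : Function.Injective f := by
  obtain ⟨e, he⟩ := h
  intro x y hxy
  rw [← he, ← he] at hxy
  refine (TensorProduct.lid k N).symm.injective
    (Module.Flat.rTensor_preserves_injective_linearMap (M := N) (Algebra.linearMap k k') hk ?_)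
  simpa using e.injective hxy

theorem IsBC.surjective {f : N → N'} (h : IsBC k k' f)
    (hk : Function.Surjective (algebraMap k k')) : Function.Surjective f := by
  refine h.induction ⟨0, BCLib_zero h⟩ (fun c x => ?_) ?_
  · obtain ⟨d, rfl⟩ := hk c
    exact ⟨d • x, h.map_smul d x⟩
  · rintro _ _ ⟨a, rfl⟩ ⟨b, rfl⟩
    exact ⟨a + b, h.map_add a b⟩

/- kernel of a base change along a surjection: `TensorProduct.quotTensorEquivQuotSMul`, or the
map `k' ⊗ N → N ⧸ (ker • ⊤)` built with `TensorProduct.lift`. -/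
theorem IsBC.eq_zero_iff {f : N → N'} (h : IsBC k k' f)
    (hk : Function.Surjective (algebraMap k k')) (x : N) :
    f x = 0 ↔ x ∈ RingHom.ker (algebraMap k k') • (⊤ : Submodule k N) := by
  refine ⟨fun hx => ?_, fun hx => Submodule.smul_induction_on hx (fun c hc y _ => ?_)
    fun a b ha hb => ?_⟩
  · obtain ⟨e, he⟩ := h
    rw [← he, e.map_eq_zero_iff] at hx
    obtain ⟨t, ht⟩ := (rTensor_exact N (Algebra.linearMap k k').exact_subtype_ker_map hk
      (1 ⊗ₜ x)).1 (by simpa using hx)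
    have h1 : x = TensorProduct.lid k N ((LinearMap.ker (Algebra.linearMap k k')).subtype.rTensor
        N t) := by simp [ht]
    rw [h1]
    clear ht h1
    induction t with
    | zero => simp
    | tmul c y => exact Submodule.smul_mem_smul c.2 trivial
    | add a b ha hb =>
      rw [_root_.map_add, _root_.map_add]
      exact Submodule.add_mem _ ha hb
  · rw [h.map_smul, (RingHom.mem_ker.1 hc), zero_smul]
  · rw [h.map_add, ha, hb, add_zero]

/- a multiplicative base change is an isomorphism of algebras -/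
theorem IsBC.exists_algEquiv {B B' : Type} [CommRing B] [CommRing B'] [Algebra k B]
    [Algebra k' B'] (φ : B →+* B') (h : IsBC k k' φ) :
    ∃ e : k' ⊗[k] B ≃ₐ[k'] B', ∀ x, e (1 ⊗ₜ x) = φ x := by
  obtain ⟨e, he⟩ := h
  refine ⟨AlgEquiv.ofLinearEquiv e ((he 1).trans φ.map_one) fun a b => ?_, he⟩
  induction a with
  | zero => simp
  | add a a' ha ha' => rw [add_mul, _root_.map_add, _root_.map_add, ha, ha', add_mul]
  | tmul c x =>
    induction b with
    | zero => simp
    | add b b' hb hb' => rw [mul_add, _root_.map_add, _root_.map_add, hb, hb', mul_add]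
    | tmul d y =>
      rw [Algebra.TensorProduct.tmul_mul_tmul, BCLib_tmul e (c * d), BCLib_tmul e c, BCLib_tmul e d,
        he, he, he, map_mul, smul_mul_smul_comm]

/- Reduction modulo `p` of a flat module over `ZMod (p ^ 2)`. The kernel of
`ZMod (p ^ 2) → ZMod p` is `(p)`; the sequence `k → k → k` (multiplication by `p` twice) is exact,
and stays exact after tensoring with the flat module (`Module.Flat.rTensor_exact`). -/
theorem IsBC.modp (p : ℕ) [Fact p.Prime] [Algebra (ZMod (p ^ 2)) (ZMod p)] {M M' : Type}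
    [AddCommGroup M] [Module (ZMod (p ^ 2)) M] [AddCommGroup M'] [Module (ZMod p) M']
    [Module.Flat (ZMod (p ^ 2)) M] {f : M → M'} (h : IsBC (ZMod (p ^ 2)) (ZMod p) f) :
    Function.Surjective f ∧ (∀ x, f x = 0 ↔ ∃ y, x = p • y) ∧ ∀ y, p • y = 0 ↔ f y = 0 := by
  have hp : p ≠ 0 := (Fact.out : p.Prime).ne_zero
  have : NeZero (p ^ 2) := ⟨pow_ne_zero 2 hp⟩
  have hs := ZMod.ringHom_surjective (algebraMap (ZMod (p ^ 2)) (ZMod p))
  have hk : RingHom.ker (algebraMap (ZMod (p ^ 2)) (ZMod p)) =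
      Ideal.span {(p : ZMod (p ^ 2))} := by
    ext c
    obtain ⟨n, rfl⟩ := ZMod.natCast_zmod_surjective c
    rw [RingHom.mem_ker, map_natCast, ZMod.natCast_eq_zero_iff, Ideal.mem_span_singleton]
    refine ⟨fun h => Nat.cast_dvd_cast h, fun ⟨d, hd⟩ => ?_⟩
    have := congrArg (algebraMap (ZMod (p ^ 2)) (ZMod p)) hd
    rwa [map_mul, map_natCast, map_natCast, ZMod.natCast_self, zero_mul,
      ZMod.natCast_eq_zero_iff] at this
  have h2 : ∀ x, f x = 0 ↔ ∃ y, x = p • y := by
    intro x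
    rw [h.eq_zero_iff hs, hk, Submodule.ideal_span_singleton_smul,
      Submodule.mem_smul_pointwise_iff_exists]
    simp only [Nat.cast_smul_eq_nsmul, Submodule.mem_top, true_and, eq_comm]
  refine ⟨h.surjective hs, h2, fun y => ?_⟩
  rw [h2]
  refine ⟨fun hy => ?_, ?_⟩
  · let μ : ZMod (p ^ 2) →ₗ[ZMod (p ^ 2)] ZMod (p ^ 2) := LinearMap.mul _ _ (p : ZMod (p ^ 2))
    have hμ : Function.Exact μ μ := by
      intro c
      obtain ⟨n, rfl⟩ := ZMod.natCast_zmod_surjective c
      refine ⟨fun h => ?_, fun ⟨d, hd⟩ => ?_⟩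
      · have h' : ((p * n : ℕ) : ZMod (p ^ 2)) = 0 := by
          rw [Nat.cast_mul]
          exact h
        rw [ZMod.natCast_eq_zero_iff, sq, Nat.mul_dvd_mul_iff_left (Nat.pos_of_ne_zero hp)] at h'
        obtain ⟨d, rfl⟩ := h'
        exact ⟨d, (Nat.cast_mul p d).symm⟩
      · rw [← hd]
        show (p : ZMod (p ^ 2)) * (p * d) = 0
        rw [← mul_assoc, ← sq, ← Nat.cast_pow, ZMod.natCast_self, zero_mul]
    have hl : ∀ t, TensorProduct.lid _ M (μ.rTensor M t) = p • TensorProduct.lid _ M t := by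
      intro t
      induction t with
      | zero => simp
      | tmul c z => simp [μ, mul_smul, Nat.cast_smul_eq_nsmul]
      | add a b ha hb => simp only [_root_.map_add, ha, hb, smul_add]
    obtain ⟨t, ht⟩ := (Module.Flat.rTensor_exact M hμ (1 ⊗ₜ y)).1
      ((TensorProduct.lid _ M).injective (by rw [hl, map_zero, lid_tmul, one_smul, hy]))
    exact ⟨TensorProduct.lid _ M t, by rw [← hl, ht, lid_tmul, one_smul]⟩
  · rintro ⟨z, rfl⟩
    rw [← mul_smul, ← sq, ← Nat.cast_smul_eq_nsmul (ZMod (p ^ 2)), ZMod.natCast_self, zero_smul]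

end Pool.Agent.P.MP_824f38_ag.V
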