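import Pool.Agent.P.MP_824f38_ag.V.BCLib

set_option linter.unusedVariables false
set_option linter.unusedSectionVars false

namespace Pool.Agent.P.MP_824f38_ag.V

open TensorProduct

variable {k k' k'' : Type} [CommRing k] [CommRing k'] [CommRing k''] [Algebra k k'] {m : ℕ}
  {V : Type}

theorem BCMod_rho {S : Type} [CommRing S] [Algebra k S] (k' : Type) [CommRing k'] [Algebra k k']
    (ρ : S →+* AddMonoidAlgebra S (Dg m)) (hk : ∀ c : k, algebraMap k S c ∈ Hg ρ 0) :
    ∃ ρ' : k' ⊗[k] S →+* AddMonoidAlgebra (k' ⊗[k] S) (Dg m),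
      ∀ (c : k') (l : Dg m), ∀ s ∈ Hg ρ l, c ⊗ₜ[k] s ∈ Hg ρ' l := by
  let g : S →ₐ[k] AddMonoidAlgebra (k' ⊗[k] S) (Dg m) :=
    ⟨(AddMonoidAlgebra.mapRingHom (Dg m)
      (Algebra.TensorProduct.includeRight (R := k) (A := k') (B := S)).toRingHom).comp ρ,
      fun c => by
        change AddMonoidAlgebra.mapRingHom (Dg m) _ (ρ _) = _
        rw [mem_Hg.1 (hk c), AddMonoidAlgebra.mapRingHom_single]
        exact congrArg (AddMonoidAlgebra.single 0)
          ((Algebra.TensorProduct.includeRight (R := k) (A := k') (B := S)).commutes c)⟩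
  refine ⟨(Algebra.TensorProduct.productMap
    (IsScalarTower.toAlgHom k k' (AddMonoidAlgebra (k' ⊗[k] S) (Dg m))) g).toRingHom,
    fun c l s hs => ?_⟩
  rw [mem_Hg]
  change AddMonoidAlgebra.single 0 (c ⊗ₜ[k] (1 : S)) *
    AddMonoidAlgebra.mapRingHom (Dg m) _ (ρ s) = _
  rw [mem_Hg.1 hs, AddMonoidAlgebra.mapRingHom_single, AddMonoidAlgebra.single_mul_single, zero_add]
  congr 1
  change c ⊗ₜ[k] (1 : S) * (1 : k') ⊗ₜ[k] s = _
  rw [Algebra.TensorProduct.tmul_mul_tmul, mul_one, one_mul]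

theorem exists_BC (X : Mod k m V) (k' : Type) [CommRing k'] [Algebra k k'] :
    ∃ X' : Mod k' m V, Nonempty (BC X X') := by
  obtain ⟨ρ', hρ⟩ := BCMod_rho k' X.ρ X.hk
  let φ : Pk k' m →ₐ[k'] k' ⊗[k] X.S := MvPolynomial.aeval fun j => (1 : k') ⊗ₜ[k] X.σ j
  let _ : Algebra (Pk k' m) (k' ⊗[k] X.S) := φ.toRingHom.toAlgebra
  have : IsScalarTower k' (Pk k' m) (k' ⊗[k] X.S) :=
    IsScalarTower.of_algebraMap_eq fun c => (φ.commutes c).symm
  have hσ : ∀ j, algebraMap (Pk k' m) (k' ⊗[k] X.S) (MvPolynomial.X j) = (1 : k') ⊗ₜ[k] X.σ j :=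
    fun j => MvPolynomial.aeval_X _ j
  have co : IsCo ρ' := by
    intro x
    induction x using TensorProduct.induction_on with
    | zero => exact zero_mem _
    | add x y hx hy => exact add_mem hx hy
    | tmul c s =>
      induction s using X.co.induction with
      | h0 l s hs => exact IsCo.of_mem (hρ c l s hs)
      | hadd x y hx hy =>
        rw [TensorProduct.tmul_add]
        exact add_mem hx hy
  refine ⟨{ S := k' ⊗[k] X.S
            ρ := ρ'
            co := co
            hk := fun c => hρ c 0 1 Hg_one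
            hσ := fun j => hσ j ▸ hρ 1 _ _ (X.hσ j)
            χ := X.χ
            g := fun i => (1 : k') ⊗ₜ[k] X.g i
            hg := fun i => hρ 1 _ _ (X.hg i) }, ⟨⟨
    (Algebra.TensorProduct.includeRight (R := k) (A := k') (B := X.S)).toRingHom,
    fun c => (Algebra.TensorProduct.includeRight (R := k) (A := k') (B := X.S)).commutes c,
    fun j => (hσ j).symm, fun l s hs => hρ 1 l s hs, rfl, fun i => rfl,
    LinearEquiv.refl _ _, fun x => rfl⟩⟩⟩

theorem BC.trans [Algebra k' k''] [Algebra k k''] [IsScalarTower k k' k''] {X : Mod k m V}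
    {X' : Mod k' m V} {X'' : Mod k'' m V} (b : BC X X') (b' : BC X' X'') :
    Nonempty (BC X X'') :=
  ⟨⟨b'.β.comp b.β,
    fun c => by rw [RingHom.comp_apply, b.hk, b'.hk, ← IsScalarTower.algebraMap_apply k k' k''],
    fun j => by rw [RingHom.comp_apply, b.hσ, b'.hσ],
    fun l s hs => b'.hρ l _ (b.hρ l s hs), b'.hχ.trans b.hχ,
    fun i => by rw [RingHom.comp_apply, b.hg, b'.hg], b.bc.trans b'.bc⟩⟩


end Pool.Agent.P.MP_824f38_ag.V
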