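import Pool.Agent.P.MP_824f38_ag.V.BCLib

set_option linter.unusedVariables false
set_option linter.unusedSectionVars false

namespace Pool.Agent.P.MP_824f38_ag.V

open TensorProduct

section

variable {k P B : Type} [CommRing k] [CommRing P] [CommRing B] [Algebra k P] [Algebra P B]
  [Algebra k B] [IsScalarTower k P B]

theorem BCPull_smul (c : k) (x : DRk P B) : c • x = fn P (algebraMap k B c) * x := by
  rw [← smul_eq, algebraMap_smul]

theorem BCPull_dk_smul (c : k) (b : B) : dk P (c • b) = c • dk P b := by
  rw [BCPull_smul, Algebra.smul_def, dk_mul, IsScalarTower.algebraMap_apply k P B, dk_algebraMap,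
    mul_zero, add_zero]

variable (k P B) (k' : Type) [CommRing k'] [Algebra k k']

/-- functions, after base change -/
noncomputable def BCPull_al : k' ⊗[k] B →ₐ[k'] k' ⊗[k] DRk P B :=
  Algebra.TensorProduct.map (AlgHom.id k' k') (IsScalarTower.toAlgHom k B (DRk P B))

/-- the differential, after base change -/
noncomputable def BCPull_de : k' ⊗[k] B →ₗ[k'] k' ⊗[k] DRk P B :=
  LinearMap.baseChange k'
    { toFun := dk P, map_add' := dk_add, map_smul' := BCPull_dk_smul : B →ₗ[k] DRk P B }

variable {k P B k'}

theorem BCPull_al_tmul (c : k') (b : B) : BCPull_al k P B k' (c ⊗ₜ b) = c ⊗ₜ fn P b := rfl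

theorem BCPull_de_tmul (c : k') (b : B) : BCPull_de k P B k' (c ⊗ₜ b) = c ⊗ₜ dk P b := rfl

theorem BCPull_comm (s : k' ⊗[k] B) (t : k' ⊗[k] DRk P B) :
    BCPull_al k P B k' s * t = t * BCPull_al k P B k' s := by
  induction s using TensorProduct.induction_on with
  | zero => simp
  | add s s' h h' => rw [map_add, add_mul, mul_add, h, h']
  | tmul c b =>
    induction t using TensorProduct.induction_on with
    | zero => simp
    | add t t' h h' => rw [add_mul, mul_add, h, h']
    | tmul d x =>
      rw [BCPull_al_tmul, Algebra.TensorProduct.tmul_mul_tmul,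
        Algebra.TensorProduct.tmul_mul_tmul, mul_comm c d, fn_comm]

theorem BCPull_leib (s t : k' ⊗[k] B) : BCPull_de k P B k' (s * t) =
    BCPull_al k P B k' s * BCPull_de k P B k' t + BCPull_al k P B k' t * BCPull_de k P B k' s := by
  induction s using TensorProduct.induction_on with
  | zero => simp
  | add s s' h h' => simp only [add_mul, map_add, mul_add, h, h']; abel
  | tmul c b =>
    induction t using TensorProduct.induction_on with
    | zero => simp
    | add t t' h h' => simp only [add_mul, map_add, mul_add, h, h']; abel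
    | tmul d x =>
      simp only [BCPull_al_tmul, BCPull_de_tmul, Algebra.TensorProduct.tmul_mul_tmul, dk_mul,
        tmul_add, mul_comm d c]

theorem BCPull_anti (s t : k' ⊗[k] B) : BCPull_de k P B k' s * BCPull_de k P B k' t +
    BCPull_de k P B k' t * BCPull_de k P B k' s = 0 := by
  induction s using TensorProduct.induction_on with
  | zero => simp
  | add s s' h h' => rw [map_add, add_mul, mul_add, add_add_add_comm, h, h', add_zero]
  | tmul c b =>
    induction t using TensorProduct.induction_on with
    | zero => simp
    | add t t' h h' => rw [map_add, add_mul, mul_add, add_add_add_comm, h, h', add_zero]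
    | tmul d x =>
      simp only [BCPull_de_tmul, Algebra.TensorProduct.tmul_mul_tmul]
      rw [mul_comm d c, ← tmul_add, dk_anti, neg_add_cancel, tmul_zero]

theorem BCPull_sq (s : k' ⊗[k] B) : BCPull_de k P B k' s * BCPull_de k P B k' s = 0 := by
  induction s using TensorProduct.induction_on with
  | zero => simp
  | add s s' h h' => rw [map_add, add_mul, mul_add, mul_add, h, h', zero_add, add_zero, BCPull_anti]
  | tmul c b => rw [BCPull_de_tmul, Algebra.TensorProduct.tmul_mul_tmul, dk_sq, tmul_zero]

end

theorem isBC_pullk {k k' P P' B B' : Type} [CommRing k] [CommRing k'] [CommRing P] [CommRing P']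
    [CommRing B] [CommRing B'] [Algebra k k'] [Algebra k P] [Algebra P B] [Algebra k B]
    [IsScalarTower k P B] [Algebra k' P'] [Algebra P' B'] [Algebra k' B'] [IsScalarTower k' P' B']
    (φ : B →+* B') (hφ : IsBC k k' φ) (h : Compat P P' φ)
    (hP : ∀ c : P', algebraMap P' B' c ∈
      Algebra.adjoin k' (Set.range fun c : P => φ (algebraMap P B c))) :
    IsBC k k' (pullk φ h) := by
  obtain ⟨e, he⟩ := hφ.exists_algEquiv φ
  have he' : ∀ b, e.symm (φ b) = 1 ⊗ₜ b := fun b => e.symm_apply_eq.2 (he b).symm
  have hc : ∀ c : k', e.symm (algebraMap k' B' c) = c ⊗ₜ 1 := fun c => e.symm.commutes c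
  have hk : ∀ c : k, φ (algebraMap k B c) = algebraMap k' B' (algebraMap k k' c) := fun c => by
    rw [Algebra.algebraMap_eq_smul_one, hφ.map_smul, map_one, ← Algebra.algebraMap_eq_smul_one]
  obtain ⟨F, hF, hF'⟩ := exists_lift (k := P')
    ((BCPull_al k P B k').toRingHom.comp e.symm.toAlgHom.toRingHom)
    ((BCPull_de k P B k').toAddMonoidHom.comp e.symm.toAlgHom.toRingHom.toAddMonoidHom)
    (fun a b => BCPull_comm _ _)
    (fun a b => (congrArg (BCPull_de k P B k') (map_mul e.symm a b)).trans (BCPull_leib _ _))
    (fun c => by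
      change BCPull_de k P B k' (e.symm (algebraMap P' B' c)) = 0
      have hy := hP c
      generalize algebraMap P' B' c = y at hy
      induction hy using Algebra.adjoin_induction with
      | mem y hy =>
        obtain ⟨c, rfl⟩ := hy
        rw [he', BCPull_de_tmul, dk_algebraMap, tmul_zero]
      | algebraMap r => rw [hc, BCPull_de_tmul, dk_one, tmul_zero]
      | add x y _ _ hx hy => rw [map_add, map_add, hx, hy, add_zero]
      | mul x y _ _ hx hy => rw [map_mul, BCPull_leib, hx, hy, mul_zero, mul_zero, add_zero])
    (fun a => BCPull_sq _)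
  have hFp : F.comp (pullk φ h) =
      (Algebra.TensorProduct.includeRight (R := k) (A := k') (B := DRk P B)).toRingHom :=
    DR_ext (fun a => by
        rw [RingHom.comp_apply, pullk_fn, hF]
        exact congrArg (BCPull_al k P B k') (he' a))
      fun a => by
        rw [RingHom.comp_apply, pullk_dk, hF']
        exact congrArg (BCPull_de k P B k') (he' a)
  let _ : Module k (DRk P' B') := Module.compHom _ (algebraMap k k')
  have : IsScalarTower k k' (DRk P' B') :=
    ⟨fun c d x => by rw [Algebra.smul_def c d, mul_smul]; rfl⟩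
  let f : DRk P B →ₗ[k] DRk P' B' :=
    { toFun := pullk φ h
      map_add' := map_add _
      map_smul' := fun c x => by
        rw [BCPull_smul, map_mul, pullk_fn, hk, ← BCPull_smul]
        rfl }
  have hΨ : ∀ c x, f.liftBaseChange k' (c ⊗ₜ x) = c • pullk φ h x := fun c x =>
    LinearMap.liftBaseChange_tmul k' f c x
  have hl : ∀ t, F (f.liftBaseChange k' t) = t := fun t => by
    induction t using TensorProduct.induction_on with
    | zero => rw [map_zero, map_zero]
    | add s t hs ht => rw [map_add, map_add, hs, ht]
    | tmul c x =>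
      rw [hΨ, BCPull_smul, map_mul, hF, show F (pullk φ h x) = 1 ⊗ₜ x from
        DFunLike.congr_fun hFp x]
      change BCPull_al k P B k' (e.symm (algebraMap k' B' c)) * _ = _
      rw [hc, BCPull_al_tmul, Algebra.TensorProduct.tmul_mul_tmul, map_one, mul_one, one_mul]
  have hm : ∀ s t, f.liftBaseChange k' (s * t) = f.liftBaseChange k' s * f.liftBaseChange k' t := by
    intro s t
    induction s using TensorProduct.induction_on with
    | zero => simp
    | add s s' h h' => rw [add_mul, map_add, map_add, add_mul, h, h']
    | tmul c x =>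
      induction t using TensorProduct.induction_on with
      | zero => simp
      | add t t' h h' => rw [mul_add, map_add, map_add, mul_add, h, h']
      | tmul d y =>
        rw [Algebra.TensorProduct.tmul_mul_tmul, hΨ, hΨ, hΨ, map_mul, smul_mul_smul_comm]
  have hs : Function.Surjective (f.liftBaseChange k') := fun y => by
    induction y using DR_induction with
    | h0 a =>
      induction a using hφ.induction with
      | h0 => exact ⟨0, by rw [map_zero, map_zero]⟩
      | h1 c b =>
        exact ⟨c ⊗ₜ fn P b, by rw [hΨ, pullk_fn, BCPull_smul, Algebra.smul_def, map_mul]⟩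
      | hadd x y hx hy =>
        obtain ⟨s, hs⟩ := hx
        obtain ⟨t, ht⟩ := hy
        exact ⟨s + t, by rw [map_add, map_add, hs, ht]⟩
    | h1 a =>
      induction a using hφ.induction with
      | h0 => exact ⟨0, by rw [map_zero, dk_zero]⟩
      | h1 c b => exact ⟨c ⊗ₜ dk P b, by rw [hΨ, pullk_dk, BCPull_dk_smul]⟩
      | hadd x y hx hy =>
        obtain ⟨s, hs⟩ := hx
        obtain ⟨t, ht⟩ := hy
        exact ⟨s + t, by rw [map_add, dk_add, hs, ht]⟩
    | hadd x y hx hy =>
      obtain ⟨s, rfl⟩ := hx
      obtain ⟨t, rfl⟩ := hy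
      exact ⟨s + t, map_add _ _ _⟩
    | hmul x y hx hy =>
      obtain ⟨s, rfl⟩ := hx
      obtain ⟨t, rfl⟩ := hy
      exact ⟨s * t, hm s t⟩
  exact ⟨LinearEquiv.ofBijective _ ⟨Function.LeftInverse.injective hl, hs⟩,
    fun x => (hΨ 1 x).trans (one_smul _ _)⟩

end Pool.Agent.P.MP_824f38_ag.V
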