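import Pool.Agent.P.MP_824f38_ag.V.CartDefs

set_option linter.style.haveILetI false
set_option linter.unusedVariables false
set_option linter.unusedSectionVars false

namespace Pool.Agent.P.MP_824f38_ag.V

variable {p : ℕ} [Fact p.Prime] {P B : Type} [CommRing P] [CommRing B] [Algebra P B]

/-- the form `∏ a_t ^ (p - 1) d a_t` -/
noncomputable def cw (p : ℕ) (P : Type) [CommRing P] [Algebra P B] {i : ℕ} (a : Fin i → B) :
    DRk P B := fn P (∏ t, a t ^ (p - 1)) * wdk P a

theorem CartA_c1_closed (n : ℕ) (a : B) : dR (fn P (a ^ n) * dk P a) = 0 := by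
  rcases n with _ | n
  · simp
  · rw [dR_mul, dR_fn, dR_dk, mul_zero, add_zero, dk_pow, mul_assoc, dk_sq, mul_zero]

theorem CartA_cw_zero (a : Fin 0 → B) : cw p P a = 1 := by simp [cw]

theorem CartA_cw_succ {i : ℕ} (a : Fin (i + 1) → B) :
    cw p P a = fn P (a 0 ^ (p - 1)) * dk P (a 0) * cw p P (fun t => a t.succ) := by
  unfold cw
  rw [Fin.prod_univ_succ, wdk_succ, map_mul, mul_assoc, mul_assoc, ← mul_assoc (dk P (a 0)),
    ← fn_comm _ (dk P (a 0)), mul_assoc]

/- `d (a ^ (p - 1) d a) = 0` because `d a * d a = 0`; `dk_pow_char`; `DR_induction` -/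
theorem IsCart.closed (hp : (p : B) = 0) {Θ : DRk P B →+* DRk P B} (h : IsCart p Θ)
    (ω : DRk P B) : dR (Θ ω) = 0 := by
  induction ω using DR_induction with
  | h0 a => rw [h.fn, dR_fn, dk_pow_char p hp]
  | h1 a =>
    obtain ⟨u, hu⟩ := h.dk a
    rw [hu, map_add, CartA_c1_closed, dR_dk, add_zero]
  | hadd x y hx hy => rw [map_add, map_add, hx, hy, add_zero]
  | hmul x y hx hy => rw [map_mul, dR_mul, hx, hy, zero_mul, mul_zero, add_zero]

theorem CartA_dk_mem {Θ : DRk P B →+* DRk P B} (h : IsCart p Θ) (a : B) :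
    Θ (dk P a) ∈ Fk P B 1 := by
  obtain ⟨u, hu⟩ := h.dk a
  rw [hu]
  exact add_mem (fn_mul_mem _ (dk_mem _)) (dk_mem _)

theorem IsCart.mem {Θ : DRk P B →+* DRk P B} (h : IsCart p Θ) {i : ℕ} {ω : DRk P B}
    (hω : ω ∈ Fk P B i) : Θ ω ∈ Fk P B i := by
  induction hω using Fk_induction with
  | h0 a => rw [h.fn]; exact fn_mem _
  | hz q => simp
  | hadd q x y _ _ h1 h2 => rw [map_add]; exact add_mem h1 h2
  | hs q a b x hx ih =>
    rw [map_mul, map_mul, h.fn, mul_assoc, add_comm q 1]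
    exact fn_mul_mem _ (mul_mem (CartA_dk_mem h b) ih)

theorem cw_closed {i : ℕ} (a : Fin i → B) : dR (cw p P a) = 0 := by
  induction i with
  | zero => rw [CartA_cw_zero, dR_one]
  | succ i ih =>
    rw [CartA_cw_succ, dR_mul, CartA_c1_closed, ih, zero_mul, mul_zero, add_zero]

theorem CartA_wdk {Θ : DRk P B →+* DRk P B} (h : IsCart p Θ) {i : ℕ} (a : Fin i → B) :
    ∃ η, Θ (wdk P a) = cw p P a + dR η := by
  induction i with
  | zero => exact ⟨0, by rw [wdk_zero, CartA_cw_zero, map_one, map_zero, add_zero]⟩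
  | succ i ih =>
    obtain ⟨η, hη⟩ := ih (fun t => a t.succ)
    obtain ⟨u, hu⟩ := h.dk (a 0)
    refine ⟨fn P u * (cw p P (fun t => a t.succ) + dR η) -
      fn P (a 0 ^ (p - 1)) * dk P (a 0) * η, ?_⟩
    rw [wdk_succ, map_mul, hη, hu, CartA_cw_succ, map_sub, dR_mul (fn P u), map_add dR, cw_closed,
      dR_dR, add_zero, mul_zero, add_zero, dR_fn, dR_mul _ η, CartA_c1_closed, zero_mul, zero_add,
      map_mul inv, inv_fn, inv_dk]
    simp only [mul_neg, neg_mul, add_mul, mul_add]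
    abel

/- induction on `i`: a product of closed forms, each changed by an exact form, changes by an
exact form -/
theorem IsCart.wdk (hp : (p : B) = 0) {Θ : DRk P B →+* DRk P B} (h : IsCart p Θ) {i : ℕ} (b : B)
    (a : Fin i → B) : ∃ η, Θ (V.fn P b * V.wdk P a) = V.fn P (b ^ p) * cw p P a + dR η := by
  obtain ⟨η, hη⟩ := CartA_wdk h a
  exact ⟨V.fn P (b ^ p) * η, by
    rw [map_mul, h.fn, hη, mul_add, dR_fn_mul (dk_pow_char p hp b)]⟩

/-- the Frobenius map of a ring killed by `p` -/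
def CartA_frob (hp : (p : B) = 0) : B →+* B where
  toFun a := a ^ p
  map_one' := one_pow p
  map_mul' a b := mul_pow a b p
  map_zero' := zero_pow (Fact.out : p.Prime).ne_zero
  map_add' a b := by
    obtain ⟨r, hr⟩ := exists_add_pow_prime_eq (Fact.out : p.Prime) a b
    rw [hr, hp]; simp

theorem CartA_pow (a : B) : a ^ p = a ^ (p - 1) * a := by
  rw [← pow_succ, Nat.sub_add_cancel (Fact.out : p.Prime).one_le]

theorem CartA_Q_mul (hp : (p : B) = 0) (D : B → DRk P B)
    (hD : ∀ a b, D (a * b) = fn P (a ^ p) * D b + fn P (b ^ p) * D a) {x y : B}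
    (hx : ∃ u, D x = fn P (x ^ (p - 1)) * dk P x + dk P u)
    (hy : ∃ u, D y = fn P (y ^ (p - 1)) * dk P y + dk P u) :
    ∃ u, D (x * y) = fn P ((x * y) ^ (p - 1)) * dk P (x * y) + dk P u := by
  obtain ⟨u, hu⟩ := hx
  obtain ⟨v, hv⟩ := hy
  refine ⟨x ^ p * v + y ^ p * u, ?_⟩
  rw [hD, hu, hv, dk_add, dk_mul (x ^ p), dk_mul (y ^ p), dk_pow_char p hp, dk_pow_char p hp,
    dk_mul]
  simp only [← smul_eq, smul_add, smul_smul, smul_zero, add_zero]
  rw [CartA_pow (p := p) x, CartA_pow (p := p) y]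
  module

theorem CartA_Q_inv (hp : (p : B) = 0) (D : B → DRk P B) (h1 : D 1 = 0)
    (hD : ∀ a b, D (a * b) = fn P (a ^ p) * D b + fn P (b ^ p) * D a) {x y : B} (hxy : x * y = 1)
    (hx : ∃ u, D x = fn P (x ^ (p - 1)) * dk P x + dk P u) :
    ∃ u, D y = fn P (y ^ (p - 1)) * dk P y + dk P u := by
  obtain ⟨u, hu⟩ := hx
  refine ⟨-((y * y) ^ p * u), ?_⟩
  have e1 := hD x y
  rw [hxy, h1, hu] at e1
  have e2 := dk_mul (k := P) x y
  rw [hxy, dk_one] at e2
  rw [dk_neg, dk_mul ((y * y) ^ p), dk_pow_char p hp]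
  simp only [← smul_eq, smul_add, smul_smul, smul_zero, add_zero] at e1 e2 ⊢
  have e3 : (x * y) ^ (p - 1) = 1 := by rw [hxy, one_pow]
  have e4 : D y = (y ^ p * x ^ p) • D y := by
    rw [← mul_pow, mul_comm y x, hxy, one_pow, one_smul]
  have e5 : dk P y = (y * x) • dk P y := by rw [mul_comm y x, hxy, one_smul]
  have e6 : x ^ p • D y = -((y ^ p * x ^ (p - 1)) • dk P x + y ^ p • dk P u) :=
    eq_neg_of_add_eq_zero_left e1.symm
  have e7 : x • dk P y = -(y • dk P x) := eq_neg_of_add_eq_zero_left e2.symm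
  have e8 : y ^ p * (y ^ p * x ^ (p - 1)) = y ^ (p - 1) * (y * y) := by
    rw [CartA_pow (p := p) y]
    linear_combination (y ^ (p - 1) * y * y) * e3
  rw [e4, mul_smul, e6, e5, mul_smul y x, e7, smul_neg, smul_add, smul_smul, e8, mul_pow y y p]
  module

/- Extension to a localisation. The ring map `B → TrivSqZeroExt B' (Fk P B' 1)` (or into upper
triangular matrices over `DRk P B'`, restricted to a commutative subring),
`a ↦ (a ^ p, pull (Θ (d a)))`, sends `f` to a unit; `IsLocalization.Away.lift` extends it to `B'`;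
the first component is the Frobenius map, the second a twisted derivation `D'`; `exists_lift`.
The set of `a` with `D' a = a ^ (p - 1) d a + d u` is closed under products and inverses. -/
theorem IsCart.extend (hp : (p : B) = 0) {B' : Type} [CommRing B'] [Algebra B B'] [Algebra P B']
    [IsScalarTower P B B'] (f : B) [IsLocalization.Away f B'] (hc : Compat P P (algebraMap B B'))
    {Θ : DRk P B →+* DRk P B} (h : IsCart p Θ) : ∃ Θ' : DRk P B' →+* DRk P B', IsCart p Θ' ∧
      ∀ ω, Θ' (pullk (algebraMap B B') hc ω) = pullk (algebraMap B B') hc (Θ ω) := by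
  letI : Module B'ᵐᵒᵖ (KaehlerDifferential P B') :=
    Module.compHom _ ((RingHom.id B').fromOpposite mul_comm)
  haveI : IsCentralScalar B' (KaehlerDifferential P B') := ⟨fun r m => rfl⟩
  have hp' : (p : B') = 0 := by rw [← map_natCast (algebraMap B B'), hp, map_zero]
  let D₀ : B →+ KaehlerDifferential P B' := ExteriorAlgebra.ιInv.toAddMonoidHom.comp
    (((pullk (algebraMap B B') hc).comp Θ).toAddMonoidHom.comp (dkHom P))
  have hD₀ : ∀ a, D₀ a = ExteriorAlgebra.ιInv (pullk (algebraMap B B') hc (Θ (V.dk P a))) :=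
    fun _ => rfl
  have hι : ∀ a, ExteriorAlgebra.ι B' (D₀ a) = pullk (algebraMap B B') hc (Θ (V.dk P a)) := by
    intro a
    have hm := pullk_mem (algebraMap B B') hc (CartA_dk_mem h a)
    change _ ∈ _ ^ 1 at hm
    rw [pow_one] at hm
    obtain ⟨m, hm⟩ := hm
    rw [hD₀, ← hm, ExteriorAlgebra.ι_leftInverse m]
  have hmul : ∀ a b, D₀ (a * b) =
      algebraMap B B' a ^ p • D₀ b + algebraMap B B' b ^ p • D₀ a := by
    intro a b
    rw [hD₀, hD₀, hD₀, dk_mul, map_add, map_mul, map_mul, h.fn, h.fn, map_add, map_mul, map_mul,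
      pullk_fn, pullk_fn, ← smul_eq, ← smul_eq, map_add, map_smul, map_smul, map_pow, map_pow]
  let Ψ : B →+* TrivSqZeroExt B' (KaehlerDifferential P B') :=
    { toFun := fun a => (algebraMap B B' a ^ p, D₀ a)
      map_one' := TrivSqZeroExt.ext (by simp) (by
        change D₀ 1 = 0
        rw [hD₀]; simp)
      map_mul' := fun a b => TrivSqZeroExt.ext (by
          change algebraMap B B' (a * b) ^ p = algebraMap B B' a ^ p * algebraMap B B' b ^ p
          rw [map_mul, mul_pow]) (hmul a b)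
      map_zero' := TrivSqZeroExt.ext (by
          change algebraMap B B' 0 ^ p = 0
          rw [map_zero, zero_pow (Fact.out : p.Prime).ne_zero]) (map_zero D₀)
      map_add' := fun a b => TrivSqZeroExt.ext (by
          change algebraMap B B' (a + b) ^ p = algebraMap B B' a ^ p + algebraMap B B' b ^ p
          rw [map_add]; exact map_add (CartA_frob hp') _ _) (map_add D₀ a b) }
  have hu : IsUnit (Ψ f) := TrivSqZeroExt.isUnit_iff_isUnit_fst.2
    ((IsLocalization.Away.algebraMap_isUnit (S := B') f).pow p)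
  let Ψ' : B' →+* TrivSqZeroExt B' (KaehlerDifferential P B') := IsLocalization.Away.lift f hu
  have hΨ : ∀ a, Ψ' (algebraMap B B' a) = Ψ a := IsLocalization.Away.lift_eq f hu
  have hfst : ∀ x, (Ψ' x).fst = x ^ p := fun x =>
    DFunLike.congr_fun (IsLocalization.ringHom_ext (Submonoid.powers f)
      (j := (TrivSqZeroExt.fstHom B' B' (KaehlerDifferential P B')).toRingHom.comp Ψ')
      (k := CartA_frob hp') (RingHom.ext fun a => congrArg TrivSqZeroExt.fst (hΨ a))) x
  let D' : B' →+ DRk P B' := (ExteriorAlgebra.ι B').toAddMonoidHom.comp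
    ((TrivSqZeroExt.sndHom B' (KaehlerDifferential P B')).toAddMonoidHom.comp Ψ'.toAddMonoidHom)
  have hD' : ∀ x, D' x = ExteriorAlgebra.ι B' (Ψ' x).snd := fun _ => rfl
  have hD'a : ∀ a, D' (algebraMap B B' a) = pullk (algebraMap B B') hc (Θ (V.dk P a)) :=
    fun a => by rw [hD', hΨ]; exact hι a
  have hD'm : ∀ x y, D' (x * y) = V.fn P (x ^ p) * D' y + V.fn P (y ^ p) * D' x := by
    intro x y
    rw [hD', hD', hD', map_mul, TrivSqZeroExt.snd_mul, op_smul_eq_smul, hfst, hfst, map_add,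
      map_smul, map_smul, smul_eq, smul_eq]
  have hD'1 : D' 1 = 0 := by
    have := hD'a 1
    rwa [map_one, dk_one, map_zero, map_zero] at this
  obtain ⟨Θ', h0, h1⟩ := exists_lift (k := P) ((V.fn P).comp (CartA_frob hp')) D'
    (fun a b => fn_comm _ _) hD'm
    (fun c => by
      rw [IsScalarTower.algebraMap_apply P B B', hD'a, dk_algebraMap, map_zero, map_zero])
    (fun a => ExteriorAlgebra.ι_sq_zero _)
  have hQ : ∀ a, ∃ u, D' (algebraMap B B' a) =
      V.fn P (algebraMap B B' a ^ (p - 1)) * V.dk P (algebraMap B B' a) + V.dk P u := by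
    intro a
    obtain ⟨u, hu⟩ := h.dk a
    exact ⟨algebraMap B B' u, by
      rw [hD'a, hu, map_add, map_mul, pullk_fn, pullk_dk, pullk_dk, map_pow]⟩
  refine ⟨Θ', ⟨h0, fun x => ?_⟩, fun ω => DFunLike.congr_fun (DR_ext
    (F := Θ'.comp (pullk (algebraMap B B') hc)) (G := (pullk (algebraMap B B') hc).comp Θ)
    (fun a => ?_) (fun a => ?_)) ω⟩
  · rw [h1]
    obtain ⟨n, a, hx⟩ := IsLocalization.Away.surj f x
    obtain ⟨y, hy⟩ := ((IsLocalization.Away.algebraMap_isUnit (S := B') f).pow n).exists_right_inv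
    have e : x = algebraMap B B' a * y := by rw [← hx, mul_assoc, hy, mul_one]
    rw [← map_pow] at hy
    rw [e]
    exact CartA_Q_mul hp' D' hD'm (hQ a) (CartA_Q_inv hp' D' hD'1 hD'm hy (hQ _))
  · rw [RingHom.comp_apply, RingHom.comp_apply, pullk_fn, h0, h.fn, pullk_fn, map_pow]; rfl
  · rw [RingHom.comp_apply, RingHom.comp_apply, pullk_dk, h1, hD'a]

end Pool.Agent.P.MP_824f38_ag.V
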