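import Pool.Agent.P.MP_824f38_ag.V.CartA

set_option linter.unusedVariables false
set_option linter.unusedSectionVars false

namespace Pool.Agent.P.MP_824f38_ag.V

variable {p : ℕ} [Fact p.Prime] {P B : Type} [CommRing P] [CommRing B] [Algebra P B]

/-- the Euler derivation `x t * ∂ t` -/
noncomputable def CartB_th {n : ℕ} (x : Fin n → B)
    (β : Module.Basis (Fin n) B (KaehlerDifferential P B)) (t : Fin n) : Derivation P B B :=
  x t • (β.coord t).compDer (KaehlerDifferential.D P B)

theorem CartB_th_x {n : ℕ} (x : Fin n → B) (β : Module.Basis (Fin n) B (KaehlerDifferential P B))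
    (hβ : ∀ t, β t = KaehlerDifferential.D P B (x t)) (t u : Fin n) :
    CartB_th x β t (x u) = if u = t then x u else 0 := by
  change x t • β.coord t (KaehlerDifferential.D P B (x u)) = _
  rw [← hβ, Module.Basis.coord_apply, Module.Basis.repr_self, Finsupp.single_apply]
  split_ifs with h
  · rw [h, smul_eq_mul, mul_one]
  · rw [smul_zero]

theorem CartB_th_mon {n : ℕ} (x : Fin n → B) (β : Module.Basis (Fin n) B (KaehlerDifferential P B))
    (hβ : ∀ t, β t = KaehlerDifferential.D P B (x t)) (t : Fin n) (e : Fin n → ℕ)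
    (S : Finset (Fin n)) :
    CartB_th x β t (∏ u ∈ S, x u ^ e u) = (if t ∈ S then e t else 0) • ∏ u ∈ S, x u ^ e u := by
  classical
  induction S using Finset.induction_on with
  | empty => simp
  | insert u S hu ih =>
    rw [Finset.prod_insert hu, Derivation.leibniz, ih, Derivation.leibniz_pow, CartB_th_x x β hβ]
    by_cases h : u = t
    · subst h
      rw [if_neg hu, if_pos rfl, if_pos (Finset.mem_insert_self _ _)]
      rcases e u with _ | m
      · simp
      · simp only [Nat.add_sub_cancel, zero_smul, smul_zero, zero_add, smul_eq_mul, nsmul_eq_mul]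
        ring
    · have h2 : (t ∈ insert u S) ↔ t ∈ S := by
        rw [Finset.mem_insert]; exact ⟨fun h' => h'.resolve_left (Ne.symm h), Or.inr⟩
      rw [if_neg h]
      simp only [h2, smul_zero, add_zero, smul_eq_mul, nsmul_eq_mul]
      ring

theorem CartB_der_pow (hp : (p : B) = 0) (θ : Derivation P B B) (c : B) : θ (c ^ p) = 0 := by
  rw [Derivation.leibniz_pow, nsmul_eq_mul, hp, zero_mul]

theorem CartB_lie_wdk {n : ℕ} (x : Fin n → B)
    (β : Module.Basis (Fin n) B (KaehlerDifferential P B))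
    (hβ : ∀ t, β t = KaehlerDifferential.D P B (x t)) (t : Fin n) {i : ℕ} (j : Fin i → Fin n) :
    lie (CartB_th x β t) (wdk P (fun a => x (j a))) =
      (∑ a, if j a = t then 1 else 0 : ℕ) • wdk P (fun a => x (j a)) := by
  induction i with
  | zero =>
    rw [wdk_zero, ← map_one (fn P), lie_fn]
    simp
  | succ i ih =>
    rw [wdk_succ, lie_mul, ih, lie_dk, CartB_th_x x β hβ, Fin.sum_univ_succ, add_smul,
      mul_smul_comm]
    congr 1
    split_ifs <;> simp

/-- the increasing enumeration of `I` -/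
noncomputable def CartB_emb {n : ℕ} (I : Finset (Fin n)) : Fin I.card → Fin n :=
  I.orderEmbOfFin rfl

theorem CartB_sum_emb {n : ℕ} (I : Finset (Fin n)) {M : Type} [CommMonoid M] (f : Fin n → M) :
    ∏ a, f (CartB_emb I a) = ∏ u ∈ I, f u := by
  refine Finset.prod_bij (fun a _ => CartB_emb I a) (fun a _ => Finset.orderEmbOfFin_mem _ _ _)
    (fun a _ b _ hab => (I.orderEmbOfFin rfl).injective hab) (fun u hu => ?_) (fun _ _ => rfl)
  have : u ∈ Set.range (I.orderEmbOfFin rfl) := by
    rw [Finset.range_orderEmbOfFin]; exact hu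
  obtain ⟨a, ha⟩ := this
  exact ⟨a, Finset.mem_univ _, ha⟩

theorem CartB_count {n : ℕ} (I : Finset (Fin n)) (t : Fin n) :
    (∑ a, if CartB_emb I a = t then 1 else 0 : ℕ) = if t ∈ I then 1 else 0 := by
  have := CartB_sum_emb I (M := Multiplicative ℕ)
    (fun u => Multiplicative.ofAdd (if u = t then 1 else 0))
  rw [← ofAdd_sum, ← ofAdd_sum] at this
  rw [Multiplicative.ofAdd.injective this, Finset.sum_ite_eq']

theorem CartB_basis {n : ℕ} (x : Fin n → B)
    (β : Module.Basis (Fin n) B (KaehlerDifferential P B))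
    (hβ : ∀ t, β t = KaehlerDifferential.D P B (x t)) (I : Finset (Fin n)) :
    β.ExteriorAlgebra I = wdk P (fun a => x (CartB_emb I a)) := by
  rw [ExteriorAlgebra.basis_apply_ofCard β rfl, wdk_eq_ιMulti]
  exact congrArg (ExteriorAlgebra.ιMulti B I.card) (funext fun a => hβ _)

/-- the monomial forms -/
noncomputable def CartB_g (p : ℕ) {n : ℕ} (x : Fin n → B) (c : B) (σ : P) (e : Fin n → ℕ)
    (I : Finset (Fin n)) : DRk P B :=
  fn P (c ^ p * (algebraMap P B σ * ∏ t, x t ^ e t)) * wdk P (fun a => x (CartB_emb I a))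

theorem CartB_lie_g (hp : (p : B) = 0) {n : ℕ} (x : Fin n → B)
    (β : Module.Basis (Fin n) B (KaehlerDifferential P B))
    (hβ : ∀ t, β t = KaehlerDifferential.D P B (x t)) (t : Fin n) (c : B) (σ : P)
    (e : Fin n → ℕ) (I : Finset (Fin n)) :
    lie (CartB_th x β t) (CartB_g p x c σ e I) =
      (e t + if t ∈ I then 1 else 0) • CartB_g p x c σ e I := by
  unfold CartB_g
  rw [lie_mul, lie_fn, CartB_lie_wdk x β hβ, CartB_count, Derivation.leibniz, Derivation.leibniz,
    CartB_der_pow hp, Derivation.map_algebraMap, CartB_th_mon x β hβ, if_pos (Finset.mem_univ _),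
    add_smul, mul_smul_comm, ← smul_mul_assoc (e t), ← map_nsmul]
  congr 3
  simp only [smul_eq_mul, nsmul_eq_mul]
  ring

theorem CartB_fermat (hp : (p : B) = 0) (T : AddMonoid.End (DRk P B)) (y : DRk P B) (N : ℕ)
    (hT : T y = N • y) : (1 - T ^ (p - 1)) y = if p ∣ N then y else 0 := by
  have hpow : ∀ m : ℕ, (T ^ m) y = N ^ m • y := by
    intro m
    induction m with
    | zero => simp
    | succ m ih =>
      rw [pow_succ', AddMonoid.End.coe_mul, Function.comp_apply, ih, map_nsmul, hT, smul_smul,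
        pow_succ]
  have hpy : ∀ z : DRk P B, p • z = 0 := fun z => by
    rw [← Nat.cast_smul_eq_nsmul B, hp, zero_smul]
  have hP : p.Prime := Fact.out
  change y - (T ^ (p - 1)) y = _
  rw [hpow]
  split_ifs with h
  · obtain ⟨m, hm⟩ : p ∣ N ^ (p - 1) := dvd_pow h (by have := hP.two_le; omega)
    rw [hm, mul_smul, hpy, sub_zero]
  · have h1 : N ^ (p - 1) ≡ 1 [MOD p] := by
      have := Nat.ModEq.pow_totient ((Nat.coprime_comm.1 ((Nat.Prime.coprime_iff_not_dvd hP).2 h)))
      rwa [Nat.totient_prime hP] at this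
    have h2 : N ^ (p - 1) = p * (N ^ (p - 1) / p) + 1 := by
      have := Nat.div_add_mod (N ^ (p - 1)) p
      rw [h1, Nat.mod_eq_of_lt hP.one_lt] at this
      exact this.symm
    rw [h2, add_smul, mul_smul, hpy, one_smul, zero_add, sub_self]

/-- the Lie derivative as an endomorphism -/
noncomputable def CartB_L (θ : Derivation P B B) : AddMonoid.End (DRk P B) := lie θ

/-- the projector attached to a list of derivations -/
noncomputable def CartB_pr (p : ℕ) {n : ℕ} (θ : Fin n → Derivation P B B) (l : List (Fin n)) :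
    AddMonoid.End (DRk P B) :=
  (l.map fun t => 1 - CartB_L (θ t) ^ (p - 1)).prod

theorem CartB_pr_cons {n : ℕ} (θ : Fin n → Derivation P B B) (t : Fin n) (l : List (Fin n))
    (y : DRk P B) : CartB_pr p θ (t :: l) y =
      (1 - CartB_L (θ t) ^ (p - 1)) (CartB_pr p θ l y) := rfl

theorem CartB_pr_eig (hp : (p : B) = 0) {n : ℕ} (θ : Fin n → Derivation P B B) (y : DRk P B)
    (N : Fin n → ℕ) (hy : ∀ t, lie (θ t) y = N t • y) (l : List (Fin n)) :
    CartB_pr p θ l y = if ∀ t ∈ l, p ∣ N t then y else 0 := by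
  induction l with
  | nil => simp [CartB_pr]
  | cons t l ih =>
    rw [CartB_pr_cons, ih]
    by_cases h : ∀ u ∈ l, p ∣ N u
    · rw [if_pos h, CartB_fermat hp (CartB_L (θ t)) y (N t) (hy t)]
      by_cases h' : p ∣ N t
      · have h2 : ∀ u ∈ t :: l, p ∣ N u := List.forall_mem_cons.2 ⟨h', h⟩
        rw [if_pos h', if_pos h2]
      · have h2 : ¬ ∀ u ∈ t :: l, p ∣ N u := fun h2 => h' (List.forall_mem_cons.1 h2).1
        rw [if_neg h', if_neg h2]
    · have h2 : ¬ ∀ u ∈ t :: l, p ∣ N u := fun h2 => h (List.forall_mem_cons.1 h2).2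
      rw [if_neg h, map_zero, if_neg h2]

theorem CartB_pow_dR (θ : Derivation P B B) (m : ℕ) (y : DRk P B) :
    (CartB_L θ ^ m) (dR y) =
      dR ((CartB_L θ ^ m) y) := by
  induction m with
  | zero => rfl
  | succ m ih =>
    rw [pow_succ', AddMonoid.End.coe_mul, Function.comp_apply, Function.comp_apply, ih]
    exact lie_dR θ _

theorem CartB_pr_dR {n : ℕ} (θ : Fin n → Derivation P B B) (l : List (Fin n)) (y : DRk P B) :
    CartB_pr p θ l (dR y) = dR (CartB_pr p θ l y) := by
  induction l with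
  | nil => rfl
  | cons t l ih =>
    rw [CartB_pr_cons, CartB_pr_cons, ih]
    change dR (CartB_pr p θ l y) - (CartB_L (θ t) ^ (p - 1)) (dR (CartB_pr p θ l y)) =
      dR (CartB_pr p θ l y - (CartB_L (θ t) ^ (p - 1)) (CartB_pr p θ l y))
    rw [map_sub, CartB_pow_dR]

theorem CartB_pr_closed {n : ℕ} (θ : Fin n → Derivation P B B) (l : List (Fin n)) (y : DRk P B)
    (hy : dR y = 0) : ∃ η, CartB_pr p θ l y = y + dR η := by
  induction l with
  | nil => exact ⟨0, by simp [CartB_pr]⟩
  | cons t l ih =>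
    obtain ⟨η, hη⟩ := ih
    have hP : p.Prime := Fact.out
    obtain ⟨m, hm⟩ : ∃ m, p - 1 = m + 1 := ⟨p - 2, by have := hP.two_le; omega⟩
    have hz : dR (y + dR η) = 0 := by rw [map_add, hy, dR_dR, add_zero]
    refine ⟨η - (CartB_L (θ t) ^ m) (iota (θ t) (y + dR η)), ?_⟩
    rw [CartB_pr_cons, hη, hm, map_sub, ← CartB_pow_dR, ← add_sub_assoc]
    change (y + dR η) - (CartB_L (θ t) ^ (m + 1)) (y + dR η) = _
    rw [pow_succ, AddMonoid.End.coe_mul, Function.comp_apply]
    congr 2
    change lie (θ t) _ = _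
    rw [lie_def, hz, map_zero, add_zero]

/-- the exponent `(p - 1) 1_I` -/
def CartB_e (p : ℕ) [Fact p.Prime] {n : ℕ} (I : Finset (Fin n)) (t : Fin n) : Fin p :=
  if t ∈ I then ⟨p - 1, Nat.sub_one_lt (Fact.out : p.Prime).ne_zero⟩
  else ⟨0, (Fact.out : p.Prime).pos⟩

theorem CartB_e_iff {n : ℕ} (I : Finset (Fin n)) (e : Fin n → Fin p) :
    (∀ t ∈ List.finRange n, p ∣ (e t : ℕ) + if t ∈ I then 1 else 0) ↔ e = CartB_e p I := by
  have hP : p.Prime := Fact.out
  constructor
  · intro h
    funext t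
    have h1 := h t (List.mem_finRange t)
    have h2 := (e t).2
    unfold CartB_e
    split_ifs at h1 ⊢ with ht
    · have := Nat.le_of_dvd (Nat.succ_pos _) h1
      exact Fin.ext (by simp only; omega)
    · exact Fin.ext (Nat.eq_zero_of_dvd_of_lt h1 h2)
  · rintro rfl t _
    unfold CartB_e
    split_ifs with ht
    · simp only
      rw [Nat.sub_add_cancel hP.one_le]
    · simp

theorem CartB_g_cw {n : ℕ} (x : Fin n → B) (c : B) (σ : P) (I : Finset (Fin n)) :
    CartB_g p x c σ (fun t => CartB_e p I t) I =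
      fn P (algebraMap P B σ) * (fn P (c ^ p) * cw p P (fun a => x (CartB_emb I a))) := by
  unfold CartB_g cw
  rw [CartB_sum_emb I (fun u => x u ^ (p - 1)), ← mul_assoc (fn P (c ^ p)), ← map_mul,
    ← mul_assoc (fn P (algebraMap P B σ)), ← map_mul]
  congr 2
  have : ∏ t, x t ^ (CartB_e p I t : ℕ) = ∏ u ∈ I, x u ^ (p - 1) := by
    rw [← Finset.prod_subset (Finset.subset_univ I) (fun t _ ht => by simp [CartB_e, ht])]
    exact Finset.prod_congr rfl (fun t ht => by simp [CartB_e, ht])
  rw [this]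
  ring

/-- the general element of the image of the projector -/
noncomputable def CartB_W (p : ℕ) [Fact p.Prime] {E : Type} [Fintype E] (s : E → P) {n : ℕ}
    (x : Fin n → B) (c : E → Finset (Fin n) → B) : DRk P B :=
  ∑ I, ∑ r, CartB_g p x (c r I) (s r) (fun t => CartB_e p I t) I

theorem CartB_W_closed (hp : (p : B) = 0) {E : Type} [Fintype E] (s : E → P) {n : ℕ}
    (x : Fin n → B) (c : E → Finset (Fin n) → B) : dR (CartB_W p s x c) = 0 := by
  unfold CartB_W
  simp only [map_sum]
  refine Finset.sum_eq_zero fun I _ => Finset.sum_eq_zero fun r _ => ?_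
  rw [CartB_g_cw, dR_fn_mul (dk_algebraMap _), dR_fn_mul (dk_pow_char p hp _), cw_closed,
    mul_zero, mul_zero]

theorem CartB_theta (hp : (p : B) = 0) {E : Type} [Fintype E] (s : E → P) {n : ℕ} (x : Fin n → B)
    (β : Module.Basis (Fin n) B (KaehlerDifferential P B))
    (hβ : ∀ t, β t = KaehlerDifferential.D P B (x t))
    {Θ : DRk P B →+* DRk P B} (h : IsCart p Θ) (ω : E → DRk P B) :
    ∃ η, ∑ r, fn P (algebraMap P B (s r)) * Θ (ω r) =
      CartB_W p s x (fun r I => β.ExteriorAlgebra.repr (ω r) I) + dR η := by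
  choose η hη using fun (b : B) (I : Finset (Fin n)) =>
    h.wdk hp b (fun a => x (CartB_emb I a))
  refine ⟨∑ I, ∑ r, fn P (algebraMap P B (s r)) * η (β.ExteriorAlgebra.repr (ω r) I) I, ?_⟩
  unfold CartB_W
  simp only [map_sum]
  rw [← Finset.sum_add_distrib]
  simp only [← Finset.sum_add_distrib]
  rw [Finset.sum_comm]
  refine Finset.sum_congr rfl fun r _ => ?_
  conv_lhs => rw [← β.ExteriorAlgebra.sum_repr (ω r), map_sum, Finset.mul_sum]
  refine Finset.sum_congr rfl fun I _ => ?_
  rw [smul_eq, CartB_basis x β hβ, hη, CartB_g_cw, dR_fn_mul (dk_algebraMap _), mul_add]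

theorem CartB_pr_g (hp : (p : B) = 0) {n : ℕ} (x : Fin n → B)
    (β : Module.Basis (Fin n) B (KaehlerDifferential P B))
    (hβ : ∀ t, β t = KaehlerDifferential.D P B (x t)) (c : B) (σ : P) (e : Fin n → Fin p)
    (I : Finset (Fin n)) :
    CartB_pr p (CartB_th x β) (List.finRange n) (CartB_g p x c σ (fun t => e t) I) =
      if e = CartB_e p I then CartB_g p x c σ (fun t => e t) I else 0 := by
  rw [CartB_pr_eig hp _ _ _ (fun t => CartB_lie_g hp x β hβ t c σ _ I)]
  by_cases h : e = CartB_e p I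
  · rw [if_pos h, if_pos ((CartB_e_iff I e).2 h)]
  · rw [if_neg h, if_neg (fun h' => h ((CartB_e_iff I e).1 h'))]

theorem CartB_pr_W (hp : (p : B) = 0) {E : Type} [Fintype E] (s : E → P) {n : ℕ} (x : Fin n → B)
    (β : Module.Basis (Fin n) B (KaehlerDifferential P B))
    (hβ : ∀ t, β t = KaehlerDifferential.D P B (x t)) (c : E → Finset (Fin n) → B) :
    CartB_pr p (CartB_th x β) (List.finRange n) (CartB_W p s x c) = CartB_W p s x c := by
  unfold CartB_W
  simp only [map_sum]
  refine Finset.sum_congr rfl fun I _ => Finset.sum_congr rfl fun r _ => ?_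
  rw [CartB_pr_g hp x β hβ, if_pos rfl]

theorem CartB_pr_range (hp : (p : B) = 0) {E : Type} [Fintype E] (s : E → P) {n : ℕ}
    (x : Fin n → B) (β : Module.Basis (Fin n) B (KaehlerDifferential P B))
    (hβ : ∀ t, β t = KaehlerDifferential.D P B (x t))
    (hPB : PB p (fun e : E × (Fin n → Fin p) =>
      algebraMap P B (s e.1) * ∏ t, x t ^ (e.2 t : ℕ))) (y : DRk P B) :
    ∃ c, CartB_pr p (CartB_th x β) (List.finRange n) y = CartB_W p s x c := by
  choose c hc using fun I : Finset (Fin n) => hPB.2 (β.ExteriorAlgebra.repr y I)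
  refine ⟨fun r I => c I (r, CartB_e p I), ?_⟩
  unfold CartB_W
  conv_lhs => rw [← β.ExteriorAlgebra.sum_repr y, map_sum]
  refine Finset.sum_congr rfl fun I _ => ?_
  rw [← hc I, Finset.sum_smul, map_sum, Fintype.sum_prod_type]
  refine Finset.sum_congr rfl fun r _ => ?_
  have key : ∀ e : Fin n → Fin p,
      CartB_pr p (CartB_th x β) (List.finRange n)
        ((c I (r, e) ^ p * (algebraMap P B (s r) * ∏ t, x t ^ (e t : ℕ))) • β.ExteriorAlgebra I) =
      if e = CartB_e p I then CartB_g p x (c I (r, e)) (s r) (fun t => e t) I else 0 := fun e => by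
    rw [smul_eq, CartB_basis x β hβ]
    exact CartB_pr_g hp x β hβ _ _ e I
  rw [Finset.sum_congr rfl (fun e _ => key e), Finset.sum_ite_eq', if_pos (Finset.mem_univ _)]

theorem CartB_W_inj {E : Type} [Fintype E] (s : E → P) {n : ℕ}
    (x : Fin n → B) (β : Module.Basis (Fin n) B (KaehlerDifferential P B))
    (hβ : ∀ t, β t = KaehlerDifferential.D P B (x t))
    (hPB : PB p (fun e : E × (Fin n → Fin p) =>
      algebraMap P B (s e.1) * ∏ t, x t ^ (e.2 t : ℕ))) (c : E → Finset (Fin n) → B)
    (hc : CartB_W p s x c = 0) (r : E) (I : Finset (Fin n)) : c r I = 0 := by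
  have hP : p.Prime := Fact.out
  have h1 : ∑ J, (∑ r, c r J ^ p * (algebraMap P B (s r) * ∏ t, x t ^ (CartB_e p J t : ℕ))) •
      β.ExteriorAlgebra J = 0 := by
    rw [← hc]
    unfold CartB_W
    refine Finset.sum_congr rfl fun J _ => ?_
    rw [Finset.sum_smul]
    refine Finset.sum_congr rfl fun r _ => ?_
    rw [smul_eq, CartB_basis x β hβ]
    rfl
  have h2 := Fintype.linearIndependent_iff.1 β.ExteriorAlgebra.linearIndependent _ h1 I
  have h3 : (fun e : E × (Fin n → Fin p) => if e.2 = CartB_e p I then c e.1 I else 0) = 0 := by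
    apply hPB.1
    simp only [Pi.zero_apply, zero_pow hP.ne_zero, zero_mul, Finset.sum_const_zero]
    rw [Fintype.sum_prod_type]
    refine Eq.trans (Finset.sum_congr rfl fun r _ => ?_) h2
    rw [Finset.sum_eq_single (CartB_e p I) (fun e _ he => by
      rw [if_neg he, zero_pow hP.ne_zero, zero_mul]) (fun h => absurd (Finset.mem_univ _) h),
      if_pos rfl]
  have h4 := congrFun h3 (r, CartB_e p I)
  rwa [if_pos rfl] at h4

/- Koszul computation. Let `θ t` be the derivation `x t * ∂ t` (`∂ t = β.coord t ∘ D`),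
`L t = lie (θ t)`. On `fn (c ^ p * s r * ∏ x ^ e) * dx_I` the operator `L t` acts by the scalar
`e t + [t ∈ I]` (`lie_mul`); these forms span (`hPB`, `Module.Basis.ExteriorAlgebra`). Put
`Π = ∏ (1 - L t ^ (p - 1))` in `AddMonoid.End`. By Fermat `Π` fixes the forms with
`e = (p - 1) 1_I` and kills the others; `Π` commutes with `dR` and `1 - Π = d h + h d`
(`lie_def`, `lie_dR`; the operators of this shape that commute with `d` form an ideal). The image
`E` of `Π` consists of closed forms `∑ fn (s r * c ^ p) * cw (x ∘ I)`, equal to `∑ s r Θ (ω r)`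
modulo exact forms (`IsCart.wdk`). `surj`: `y = Π y + d h y`. `inj`: an exact element of `E` is
`Π d η = d Π η = 0`; then use the basis `dx_I` and the injectivity in `hPB`. -/
theorem cartIso_coord (hp : (p : B) = 0) {E : Type} [Fintype E] (s : E → P) {n : ℕ} (x : Fin n → B)
    (β : Module.Basis (Fin n) B (KaehlerDifferential P B))
    (hβ : ∀ t, β t = KaehlerDifferential.D P B (x t))
    (hPB : PB p (fun e : E × (Fin n → Fin p) =>
      algebraMap P B (s e.1) * ∏ t, x t ^ (e.2 t : ℕ)))
    {Θ : DRk P B →+* DRk P B} (h : IsCart p Θ) : CartIso (fun r => algebraMap P B (s r)) Θ := by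
  constructor
  · intro ω η hη r
    obtain ⟨η', hη'⟩ := CartB_theta hp s x β hβ h ω
    have h1 : CartB_W p s x (fun r I => β.ExteriorAlgebra.repr (ω r) I) = dR (η - η') := by
      rw [map_sub, ← hη, hη', add_sub_cancel_right]
    obtain ⟨c, hc⟩ := CartB_pr_range hp s x β hβ hPB (η - η')
    have h2 : CartB_W p s x (fun r I => β.ExteriorAlgebra.repr (ω r) I) = 0 := by
      rw [← CartB_pr_W hp s x β hβ, h1, CartB_pr_dR, hc, CartB_W_closed hp]
    refine β.ExteriorAlgebra.repr.injective (Finsupp.ext fun I => ?_)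
    rw [map_zero]
    exact CartB_W_inj s x β hβ hPB _ h2 r I
  · intro y hy
    obtain ⟨η, hη⟩ := CartB_pr_closed (p := p) (CartB_th x β) (List.finRange n) y hy
    obtain ⟨c, hc⟩ := CartB_pr_range hp s x β hβ hPB y
    obtain ⟨η', hη'⟩ := CartB_theta hp s x β hβ h (fun r => β.ExteriorAlgebra.equivFun.symm (c r))
    have h1 : (fun r I => β.ExteriorAlgebra.repr (β.ExteriorAlgebra.equivFun.symm (c r)) I) = c := by
      funext r I
      rw [← Module.Basis.equivFun_apply, LinearEquiv.apply_symm_apply]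
    refine ⟨fun r => β.ExteriorAlgebra.equivFun.symm (c r), -(η + η'), ?_⟩
    rw [hη', h1, ← hc, hη, map_neg, map_add]
    abel

end Pool.Agent.P.MP_824f38_ag.V
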