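import Pool.Agent.P.MP_824f38_ag.V.BCLib

set_option linter.unusedVariables false
set_option linter.unusedSectionVars false

namespace Pool.Agent.P.MP_824f38_ag.V

open TensorProduct

theorem ExtBC_ext {B B' M M' : Type} [CommRing B] [CommRing B'] [Algebra B B'] [AddCommGroup M]
    [Module B M] [AddCommGroup M'] [Module B M'] [Module B' M'] [IsScalarTower B B' M']
    {f : M →ₗ[B] M'} (hf : IsBaseChange B' f) (F : ExteriorAlgebra B M →+* ExteriorAlgebra B' M')
    (h0 : ∀ b, F (algebraMap B _ b) = algebraMap B' _ (algebraMap B B' b))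
    (h1 : ∀ m, F (ExteriorAlgebra.ι B m) = ExteriorAlgebra.ι B' (f m)) : IsBC B B' F := by
  let F' : ExteriorAlgebra B M →ₐ[B] ExteriorAlgebra B' M' :=
    { F with commutes' := fun b => (h0 b).trans (IsScalarTower.algebraMap_apply B B' _ b).symm }
  let α : B' ⊗[B] ExteriorAlgebra B M →ₐ[B'] ExteriorAlgebra B' M' :=
    Algebra.TensorProduct.lift (Algebra.ofId B' _) F' fun b x => Algebra.commutes b _
  have hα : ∀ x, α (1 ⊗ₜ x) = F x := fun x => by
    simp only [α, Algebra.TensorProduct.lift_tmul, map_one, one_mul]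
    rfl
  let l : M' →ₗ[B'] B' ⊗[B] ExteriorAlgebra B M :=
    hf.lift (TensorProduct.mk B B' _ 1 ∘ₗ ExteriorAlgebra.ι B)
  have hl : ∀ m, l (f m) = 1 ⊗ₜ ExteriorAlgebra.ι B m := fun m => hf.lift_eq _ m
  have h2 : ∀ x y, l x * l y + l y * l x = 0 := by
    intro x y
    refine hf.inductionOn x (fun x => l x * l y + l y * l x = 0) (by simp) (fun m => ?_)
      (fun s n h => by rw [map_smul, smul_mul_assoc, mul_smul_comm, ← smul_add, h, smul_zero])
      (fun a b ha hb => by rw [map_add, add_mul, mul_add, add_add_add_comm, ha, hb, add_zero])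
    refine hf.inductionOn y (fun y => l (f m) * l y + l y * l (f m) = 0) (by simp) (fun m' => ?_)
      (fun s n h => by rw [map_smul, smul_mul_assoc, mul_smul_comm, ← smul_add, h, smul_zero])
      (fun a b ha hb => by rw [map_add, add_mul, mul_add, add_add_add_comm, ha, hb, add_zero])
    rw [hl, hl, Algebra.TensorProduct.tmul_mul_tmul, Algebra.TensorProduct.tmul_mul_tmul,
      ← tmul_add, ExteriorAlgebra.ι_add_mul_swap, tmul_zero]
  have h3 : ∀ x, l x * l x = 0 := fun x =>
    hf.inductionOn x (fun x => l x * l x = 0) (by simp)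
      (fun m => by
        rw [hl, Algebra.TensorProduct.tmul_mul_tmul, ExteriorAlgebra.ι_sq_zero, tmul_zero])
      (fun s n h => by rw [map_smul, smul_mul_smul_comm, h, smul_zero])
      (fun a b ha hb => by rw [map_add, add_mul, mul_add, mul_add, ha, hb, zero_add, add_zero, h2])
  let β := ExteriorAlgebra.lift B' ⟨l, h3⟩
  have hβ : ∀ x, β (ExteriorAlgebra.ι B' x) = l x := ExteriorAlgebra.lift_ι_apply B' l h3
  have e1 : α.comp β = AlgHom.id B' _ := by
    refine ExteriorAlgebra.hom_ext (hf.algHom_ext _ _ fun m => ?_)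
    change α (β (ExteriorAlgebra.ι B' (f m))) = ExteriorAlgebra.ι B' (f m)
    rw [hβ, hl, hα, h1]
  have e0 : ∀ x, β (F x) = 1 ⊗ₜ x := by
    intro x
    induction x using ExteriorAlgebra.induction with
    | algebraMap b =>
      rw [h0, AlgHom.commutes, ← IsScalarTower.algebraMap_apply,
        Algebra.TensorProduct.algebraMap_apply']
    | ι m => rw [h1, hβ, hl]
    | mul x y hx hy => rw [map_mul, map_mul, hx, hy, Algebra.TensorProduct.tmul_mul_tmul, one_mul]
    | add x y hx hy => rw [map_add, map_add, hx, hy, tmul_add]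
  have e2 : β.comp α = AlgHom.id B' _ := by
    refine AlgHom.ext fun z => ?_
    change β (α z) = z
    induction z with
    | zero => rw [map_zero, map_zero]
    | tmul b x =>
      rw [← mul_one b, ← smul_eq_mul, ← smul_tmul', map_smul, map_smul, hα, e0]
    | add x y hx hy => rw [map_add, map_add, hx, hy]
  exact ⟨(AlgEquiv.ofAlgHom α β e1 e2).toLinearEquiv, hα⟩

theorem isBC_DR_etale {P B B' : Type} [CommRing P] [CommRing B] [CommRing B'] [Algebra P B]
    [Algebra B B'] [Algebra P B'] [IsScalarTower P B B'] [Algebra.FormallyEtale B B']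
    (h : Compat P P (algebraMap B B')) : IsBC B B' (pullk (algebraMap B B') h) := by
  refine ExtBC_ext (KaehlerDifferential.isBaseChange_of_formallyEtale P B B') _
    (pullk_fn _ h) fun m => ?_
  induction m using iota_induction with
  | h0 => simp only [map_zero]
  | h1 a b =>
    rw [map_smul, pullk_smul, map_smul, KaehlerDifferential.map_D, ← algebraMap_smul B' a,
      map_smul]
    exact congrArg _ (pullk_dk _ h b)
  | hadd x y hx hy => simp only [map_add, hx, hy]

theorem ExtBC_tors {P B B' : Type} [CommRing P] [CommRing B] [CommRing B'] [Algebra P B]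
    [Algebra B B'] [Algebra P B'] [IsScalarTower P B B'] (S : Submonoid B) [IsLocalization S B']
    (h : Compat P P (algebraMap B B')) (x : DRk P B) (hx : pullk (algebraMap B B') h x = 0) :
    ∃ s ∈ S, fn P s * x = 0 := by
  have := Algebra.FormallyEtale.of_isLocalization (Rₘ := B') S
  obtain ⟨e, he⟩ := isBC_DR_etale h
  have h1 : TensorProduct.mk B B' (DRk P B) 1 x = 0 := e.map_eq_zero_iff.1 ((he x).trans hx)
  obtain ⟨s, hs⟩ := (IsLocalizedModule.eq_zero_iff S _).1 h1
  exact ⟨s, s.2, (smul_eq _ _).symm.trans hs⟩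

theorem loc_surj {P B B' : Type} [CommRing P] [CommRing B] [CommRing B'] [Algebra P B]
    [Algebra B B'] [Algebra P B'] [IsScalarTower P B B'] (g : B) [IsLocalization.Away g B']
    (h : Compat P P (algebraMap B B')) (y : DRk P B') :
    ∃ (e : ℕ) (x : DRk P B), fn P (algebraMap B B' g) ^ e * y = pullk (algebraMap B B') h x := by
  have := Algebra.FormallyEtale.of_isLocalization (Rₘ := B') (Submonoid.powers g)
  obtain ⟨e, he⟩ := isBC_DR_etale h
  obtain ⟨⟨x, _, n, rfl⟩, hs⟩ := IsLocalizedModule.surj (Submonoid.powers g)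
    (TensorProduct.mk B B' (DRk P B) 1) (e.symm y)
  refine ⟨n, x, ?_⟩
  have h1 : g ^ n • e.symm y = 1 ⊗ₜ x := hs
  rw [← he, ← h1, ← algebraMap_smul B', map_smul, e.apply_symm_apply, smul_eq, map_pow, map_pow]

theorem loc_inj {P B B' : Type} [CommRing P] [CommRing B] [CommRing B'] [Algebra P B]
    [Algebra B B'] [Algebra P B'] [IsScalarTower P B B'] (g : B) [IsLocalization.Away g B']
    (h : Compat P P (algebraMap B B')) (x : DRk P B) (hx : pullk (algebraMap B B') h x = 0) :
    ∃ e : ℕ, fn P g ^ e * x = 0 := by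
  obtain ⟨_, ⟨n, rfl⟩, hs⟩ := ExtBC_tors (Submonoid.powers g) h x hx
  exact ⟨n, by rw [← map_pow]; exact hs⟩

theorem frac_inj {P B K : Type} [CommRing P] [CommRing B] [IsDomain B] [Field K] [Algebra P B]
    [Algebra B K] [Algebra P K] [IsScalarTower P B K] [IsFractionRing B K]
    (h : Compat P P (algebraMap B K)) (x : DRk P B) (hx : pullk (algebraMap B K) h x = 0) :
    ∃ b : B, b ≠ 0 ∧ fn P b * x = 0 := by
  obtain ⟨s, hs, h1⟩ := ExtBC_tors (nonZeroDivisors B) h x hx
  exact ⟨s, nonZeroDivisors.ne_zero hs, h1⟩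

end Pool.Agent.P.MP_824f38_ag.V
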