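import Pool.Agent.P.MP_824f38_ag.V.CartDefs

set_option linter.unusedVariables false
set_option linter.unusedSectionVars false

namespace Pool.Agent.P.MP_824f38_ag.V

/-- the exponent vector of a reduced monomial -/
noncomputable def PBPoly_ex {τ : Type} [Fintype τ] {p : ℕ} (s : τ → Fin p) : τ →₀ ℕ :=
  Finsupp.equivFunOnFinite.symm fun t => (s t : ℕ)

theorem PBPoly_ex_apply {τ : Type} [Fintype τ] {p : ℕ} (s : τ → Fin p) (t : τ) :
    PBPoly_ex s t = s t := rfl

theorem PBPoly_mono {A τ : Type} [CommRing A] [Fintype τ] {p : ℕ} (b : A) (s : τ → Fin p) :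
    (MvPolynomial.C b * ∏ t, MvPolynomial.X t ^ (s t : ℕ) : MvPolynomial τ A) =
      MvPolynomial.monomial (PBPoly_ex s) b := by
  rw [MvPolynomial.monomial_eq, Finsupp.prod_fintype _ _ (fun _ => pow_zero _)]
  rfl

theorem PBPoly_term (p : ℕ) [Fact p.Prime] {A τ : Type} [CommRing A] [CharP A p] [Fintype τ]
    [DecidableEq τ] (b : A) (c : MvPolynomial τ A) (u : τ →₀ ℕ) (s s' : τ → Fin p) :
    MvPolynomial.coeff (p • u + PBPoly_ex s) (c ^ p * MvPolynomial.monomial (PBPoly_ex s') b) =
      if s' = s then MvPolynomial.coeff u c ^ p * b else 0 := by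
  have hp : p ≠ 0 := (Fact.out : p.Prime).ne_zero
  rw [← MvPolynomial.map_frobenius_expand p]
  by_cases hs : s' = s
  · subst hs
    rw [MvPolynomial.coeff_mul_monomial, MvPolynomial.coeff_map,
      MvPolynomial.coeff_expand_smul p hp, if_pos rfl, frobenius_def]
  · rw [if_neg hs, MvPolynomial.coeff_mul_monomial']
    by_cases hle : PBPoly_ex s' ≤ p • u + PBPoly_ex s
    · rw [if_pos hle, MvPolynomial.coeff_map]
      obtain ⟨t, ht⟩ := Function.ne_iff.1 hs
      rw [MvPolynomial.coeff_expand_of_not_dvd (i := t), map_zero, zero_mul]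
      intro hd
      apply ht
      have h1 : (s' t : ℕ) ≤ p * u t + s t := hle t
      have h2 : p ∣ p * u t + s t - s' t := hd
      have h3 : (s' t : ℕ) ≡ p * u t + s t [MOD p] := (Nat.modEq_iff_dvd' h1).2 h2
      unfold Nat.ModEq at h3
      rw [Nat.mul_add_mod, Nat.mod_eq_of_lt (s' t).2, Nat.mod_eq_of_lt (s t).2] at h3
      exact Fin.ext h3
    · rw [if_neg hle]

theorem PBPoly_coeff (p : ℕ) [Fact p.Prime] {A E τ : Type} [CommRing A] [CharP A p] [Fintype E]
    [Fintype τ] [DecidableEq τ] (b : E → A) (c : E × (τ → Fin p) → MvPolynomial τ A)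
    (u : τ →₀ ℕ) (s : τ → Fin p) :
    MvPolynomial.coeff (p • u + PBPoly_ex s)
      (∑ e, c e ^ p * MvPolynomial.monomial (PBPoly_ex e.2) (b e.1)) =
      ∑ e, MvPolynomial.coeff u (c (e, s)) ^ p * b e := by
  rw [MvPolynomial.coeff_sum, Fintype.sum_prod_type]
  refine Finset.sum_congr rfl fun e _ => ?_
  simp only [PBPoly_term]
  rw [Finset.sum_eq_single s (fun s' _ h => if_neg h) (fun h => absurd (Finset.mem_univ _) h),
    if_pos rfl]

/- Compare coefficients: `(∑ monomial u (c u)) ^ p = ∑ monomial (p • u) (c u ^ p)`, and every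
exponent is uniquely `p • u + s` with `0 ≤ s < p`. (If `A` is trivial there is nothing to prove;
otherwise `CharP A p`, `ExpChar`.) -/
theorem PB.mvPolynomial (p : ℕ) [Fact p.Prime] {A E τ : Type} [CommRing A] [Algebra (ZMod p) A]
    [Fintype E] [Fintype τ] [DecidableEq τ] {b : E → A} (h : PB p b) :
    PB p (fun e : E × (τ → Fin p) =>
      (MvPolynomial.C (b e.1) * ∏ t, MvPolynomial.X t ^ (e.2 t : ℕ) : MvPolynomial τ A)) := by
  have hp : p ≠ 0 := (Fact.out : p.Prime).ne_zero
  rcases subsingleton_or_nontrivial A with hA | hA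
  · exact ⟨fun _ _ _ => Subsingleton.elim _ _, fun y => ⟨0, Subsingleton.elim _ _⟩⟩
  have : CharP A p := charP_of_injective_algebraMap (algebraMap (ZMod p) A).injective p
  unfold PB
  simp only [PBPoly_mono]
  refine ⟨fun c c' hc => ?_, fun y => ?_⟩
  · funext e
    obtain ⟨e, s⟩ := e
    ext u
    have h1 := congrArg (MvPolynomial.coeff (p • u + PBPoly_ex s)) hc
    simp only [PBPoly_coeff] at h1
    exact congrFun (h.1 h1) e
  · induction y using MvPolynomial.induction_on' with
    | monomial m a =>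
      obtain ⟨g, hg⟩ := h.2 a
      let s : τ → Fin p := fun t => ⟨m t % p, Nat.mod_lt _ (Nat.pos_of_ne_zero hp)⟩
      let u : τ →₀ ℕ := Finsupp.equivFunOnFinite.symm fun t => m t / p
      have hm : p • u + PBPoly_ex s = m := by
        ext t
        exact Nat.div_add_mod (m t) p
      refine ⟨fun e => if e.2 = s then MvPolynomial.monomial u (g e.1) else 0, ?_⟩
      simp only [Fintype.sum_prod_type]
      rw [← hg, map_sum]
      refine Finset.sum_congr rfl fun e _ => ?_
      rw [Finset.sum_eq_single s (fun s' _ h => by rw [if_neg h, zero_pow hp, zero_mul])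
        (fun h => absurd (Finset.mem_univ _) h), if_pos rfl, MvPolynomial.monomial_pow,
        MvPolynomial.monomial_mul, hm]
    | add x y hx hy =>
      obtain ⟨c, rfl⟩ := hx
      obtain ⟨c', rfl⟩ := hy
      refine ⟨c + c', ?_⟩
      simp only [Pi.add_apply, add_pow_char, add_mul, Finset.sum_add_distrib]

theorem PB.zmod (p : ℕ) [Fact p.Prime] : PB p (fun _ : Unit => (1 : ZMod p)) := by
  unfold PB
  simp only [ZMod.pow_card, mul_one, Finset.univ_unique, Finset.sum_singleton]
  exact (Equiv.funUnique Unit (ZMod p)).bijective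

theorem PB.reindex (p : ℕ) {A E E' : Type} [CommRing A] [Fintype E] [Fintype E'] {b : E → A}
    {b' : E' → A} (h : PB p b) (f : E' ≃ E) (hf : ∀ e, b' e = b (f e)) : PB p b' := by
  unfold PB at h ⊢
  have e : (fun c : E' → A => ∑ e, c e ^ p * b' e) =
      (fun c : E → A => ∑ e, c e ^ p * b e) ∘ (Equiv.arrowCongr f (Equiv.refl A)) := by
    funext c
    simp only [Function.comp_apply]
    rw [← f.sum_comp]
    refine Finset.sum_congr rfl fun e _ => ?_
    simp [hf]
  rw [e]
  exact h.comp (Equiv.bijective _)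

theorem PB.base (p : ℕ) [Fact p.Prime] (m : ℕ) :
    PB p (fun r : Fin m → Fin p => (∏ j, MvPolynomial.X j ^ (r j : ℕ) : Pk (ZMod p) m)) :=
  PB.reindex p (PB.mvPolynomial p (τ := Fin m) (PB.zmod p)) (Equiv.uniqueProd _ Unit).symm
    (fun e => by simp)

end Pool.Agent.P.MP_824f38_ag.V
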