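import Pool.Agent.P.MP_824f38_ag.V.CartDefs

set_option linter.unusedVariables false
set_option linter.unusedSectionVars false

namespace Pool.Agent.P.MP_824f38_ag.V

open scoped TensorProduct

/-- the Frobenius map of a ring in which `p = 0` -/
def PBasis_frob (p : ℕ) [hp : Fact p.Prime] (A : Type) [CommRing A] (h : (p : A) = 0) :
    A →+* A where
  toFun x := x ^ p
  map_one' := one_pow p
  map_mul' x y := mul_pow x y p
  map_zero' := zero_pow hp.out.ne_zero
  map_add' x y := by
    obtain ⟨r, hr⟩ := exists_add_pow_prime_eq hp.out x y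
    rw [hr, h]; ring

theorem PBasis_surj (p : ℕ) [hp : Fact p.Prime] {T B : Type} [CommRing T] [CommRing B]
    [Algebra T B] [Algebra.FormallyUnramified T B] [Algebra.FiniteType T B] (h0 : (p : B) = 0)
    (h : ∀ y : B, ∃ z : T, algebraMap T B z = y ^ p) : Function.Surjective (algebraMap T B) := by
  have : Algebra.IsIntegral T B := ⟨fun y => IsIntegral.of_pow hp.out.pos (by
    obtain ⟨z, hz⟩ := h y
    rw [← hz]; exact isIntegral_algebraMap)⟩
  have : Module.Finite T B := Algebra.IsIntegral.finite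
  rw [← Algebra.isEpi_iff_surjective_algebraMap_of_finite, Algebra.isEpi_iff_forall_one_tmul_eq]
  have h1 : (p : B ⊗[T] B) = 0 := by
    rw [← map_natCast (algebraMap B (B ⊗[T] B)) p, h0, map_zero]
  have hn : IsNilpotent (KaehlerDifferential.ideal T B) := by
    rw [(KaehlerDifferential.ideal_fg T B).isNilpotent_iff_le_nilradical,
      ← KaehlerDifferential.span_range_eq_ideal, Ideal.span_le]
    rintro _ ⟨s, rfl⟩
    refine ⟨p, ?_⟩
    obtain ⟨z, hz⟩ := h s
    have : ((1 : B) ⊗ₜ[T] s - s ⊗ₜ[T] (1 : B)) ^ p =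
        ((1 : B) ⊗ₜ[T] s) ^ p - (s ⊗ₜ[T] (1 : B)) ^ p :=
      map_sub (PBasis_frob p (B ⊗[T] B) h1) ((1 : B) ⊗ₜ[T] s) (s ⊗ₜ[T] (1 : B))
    rw [this, Algebra.TensorProduct.tmul_pow, Algebra.TensorProduct.tmul_pow, one_pow, ← hz,
      Algebra.algebraMap_eq_smul_one, TensorProduct.tmul_smul, TensorProduct.smul_tmul', sub_self]
    exact Submodule.zero_mem _
  have := Algebra.FormallyUnramified.ext' (R := T) (A := B)
    (Algebra.TensorProduct.lmul' T (S := B)).toRingHom hn
    Algebra.TensorProduct.includeRight Algebra.TensorProduct.includeLeft (fun x => by simp)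
  intro a
  exact AlgHom.congr_fun this a

theorem PBasis_bij (p : ℕ) [hp : Fact p.Prime] {R T B : Type} [CommRing R] [CommRing T]
    [CommRing B] [Algebra R T] [Algebra R B] [Algebra.Etale R T] [Algebra.Etale R B]
    (ψ : T →ₐ[R] B) (h0 : (p : B) = 0) (h : ∀ y : B, ∃ z : T, ψ z = y ^ p)
    (hk : ∀ z : T, ψ z = 0 → z ^ p = 0) : Function.Bijective ψ := by
  have hs : Function.Surjective ψ := by
    let := ψ.toRingHom.toAlgebra
    have : IsScalarTower R T B := IsScalarTower.of_algebraMap_eq fun x => (ψ.commutes x).symm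
    have : Algebra.FormallyUnramified T B := Algebra.FormallyUnramified.of_restrictScalars R T B
    have : Algebra.FiniteType T B := Algebra.FiniteType.of_restrictScalars_finiteType R T B
    exact PBasis_surj p h0 h
  have hn : IsNilpotent (RingHom.ker (ψ : T →+* B)) :=
    (Algebra.FinitePresentation.ker_fG_of_surjective ψ hs).isNilpotent_iff_le_nilradical.2
      fun z hz => ⟨p, hk z hz⟩
  let s : B →ₐ[R] T := Algebra.FormallySmooth.liftOfSurjective (AlgHom.id R B) ψ hs hn
  have hs1 : ψ.comp s = AlgHom.id R B :=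
    Algebra.FormallySmooth.comp_liftOfSurjective (AlgHom.id R B) ψ hs hn
  have hs2 : s.comp ψ = AlgHom.id R T :=
    Algebra.FormallyUnramified.ext' (ψ : T →+* B) hn _ _ fun x => AlgHom.congr_fun hs1 (ψ x)
  exact ⟨Function.LeftInverse.injective (g := s) fun x => AlgHom.congr_fun hs2 x, hs⟩

theorem PBasis_core (p : ℕ) [hp : Fact p.Prime] {Q Q1 B B1 E : Type} [CommRing Q] [CommRing Q1]
    [CommRing B] [CommRing B1] [Algebra Q B] [Algebra Q Q1] [Algebra Q1 B1] [Algebra Q B1]
    [IsScalarTower Q Q1 B1] [Algebra.Etale Q B] [Algebra.Etale Q1 B1] [Fintype E]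
    (h0 : (p : Q1) = 0) (g : B →ₐ[Q] B1) (v : B1 →+* B) (w : Q1 →+* Q)
    (hg : ∀ y, g (v y) = y ^ p) (hv : ∀ x, v (g x) = x ^ p)
    (hw : ∀ q, v (algebraMap Q1 B1 q) = algebraMap Q B (w q))
    (hw' : ∀ q, algebraMap Q Q1 (w q) = q ^ p) (b : E → Q1)
    (hb : Function.Bijective fun c : E → Q => ∑ e, algebraMap Q Q1 (c e) * b e) :
    Function.Bijective fun c : E → B => ∑ e, g (c e) * algebraMap Q1 B1 (b e) := by
  classical
  let ψ : Q1 ⊗[Q] B →ₐ[Q1] B1 :=
    Algebra.TensorProduct.lift (Algebra.ofId Q1 B1) g fun _ _ => Commute.all _ _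
  have hψ : ∀ q x, ψ (q ⊗ₜ x) = algebraMap Q1 B1 q * g x := fun q x => by
    simp [ψ, Algebra.ofId_apply]
  have h1 : (p : Q1 ⊗[Q] B) = 0 := by
    rw [← map_natCast (algebraMap Q1 (Q1 ⊗[Q] B)) p, h0, map_zero]
  have hu : ∀ z : Q1 ⊗[Q] B, (1 : Q1) ⊗ₜ[Q] v (ψ z) = PBasis_frob p _ h1 z := by
    intro z
    induction z using TensorProduct.induction_on with
    | zero => simp
    | tmul q x =>
      change _ = (q ⊗ₜ[Q] x) ^ p
      rw [hψ, map_mul, hw, hv, ← Algebra.smul_def, TensorProduct.tmul_smul,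
        TensorProduct.smul_tmul', ← Algebra.algebraMap_eq_smul_one, hw',
        Algebra.TensorProduct.tmul_pow]
    | add x y hx hy => rw [map_add, map_add, TensorProduct.tmul_add, hx, hy, map_add]
  have hbij : Function.Bijective ψ := PBasis_bij p ψ
    (by rw [← map_natCast (algebraMap Q1 B1) p, h0, map_zero])
    (fun y => ⟨1 ⊗ₜ v y, by rw [hψ, map_one, one_mul, hg]⟩)
    (fun z hz => by
      have := hu z
      rw [hz, map_zero, TensorProduct.tmul_zero] at this
      exact this.symm)
  have hb' : Function.Bijective (Fintype.linearCombination Q b) := by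
    have : (Fintype.linearCombination Q b : (E → Q) → Q1) =
        fun c : E → Q => ∑ e, algebraMap Q Q1 (c e) * b e := by
      funext c
      simp only [Fintype.linearCombination_apply, Algebra.smul_def]
    rw [this]; exact hb
  let ℬ : Module.Basis E Q Q1 :=
    Module.Basis.ofEquivFun (LinearEquiv.ofBijective _ hb').symm
  have hℬ : ∀ e, ℬ e = b e := fun e => by
    simp [ℬ, Fintype.linearCombination_apply, Pi.single_apply]
  have : (fun c : E → B => ∑ e, g (c e) * algebraMap Q1 B1 (b e)) =
      ψ ∘ (TensorProduct.equivFinsuppOfBasisLeft (N := B) ℬ).symm ∘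
        Finsupp.equivFunOnFinite.symm := by
    funext c
    simp only [Function.comp_apply, TensorProduct.equivFinsuppOfBasisLeft_symm_apply]
    rw [Finsupp.sum_fintype _ _ (by simp), map_sum]
    refine Finset.sum_congr rfl fun e _ => ?_
    rw [hψ, hℬ, mul_comm]
    rfl
  rw [this]
  exact hbij.comp ((LinearEquiv.bijective _).comp (Equiv.bijective _))

/-- type synonym -/
def PBasis_Tw (A : Type) : Type := A

instance PBasis_inst (A : Type) [i : CommRing A] : CommRing (PBasis_Tw A) := i

/- Let `Q1` be a type synonym of `Q`, a `Q`-algebra through `frobenius Q p`; by `h` it is free with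
basis `b`. `T = Q1 ⊗[Q] B` is etale over `Q1`, and `ψ : T → B`, `q ⊗ x ↦ q * x ^ p` is a map of
`Q1`-algebras (`B` over `Q1 = Q` as given). With `u : B → T`, `x ↦ 1 ⊗ x`: `u (ψ z) = z ^ p`.
Surjective: let `B0` be the range of `ψ`; `B` is integral and of finite type, so finite, over
`B0`, and formally unramified over `B0`; the two maps `B → B ⊗[B0] B` agree modulo the kernel of
the multiplication, which is nilpotent (finitely generated by elements `x ⊗ 1 - 1 ⊗ x` with zero
`p`-th power), so they are equal (`Algebra.FormallyUnramified.ext`), and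
`Algebra.isEpi_iff_surjective_algebraMap_of_finite` applies. Injective: the kernel `K` is
finitely generated (`Algebra.FinitePresentation.ker_fg_of_surjective`) and nil, so nilpotent;
formal smoothness of `B` gives a section `s : B → T`, and `s ∘ ψ = id` by unramifiedness of `T`.
Finally `T ≃ E → B` through the basis. -/
theorem PB.etale (p : ℕ) [Fact p.Prime] {Q B E : Type} [CommRing Q] [CommRing B] [Algebra Q B]
    [Algebra (ZMod p) Q] [Algebra.Etale Q B] [Fintype E] {b : E → Q} (h : PB p b) :
    PB p (fun e => algebraMap Q B (b e)) := by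
  have h0 : (p : Q) = 0 := by
    rw [← map_natCast (algebraMap (ZMod p) Q) p, ZMod.natCast_self, map_zero]
  have h0B : (p : B) = 0 := by rw [← map_natCast (algebraMap Q B) p, h0, map_zero]
  let i1 : Algebra Q (PBasis_Tw Q) := RingHom.toAlgebra (R := Q) (S := PBasis_Tw Q)
    (PBasis_frob p Q h0)
  let i2 : Algebra (PBasis_Tw Q) (PBasis_Tw B) := (inferInstance : Algebra Q B)
  let i3 : Algebra Q (PBasis_Tw B) :=
    ((algebraMap (PBasis_Tw Q) (PBasis_Tw B)).comp (algebraMap Q (PBasis_Tw Q))).toAlgebra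
  have : IsScalarTower Q (PBasis_Tw Q) (PBasis_Tw B) := IsScalarTower.of_algebraMap_eq' rfl
  have : Algebra.Etale (PBasis_Tw Q) (PBasis_Tw B) := (inferInstance : Algebra.Etale Q B)
  let g : B →ₐ[Q] PBasis_Tw B :=
    { (show B →+* PBasis_Tw B from PBasis_frob p B h0B) with
      commutes' := fun q => (map_pow (algebraMap Q B) q p).symm }
  exact PBasis_core p (Q := Q) (Q1 := PBasis_Tw Q) (B := B) (B1 := PBasis_Tw B) h0 g
    (RingHom.id B) (RingHom.id Q) (fun _ => rfl) (fun _ => rfl) (fun _ => rfl) (fun _ => rfl) b h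

end Pool.Agent.P.MP_824f38_ag.V
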