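import Pool.Agent.P.MP_824f38_ag.V.CartB
import Pool.Agent.P.MP_824f38_ag.V.PBasis
import Pool.Agent.P.MP_824f38_ag.V.PBPoly
import Pool.Agent.P.MP_824f38_ag.V.ExtBC

set_option linter.unusedVariables false
set_option linter.unusedSectionVars false

namespace Pool.Agent.P.MP_824f38_ag.V

variable {p : ℕ} [Fact p.Prime] {P B : Type} [CommRing P] [CommRing B] [Algebra P B]

theorem CartC_char [Algebra (ZMod p) P] : (p : B) = 0 := by
  have h1 : (p : P) = 0 := by
    rw [← map_natCast (algebraMap (ZMod p) P), ZMod.natCast_self, map_zero]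
  rw [← map_natCast (algebraMap P B), h1, map_zero]

/- `Algebra.IsStandardSmoothOfRelativeDimension.exists_etale_mvPolynomial` gives an etale map
`MvPolynomial (Fin n) P → B` over `P`; `x t` is the image of `X t`. Basis of the differentials:
`KaehlerDifferential.mvPolynomialBasis` and `isBaseChange_of_formallyEtale`
(`IsBaseChange.basis`). `PB.mvPolynomial`, `PB.etale`, `cartIso_coord`. -/
theorem cartIso_std [Algebra (ZMod p) P] [Algebra.IsStandardSmooth P B] {E : Type} [Fintype E]
    {s : E → P} (hs : PB p s) {Θ : DRk P B →+* DRk P B} (h : IsCart p Θ) :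
    CartIso (fun r => algebraMap P B (s r)) Θ := by
  classical
  obtain ⟨_, _, _, _, ⟨Q⟩⟩ := Algebra.IsStandardSmooth.out (R := P) (S := B)
  have h0 := Q.isStandardSmoothOfRelativeDimension rfl
  generalize Q.dimension = n at h0
  obtain ⟨g, hg⟩ :=
    Algebra.IsStandardSmoothOfRelativeDimension.exists_etale_mvPolynomial n P B
  letI : Algebra (MvPolynomial (Fin n) P) B := g.toRingHom.toAlgebra
  haveI : IsScalarTower P (MvPolynomial (Fin n) P) B :=
    IsScalarTower.of_algebraMap_eq fun c => (g.commutes c).symm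
  haveI : Algebra.Etale (MvPolynomial (Fin n) P) B := RingHom.etale_algebraMap.1 hg
  have hb := KaehlerDifferential.isBaseChange_of_formallyEtale P (MvPolynomial (Fin n) P) B
  refine cartIso_coord (CartC_char (P := P)) s
    (fun t => algebraMap (MvPolynomial (Fin n) P) B (MvPolynomial.X t))
    (hb.basis (KaehlerDifferential.mvPolynomialBasis P (Fin n))) (fun t => ?_) ?_ h
  · rw [IsBaseChange.basis_apply, KaehlerDifferential.mvPolynomialBasis_apply,
      KaehlerDifferential.map_D]
  · refine PB.reindex p (PB.etale p (B := B) (PB.mvPolynomial p (τ := Fin n) hs)) (Equiv.refl _)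
      fun e => ?_
    simp only [Equiv.refl_apply, map_mul, map_prod, map_pow]
    rw [IsScalarTower.algebraMap_apply P (MvPolynomial (Fin n) P) B, MvPolynomial.algebraMap_eq]

theorem CartC_surj {B' : Type} [CommRing B'] [Algebra B B'] [Algebra P B'] [IsScalarTower P B B']
    (g : B) [IsLocalization.Away g B'] (h : Compat P P (algebraMap B B')) (y : DRk P B') :
    ∃ e : ℕ, ∀ N, e ≤ N → ∃ x : DRk P B,
      fn P (algebraMap B B' (g ^ N)) * y = pullk (algebraMap B B') h x := by
  obtain ⟨e, x, hx⟩ := loc_surj g h y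
  refine ⟨e, fun N hN => ⟨fn P (g ^ (N - e)) * x, ?_⟩⟩
  obtain ⟨d, rfl⟩ := Nat.exists_eq_add_of_le' hN
  rw [map_mul, pullk_fn, ← hx, Nat.add_sub_cancel, ← mul_assoc, ← map_pow, ← map_mul, ← map_pow,
    ← map_mul, ← pow_add]

theorem CartC_mul (hp : (p : B) = 0) {E : Type} [Fintype E] (s : E → B)
    {Θ : DRk P B →+* DRk P B} (h : IsCart p Θ) (b : B) (ω : E → DRk P B) (η : DRk P B) :
    fn P (b ^ p) * (∑ r, fn P (s r) * Θ (ω r) + dR η) =
      ∑ r, fn P (s r) * Θ (fn P b * ω r) + dR (fn P (b ^ p) * η) := by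
  rw [mul_add, dR_fn_mul (dk_pow_char p hp b), Finset.mul_sum]
  refine congrArg (· + _) (Finset.sum_congr rfl fun r _ => ?_)
  rw [map_mul, h.fn, ← mul_assoc, ← mul_assoc, ← map_mul, ← map_mul, mul_comm (s r)]

theorem CartC_compat (B' : Type) [CommRing B'] [Algebra B B'] [Algebra P B']
    [IsScalarTower P B B'] : Compat P P (algebraMap B B') :=
  Compat.of_square id fun c => (IsScalarTower.algebraMap_apply P B B' c).symm

theorem CartC_pull {B' : Type} [CommRing B'] [Algebra B B'] [Algebra P B'] [IsScalarTower P B B']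
    (hc : Compat P P (algebraMap B B')) {E : Type} [Fintype E] (s : E → P)
    {Θ : DRk P B →+* DRk P B} {Θ' : DRk P B' →+* DRk P B'}
    (he : ∀ ω, Θ' (pullk (algebraMap B B') hc ω) = pullk (algebraMap B B') hc (Θ ω))
    (ω : E → DRk P B) :
    pullk (algebraMap B B') hc (∑ r, fn P (algebraMap P B (s r)) * Θ (ω r)) =
      ∑ r, fn P (algebraMap P B' (s r)) * Θ' (pullk (algebraMap B B') hc (ω r)) := by
  rw [map_sum]
  refine Finset.sum_congr rfl fun r _ => ?_
  rw [map_mul, pullk_fn, he, ← IsScalarTower.algebraMap_apply P B B']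

/- `Algebra.Smooth.exists_span_eq_top_isStandardSmooth`, `IsCart.extend`, `loc_surj`, `loc_inj`.
`inj`: the annihilator of `ω r` contains a power of each `f`. `surj`: the set of `b` such that
`fn (b ^ p) * y` has the required form is an ideal (`add_pow_char`; multiply `ω r` by `b` and `η`
by `b ^ p`) and contains a power of each `f`. -/
theorem cartIso_smooth [Algebra (ZMod p) P] [Algebra.Smooth P B] {E : Type} [Fintype E]
    {s : E → P} (hs : PB p s) {Θ : DRk P B →+* DRk P B} (h : IsCart p Θ) :
    CartIso (fun r => algebraMap P B (s r)) Θ := by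
  classical
  have hp : (p : B) = 0 := CartC_char (P := P)
  have hp1 : 1 ≤ p := (Fact.out : p.Prime).one_le
  obtain ⟨S, hS, hst⟩ := Algebra.Smooth.exists_span_eq_top_isStandardSmooth P B
  have loc : ∀ f ∈ S, ∃ Θ' : DRk P (Localization.Away f) →+* DRk P (Localization.Away f),
      IsCart p Θ' ∧ CartIso (fun r => algebraMap P (Localization.Away f) (s r)) Θ' ∧
      ∀ ω, Θ' (pullk _ (CartC_compat (Localization.Away f)) ω) =
        pullk _ (CartC_compat (Localization.Away f)) (Θ ω) := by
    intro f hf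
    haveI := hst f hf
    obtain ⟨Θ', h1, h2⟩ := IsCart.extend hp f (CartC_compat (Localization.Away f)) h
    exact ⟨Θ', h1, cartIso_std hs h1, h2⟩
  constructor
  · intro ω η he r
    have : ω r ∈ (⊥ : Submodule B (DRk P B)) := by
      refine Submodule.mem_of_span_eq_top_of_smul_pow_mem _ S hS _ fun f => ?_
      obtain ⟨Θ', h1, h2, h3⟩ := loc f f.2
      have e1 := congrArg (pullk _ (CartC_compat (P := P) (Localization.Away (f : B)))) he
      rw [CartC_pull _ s h3, pullk_dR] at e1
      obtain ⟨e, he'⟩ := loc_inj (f : B) _ _ (h2.inj _ _ e1 r)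
      exact ⟨e, by rw [Submodule.mem_bot, smul_eq, map_pow, he']⟩
    exact (Submodule.mem_bot B).1 this
  · intro y hy
    let J : Ideal B :=
      { carrier := {b | ∃ (ω : E → DRk P B) (η : DRk P B),
          fn P (b ^ p) * y = ∑ r, fn P (algebraMap P B (s r)) * Θ (ω r) + dR η}
        zero_mem' := ⟨0, 0, by simp [zero_pow (by omega : p ≠ 0)]⟩
        add_mem' := by
          rintro a b ⟨ω, η, h1⟩ ⟨ω', η', h2⟩
          refine ⟨ω + ω', η + η', ?_⟩
          have e : (a + b) ^ p = a ^ p + b ^ p := by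
            obtain ⟨c, hc⟩ := exists_add_pow_prime_eq (Fact.out : p.Prime) a b
            rw [hc, hp]; ring
          rw [e, map_add, add_mul, h1, h2]
          simp only [Pi.add_apply, map_add, mul_add, Finset.sum_add_distrib]
          abel
        smul_mem' := by
          rintro c a ⟨ω, η, h1⟩
          refine ⟨fun r => fn P c * ω r, fn P (c ^ p) * η, ?_⟩
          rw [smul_eq_mul, mul_pow, map_mul, mul_assoc, h1, CartC_mul hp _ h] }
    have h1 : (1 : B) ∈ J := by
      refine Submodule.mem_of_span_eq_top_of_smul_pow_mem _ S hS _ fun f => ?_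
      obtain ⟨Θ', h1, h2, h3⟩ := loc f f.2
      have hc := CartC_compat (P := P) (B := B) (Localization.Away (f : B))
      obtain ⟨ω', η', e1⟩ := h2.surj (pullk _ hc y) (by rw [← pullk_dR, hy, map_zero])
      choose e he using fun z => CartC_surj (f : B) hc z
      let N := e η' + ∑ r, e (ω' r)
      choose ω hω using fun r => he (ω' r) N
        (le_add_left (Finset.single_le_sum (f := fun r => e (ω' r)) (fun _ _ => Nat.zero_le _)
          (Finset.mem_univ r)))
      obtain ⟨η, hη⟩ := he η' (N * p) ((Nat.le_add_right _ _).trans (Nat.le_mul_of_pos_right _ hp1))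
      have e2 : pullk _ hc (fn P (((f : B) ^ N) ^ p) * y -
          (∑ r, fn P (algebraMap P B (s r)) * Θ (ω r) + dR η)) = 0 := by
        rw [map_sub, map_add, CartC_pull _ s h3, pullk_dR, map_mul, pullk_fn, e1, map_pow,
          CartC_mul (CartC_char (P := P)) _ h1, ← hη, ← map_pow, ← pow_mul]
        simp only [hω, sub_self]
      obtain ⟨m, hm⟩ := loc_inj (f : B) _ _ e2
      have e3 : fn P (((f : B) ^ m) ^ p) * (fn P (((f : B) ^ N) ^ p) * y -
          (∑ r, fn P (algebraMap P B (s r)) * Θ (ω r) + dR η)) = 0 := by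
        obtain ⟨q, hq⟩ := Nat.exists_eq_add_of_le' hp1
        have : ((f : B) ^ m) ^ p = ((f : B) ^ m) ^ q * (f : B) ^ m := by
          rw [← pow_succ, ← hq]
        rw [this, map_mul, mul_assoc, map_pow (fn P) (f : B) m, hm, mul_zero]
      refine ⟨m + N, fun r => fn P ((f : B) ^ m) * ω r, fn P (((f : B) ^ m) ^ p) * η, ?_⟩
      rw [← CartC_mul hp _ h, smul_eq_mul, mul_one, pow_add, mul_pow, map_mul, mul_assoc,
        ← sub_eq_zero, ← mul_sub, e3]
    obtain ⟨ω, η, h2⟩ := h1
    exact ⟨ω, η, by simpa using h2⟩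

end Pool.Agent.P.MP_824f38_ag.V
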