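import Pool.Agent.P.MP_824f38_ag.V.Defs

/-! Products of exact forms; inverse Cartier operators; Deligne-Illusie data. -/

set_option linter.unusedSimpArgs false
set_option linter.unusedVariables false
set_option linter.unusedSectionVars false

namespace Pool.Agent.P.MP_824f38_ag.V

section
variable {k A : Type} [CommRing k] [CommRing A] [Algebra k A]

/-- the form `d a_1 ⋯ d a_i` -/
noncomputable def wdk (k : Type) [CommRing k] [Algebra k A] {i : ℕ} (a : Fin i → A) : DRk k A :=
  (List.ofFn fun t => dk k (a t)).prod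

@[simp] theorem wdk_zero (a : Fin 0 → A) : wdk k a = 1 := by simp [wdk]

theorem wdk_succ {i : ℕ} (a : Fin (i + 1) → A) :
    wdk k a = dk k (a 0) * wdk k (fun t => a t.succ) := by simp [wdk, List.ofFn_succ]

theorem wdk_mem {i : ℕ} (a : Fin i → A) : wdk k a ∈ Fk k A i := by
  induction i with
  | zero => rw [wdk_zero, ← map_one (fn k)]; exact fn_mem _
  | succ i ih => rw [wdk_succ]; exact dk_mul_mem _ (ih _)

theorem wdk_eq_ιMulti {i : ℕ} (a : Fin i → A) :
    wdk k a = ExteriorAlgebra.ιMulti A i (fun t => KaehlerDifferential.D k A (a t)) := by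
  rw [ExteriorAlgebra.ιMulti_apply]; rfl

theorem Fk_wdk_induction {i : ℕ} {P : DRk k A → Prop} (hz : P 0)
    (hadd : ∀ x y, P x → P y → P (x + y)) (h : ∀ (b : A) (a : Fin i → A), P (fn k b * wdk k a))
    {x : DRk k A} (hx : x ∈ Fk k A i) : P x := by
  induction hx using Fk_induction generalizing P with
  | h0 a => simpa using h a Fin.elim0
  | hz p => exact hz
  | hadd p x y _ _ h1 h2 => exact hadd _ _ (h1 hz hadd h) (h2 hz hadd h)
  | hs p a b x hx ih =>
    refine ih (P := fun x => P (fn k a * dk k b * x)) (by simpa using hz)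
      (fun x y h1 h2 => by rw [mul_add]; exact hadd _ _ h1 h2) (fun c v => ?_)
    have := h (a * c) (Fin.cons b v)
    rw [wdk_succ] at this
    simp only [Fin.cons_zero, Fin.cons_succ, map_mul] at this
    rwa [mul_assoc, ← mul_assoc (dk k b), ← fn_comm c, mul_assoc, ← mul_assoc]

theorem wdk_induction {P : DRk k A → Prop} (hz : P 0) (hadd : ∀ x y, P x → P y → P (x + y))
    (h : ∀ (i : ℕ) (b : A) (a : Fin i → A), P (fn k b * wdk k a)) (x : DRk k A) : P x := by
  induction x using homog_induction with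
  | h0 i x hx => exact Fk_wdk_induction hz hadd (h i) hx
  | hadd x y hx hy => exact hadd x y hx hy

theorem pullk_wdk {k' A' : Type} [CommRing k'] [CommRing A'] [Algebra k' A'] (φ : A →+* A')
    (h : Compat k k' φ) {i : ℕ} (a : Fin i → A) :
    pullk φ h (wdk k a) = wdk k' (fun t => φ (a t)) := by
  induction i with
  | zero => simp
  | succ i ih => rw [wdk_succ, wdk_succ, map_mul, pullk_dk, ih]

theorem one_mul_comm {x : DRk k A} (hx : x ∈ Fk k A 1) (y : DRk k A) : x * y = inv y * x := by
  refine Fk_wdk_induction (P := fun x => x * y = inv y * x) (by simp)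
    (fun a b h1 h2 => by rw [add_mul, mul_add, h1, h2]) (fun b a => ?_) hx
  rw [wdk_succ, wdk_zero, mul_one, mul_assoc, dk_mul_comm, ← mul_assoc, fn_comm, mul_assoc]

theorem one_sq {x : DRk k A} (hx : x ∈ Fk k A 1) : x * x = 0 := by
  change _ ∈ _ ^ 1 at hx
  rw [pow_one] at hx
  obtain ⟨m, rfl⟩ := hx
  exact ExteriorAlgebra.ι_sq_zero m

theorem dk_pow_char (p : ℕ) (hp : (p : A) = 0) (a : A) : dk k (a ^ p) = 0 := by
  rcases p with _ | p
  · simp
  · rw [dk_pow, hp]; simp

theorem fn_injective : Function.Injective (fn k : A → DRk k A) :=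
  ExteriorAlgebra.algebraMap_leftInverse _ |>.injective

end

/-- `b` is a `p`-basis family: every element is uniquely `∑ c_e ^ p * b_e` -/
def PB (p : ℕ) {B E : Type} [CommRing B] [Fintype E] (b : E → B) : Prop :=
  Function.Bijective fun c : E → B => ∑ e, c e ^ p * b e

section
variable (p : ℕ) {P B : Type} [CommRing P] [CommRing B] [Algebra P B]

/-- a lift of the inverse Cartier operator to forms -/
structure IsCart (Θ : DRk P B →+* DRk P B) : Prop where
  fn : ∀ a, Θ (fn P a) = fn P (a ^ p)
  dk : ∀ a, ∃ u, Θ (dk P a) = V.fn P (a ^ (p - 1)) * dk P a + dk P u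

/-- the Cartier isomorphism relative to `P`, where `s` is a `p`-basis family of `P` -/
structure CartIso {E : Type} [Fintype E] (s : E → B) (Θ : DRk P B →+* DRk P B) : Prop where
  inj : ∀ (ω : E → DRk P B) (η : DRk P B), ∑ r, fn P (s r) * Θ (ω r) = dR η → ∀ r, ω r = 0
  surj : ∀ y : DRk P B, dR y = 0 → ∃ (ω : E → DRk P B) (η : DRk P B),
    y = ∑ r, fn P (s r) * Θ (ω r) + dR η

end

/-- the monomials `σ ^ r`, `0 ≤ r < p`, in an algebra over `k[σ]` -/
noncomputable def smon (k : Type) [CommRing k] (m p : ℕ) (B : Type) [CommRing B]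
    [Algebra (Pk k m) B] (r : Fin m → Fin p) : B :=
  algebraMap (Pk k m) B (∏ j, MvPolynomial.X j ^ (r j : ℕ))

/-- Deligne-Illusie data on one ring: the forms `d φ_v / p` and the functions
`(φ_w - φ_v) / p` attached to lifts `φ_v` of the Frobenius map. -/
structure DId (p : ℕ) (P B V : Type) [CommRing P] [CommRing B] [Algebra P B] where
  Z : V → B →+ DRk P B
  H : V → V → B →+ B
  Z_mul : ∀ v a b, Z v (a * b) = fn P (a ^ p) * Z v b + fn P (b ^ p) * Z v a
  Z_base : ∀ v c, Z v (algebraMap P B c) = 0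
  Z_cart : ∀ v a, ∃ u, Z v a = fn P (a ^ (p - 1)) * dk P a + dk P u
  H_mul : ∀ v w a b, H v w (a * b) = a ^ p * H v w b + b ^ p * H v w a
  H_base : ∀ v w c, H v w (algebraMap P B c) = 0
  H_add : ∀ u v w a, H u w a = H u v a + H v w a
  Z_sub : ∀ v w a, Z w a = Z v a + dk P (H v w a)

/-- the total differential on cochains of forms -/
noncomputable def Dt {V : Type} [LinearOrder V] {F : Finset V → Type} [∀ I, AddCommGroup (F I)]
    (r : Res F) (d : ∀ I, F I →+ F I) : (∀ I, F I) →+ (∀ I, F I) :=
  cech r + AddMonoidHom.mk' (fun c J => (-1 : ℤ) ^ J.card • d J (c J))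
    (fun c c' => by funext J; simp)

theorem Dt_apply {V : Type} [LinearOrder V] {F : Finset V → Type} [∀ I, AddCommGroup (F I)]
    (r : Res F) (d : ∀ I, F I →+ F I) (c : ∀ I, F I) (J : Finset V) :
    Dt r d c J = cech r c J + (-1 : ℤ) ^ J.card • d J (c J) := rfl

/-- the constant family -/
def cres (V N : Type) [AddCommGroup N] : Res (fun _ : Finset V => N) :=
  fun _ _ _ => AddMonoidHom.id N

namespace DId

variable {p : ℕ} {P B V : Type} [CommRing P] [CommRing B] [Algebra P B] [LinearOrder V]
  (D : DId p P B V)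

/-- the form attached to the least element of `F` -/
noncomputable def zF (F : Finset V) (a : B) : DRk P B :=
  if h : F.Nonempty then D.Z (F.min' h) a else 0

/-- the function attached to the least elements of `F` and `F'` -/
noncomputable def hF (F F' : Finset V) (a : B) : B :=
  if h : F.Nonempty ∧ F'.Nonempty then D.H (F.min' h.1) (F'.min' h.2) a else 0

/-- cup product with the total one-cocycle attached to `d a` -/
noncomputable def T (a : B) : AddMonoid.End (Finset V → DRk P B) :=
  AddMonoidHom.mk'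
    (fun β F => (-1 : ℤ) ^ F.card • (D.zF F a * β F) +
      ∑ x ∈ F, sgn F x • (fn P (D.hF F (F.erase x) a) * β (F.erase x)))
    (fun β β' => by funext F; simp [mul_add, Finset.sum_add_distrib]; abel)

theorem T_apply (a : B) (β : Finset V → DRk P B) (F : Finset V) :
    D.T a β F = (-1 : ℤ) ^ F.card • (D.zF F a * β F) +
      ∑ x ∈ F, sgn F x • (fn P (D.hF F (F.erase x) a) * β (F.erase x)) := rfl

/-- the alternating product of the operators `T` -/
noncomputable def Alt {i : ℕ} (a : Fin i → B) : AddMonoid.End (Finset V → DRk P B) :=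
  ((i.factorial : ZMod p)⁻¹).val •
    ∑ π : Equiv.Perm (Fin i), (Equiv.Perm.sign π : ℤ) • (List.ofFn fun t => D.T (a (π t))).prod

/-- `A` extends the alternating products to all forms -/
def IsOp (A : DRk P B →+ AddMonoid.End (Finset V → DRk P B)) : Prop :=
  ∀ (i : ℕ) (b : B) (a : Fin i → B) (β : Finset V → DRk P B) (F : Finset V),
    A (fn P b * wdk P a) β F = fn P (b ^ p) * D.Alt a β F

/-- `Θ` is the ring map with `a ↦ a ^ p`, `d a ↦ Z v a` -/
def IsTheta (v : V) (Θ : DRk P B →+* DRk P B) : Prop :=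
  (∀ a, Θ (fn P a) = fn P (a ^ p)) ∧ ∀ a, Θ (dk P a) = D.Z v a

/-- compatibility of two data along a ring map, for the vertices in `I` -/
structure Nat {B' : Type} [CommRing B'] [Algebra P B'] (D' : DId p P B' V) (φ : B →+* B')
    (h : Compat P P φ) (I : Finset V) : Prop where
  Z : ∀ v ∈ I, ∀ a, pullk φ h (D.Z v a) = D'.Z v (φ a)
  H : ∀ v ∈ I, ∀ w ∈ I, ∀ a, φ (D.H v w a) = D'.H v w (φ a)

end DId

/-- a cochain of forms has total degree `s` -/
def TotDeg {V : Type} {P : Type} [CommRing P] {B : Finset V → Type} [∀ I, CommRing (B I)]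
    [∀ I, Algebra P (B I)] (s : ℕ) (y : ∀ I, DRk P (B I)) : Prop :=
  ∀ I, (∀ a, a + I.card = s → y I ∈ Fk P (B I) a) ∧ (s < I.card → y I = 0)

end Pool.Agent.P.MP_824f38_ag.V
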