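import Pool.Agent.P.MP_824f38_ag.V.CartC

set_option linter.unusedVariables false
set_option linter.unusedSectionVars false

namespace Pool.Agent.P.MP_824f38_ag.V

namespace Mod

variable {p : ℕ} [Fact p.Prime] {m : ℕ} {V : Type} (X : Mod (ZMod p) m V)

/-- the degree `p l - r` -/
def fdeg (p : ℕ) {m : ℕ} (l : Dg m) (r : Fin m → Fin p) : Dg m := fun j => p * l j - (r j : ℕ)

theorem fdeg_inj {l l' : Dg m} {r r' : Fin m → Fin p} (h : fdeg p l r = fdeg p l' r') :
    l = l' ∧ r = r' := by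
  have key : ∀ j, l j = l' j ∧ r j = r' j := by
    intro j
    have e : (p : ℤ) * l j - (r j : ℕ) = p * l' j - (r' j : ℕ) := congrFun h j
    have h1 : ((r j : ℕ) : ℤ) < p := by exact_mod_cast (r j).2
    have h2 : ((r' j : ℕ) : ℤ) < p := by exact_mod_cast (r' j).2
    have h3 : (0 : ℤ) ≤ (r j : ℕ) := Int.natCast_nonneg _
    have h4 : (0 : ℤ) ≤ (r' j : ℕ) := Int.natCast_nonneg _
    have h5 : l j = l' j := by
      rcases lt_trichotomy (l j) (l' j) with h | h | h
      · nlinarith [Int.add_one_le_of_lt h]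
      · exact h
      · nlinarith [Int.add_one_le_of_lt h]
    rw [h5] at e
    exact ⟨h5, Fin.ext (by omega)⟩
  exact ⟨funext fun j => (key j).1, funext fun j => (key j).2⟩

theorem p_eq_zero (I : Finset V) : (p : X.Ch I) = 0 := by
  rw [← map_natCast (algebraMap (Pk (ZMod p) m) (X.Ch I)),
    ← map_natCast (algebraMap (ZMod p) (Pk (ZMod p) m)), ZMod.natCast_self, map_zero, map_zero]

/- `L_induction` (after `ep`, `exists_sum_ep`): for `γ` closed, homogeneous, and
`Θ (d b) = b ^ (p - 1) d b + d u`, the product changes by an exact form -/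
theorem cart_homog {I : Finset V} {Θ : X.W I →+* X.W I} (h : IsCart p Θ) {l : Dg m} {ω : X.W I}
    (hω : ω ∈ X.LL l I) : ∃ γ ∈ X.LL (p • l) I, ∃ η, Θ ω = γ + dR η := by
  have hp := X.p_eq_zero I
  have key : Θ.toAddMonoidHom ω ∈ X.LL (p • l) I ⊔ (dR : X.W I →+ X.W I).range := by
    refine Hg_of_Fk (X.ρW_spec I) (X.coc I) _ _ (fun i x h1 h2 => ?_) hω
    refine L_induction (P := fun _ l x =>
      Θ x ∈ X.LL (p • l) I ⊔ (dR : X.W I →+ X.W I).range) (fun l a ha => ?_)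
      (fun _ _ => by simp) (fun _ _ x y h1 h2 => by rw [map_add]; exact add_mem h1 h2)
      (fun i l l' l'' a b x ha hb hx ih => ?_) (p := i) ⟨h1, h2⟩
    · rw [h.fn]
      exact AddSubgroup.mem_sup_left (fn_mem_L (Hg_pow ha p)).2
    · obtain ⟨γ, hγ, _, ⟨η, rfl⟩, e⟩ := AddSubgroup.mem_sup.1 ih
      obtain ⟨u, hu⟩ := h.dk b
      have hc : dR (fn (Pk (ZMod p) m) (b ^ (p - 1)) * dk _ b) = 0 := by
        have := h.closed hp (dk _ b)
        rwa [hu, map_add, dR_dk, add_zero] at this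
      refine AddSubgroup.mem_sup.2 ⟨fn _ (a ^ p) * (fn _ (b ^ (p - 1)) * dk _ b * γ), ?_, _,
        ⟨fn _ (a ^ p) * (fn _ u * Θ x - fn _ (b ^ (p - 1)) * dk _ b * η), rfl⟩, ?_⟩
      · refine Hg_cast (mul_mem_LL (fn_mem_L (Hg_pow ha p)).2 (mul_mem_LL
          (mul_mem_LL (fn_mem_L (Hg_pow hb (p - 1))).2 (dk_mem_L hb).2) hγ)) ?_
        rw [← succ_nsmul, Nat.sub_add_cancel (Fact.out : p.Prime).one_le, nsmul_add, nsmul_add,
          add_assoc]
      · rw [dR_fn_mul (dk_pow_char p hp a), map_sub, dR_mul, dR_mul (_ * _), h.closed hp, hc,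
          map_mul, map_mul, map_mul, h.fn, hu, ← e]
        simp only [dR_fn, inv_fn, inv_dk]
        noncomm_ring
  obtain ⟨γ, hγ, _, ⟨η, rfl⟩, e⟩ := AddSubgroup.mem_sup.1 key
  exact ⟨γ, hγ, η, e.symm⟩

theorem CartG_base (r : Fin m → Fin p) : X.σp (fun j => r j) =
    algebraMap (Pk (ZMod p) m) X.S (∏ j, MvPolynomial.X j ^ (r j : ℕ)) := by
  simp [σp, σ]

theorem CartG_smul {I : Finset V} (r : Fin m → Fin p) (y : X.W I) :
    fn _ (algebraMap (Pk (ZMod p) m) (X.Ch I) (∏ j, MvPolynomial.X j ^ (r j : ℕ))) * y =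
      X.σp (fun j => r j) • y := by
  rw [CartG_base, smul_def, act_apply,
    ← IsScalarTower.algebraMap_apply (Pk (ZMod p) m) X.S (X.Ch I)]

theorem CartG_homog {I : Finset V} {Θ : X.W I →+* X.W I} (h : IsCart p Θ) {l : Dg m}
    (r : Fin m → Fin p) {ω : X.W I} (hω : ω ∈ X.LL l I) :
    ∃ γ ∈ X.LL (fdeg p l r) I, ∃ η, X.σp (fun j => r j) • Θ ω = γ + dR η := by
  obtain ⟨γ, hγ, η, e⟩ := X.cart_homog h hω
  refine ⟨X.σp (fun j => r j) • γ, Hg_cast (smul_mem_LL (X.σp_mem _) hγ) ?_,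
    X.σp (fun j => r j) • η, ?_⟩
  · funext j
    simp [fdeg, neg_add_eq_sub]
  · rw [e, smul_add, CartG_base, dR_base_smul]

theorem CartG_proj {I : Finset V} {Θ : X.W I →+* X.W I} (h : IsCart p Θ) (l : Dg m)
    (r r' : Fin m → Fin p) (ω : X.W I) :
    ∃ η, X.prW (fdeg p l r) I (X.σp (fun j => r' j) • Θ ω) = (if r' = r then
      X.prW (fdeg p l r) I (X.σp (fun j => r j) • Θ (X.prW l I ω)) else 0) + dR η := by
  induction ω using (X.coW I).induction with
  | h0 l' x hx =>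
    by_cases e : l' = l ∧ r' = r
    · obtain ⟨rfl, rfl⟩ := e
      exact ⟨0, by rw [if_pos rfl, prW_of_mem hx, map_zero, add_zero]⟩
    · obtain ⟨γ, hγ, η, e'⟩ := X.CartG_homog h r' hx
      refine ⟨X.prW (fdeg p l r) I η, ?_⟩
      rw [e', map_add, prW_of_ne hγ (fun h => e (fdeg_inj h)), prW_dR]
      split_ifs with e''
      · rw [prW_of_ne hx (fun h => e ⟨h, e''⟩), map_zero, smul_zero, map_zero]
      · rfl
  | hadd x y hx hy =>
    obtain ⟨η, e⟩ := hx
    obtain ⟨η', e'⟩ := hy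
    refine ⟨η + η', ?_⟩
    simp only [map_add, smul_add, e, e']
    split_ifs <;> abel

/- `X.σp r • γ` has degree `fdeg p l r`; `dR_base_smul`, `prW_dR`; then `cartIso_smooth` with
`PB.base` and the family supported at `r` -/
theorem cart_inj {I : Finset V} (hs : Algebra.Smooth (Pk (ZMod p) m) (X.Ch I))
    {Θ : X.W I →+* X.W I} (h : IsCart p Θ) (l : Dg m) (r : Fin m → Fin p) {ω : X.W I}
    (hω : ω ∈ X.LL l I) (η : X.W I)
    (he : X.prW (fdeg p l r) I (X.σp (fun j => r j) • Θ ω) = dR η) : ω = 0 := by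
  obtain ⟨γ, hγ, η0, e⟩ := X.CartG_homog h r hω
  rw [e, map_add, prW_of_mem hγ, prW_dR] at he
  have key := (cartIso_smooth (PB.base p m) h).inj (Pi.single r ω)
    (η - X.prW (fdeg p l r) I η0 + η0) (by
      rw [Finset.sum_eq_single r (fun b _ hb => by rw [Pi.single_eq_of_ne hb, map_zero, mul_zero])
        (by simp), Pi.single_eq_same, CartG_smul, e, map_add, map_sub, ← he, add_sub_cancel_right])
    r
  rwa [Pi.single_eq_same] at key

/- decompose each `ω r'` into homogeneous parts and project; `fdeg_inj` -/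
theorem cart_surj {I : Finset V} (hs : Algebra.Smooth (Pk (ZMod p) m) (X.Ch I))
    {Θ : X.W I →+* X.W I} (h : IsCart p Θ) (l : Dg m) (r : Fin m → Fin p) {y : X.W I}
    (hy : y ∈ X.LL (fdeg p l r) I) (hd : dR y = 0) :
    ∃ ω ∈ X.LL l I, ∃ η ∈ X.LL (fdeg p l r) I,
      y = X.prW (fdeg p l r) I (X.σp (fun j => r j) • Θ ω) + dR η := by
  obtain ⟨ω, η, e⟩ := (cartIso_smooth (PB.base p m) h).surj y hd
  choose ζ hζ using fun r' => X.CartG_proj h l r r' (ω r')
  refine ⟨X.prW l I (ω r), prW_mem_LL _ _,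
    X.prW (fdeg p l r) I (∑ r', ζ r' + X.prW (fdeg p l r) I η), prW_mem_LL _ _, ?_⟩
  have e1 := congrArg (X.prW (fdeg p l r) I) e
  simp only [CartG_smul] at e1
  rw [prW_of_mem hy, map_add, map_sum, prW_dR] at e1
  simp only [hζ] at e1
  rw [Finset.sum_add_distrib, Finset.sum_ite_eq', if_pos (Finset.mem_univ r), ← map_sum,
    add_assoc, ← map_add] at e1
  have e2 := congrArg (X.prW (fdeg p l r) I) e1
  rwa [prW_of_mem hy, map_add, prW_of_mem (prW_mem_LL _ _), prW_dR] at e2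

end Mod

end Pool.Agent.P.MP_824f38_ag.V
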