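import Mathlib

/-! Ordered Cech complexes of families indexed by finite sets. -/

set_option linter.unusedSimpArgs false
set_option linter.unusedVariables false
set_option linter.unusedSectionVars false

namespace Pool.Agent.P.MP_824f38_ag.V

variable {V : Type} [LinearOrder V]

/-- the sign of `a` in `J` -/
def sgn (J : Finset V) (a : V) : ℤ := (-1) ^ (J.filter (· < a)).card

theorem sgn_sq (J : Finset V) (a : V) : sgn J a * sgn J a = 1 := by
  rw [sgn, ← mul_pow]; simp

theorem sgn_erase_of_le (J : Finset V) {a b : V} (h : b ≤ a) : sgn (J.erase a) b = sgn J b := by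
  unfold sgn
  congr 2
  ext x
  simp only [Finset.mem_filter, Finset.mem_erase]
  exact ⟨fun h' => ⟨h'.1.2, h'.2⟩, fun h' => ⟨⟨(h'.2.trans_le h).ne, h'.1⟩, h'.2⟩⟩

theorem sgn_erase_of_lt {J : Finset V} {a b : V} (ha : a ∈ J) (h : a < b) :
    sgn (J.erase a) b = -sgn J b := by
  unfold sgn
  rw [Finset.filter_erase, ← Finset.card_erase_add_one (s := J.filter (· < b)) (a := a)
    (Finset.mem_filter.2 ⟨ha, h⟩), pow_succ]
  simp

theorem sgn_swap {J : Finset V} {a b : V} (ha : a ∈ J) (hb : b ∈ J) (h : a ≠ b) :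
    sgn J a * sgn (J.erase a) b = -(sgn J b * sgn (J.erase b) a) := by
  rcases lt_or_gt_of_ne h with h | h
  · rw [sgn_erase_of_lt ha h, sgn_erase_of_le J h.le]; ring
  · rw [sgn_erase_of_lt hb h, sgn_erase_of_le J h.le]; ring

variable {F F' : Finset V → Type} [∀ I, AddCommGroup (F I)] [∀ I, AddCommGroup (F' I)]

/-- restriction maps of a family -/
abbrev Res (F : Finset V → Type) [∀ I, AddCommGroup (F I)] : Type :=
  ∀ I J : Finset V, I ⊆ J → F I →+ F J

/-- functoriality -/
structure IsFun (r : Res F) : Prop where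
  id : ∀ I h x, r I I h x = x
  comp : ∀ I J K h h' x, r J K h' (r I J h x) = r I K (h.trans h') x

theorem res_congr (r : Res F) (c : ∀ I, F I) {I I' J : Finset V} (e : I = I') (h : I ⊆ J)
    (h' : I' ⊆ J) : r I J h (c I) = r I' J h' (c I') := by subst e; rfl

/-- the Cech differential (on all finite sets, the empty set included) -/
def cech (r : Res F) : (∀ I, F I) →+ (∀ I, F I) :=
  AddMonoidHom.mk'
    (fun c J => ∑ a ∈ J, sgn J a • r (J.erase a) J (Finset.erase_subset a J) (c (J.erase a)))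
    (fun c c' => by funext J; simp [Finset.sum_add_distrib])

theorem cech_apply (r : Res F) (c : ∀ I, F I) (J : Finset V) :
    cech r c J = ∑ a ∈ J, sgn J a • r (J.erase a) J (Finset.erase_subset a J) (c (J.erase a)) :=
  rfl

@[simp] theorem cech_empty (r : Res F) (c : ∀ I, F I) : cech r c ∅ = 0 := by simp [cech_apply]

theorem cech_cech {r : Res F} (hr : IsFun r) (c : ∀ I, F I) : cech r (cech r c) = 0 := by
  funext J
  simp only [cech_apply, map_sum, map_zsmul, hr.comp, Finset.smul_sum, smul_smul, Pi.zero_apply]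
  rw [Finset.sum_sigma']
  refine Finset.sum_involution (fun x _ => ⟨x.2, x.1⟩) ?_ ?_ ?_ ?_
  · rintro ⟨a, b⟩ h
    simp only [Finset.mem_sigma, Finset.mem_erase] at h
    rw [sgn_swap h.1 h.2.2 h.2.1.symm, neg_smul,
      res_congr r c (Finset.erase_right_comm (a := a) (b := b)) _
        ((Finset.erase_subset _ _).trans (Finset.erase_subset _ _)), neg_add_cancel]
  · rintro ⟨a, b⟩ h _ e
    simp only [Finset.mem_sigma, Finset.mem_erase] at h
    exact h.2.1 (congrArg Sigma.fst e)
  · rintro ⟨a, b⟩ h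
    simp only [Finset.mem_sigma, Finset.mem_erase] at h ⊢
    exact ⟨h.2.2, h.2.1.symm, h.1⟩
  · rintro ⟨a, b⟩ h
    rfl

/-- a family of additive maps acts on cochains -/
def cmap (f : ∀ I, F I →+ F' I) : (∀ I, F I) →+ (∀ I, F' I) :=
  AddMonoidHom.mk' (fun c I => f I (c I)) (fun c c' => by funext I; simp)

@[simp] theorem cmap_apply (f : ∀ I, F I →+ F' I) (c : ∀ I, F I) (I : Finset V) :
    cmap f c I = f I (c I) := rfl

theorem cech_cmap {r : Res F} {r' : Res F'} (f : ∀ I, F I →+ F' I)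
    (hf : ∀ I J h x, r' I J h (f I x) = f J (r I J h x)) (c : ∀ I, F I) :
    cech r' (cmap f c) = cmap f (cech r c) := by
  funext J
  simp only [cech_apply, cmap_apply, hf, map_sum, map_zsmul]

/-- cochains with values in `G`, supported on the sets with `q` elements -/
def Coch (G : ∀ I, AddSubgroup (F I)) (q : ℕ) : AddSubgroup (∀ I, F I) where
  carrier := {c | ∀ I, c I ∈ G I ∧ (I.card ≠ q → c I = 0)}
  add_mem' := fun {a b} ha hb I => ⟨add_mem (ha I).1 (hb I).1, fun h => by
    rw [Pi.add_apply, (ha I).2 h, (hb I).2 h, add_zero]⟩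
  zero_mem' := fun I => ⟨zero_mem _, fun _ => rfl⟩
  neg_mem' := fun {a} ha I => ⟨neg_mem (ha I).1, fun h => by
    rw [Pi.neg_apply, (ha I).2 h, neg_zero]⟩

theorem mem_Coch {G : ∀ I, AddSubgroup (F I)} {q : ℕ} {c : ∀ I, F I} :
    c ∈ Coch G q ↔ ∀ I, c I ∈ G I ∧ (I.card ≠ q → c I = 0) := Iff.rfl

theorem cech_mem {r : Res F} {G : ∀ I, AddSubgroup (F I)}
    (hG : ∀ I J h, ∀ x ∈ G I, r I J h x ∈ G J) {q : ℕ} {c : ∀ I, F I} (hc : c ∈ Coch G q) :
    cech r c ∈ Coch G (q + 1) := fun J => by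
  refine ⟨sum_mem fun a _ => zsmul_mem (hG _ _ _ _ (hc _).1) _, fun h => ?_⟩
  refine Finset.sum_eq_zero fun a ha => ?_
  rw [(hc _).2 (fun e => h (by rw [← Finset.card_erase_add_one ha, e])), map_zero, smul_zero]

theorem cmap_mem {G : ∀ I, AddSubgroup (F I)} {G' : ∀ I, AddSubgroup (F' I)}
    (f : ∀ I, F I →+ F' I) (hf : ∀ I, ∀ x ∈ G I, f I x ∈ G' I) {q : ℕ} {c : ∀ I, F I}
    (hc : c ∈ Coch G q) : cmap f c ∈ Coch G' q := fun I =>
  ⟨hf I _ (hc I).1, fun h => by rw [cmap_apply, (hc I).2 h, map_zero]⟩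

/-- the part of a cochain on the sets with `q` elements -/
def cpart (q : ℕ) : (∀ I, F I) →+ (∀ I, F I) :=
  AddMonoidHom.mk' (fun c I => if I.card = q then c I else 0)
    (fun c c' => by funext I; by_cases h : I.card = q <;> simp [h])

theorem cpart_apply (q : ℕ) (c : ∀ I, F I) (I : Finset V) :
    cpart q c I = if I.card = q then c I else 0 := rfl

theorem cpart_cech (r : Res F) (q : ℕ) (c : ∀ I, F I) :
    cpart (q + 1) (cech r c) = cech r (cpart q c) := by
  funext J
  simp only [cpart_apply, cech_apply]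
  split_ifs with h
  · refine Finset.sum_congr rfl fun a ha => ?_
    rw [if_pos (by have := Finset.card_erase_add_one ha; omega)]
  · refine (Finset.sum_eq_zero fun a ha => ?_).symm
    rw [if_neg (by have := Finset.card_erase_add_one ha; omega), map_zero, smul_zero]

theorem cpart_mem {G : ∀ I, AddSubgroup (F I)} (q : ℕ) {c : ∀ I, F I} (hc : ∀ I, c I ∈ G I) :
    cpart q c ∈ Coch G q := fun I => by
  rw [cpart_apply]
  split_ifs with h
  · exact ⟨hc I, fun h' => absurd h h'⟩
  · exact ⟨zero_mem _, fun _ => rfl⟩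

theorem cpart_of_mem {G : ∀ I, AddSubgroup (F I)} {q : ℕ} {c : ∀ I, F I} (hc : c ∈ Coch G q) :
    cpart q c = c := by
  funext I
  rw [cpart_apply]
  split_ifs with h
  · rfl
  · exact ((hc I).2 h).symm

/-- `c` is the coboundary of a cochain of Cech degree `q - 1` (zero when `q = 0`) -/
def IsBd (r : Res F) (G : ∀ I, AddSubgroup (F I)) (q : ℕ) (c : ∀ I, F I) : Prop :=
  ∃ b ∈ Coch G q, b ∅ = 0 ∧ cech r b = c

/-- `c` is a cocycle of Cech degree `q` -/
def IsCyc (r : Res F) (G : ∀ I, AddSubgroup (F I)) (q : ℕ) (c : ∀ I, F I) : Prop :=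
  c ∈ Coch G (q + 1) ∧ cech r c = 0

/-- the Cech cohomology of `G` vanishes in degree `q` -/
def CEx (r : Res F) (G : ∀ I, AddSubgroup (F I)) (q : ℕ) : Prop :=
  ∀ c, IsCyc r G q c → IsBd r G q c

theorem cex_of_card [Fintype V] (r : Res F) (G : ∀ I, AddSubgroup (F I)) {q : ℕ}
    (h : Fintype.card V ≤ q) : CEx r G q := fun c hc => by
  refine ⟨0, zero_mem _, rfl, ?_⟩
  rw [map_zero]
  funext I
  exact ((hc.1 I).2 (by have := Finset.card_le_univ I; omega)).symm

end Pool.Agent.P.MP_824f38_ag.V
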