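import Pool.Agent.P.MP_824f38_ag.V.Frob
import Pool.Agent.P.MP_824f38_ag.V.CartDefs

set_option linter.unusedVariables false
set_option linter.unusedSectionVars false

namespace Pool.Agent.P.MP_824f38_ag.V

/-- reduction modulo `p` of a flat module -/
def DIData_red (p : ℕ) {M M' : Type} [AddCommGroup M] [Zero M'] (f : M → M') : Prop :=
  Function.Surjective f ∧ (∀ x, f x = 0 ↔ ∃ y, x = p • y) ∧ ∀ y, p • y = 0 ↔ f y = 0

/-- division by `p` -/
theorem DIData_div {p : ℕ} {A A' M M' : Type} [AddCommGroup A] [AddCommGroup A'] [AddCommGroup M]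
    [AddCommGroup M'] (π : A →+ A') (hπ : DIData_red p π) (f : M →+ M') (hf : DIData_red p f)
    (g : A →+ M) (hg : ∀ a, ∃ y, p • y = g a) :
    ∃ G : A' →+ M', ∀ a y, p • y = g a → G (π a) = f y := by
  choose y hy using hg
  choose s hs using hπ.1
  have key : ∀ a a' y', π a = π a' → p • y' = g a' → f (y a) = f y' := by
    intro a a' y' h1 h2
    obtain ⟨c, hc⟩ := (hπ.2.1 (a - a')).1 (by rw [map_sub, h1, sub_self])
    rw [← sub_eq_zero, ← map_sub, ← hf.2.2, smul_sub, hy, h2, ← map_sub, hc, map_nsmul, ← hy,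
      hf.2.2, hf.2.1]
    exact ⟨_, rfl⟩
  refine ⟨AddMonoidHom.mk' (fun a' => f (y (s a'))) (fun a₁ a₂ => ?_), fun a y' h => ?_⟩
  · rw [← map_add]
    exact key _ (s a₁ + s a₂) _ (by rw [map_add, hs, hs, hs]) (by rw [smul_add, hy, hy, map_add])
  · exact key _ a _ (hs _) h

theorem DIData_one {p : ℕ} [Fact p.Prime] {P A P' A' V : Type} [CommRing P] [CommRing A]
    [Algebra P A] [CommRing P'] [CommRing A'] [Algebra P' A'] (π : A →+* A')
    (hc : Compat P P' π) (hπ : DIData_red p π) (hw : DIData_red p (pullk π hc))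
    (hb : ∀ c', ∃ c, π (algebraMap P A c) = algebraMap P' A' c') (φ : V → A →+* A) (ψ : P → P)
    (h1 : ∀ v a, π (φ v a) = π a ^ p) (h2 : ∀ v c, φ v (algebraMap P A c) = algebraMap P A (ψ c)) :
    ∃ D : DId p P' A' V, (∀ v a, ∃ y, p • y = dk P (φ v a)) ∧
      (∀ v u a, ∃ x, p • x = φ u a - φ v a) ∧
      (∀ v a y, p • y = dk P (φ v a) → D.Z v (π a) = pullk π hc y) ∧
      ∀ v u a x, p • x = φ u a - φ v a → D.H v u (π a) = π x := by
  have dn : ∀ x : A, dk P (p • x) = p • dk P x := fun x => map_nsmul (dkHom P) p x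
  have z0 : ∀ v a, ∃ x, p • (fn P (a ^ (p - 1)) * dk P a + dk P x) = dk P (φ v a) := by
    intro v a
    obtain ⟨x, hx⟩ := (hπ.2.1 (φ v a - a ^ p)).1 (by rw [map_sub, h1, map_pow, sub_self])
    refine ⟨x, ?_⟩
    have e := dk_pow (k := P) a (p - 1)
    rw [Nat.sub_add_cancel (Fact.out : p.Prime).one_le] at e
    rw [eq_add_of_sub_eq' hx, dk_add, e, dn, smul_add, ← nsmul_eq_mul, map_nsmul, smul_mul_assoc]
  have z1 : ∀ v a, ∃ y, p • y = dk P (φ v a) := fun v a => ⟨_, (z0 v a).choose_spec⟩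
  have x1 : ∀ v u a, ∃ x, p • x = φ u a - φ v a := fun v u a => by
    obtain ⟨x, hx⟩ := (hπ.2.1 (φ u a - φ v a)).1 (by rw [map_sub, h1, h1, sub_self])
    exact ⟨x, hx.symm⟩
  choose Z hZ using fun v => DIData_div π.toAddMonoidHom hπ (pullk π hc).toAddMonoidHom hw
    ((dkHom P).comp (φ v).toAddMonoidHom) (z1 v)
  choose H hH using fun v u => DIData_div π.toAddMonoidHom hπ π.toAddMonoidHom hπ
    ((φ u).toAddMonoidHom - (φ v).toAddMonoidHom) (x1 v u)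
  replace hZ : ∀ v a y, p • y = dk P (φ v a) → Z v (π a) = pullk π hc y := hZ
  replace hH : ∀ v u a x, p • x = φ u a - φ v a → H v u (π a) = π x := hH
  refine ⟨⟨Z, H, fun v a b => ?_, fun v c => ?_, fun v a => ?_, fun v u a b => ?_,
    fun v u c => ?_, fun u v w a => ?_, fun v u a => ?_⟩, z1, x1, hZ, hH⟩
  · obtain ⟨a, rfl⟩ := hπ.1 a
    obtain ⟨b, rfl⟩ := hπ.1 b
    obtain ⟨y, hy⟩ := z1 v a
    obtain ⟨y', hy'⟩ := z1 v b
    rw [← map_mul, hZ v (a * b) (fn P (φ v a) * y' + fn P (φ v b) * y) (by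
      rw [smul_add, ← mul_smul_comm, ← mul_smul_comm, hy, hy', map_mul, dk_mul]),
      hZ v a y hy, hZ v b y' hy', map_add, map_mul, map_mul, pullk_fn, pullk_fn, h1, h1]
  · obtain ⟨c, hc'⟩ := hb c
    rw [← hc', hZ v _ 0 (by rw [smul_zero, h2, dk_algebraMap]), map_zero]
  · obtain ⟨a, rfl⟩ := hπ.1 a
    obtain ⟨x, hx⟩ := z0 v a
    exact ⟨π x, by rw [hZ v a _ hx, map_add, map_mul, pullk_fn, pullk_dk, pullk_dk, map_pow π]⟩
  · obtain ⟨a, rfl⟩ := hπ.1 a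
    obtain ⟨b, rfl⟩ := hπ.1 b
    obtain ⟨x, hx⟩ := x1 v u a
    obtain ⟨x', hx'⟩ := x1 v u b
    rw [← map_mul, hH v u (a * b) (φ u a * x' + φ v b * x) (by
      rw [smul_add, ← mul_smul_comm, ← mul_smul_comm, hx, hx', map_mul, map_mul]; ring),
      hH v u a x hx, hH v u b x' hx', map_add, map_mul, map_mul, h1, h1]
  · obtain ⟨c, hc'⟩ := hb c
    rw [← hc', hH v u _ 0 (by rw [smul_zero, h2, h2, sub_self]), map_zero]
  · obtain ⟨a, rfl⟩ := hπ.1 a
    obtain ⟨x, hx⟩ := x1 u v a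
    obtain ⟨x', hx'⟩ := x1 v w a
    rw [hH u w a (x + x') (by rw [smul_add, hx, hx']; ring), hH u v a x hx, hH v w a x' hx',
      map_add]
  · obtain ⟨a, rfl⟩ := hπ.1 a
    obtain ⟨y, hy⟩ := z1 v a
    obtain ⟨x, hx⟩ := x1 v u a
    rw [hZ u a (y + dk P x) (by rw [smul_add, hy, ← dn, hx, dk_sub, add_sub_cancel]),
      hZ v a y hy, hH v u a x hx, map_add, pullk_dk]

variable {p : ℕ} [Fact p.Prime] [Algebra (ZMod (p ^ 2)) (ZMod p)] {m : ℕ} {V : Type}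
  [LinearOrder V] {X : Mod (ZMod (p ^ 2)) m V} {Y : Mod (ZMod p) m V} (b : BC X Y)

include b in
theorem exists_DId (hs : X.Sm) :
    ∃ D : ∀ I : Finset V, I.Nonempty → DId p (Pk (ZMod p) m) (Y.Ch I) V,
      ∀ I J (hI : I.Nonempty) (hJ : J.Nonempty) (h : I ⊆ J),
        (D I hI).Nat (D J hJ) (Y.rs I J h : Y.Ch I →+* Y.Ch J) (Y.compat_rs I J h) I := by
  obtain ⟨φ, f1, f2, f3⟩ := exists_frob b hs
  have red : ∀ I : Finset V, I.Nonempty →
      DIData_red p (b.ch I) ∧ DIData_red p (pullk (b.ch I) (b.compat I)) := fun I hI => by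
    have := hs I hI
    obtain ⟨h1, h2⟩ := flat_DR_base (k := ZMod (p ^ 2)) (P := Pk (ZMod (p ^ 2)) m) (B := X.Ch I)
    exact ⟨(b.isBC_ch I).modp p, (b.isBC_w I).modp p⟩
  obtain ⟨Φ, hΦ, g1, g2⟩ : ∃ Φ : ∀ I : Finset V, I.Nonempty → V → (X.Ch I →+* X.Ch I),
      (∀ I hI v (h : v ∈ I), Φ I hI v = φ I v h) ∧
      (∀ I hI v a, b.ch I (Φ I hI v a) = b.ch I a ^ p) ∧
      ∀ I hI v c, Φ I hI v (algebraMap (Pk (ZMod (p ^ 2)) m) _ c) =
        algebraMap (Pk (ZMod (p ^ 2)) m) _ (MvPolynomial.expand p c) := by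
    refine ⟨fun I hI v => if h : v ∈ I then φ I v h else φ I (I.min' hI) (I.min'_mem hI),
      fun I hI v h => dif_pos h, fun I hI v a => ?_, fun I hI v c => ?_⟩
    · beta_reduce
      split_ifs <;> exact f1 _ _ _ a
    · beta_reduce
      split_ifs <;> exact f2 _ _ _ c
  choose D z1 x1 hZ hH using fun (I : Finset V) (hI : I.Nonempty) =>
    DIData_one (b.ch I) (b.compat I) (red I hI).1 (red I hI).2 (fun c' => by
      obtain ⟨c, rfl⟩ := MvPolynomial.map_surjective (algebraMap (ZMod (p ^ 2)) (ZMod p))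
        (ZMod.ringHom_surjective _) c'
      exact ⟨c, b.ch_base I c⟩) (Φ I hI) (MvPolynomial.expand p) (g1 I hI) (g2 I hI)
  have nat : ∀ I J hI hJ (h : I ⊆ J), ∀ v ∈ I, ∀ a,
      X.rs I J h (Φ I hI v a) = Φ J hJ v (X.rs I J h a) := fun I J hI hJ h v hv a => by
    rw [hΦ I hI v hv, hΦ J hJ v (h hv), f3]
  refine ⟨D, fun I J hI hJ h => ⟨fun v hv a => ?_, fun v hv u hu a => ?_⟩⟩
  · obtain ⟨a, rfl⟩ := (red I hI).1.1 a
    obtain ⟨y, hy⟩ := z1 I hI v a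
    rw [hZ I hI v a y hy, RingHom.coe_coe, ← b.ch_rs, hZ J hJ v _ (X.resH I J h y) (by
      rw [← map_nsmul, hy, Mod.resH_dk, nat I J hI hJ h v hv])]
    exact b.w_res I J h y
  · obtain ⟨a, rfl⟩ := (red I hI).1.1 a
    obtain ⟨x, hx⟩ := x1 I hI v u a
    rw [hH I hI v u a x hx, RingHom.coe_coe, ← b.ch_rs, ← b.ch_rs, hH J hJ v u _ (X.rs I J h x) (by
      rw [← map_nsmul, hx, map_sub, nat I J hI hJ h v hv, nat I J hI hJ h u hu])]

end Pool.Agent.P.MP_824f38_ag.V
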