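import Pool.Agent.P.MP_824f38_ag.V.CartDefs

set_option linter.unusedVariables false
set_option linter.unusedSectionVars false

namespace Pool.Agent.P.MP_824f38_ag.V

variable {V : Type} [LinearOrder V] [Fintype V]

theorem Dt_Dt {F : Finset V → Type} [∀ I, AddCommGroup (F I)] {r : Res F} (hr : IsFun r)
    {d : ∀ I, F I →+ F I} (hd : ∀ I x, d I (d I x) = 0)
    (hrd : ∀ I J h x, r I J h (d I x) = d J (r I J h x)) (c : ∀ I, F I) :
    Dt r d (Dt r d c) = 0 := by
  funext J
  have h1 : Dt r d c = cech r c + fun J => (-1 : ℤ) ^ J.card • d J (c J) := rfl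
  rw [Dt_apply, h1, map_add, cech_cech hr, zero_add, Pi.add_apply, map_add, map_zsmul, hd,
    smul_zero, add_zero]
  simp only [cech_apply, map_sum, map_zsmul, hrd, Finset.smul_sum]
  rw [← Finset.sum_add_distrib]
  refine Finset.sum_eq_zero fun a ha => ?_
  rw [← Finset.card_erase_add_one ha, pow_succ]
  module

theorem Filt_cech {F : Finset V → Type} [∀ I, AddCommGroup (F I)] (r : Res F) (c : ∀ I, F I)
    (J : Finset V) (h : ∀ I : Finset V, I.card < J.card → c I = 0) : cech r c J = 0 :=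
  Finset.sum_eq_zero fun a ha => by
    rw [h _ (Finset.card_erase_lt_of_mem ha), map_zero, smul_zero]

theorem Filt_mem {F : Finset V → Type} [∀ I, AddCommGroup (F I)] {r : Res F}
    {d : ∀ I, F I →+ F I} {G : ∀ I, AddSubgroup (F I)}
    (hG : ∀ I J h, ∀ x ∈ G I, r I J h x ∈ G J) (hd : ∀ I, ∀ x ∈ G I, d I x ∈ G I)
    {c : ∀ I, F I} (hc : ∀ I, c I ∈ G I) (J : Finset V) : Dt r d c J ∈ G J :=
  add_mem (sum_mem fun a _ => zsmul_mem (hG _ _ _ _ (hc _)) _) (zsmul_mem (hd _ _ (hc _)) _)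

theorem Filt_sq {M : Type} [AddCommGroup M] (j : ℕ) (x : M) :
    (-1 : ℤ) ^ j • (-1 : ℤ) ^ j • x = x := by
  rw [smul_smul, ← mul_pow]
  simp

/- Descending induction on `j ≥ 1` for `c`, `y` supported on the sets with at least `j` elements
(start at `j > card V`). On a set `J` with `j` elements: `Θ J (c J) = ± d (y J)`, so `c J = 0`,
`y J` is closed, `y J = Θ J (b J) + d (η J)`. Replace `c` by `c - δ b` and `y` by
`y - Ψ b - Dt (± η)`. -/
theorem filt_inj {F F' : Finset V → Type} [∀ I, AddCommGroup (F I)] [∀ I, AddCommGroup (F' I)]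
    {r' : Res F'} (hr' : IsFun r') {d : ∀ I, F' I →+ F' I} (hd : ∀ I x, d I (d I x) = 0)
    (hrd : ∀ I J h x, r' I J h (d I x) = d J (r' I J h x))
    (G : ∀ I, AddSubgroup (F I)) (G' : ∀ I, AddSubgroup (F' I))
    (hG' : ∀ I J h, ∀ x ∈ G' I, r' I J h x ∈ G' J) (hdG : ∀ I, ∀ x ∈ G' I, d I x ∈ G' I)
    (δ : (∀ I, F I) →+ (∀ I, F I)) (hδ : ∀ c, δ (δ c) = 0)
    (hδG : ∀ q, ∀ c ∈ Coch G q, δ c ∈ Coch G (q + 1))
    (Ψ : (∀ I, F I) →+ (∀ I, F' I)) (Θ : ∀ I, F I →+ F' I)
    (hΨG : ∀ c, (∀ I, c I ∈ G I) → ∀ I, Ψ c I ∈ G' I)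
    (chain : ∀ c, c ∅ = 0 → Dt r' d (Ψ c) = Ψ (δ c))
    (filt : ∀ (j : ℕ) c, (∀ I : Finset V, I.card < j → c I = 0) →
      ∀ I : Finset V, I.card < j → Ψ c I = 0)
    (lead : ∀ (c) (J : Finset V), J.Nonempty → (∀ I : Finset V, I.card < J.card → c I = 0) →
      Ψ c J = Θ J (c J))
    (inj : ∀ J : Finset V, J.Nonempty → ∀ x ∈ G J, ∀ y, Θ J x = d J y → x = 0)
    (surj : ∀ J : Finset V, J.Nonempty → ∀ y ∈ G' J, d J y = 0 →
      ∃ x ∈ G J, ∃ η ∈ G' J, y = Θ J x + d J η)
    (c : ∀ I, F I) (hc : ∀ I, c I ∈ G I) (hc0 : c ∅ = 0) (hcyc : δ c = 0)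
    (y : ∀ I, F' I) (hy : ∀ I, y I ∈ G' I) (hy0 : y ∅ = 0) (h : Ψ c = Dt r' d y) :
    ∃ b : ∀ I, F I, (∀ I, b I ∈ G I) ∧ b ∅ = 0 ∧ δ b = c := by
  have key : ∀ (t j : ℕ), 1 ≤ j → Fintype.card V < j + t → ∀ (c : ∀ I, F I) (y : ∀ I, F' I),
      (∀ I, c I ∈ G I) → (∀ I : Finset V, I.card < j → c I = 0) → δ c = 0 → (∀ I, y I ∈ G' I) →
      (∀ I : Finset V, I.card < j → y I = 0) → Ψ c = Dt r' d y →
      ∃ b : ∀ I, F I, (∀ I, b I ∈ G I) ∧ b ∅ = 0 ∧ δ b = c := by
    intro t
    induction t with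
    | zero =>
      intro j _ hj c y _ hc0 _ _ _ _
      exact ⟨0, fun _ => zero_mem _, rfl, (map_zero δ).trans
        (funext fun I => (hc0 I ((Finset.card_le_univ I).trans_lt hj)).symm)⟩
    | succ t ih =>
      intro j h1 hj c y hc hc0 hcyc hy hy0 h
      have hne : ∀ J : Finset V, J.card = j → J.Nonempty := fun J e => Finset.card_pos.1 (by omega)
      have e1 : ∀ J : Finset V, J.card = j → Θ J (c J) = d J ((-1 : ℤ) ^ j • y J) := by
        intro J e
        rw [← lead c J (hne J e) (e ▸ hc0), h, Dt_apply, Filt_cech _ _ _ (e ▸ hy0), zero_add, e,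
          map_zsmul]
      have e2 : ∀ J : Finset V, J.card = j → c J = 0 := fun J e =>
        inj J (hne J e) _ (hc J) _ (e1 J e)
      have e3 : ∀ J : Finset V, ∃ x ∈ G J, ∃ η ∈ G' J,
          (J.card = j → y J = Θ J x + d J η) ∧ (J.card ≠ j → x = 0 ∧ η = 0) := by
        intro J
        by_cases e : J.card = j
        · obtain ⟨x, hx, η, hη, h'⟩ := surj J (hne J e) _ (hy J) (by
            rw [← Filt_sq j (d J (y J)), ← map_zsmul (d J), ← e1 J e, e2 J e, map_zero, smul_zero])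
          exact ⟨x, hx, η, hη, fun _ => h', fun h => absurd e h⟩
        · exact ⟨0, zero_mem _, 0, zero_mem _, fun h => absurd h e, fun _ => ⟨rfl, rfl⟩⟩
      choose b hb η hη e4 e5 using e3
      have hb0 : ∀ I : Finset V, I.card < j → b I = 0 := fun I h => (e5 I h.ne).1
      have hη0 : ∀ I : Finset V, I.card < j → ((-1 : ℤ) ^ j • η) I = 0 := fun I h => by
        rw [Pi.smul_apply, (e5 I h.ne).2, smul_zero]
      have hδb := hδG j b fun I => ⟨hb I, fun h => (e5 I h).1⟩
      refine (ih (j + 1) (by omega) (by omega) (c - δ b)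
        (y - Ψ b - Dt r' d ((-1 : ℤ) ^ j • η)) (fun I => sub_mem (hc I) (hδb I).1) (fun I hI => ?_)
        (by rw [map_sub, hcyc, hδ, sub_zero]) (fun I => sub_mem (sub_mem (hy I) (hΨG b hb I))
          (Filt_mem hG' hdG (fun I => zsmul_mem (hη I) _) I)) (fun I hI => ?_)
        (by rw [map_sub, map_sub, map_sub, Dt_Dt hr' hd hrd, chain b (hb0 ∅ h1), h,
          sub_zero])).elim fun b' ⟨p1, p2, p3⟩ => ⟨b + b', fun I => add_mem (hb I) (p1 I),
          by rw [Pi.add_apply, hb0 ∅ h1, p2, add_zero], by rw [map_add, p3, add_sub_cancel]⟩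
      · rw [Pi.sub_apply, (hδb I).2 hI.ne, sub_zero]
        rcases (Nat.lt_succ_iff.1 hI).eq_or_lt with e | e
        exacts [e2 I e, hc0 I e]
      · rw [Pi.sub_apply, Pi.sub_apply, Dt_apply,
          Filt_cech _ _ _ fun K hK => hη0 K (by omega), zero_add]
        rcases (Nat.lt_succ_iff.1 hI).eq_or_lt with e | e
        · rw [lead b I (hne I e) (e ▸ hb0), e4 I e, Pi.smul_apply, map_zsmul, e, Filt_sq,
            add_sub_cancel_left, sub_self]
        · rw [hy0 I e, filt j b hb0 I e, hη0 I e, map_zero, smul_zero, sub_zero, sub_zero]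
  have h0 : ∀ I : Finset V, I.card < 1 → I = ∅ := fun I h => Finset.card_eq_zero.1 (by omega)
  exact key (Fintype.card V) 1 le_rfl (by omega) c y hc (fun I h => h0 I h ▸ hc0) hcyc hy
    (fun I h => h0 I h ▸ hy0) h

/- Staircase. Induction on `a`: `y` vanishes on the sets with more than `s - a` elements (form
degree at least `a`). The part `z = cpart (s - a) y` lies in `Coch (X.L a l) (s - a)` and
`cech z = 0` (the part of `Dt y` on the sets with `s - a + 1` elements). If `a ≤ n` then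
`s - a ≥ 2`, `z = cech b`; replace `y` by `y - Dt b`. If `a > n` then `y = 0` by `hd`. -/
theorem Mod.stair {k : Type} [CommRing k] {m : ℕ} (X : Mod k m V) {n s : ℕ} (hd : X.Dim n)
    (hs : n + 1 < s) (l : Dg m) (hex : ∀ a q, a ≤ n → 1 ≤ q → CEx X.res (X.L a l) q)
    (y : ∀ I, X.W I) (hy : ∀ I, y I ∈ X.LL l I) (hy0 : y ∅ = 0) (hdeg : TotDeg s y)
    (h : Dt X.res (fun _ => dR) y = 0) :
    ∃ z : ∀ I, X.W I, (∀ I, z I ∈ X.LL l I) ∧ z ∅ = 0 ∧ Dt X.res (fun _ => dR) z = y := by
  have key : ∀ (t a : ℕ), n < a + t → ∀ y : ∀ I, X.W I, (∀ I, y I ∈ X.LL l I) → y ∅ = 0 →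
      TotDeg s y → Dt X.res (fun _ => dR) y = 0 → (∀ I : Finset V, s < I.card + a → y I = 0) →
      ∃ z : ∀ I, X.W I, (∀ I, z I ∈ X.LL l I) ∧ z ∅ = 0 ∧ Dt X.res (fun _ => dR) z = y := by
    intro t
    induction t with
    | zero =>
      intro a ha y _ hy0 hdeg _ hv
      refine ⟨0, fun _ => zero_mem _, rfl, (map_zero _).trans (funext fun I => Eq.symm ?_)⟩
      rcases I.eq_empty_or_nonempty with rfl | hI
      · exact hy0
      by_cases e : s < I.card + a
      · exact hv I e
      · exact hd I hI (s - I.card) (by omega) _ ((hdeg I).1 _ (by omega))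
    | succ t ih =>
      intro a ha y hy hy0 hdeg h hv
      by_cases ha' : n < a
      · exact ih a (by omega) y hy hy0 hdeg h hv
      obtain ⟨q, rfl⟩ : ∃ q, s = a + (q + 1) := ⟨s - a - 1, by omega⟩
      refine (hex a q (by omega) (by omega) (cpart (q + 1) y) ⟨fun I => ?_, ?_⟩).elim
        fun b ⟨hb, hb0, e⟩ => ?_
      rotate_right
      · have e' : ∀ I, Dt X.res (fun _ => dR) b I =
            (if I.card = q + 1 then y I else 0) + (-1 : ℤ) ^ I.card • dR (b I) := fun I => by
          rw [Dt_apply, e, cpart_apply]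
        have hv' : ∀ I : Finset V, q < I.card → (y - Dt X.res (fun _ => dR) b) I = 0 := by
          intro I hI
          rw [Pi.sub_apply, e', (hb I).2 hI.ne', map_zero, smul_zero, add_zero]
          split_ifs with h'
          · exact sub_self _
          · rw [hv I (by omega), sub_zero]
        refine (ih (a + 1) (by omega) (y - Dt X.res (fun _ => dR) b)
          (fun I => sub_mem (hy I) (Filt_mem Mod.res_mem_LL (fun _ _ => Mod.dR_mem_LL)
            (fun I => (hb I).1.2) I))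
          (by rw [Pi.sub_apply, Dt_apply, hy0, hb0, cech_empty, map_zero, smul_zero, add_zero,
            sub_zero])
          (fun I => ⟨fun a' h' => ?_, fun h' => hv' I (by omega)⟩)
          (by rw [map_sub, h, Dt_Dt X.isFun_res (fun _ => dR_dR) X.resH_dR, sub_zero])
          fun I hI => hv' I (by omega)).elim fun z ⟨z1, z2, z3⟩ =>
            ⟨b + z, fun I => add_mem (hb I).1.2 (z1 I),
            by rw [Pi.add_apply, hb0, z2, add_zero], by rw [map_add, z3, add_sub_cancel]⟩
        · have h1 := (hdeg I).1 a' h'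
          rw [Pi.sub_apply, e']
          refine sub_mem h1 (add_mem ?_ (zsmul_mem ?_ _))
          · split_ifs
            exacts [h1, zero_mem _]
          · by_cases h2 : I.card = q
            · rw [show a' = a + 1 by omega]
              exact dR_mem (hb I).1.1
            · rw [(hb I).2 h2, map_zero]
              exact zero_mem _
      · rw [cpart_apply]
        split_ifs with h'
        · exact ⟨⟨(hdeg I).1 a (by omega), hy I⟩, fun h => absurd h' h⟩
        · exact ⟨zero_mem _, fun _ => rfl⟩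
      · rw [← cpart_cech]
        funext J
        rw [cpart_apply]
        split_ifs with h'
        · have := congrFun h J
          rwa [Dt_apply, hv J (by omega), map_zero, smul_zero, add_zero] at this
        · rfl
  exact key (n + 1) 0 (by omega) y hy hy0 hdeg h fun I hI => (hdeg I).2 hI

end Pool.Agent.P.MP_824f38_ag.V
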