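import Pool.Agent.P.MP_824f38_ag.V.OpC

set_option linter.unusedVariables false
set_option linter.unusedSectionVars false

namespace Pool.Agent.P.MP_824f38_ag.V

namespace Mod

variable {p : ℕ} [Fact p.Prime] {m : ℕ} {V : Type} [LinearOrder V] (Y : Mod (ZMod p) m V)

/-- the chain map of Deligne and Illusie -/
structure IsPsi (p : ℕ) {k : Type} [CommRing k] (Y : Mod k m V)
    (Ψ : (∀ I, Y.W I) →+ (∀ I, Y.W I)) (Θ : ∀ I, Y.W I →+* Y.W I) : Prop where
  cart : ∀ I, I.Nonempty → IsCart p (Θ I)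
  empty : ∀ c, Ψ c ∅ = 0
  chain : ∀ c, c ∅ = 0 →
    Dt Y.res (fun _ => dR) (Ψ c) = Ψ (cech Y.res (fun I => inv (c I)))
  filt : ∀ (j : ℕ) c, (∀ I : Finset V, I.card < j → c I = 0) →
    ∀ I : Finset V, I.card < j → Ψ c I = 0
  lead : ∀ (c) (J : Finset V), J.Nonempty → (∀ I : Finset V, I.card < J.card → c I = 0) →
    Ψ c J = Θ J (if Even J.card then c J else inv (c J))
  deg : ∀ (i q : ℕ) c, c ∈ Coch (fun I => (Fk (Pk k m) (Y.Ch I) i).toAddSubgroup) q →
    TotDeg (i + q) (Ψ c)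

/-- restriction, extended by zero -/
noncomputable def Psi_rr (F J : Finset V) : Y.W F →+ Y.W J :=
  if h : F ⊆ J then Y.res F J h else 0

theorem Psi_rr_of {F J : Finset V} (h : F ⊆ J) (x : Y.W F) : Y.Psi_rr F J x = Y.res F J h x := by
  rw [Psi_rr, dif_pos h]

theorem Psi_rr_res {F I J : Finset V} (h : F ⊆ I) (h' : I ⊆ J) (x : Y.W F) :
    Y.res I J h' (Y.Psi_rr F I x) = Y.Psi_rr F J x := by
  rw [Psi_rr_of Y h, Psi_rr_of Y (h.trans h'), Y.isFun_res.comp]

theorem Psi_rr_res' {F I J : Finset V} (h : F ⊆ I) (h' : I ⊆ J) (x : Y.W F) :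
    Y.Psi_rr I J (Y.res F I h x) = Y.Psi_rr F J x := by
  rw [Psi_rr_of Y h', Psi_rr_of Y (h.trans h'), Y.isFun_res.comp]

theorem Psi_char (I : Finset V) : (p : Y.Ch I) = 0 := by
  rw [← map_natCast (algebraMap (Pk (ZMod p) m) (Y.Ch I)), CharP.cast_eq_zero, map_zero]

theorem Psi_single_supp {N : Type} [AddCommGroup N] (x : N) (F0 F : Finset V) (h : ¬F0 ⊆ F) :
    (Pi.single F0 x : Finset V → N) F = 0 :=
  Pi.single_eq_of_ne (fun e : F = F0 => h e.ge) _

theorem Psi_sum {N : Type} [AddCommGroup N] (s : Finset V) (f : V → AddMonoid.End (Finset V → N))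
    (β : Finset V → N) (G : Finset V) : (∑ i ∈ s, f i) β G = ∑ i ∈ s, f i β G := by
  induction s using Finset.cons_induction with
  | empty => rfl
  | cons a s h ih =>
    rw [Finset.sum_cons, Finset.sum_cons, ← ih]
    rfl

theorem Psi_Dt_single {P B : Type} [CommRing P] [CommRing B] [Algebra P B] (F J G : Finset V)
    (hG : G ⊆ J) : Dt (cres V (DRk P B)) (fun _ => dR) (Pi.single F 1) G =
      (∑ F' ∈ J.powerset, ∑ a ∈ F', if F'.erase a = F then
        sgn F' a • (Pi.single F' 1 : Finset V → DRk P B) else 0) G := by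
  have h0 : dR ((Pi.single F 1 : Finset V → DRk P B) G) = 0 := by
    by_cases h : G = F
    · rw [h, Pi.single_eq_same, dR_one]
    · rw [Pi.single_eq_of_ne h, map_zero]
  rw [Dt_apply, h0, smul_zero, add_zero, cech_apply, Finset.sum_apply,
    Finset.sum_eq_single_of_mem G (Finset.mem_powerset.2 hG), Finset.sum_apply]
  · refine Finset.sum_congr rfl fun a _ => ?_
    by_cases h : G.erase a = F
    · subst h
      rw [if_pos rfl, Pi.smul_apply, Pi.single_eq_same, Pi.single_eq_same]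
      rfl
    · rw [if_neg h, Pi.single_eq_of_ne h, map_zero, smul_zero, Pi.zero_apply]
  · intro F' _ hne
    rw [Finset.sum_apply]
    refine Finset.sum_eq_zero fun a _ => ?_
    split_ifs
    · rw [Pi.smul_apply, Pi.single_eq_of_ne hne.symm, smul_zero]
    · rfl

theorem Psi_deg_single {P B : Type} [CommRing P] [CommRing B] [Algebra P B] (F : Finset V) :
    TotDeg (B := fun _ => B) F.card (Pi.single F 1 : Finset V → DRk P B) := fun I => by
  by_cases h : I = F
  · subst h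
    refine ⟨fun a ha => ?_, fun ha => absurd ha (lt_irrefl _)⟩
    obtain rfl : a = 0 := by omega
    rw [Pi.single_eq_same, ← map_one (fn P)]
    exact fn_mem _
  · rw [Pi.single_eq_of_ne h]
    exact ⟨fun _ _ => zero_mem _, fun _ => rfl⟩

variable (A : ∀ J : Finset V, Y.W J →+ AddMonoid.End (Finset V → Y.W J))

/-- the cochain of forms on the chart `J` attached to `c` -/
noncomputable def Psi_β (J : Finset V) (c : ∀ I, Y.W I) : Finset V → Y.W J :=
  ∑ F ∈ J.powerset, A J (Y.Psi_rr F J (c F)) (Pi.single F 1)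

theorem Psi_β_apply (J : Finset V) (c : ∀ I, Y.W I) (G : Finset V) : Y.Psi_β A J c G =
    ∑ F ∈ J.powerset, A J (Y.Psi_rr F J (c F)) (Pi.single F 1) G := Finset.sum_apply _ _ _

/-- the chain map -/
noncomputable def Psi_map : (∀ I, Y.W I) →+ (∀ I, Y.W I) :=
  AddMonoidHom.mk' (fun c J => Y.Psi_β A J c J) (fun c c' => by
    funext J
    simp only [Pi.add_apply, Psi_β_apply, map_add, ← Finset.sum_add_distrib]
    rfl)

theorem Psi_map_apply (c : ∀ I, Y.W I) (J : Finset V) : Y.Psi_map A c J =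
    ∑ F ∈ J.powerset, A J (Y.Psi_rr F J (c F)) (Pi.single F 1) J := Y.Psi_β_apply A J c J

variable {Y A} {D : ∀ I : Finset V, I.Nonempty → DId p (Pk (ZMod p) m) (Y.Ch I) V}

theorem Psi_zero (J : Finset V) (F : Finset V) {x : Y.W F} (hx : x = 0) (β : Finset V → Y.W J) :
    A J (Y.Psi_rr F J x) β = 0 := by
  rw [hx, map_zero, map_zero]
  rfl

theorem Psi_empty (h0 : A ∅ = 0) (c : ∀ I, Y.W I) : Y.Psi_map A c ∅ = 0 := by
  rw [Psi_map_apply, h0]
  exact Finset.sum_eq_zero fun _ _ => rfl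

theorem Psi_res (hD : ∀ I J (hI : I.Nonempty) (hJ : J.Nonempty) (h : I ⊆ J),
      (D I hI).Nat (D J hJ) (Y.rs I J h : Y.Ch I →+* Y.Ch J) (Y.compat_rs I J h) I)
    (hA : ∀ I hI, (D I hI).IsOp (A I)) (h0 : A ∅ = 0) {c : ∀ I, Y.W I} (hc : c ∅ = 0)
    {I J : Finset V} (hJ : J.Nonempty) (h : I ⊆ J) :
    Y.res I J h (Y.Psi_map A c I) = Y.Psi_β A J c I := by
  rw [Psi_map_apply, Psi_β_apply, map_sum, ← Finset.sum_subset (Finset.powerset_mono.2 h)
    fun F _ hF => (hA J hJ).supp _ _ F (Psi_single_supp 1 F) I (by simpa using hF)]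
  refine Finset.sum_congr rfl fun F hF => ?_
  have hF' := Finset.mem_powerset.1 hF
  rcases I.eq_empty_or_nonempty with rfl | hI
  · obtain rfl := Finset.subset_empty.1 hF'
    rw [Psi_zero _ _ hc, Psi_zero _ _ hc, Pi.zero_apply, map_zero, Pi.zero_apply]
  · rw [← Psi_rr_res Y hF' h]
    refine (hA I hI).nat (hA J hJ) (hD I J hI hJ h) _ _ _ (fun G _ => ?_) I (Finset.Subset.refl I)
    by_cases e : G = F
    · rw [e, Pi.single_eq_same, Pi.single_eq_same, map_one]
    · rw [Pi.single_eq_of_ne e, Pi.single_eq_of_ne e, map_zero]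

theorem Psi_loc (hD : ∀ I J (hI : I.Nonempty) (hJ : J.Nonempty) (h : I ⊆ J),
      (D I hI).Nat (D J hJ) (Y.rs I J h : Y.Ch I →+* Y.Ch J) (Y.compat_rs I J h) I)
    (hA : ∀ I hI, (D I hI).IsOp (A I)) {J : Finset V} (hJ : J.Nonempty) (ω : Y.W J)
    {β β' : Finset V → Y.W J} (h : ∀ G, G ⊆ J → β G = β' G) : A J ω β J = A J ω β' J := by
  have hi : ∀ x : Y.W J, pullk _ (Y.compat_rs J J (Finset.Subset.refl J)) x = x :=
    Y.isFun_res.id J (Finset.Subset.refl J)
  have := (hA J hJ).nat (hA J hJ) (hD J J hJ hJ (Finset.Subset.refl J)) ω β β'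
    (fun G hG => (hi _).trans (h G hG)) J (Finset.Subset.refl J)
  rwa [hi, hi] at this

theorem Psi_chain (hD : ∀ I J (hI : I.Nonempty) (hJ : J.Nonempty) (h : I ⊆ J),
      (D I hI).Nat (D J hJ) (Y.rs I J h : Y.Ch I →+* Y.Ch J) (Y.compat_rs I J h) I)
    (hA : ∀ I hI, (D I hI).IsOp (A I)) (h0 : A ∅ = 0) {c : ∀ I, Y.W I} (hc : c ∅ = 0) :
    Dt Y.res (fun _ => dR) (Y.Psi_map A c) = Y.Psi_map A (cech Y.res (fun I => inv (c I))) := by
  funext J
  rcases J.eq_empty_or_nonempty with rfl | hJ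
  · rw [Dt_apply, cech_empty, Psi_empty h0, Psi_empty h0, map_zero, smul_zero, add_zero]
  have h1 : Dt Y.res (fun _ => dR) (Y.Psi_map A c) J =
      Dt (cres V _) (fun _ => dR) (Y.Psi_β A J c) J := by
    rw [Dt_apply, Dt_apply, cech_apply, cech_apply]
    congr 1
    exact Finset.sum_congr rfl fun a _ => congrArg _ (Psi_res hD hA h0 hc hJ _)
  have h2 : ∀ F ∈ J.powerset,
      Dt (cres V _) (fun _ => dR) (A J (Y.Psi_rr F J (c F)) (Pi.single F 1)) J =
      ∑ F' ∈ J.powerset, ∑ a ∈ F', if F'.erase a = F then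
        sgn F' a • A J (Y.Psi_rr F J (inv (c F))) (Pi.single F' 1) J else 0 := fun F hF => by
    rcases F.eq_empty_or_nonempty with rfl | hF0
    · have e : inv (c ∅) = 0 := by rw [hc, map_zero]
      simp only [Psi_zero _ _ hc, Psi_zero _ _ e, map_zero, Pi.zero_apply, smul_zero, ite_self,
        Finset.sum_const_zero]
    · have hF' := Finset.mem_powerset.1 hF
      rw [(hA J hJ).chain (Y.Psi_char J) _ _ (Pi.single_eq_of_ne hF0.ne_empty.symm _),
        Psi_loc hD hA hJ _ (Psi_Dt_single F J), Psi_rr_of Y hF', Psi_rr_of Y hF', res_apply,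
        res_apply, resH_inv, map_sum, Finset.sum_apply]
      refine Finset.sum_congr rfl fun F' _ => ?_
      rw [map_sum, Finset.sum_apply]
      refine Finset.sum_congr rfl fun a _ => ?_
      split_ifs
      · rw [map_zsmul, Pi.smul_apply]
      · rw [map_zero, Pi.zero_apply]
  rw [h1, Psi_β, map_sum, Finset.sum_apply, Finset.sum_congr rfl h2, Finset.sum_comm,
    Psi_map_apply]
  refine Finset.sum_congr rfl fun F' hF' => ?_
  have hs := Finset.mem_powerset.1 hF'
  rw [Finset.sum_comm, cech_apply, map_sum, map_sum, Psi_sum]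
  refine Finset.sum_congr rfl fun a _ => ?_
  rw [Finset.sum_ite_eq, if_pos (Finset.mem_powerset.2 ((Finset.erase_subset a F').trans hs)),
    map_zsmul, map_zsmul, Psi_rr_res' Y _ hs]
  rfl

variable (Y)

theorem exists_psi (D : ∀ I : Finset V, I.Nonempty → DId p (Pk (ZMod p) m) (Y.Ch I) V)
    (hD : ∀ I J (hI : I.Nonempty) (hJ : J.Nonempty) (h : I ⊆ J),
      (D I hI).Nat (D J hJ) (Y.rs I J h : Y.Ch I →+* Y.Ch J) (Y.compat_rs I J h) I)
    {n : ℕ} (hd : Y.Dim n) (hn : n < p) : ∃ Ψ Θ, IsPsi p Y Ψ Θ := by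
  choose A0 hA0 using fun I hI => (D I hI).exists_op (Y.Psi_char I)
  choose Θ0 hΘ0 using fun I (hI : I.Nonempty) => (D I hI).exists_theta (Y.Psi_char I) (I.min' hI)
  obtain ⟨A, hA, h0⟩ : ∃ A : ∀ J : Finset V, Y.W J →+ AddMonoid.End (Finset V → Y.W J),
      (∀ I hI, (D I hI).IsOp (A I)) ∧ A ∅ = 0 :=
    ⟨fun J => if h : J.Nonempty then A0 J h else 0, fun I hI => by
      simp only [dif_pos hI]
      exact hA0 I hI, dif_neg Finset.not_nonempty_empty⟩
  obtain ⟨Θ, hΘ⟩ : ∃ Θ : ∀ I, Y.W I →+* Y.W I,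
      ∀ I hI, (D I hI).IsTheta (I.min' hI) (Θ I) ∧ IsCart p (Θ I) :=
    ⟨fun J => if h : J.Nonempty then Θ0 J h else RingHom.id _, fun I hI => by
      simp only [dif_pos hI]
      exact hΘ0 I hI⟩
  refine ⟨Y.Psi_map A, Θ, fun I hI => (hΘ I hI).2, Psi_empty h0, fun c hc => Psi_chain hD hA h0 hc,
    fun j c hc I hI => ?_, fun c J hJ hc => ?_, fun i q c hc I => ?_⟩
  · rw [Psi_map_apply]
    refine Finset.sum_eq_zero fun F hF => ?_
    rw [Psi_zero _ _ (hc F ((Finset.card_le_card (Finset.mem_powerset.1 hF)).trans_lt hI)),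
      Pi.zero_apply]
  · rw [Psi_map_apply, Finset.sum_eq_single_of_mem J (Finset.mem_powerset_self J) fun F hF hne => by
      rw [Psi_zero _ _ (hc F (Finset.card_lt_card
        (Finset.ssubset_iff_subset_ne.2 ⟨Finset.mem_powerset.1 hF, hne⟩))), Pi.zero_apply],
      Psi_rr_of Y (Finset.Subset.refl J), Y.isFun_res.id]
    generalize c J = ω
    induction ω using homog_induction with
    | h0 i x hx =>
      rcases lt_or_ge n i with hi | hi
      · rw [hd J hJ i hi x hx, map_zero, map_zero, ite_self, map_zero]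
        rfl
      · rw [(hA J hJ).lead (Y.Psi_char J) hJ (hΘ J hJ).1 (hi.trans_lt hn) hx _
          (Psi_single_supp 1 J), Pi.single_eq_same, mul_one]
        split_ifs with he
        · rw [(he.mul_right i).neg_one_pow, one_smul]
        · rw [pow_mul, (Nat.not_even_iff_odd.1 he).neg_one_pow, inv_of_mem hx, map_mul, map_pow,
            map_neg, map_one, zsmul_eq_mul]
          push_cast
          rfl
    | hadd x y hx hy =>
      rw [map_add]
      change A J x _ J + A J y _ J = _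
      rw [hx, hy, ← map_add]
      split_ifs
      · rfl
      · simp only [map_add]
  · rcases I.eq_empty_or_nonempty with rfl | hI
    · rw [Psi_empty h0]
      exact ⟨fun _ _ => zero_mem _, fun _ => rfl⟩
    have key : ∀ F ∈ I.powerset, TotDeg (B := fun _ => Y.Ch I) (i + q)
        (A I (Y.Psi_rr F I (c F)) (Pi.single F 1)) := fun F hF => by
      by_cases e : F.card = q
      · refine (hA I hI).deg ?_ (e ▸ Psi_deg_single F)
        rw [Psi_rr_of Y (Finset.mem_powerset.1 hF)]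
        exact pullk_mem _ _ (hc F).1
      · rw [Psi_zero _ _ ((hc F).2 e)]
        exact fun _ => ⟨fun _ _ => zero_mem _, fun _ => rfl⟩
    rw [Psi_map_apply]
    exact ⟨fun a ha => sum_mem fun F hF => (key F hF I).1 a ha,
      fun ha => Finset.sum_eq_zero fun F hF => (key F hF I).2 ha⟩

end Mod

end Pool.Agent.P.MP_824f38_ag.V
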