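import Pool.Agent.P.MP_824f38_ag.V.CartG
import Pool.Agent.P.MP_824f38_ag.V.DIData
import Pool.Agent.P.MP_824f38_ag.V.Psi
import Pool.Agent.P.MP_824f38_ag.V.Filt

/-! One Frobenius step: vanishing in degree `p l - r` gives vanishing in degree `l`. -/

set_option linter.unusedVariables false
set_option linter.unusedSectionVars false

namespace Pool.Agent.P.MP_824f38_ag.V

namespace Mod

variable {k : Type} [CommRing k] {m : ℕ} {V : Type} [LinearOrder V] (X : Mod k m V)

/-- the sign involution on cochains -/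
noncomputable def invI (I : Finset V) : X.W I →+ X.W I :=
  (inv (k := Pk k m) (A := X.Ch I)).toRingHom.toAddMonoidHom

theorem invI_apply (I : Finset V) (x : X.W I) : X.invI I x = inv x := rfl

theorem cech_invI (c : ∀ I, X.W I) : cech X.res (cmap X.invI c) = cmap X.invI (cech X.res c) :=
  cech_cmap X.invI (fun I J h x => X.resH_inv I J h x) c

/-- projection of cochains to one form degree -/
noncomputable def epI (i : ℕ) (I : Finset V) : X.W I →+ X.W I := (ep i).toAddMonoidHom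

theorem cech_epI (i : ℕ) (c : ∀ I, X.W I) :
    cech X.res (cmap (X.epI i) c) = cmap (X.epI i) (cech X.res c) :=
  cech_cmap (X.epI i) (fun I J h x => (X.resH_ep I J h i x).symm) c

/-- a coboundary of homogeneous forms is a coboundary in its own bidegree -/
theorem isBd_of {i q : ℕ} {l : Dg m} {c b : ∀ I, X.W I} (hc : c ∈ Coch (X.L i l) (q + 1))
    (hb : ∀ I, b I ∈ X.LL l I) (hb0 : b ∅ = 0) (h : cech X.res b = c) :
    IsBd X.res (X.L i l) q c := by
  refine ⟨cpart q (cmap (X.epI i) b), cpart_mem q fun I => ep_mem_L i (hb I), ?_, ?_⟩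
  · rw [cpart_apply, cmap_apply, hb0, map_zero, ite_self]
  · rw [← cpart_cech, cech_epI, h]
    have : cmap (X.epI i) c = c := funext fun I => ep_of_mem (hc I).1.1
    rw [this, cpart_of_mem hc]

/-- multiply by `σ ^ r` and project -/
noncomputable def twist (l : Dg m) (r : Fin m → ℕ) (I : Finset V) : X.W I →+ X.W I :=
  (X.prW l I).comp (DistribSMul.toAddMonoidHom (X.W I) (X.σp r))

theorem twist_apply (l : Dg m) (r : Fin m → ℕ) (I : Finset V) (x : X.W I) :
    X.twist l r I x = X.prW l I (X.σp r • x) := rfl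

theorem twist_res (l : Dg m) (r : Fin m → ℕ) (I J : Finset V) (h : I ⊆ J) (x : X.W I) :
    X.res I J h (X.twist l r I x) = X.twist l r J (X.res I J h x) := by
  rw [twist_apply, twist_apply, ← prW_res, res_apply, res_apply, resH_smul]

theorem σp_eq (r : Fin m → ℕ) :
    X.σp r = algebraMap (Pk k m) X.S (∏ j, MvPolynomial.X j ^ r j) := by
  simp [σp, σ]

theorem twist_dR (l : Dg m) (r : Fin m → ℕ) (I : Finset V) (x : X.W I) :
    X.twist l r I (dR x) = dR (X.twist l r I x) := by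
  rw [twist_apply, twist_apply, ← prW_dR, σp_eq, dR_base_smul]

theorem twist_mem (l : Dg m) (r : Fin m → ℕ) (I : Finset V) {a : ℕ} {x : X.W I}
    (hx : x ∈ Fk _ _ a) : X.twist l r I x ∈ Fk _ _ a := by
  rw [twist_apply, smul_def]
  exact (prW_mem_L l (fn_mul_mem _ hx)).1

theorem Dt_twist (l : Dg m) (r : Fin m → ℕ) (c : ∀ I, X.W I) :
    Dt X.res (fun _ => dR) (cmap (X.twist l r) c) =
      cmap (X.twist l r) (Dt X.res (fun _ => dR) c) := by
  funext J
  rw [Dt_apply, cech_cmap (X.twist l r) (X.twist_res l r), cmap_apply, cmap_apply, cmap_apply,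
    Dt_apply, map_add, map_zsmul, twist_dR]

end Mod

theorem charp {p : ℕ} [Fact p.Prime] [Algebra (ZMod (p ^ 2)) (ZMod p)] {m : ℕ} {V : Type}
    [LinearOrder V] [Fintype V] {X : Mod (ZMod (p ^ 2)) m V} {Y : Mod (ZMod p) m V} (b : BC X Y)
    (hs : X.Sm) {n : ℕ} (hd : Y.Dim n) (hn : n < p) (l : Dg m) (r : Fin m → Fin p)
    (hex : ∀ a q, a ≤ n → 1 ≤ q → CEx Y.res (Y.L a (Mod.fdeg p l r)) q) (i q : ℕ)
    (hiq : n < i + q) : CEx Y.res (Y.L i l) q := by
  obtain ⟨D, hD⟩ := exists_DId b hs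
  obtain ⟨Ψ, Θ, hΨ⟩ := Y.exists_psi D hD hd hn
  have hs' := b.sm hs
  intro c hc
  set μ := Mod.fdeg p l r with hμ
  let tw := Y.twist μ (fun j => r j)
  let δ := (cech Y.res).comp (cmap Y.invI)
  let ε : ∀ J : Finset V, Y.W J →+ Y.W J := fun J =>
    if Even J.card then AddMonoidHom.id _ else Y.invI J
  have hε : ∀ J x, ε J x = if Even J.card then x else inv x := fun J x => by
    by_cases h : Even J.card <;> simp [ε, h, Mod.invI_apply]
  have hεε : ∀ J x, ε J (ε J x) = x := fun J x => by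
    by_cases h : Even J.card <;> simp [hε, h]
  have hεm : ∀ J, ∀ x ∈ Y.LL l J, ε J x ∈ Y.LL l J := fun J x hx => by
    rw [hε]; split_ifs
    · exact hx
    · exact Mod.inv_mem_LL hx
  have hc0 : c ∅ = 0 := (hc.1 ∅).2 (by simp)
  have hδc : δ c = 0 := by
    change cech Y.res (cmap Y.invI c) = 0
    rw [Y.cech_invI, hc.2, map_zero]
  have chain : ∀ c, c ∅ = 0 →
      Dt Y.res (fun _ => dR) (((cmap tw).comp Ψ) c) = ((cmap tw).comp Ψ) (δ c) := fun c h => by
    rw [AddMonoidHom.comp_apply, Y.Dt_twist, hΨ.chain c h]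
    rfl
  have hdeg := hΨ.deg i (q + 1) c (fun I => ⟨(hc.1 I).1.1, (hc.1 I).2⟩)
  obtain ⟨y, hy, hy0, hyc⟩ := Y.stair hd (s := i + (q + 1)) (by omega) μ hex
    (((cmap tw).comp Ψ) c) (fun I => Mod.prW_mem_LL _ _)
    (by rw [AddMonoidHom.comp_apply, cmap_apply, hΨ.empty, map_zero])
    (fun I => ⟨fun a ha => Y.twist_mem _ _ I ((hdeg I).1 a ha), fun h => by
      rw [AddMonoidHom.comp_apply, cmap_apply, (hdeg I).2 h, map_zero]⟩)
    (by rw [chain c hc0, hδc, map_zero])
  obtain ⟨z, hz, hz0, hzc⟩ := filt_inj Y.isFun_res (d := fun _ => dR) (fun _ x => dR_dR x)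
    (fun I J h x => Y.resH_dR I J h x) (Y.LL l) (Y.LL μ) Mod.res_mem_LL
    (fun I x hx => Mod.dR_mem_LL hx) δ
    (fun c => by
      change cech Y.res (cmap Y.invI (cech Y.res (cmap Y.invI c))) = 0
      rw [Y.cech_invI, cech_cech Y.isFun_res, map_zero])
    (fun q c hc => cech_mem Mod.res_mem_LL
      (cmap_mem Y.invI (fun I x hx => Mod.inv_mem_LL hx) hc))
    ((cmap tw).comp Ψ) (fun J => (tw J).comp ((Θ J).toAddMonoidHom.comp (ε J)))
    (fun c _ I => Mod.prW_mem_LL _ _) chain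
    (fun j c h I hI => by
      rw [AddMonoidHom.comp_apply, cmap_apply, hΨ.filt j c h I hI, map_zero])
    (fun c J hJ h => by
      rw [AddMonoidHom.comp_apply, cmap_apply, hΨ.lead c J hJ h, ← hε]; rfl)
    (fun J hJ x hx y h => by
      rw [← hεε J x, Y.cart_inj (hs' J hJ) (hΨ.cart J hJ) l r (hεm J x hx) y h, map_zero])
    (fun J hJ y hy h => by
      obtain ⟨ω, hω, η, hη, e⟩ := Y.cart_surj (hs' J hJ) (hΨ.cart J hJ) l r hy h
      refine ⟨ε J ω, hεm J ω hω, η, hη, ?_⟩
      rw [AddMonoidHom.comp_apply, AddMonoidHom.comp_apply, hεε]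
      exact e)
    c (fun I => (hc.1 I).1.2) hc0 hδc y hy hy0 hyc.symm
  exact Y.isBd_of hc.1 (b := cmap Y.invI z) (fun I => Mod.inv_mem_LL (hz I))
    (by rw [cmap_apply, hz0, map_zero]) hzc

end Pool.Agent.P.MP_824f38_ag.V
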