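import Pool.Agent.P.MP_824f38_ag.V.ExtBC

set_option linter.unusedVariables false
set_option linter.unusedSectionVars false
set_option linter.style.haveILetI false

namespace Pool.Agent.P.MP_824f38_ag.V

theorem Chart_top {P B : Type} [CommRing P] [CommRing B] [Algebra P B] {n : ℕ}
    (h : ∀ x ∈ Fk P B (n + 1), x = 0) {p : ℕ} (hp : n < p) : ∀ x ∈ Fk P B p, x = 0 := by
  induction p, hp using Nat.le_induction with
  | base => exact h
  | succ q hq ih =>
    have key : ∀ r x, x ∈ Fk P B r → r = q + 1 → x = 0 := by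
      intro r x hx
      induction hx using Fk_induction with
      | h0 a => intro e; omega
      | hz r => intro _; rfl
      | hadd r x y _ _ h1 h2 => intro e; rw [h1 e, h2 e, add_zero]
      | hs r a b x hx _ =>
        intro e
        obtain rfl : r = q := by omega
        rw [ih x hx, mul_zero]
    exact fun x hx => key _ x hx rfl

namespace Mod

variable {k : Type} [CommRing k] {m : ℕ} {V : Type} (X : Mod k m V)

theorem Chart_loc {I J : Finset V} (h : I ⊆ J) :
    letI := (X.rs I J h).toRingHom.toAlgebra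
    IsLocalization.Away (algebraMap X.S (X.Ch I) (X.gI J)) (X.Ch J) := by
  letI := (X.rs I J h).toRingHom.toAlgebra
  have e : ∀ s, algebraMap (X.Ch I) (X.Ch J) (algebraMap X.S (X.Ch I) s) =
      algebraMap X.S (X.Ch J) s := (X.rs I J h).commutes
  refine IsLocalization.Away.mk _ ?_ (fun s => ?_) (fun a b hab => ?_)
  · rw [e]
    exact IsLocalization.Away.algebraMap_isUnit _
  · obtain ⟨n, a, ha⟩ := IsLocalization.Away.surj (X.gI J) s
    exact ⟨n, algebraMap X.S _ a, by rw [e, e, ha]⟩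
  · obtain ⟨n, c, hc⟩ := IsLocalization.Away.surj (X.gI I) (a - b)
    have h1 := congrArg (algebraMap (X.Ch I) (X.Ch J)) hc
    rw [map_mul, map_sub, hab, sub_self, zero_mul, e, ← map_zero (algebraMap X.S (X.Ch J))] at h1
    obtain ⟨j, hj⟩ := IsLocalization.Away.exists_of_eq (X.gI J) h1
    refine ⟨j, ?_⟩
    have h2 := congrArg (algebraMap X.S (X.Ch I)) hj
    rw [mul_zero, map_zero, map_mul, map_pow, ← hc, ← mul_assoc] at h2
    rw [← sub_eq_zero, ← mul_sub]
    exact (((X.isUnit_gI (subset_refl I)).pow n).mul_left_eq_zero).1 h2.symm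

theorem Chart_tower {I J : Finset V} (h : I ⊆ J) :
    letI := (X.rs I J h).toRingHom.toAlgebra
    IsScalarTower (Pk k m) (X.Ch I) (X.Ch J) :=
  letI := (X.rs I J h).toRingHom.toAlgebra
  IsScalarTower.of_algebraMap_eq fun c => (((X.rs I J h).restrictScalars (Pk k m)).commutes c).symm

theorem res_surj {I J : Finset V} (h : I ⊆ J) (y : X.W J) :
    ∃ (e : ℕ) (x : X.W I), X.gI J ^ e • y = X.resH I J h x := by
  letI := (X.rs I J h).toRingHom.toAlgebra
  haveI := X.Chart_loc h
  haveI := X.Chart_tower h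
  obtain ⟨e, x, hx⟩ := loc_surj (algebraMap X.S (X.Ch I) (X.gI J)) (X.compat_rs I J h) y
  refine ⟨e, x, Eq.trans ?_ hx⟩
  rw [smul_def, map_pow, act_apply, ← (X.rs I J h).commutes]
  rfl

theorem res_inj {I J : Finset V} (h : I ⊆ J) (x : X.W I) (hx : X.resH I J h x = 0) :
    ∃ e : ℕ, X.gI J ^ e • x = 0 := by
  letI := (X.rs I J h).toRingHom.toAlgebra
  haveI := X.Chart_loc h
  haveI := X.Chart_tower h
  obtain ⟨e, he⟩ := loc_inj (algebraMap X.S (X.Ch I) (X.gI J)) (X.compat_rs I J h) x hx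
  exact ⟨e, by rw [smul_def, map_pow, act_apply, he]⟩

theorem g_bijective {I : Finset V} {i : V} (h : i ∈ I) :
    Function.Bijective fun x : X.W I => X.g i • x := by
  simp only [smul_def]
  exact (((X.isUnit_g h).map (fn (Pk k m))).unit.mulLeft).bijective

theorem sm_of' (h : ∀ i, Algebra.Smooth (Pk k m) (X.Ch {i})) : X.Sm := by
  rintro I ⟨i, hi⟩
  have hs : {i} ⊆ I := Finset.singleton_subset_iff.2 hi
  letI := (X.rs _ I hs).toRingHom.toAlgebra
  haveI := X.Chart_loc hs
  haveI := X.Chart_tower hs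
  haveI := h i
  haveI : Algebra.Smooth (X.Ch {i}) (X.Ch I) :=
    Algebra.Smooth.of_isLocalization_Away (algebraMap X.S (X.Ch {i}) (X.gI I))
  exact Algebra.Smooth.comp (Pk k m) (X.Ch {i}) (X.Ch I)

theorem sm_of (h : ∀ i, Algebra.Smooth (Pk k m) (Localization.Away (X.g i))) : X.Sm :=
  X.sm_of' fun i =>
    haveI := h i
    Algebra.Smooth.of_equiv ((IsLocalization.algEquiv (Submonoid.powers (X.g i))
      (Localization.Away (X.g i)) (X.Ch {i})).restrictScalars (Pk k m))

theorem dim_of (n : ℕ)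
    (h : ∀ i, ∀ x ∈ Fk (Pk k m) (Localization.Away (X.g i)) (n + 1), x = 0) : X.Dim n := by
  rintro I ⟨i, hi⟩ p hp y hy
  have hs : {i} ⊆ I := Finset.singleton_subset_iff.2 hi
  have h1 : ∀ x ∈ Fk (Pk k m) (X.Ch {i}) p, x = 0 := by
    intro x hx
    let e := (IsLocalization.algEquiv (Submonoid.powers (X.g i))
      (Localization.Away (X.g i)) (X.Ch {i})).restrictScalars (Pk k m)
    have c₁ := Compat.of_algHom e.toAlgHom
    have c₂ := Compat.of_algHom e.symm.toAlgHom
    have h2 := pullk_pullk _ c₂ _ c₁ (RingHom.id _) (fun c => dk_algebraMap c)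
      (fun a => e.apply_symm_apply a) x
    rw [Chart_top (h i) hp _ (pullk_mem _ c₂ hx), map_zero, pullk_id _ _ (fun _ => rfl)] at h2
    exact h2.symm
  obtain ⟨e, x, hx⟩ := X.res_surj hs y
  have h3 := congrArg (ep p) hx
  rw [resH_ep, h1 _ (ep_mem p x), map_zero, smul_def, act_apply, ep_of_mem (fn_mul_mem _ hy),
    map_pow] at h3
  exact ((((X.isUnit_gI (subset_refl I)).pow e).map (fn (Pk k m))).mul_right_eq_zero).1 h3

end Mod

end Pool.Agent.P.MP_824f38_ag.V
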