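import Pool.Agent.P.MP_824f38_ag.V.Gr
import Pool.Agent.P.MP_824f38_ag.V.Cech

/-! Graded models: a multigraded algebra over `k[σ]`, its charts and the Cech complexes of the
homogeneous relative forms. -/

set_option linter.style.haveILetI false
set_option linter.unusedSimpArgs false
set_option linter.unusedVariables false
set_option linter.unusedSectionVars false

namespace Pool.Agent.P.MP_824f38_ag.V

open AddMonoidAlgebra TensorProduct

/-- the base `k[σ]` -/
abbrev Pk (k : Type) [CommRing k] (m : ℕ) : Type := MvPolynomial (Fin m) k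

/-- multidegrees -/
abbrev Dg (m : ℕ) : Type := Fin m → ℤ

/-- A multigraded algebra over `k[σ]` with sections `g i` of one common degree `χ`. -/
structure Mod (k : Type) [CommRing k] (m : ℕ) (V : Type) where
  S : Type
  [ring : CommRing S]
  [algk : Algebra k S]
  [alg : Algebra (Pk k m) S]
  [tower : IsScalarTower k (Pk k m) S]
  ρ : S →+* AddMonoidAlgebra S (Dg m)
  co : IsCo ρ
  hk : ∀ c : k, algebraMap k S c ∈ Hg ρ 0
  hσ : ∀ j, algebraMap (Pk k m) S (MvPolynomial.X j) ∈ Hg ρ (-Pi.single j 1)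
  χ : Dg m
  g : V → S
  hg : ∀ i, g i ∈ Hg ρ χ

attribute [instance] Mod.ring Mod.algk Mod.alg Mod.tower

namespace Mod

variable {k : Type} [CommRing k] {m : ℕ} {V : Type} (X : Mod k m V)

/-- the homogeneous part of `S` -/
abbrev H (l : Dg m) : AddSubgroup X.S := Hg X.ρ l

/-- the divisorial variables -/
noncomputable def σ (j : Fin m) : X.S := algebraMap (Pk k m) X.S (MvPolynomial.X j)

/-- the monomial `σ ^ r` -/
noncomputable def σp (r : Fin m → ℕ) : X.S := ∏ j, X.σ j ^ r j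

theorem σ_mem (j : Fin m) : X.σ j ∈ X.H (-Pi.single j 1) := X.hσ j

theorem σp_mem (r : Fin m → ℕ) : X.σp r ∈ X.H (-fun j => (r j : ℤ)) := by
  refine Hg_cast (Hg_prod Finset.univ fun j _ => Hg_pow (X.σ_mem j) (r j)) ?_
  funext i
  simp [Finset.sum_apply, Pi.single_apply]

theorem pr_base (c : Pk k m) (l : Dg m) :
    ∃ c', pr X.ρ l (algebraMap (Pk k m) X.S c) = algebraMap (Pk k m) X.S c' := by
  induction c using MvPolynomial.induction_on generalizing l with
  | C a =>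
    have h : algebraMap (Pk k m) X.S (MvPolynomial.C a) ∈ X.H 0 := by
      rw [← MvPolynomial.algebraMap_eq, ← IsScalarTower.algebraMap_apply]; exact X.hk a
    by_cases hl : 0 = l
    · subst hl; exact ⟨_, pr_of_mem h⟩
    · exact ⟨0, by rw [pr_of_ne h hl, map_zero]⟩
  | add p q hp hq =>
    obtain ⟨a, ha⟩ := hp l
    obtain ⟨b, hb⟩ := hq l
    exact ⟨a + b, by rw [map_add, map_add, ha, hb, map_add]⟩
  | mul_X p j hp =>
    obtain ⟨l', rfl⟩ : ∃ l', l = l' + -Pi.single j 1 := ⟨l + Pi.single j 1, by abel⟩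
    obtain ⟨a, ha⟩ := hp l'
    exact ⟨a * MvPolynomial.X j, by rw [map_mul, pr_mul_right (X.hσ j), ha, map_mul]⟩

/-- the product of the sections -/
noncomputable def gI (I : Finset V) : X.S := ∏ i ∈ I, X.g i

theorem gI_mem (I : Finset V) : X.gI I ∈ X.H (I.card • X.χ) :=
  Hg_cast (Hg_prod I fun i _ => X.hg i) (by simp)

/-- the chart of a finite set of sections -/
abbrev Ch (I : Finset V) : Type := Localization.Away (X.gI I)

theorem isUnit_g {I : Finset V} {i : V} (h : i ∈ I) :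
    IsUnit (algebraMap X.S (X.Ch I) (X.g i)) :=
  isUnit_of_dvd_unit (map_dvd _ (Finset.dvd_prod_of_mem X.g h))
    (IsLocalization.Away.algebraMap_isUnit (X.gI I))

theorem isUnit_gI {I J : Finset V} (h : I ⊆ J) : IsUnit (algebraMap X.S (X.Ch J) (X.gI I)) :=
  isUnit_of_dvd_unit (map_dvd _ (Finset.prod_dvd_prod_of_subset I J X.g h))
    (IsLocalization.Away.algebraMap_isUnit (X.gI J))

instance away_single (i : V) : IsLocalization.Away (X.g i) (X.Ch {i}) := by
  have h : X.gI {i} = X.g i := Finset.prod_singleton _ _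
  rw [← h]; infer_instance

/-- restriction of functions -/
noncomputable def rs (I J : Finset V) (h : I ⊆ J) : X.Ch I →ₐ[X.S] X.Ch J :=
  ⟨IsLocalization.Away.lift (X.gI I) (X.isUnit_gI h),
    fun s => IsLocalization.Away.lift_eq _ (X.isUnit_gI h) s⟩

theorem ch_ext {I : Finset V} {T : Type} [CommRing T] {f f' : X.Ch I →+* T}
    (h : ∀ s, f (algebraMap X.S _ s) = f' (algebraMap X.S _ s)) : f = f' :=
  IsLocalization.ringHom_ext (Submonoid.powers (X.gI I)) (RingHom.ext h)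

theorem rs_rs (I J K : Finset V) (h : I ⊆ J) (h' : J ⊆ K) (x : X.Ch I) :
    X.rs J K h' (X.rs I J h x) = X.rs I K (h.trans h') x :=
  DFunLike.congr_fun (X.ch_ext (f := (X.rs J K h').toRingHom.comp (X.rs I J h).toRingHom)
    (f' := (X.rs I K (h.trans h')).toRingHom) (fun s => by simp)) x

theorem rs_id (I : Finset V) (h : I ⊆ I) (x : X.Ch I) : X.rs I I h x = x :=
  DFunLike.congr_fun (X.ch_ext (f := (X.rs I I h).toRingHom) (f' := RingHom.id _) (fun s => by simp)) x

/-- the grading of a chart -/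
noncomputable def ρc (I : Finset V) : X.Ch I →+* AddMonoidAlgebra (X.Ch I) (Dg m) :=
  (exists_coLoc (X.gI I) (X.gI_mem I)).choose

theorem ρc_spec (I : Finset V) (s : X.S) : X.ρc I (algebraMap X.S _ s) =
    mapRingHom (Dg m) (algebraMap X.S (X.Ch I)) (X.ρ s) :=
  (exists_coLoc (X.gI I) (X.gI_mem I)).choose_spec s

/-- the homogeneous part of a chart -/
noncomputable abbrev Hc (I : Finset V) (l : Dg m) : AddSubgroup (X.Ch I) := Hg (X.ρc I) l

theorem coc (I : Finset V) : IsCo (X.ρc I) := isCo_loc (X.ρc_spec I) X.co _ (X.gI_mem I)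

theorem alg_mem (I : Finset V) {l : Dg m} {s : X.S} (h : s ∈ X.H l) :
    algebraMap X.S (X.Ch I) s ∈ X.Hc I l := Hg_algebraMap (X.ρc_spec I) h

theorem mem_Hc {I : Finset V} {l : Dg m} {b : X.Ch I} : b ∈ X.Hc I l ↔ ∃ (e : ℕ) (s : X.S),
    s ∈ X.H (e • I.card • X.χ + l) ∧ algebraMap X.S _ (X.gI I) ^ e * b = algebraMap X.S _ s :=
  mem_Hg_loc (X.ρc_spec I) X.co _ (X.gI_mem I)

theorem rs_mem (I J : Finset V) (h : I ⊆ J) {l : Dg m} {b : X.Ch I} (hb : b ∈ X.Hc I l) :
    X.rs I J h b ∈ X.Hc J l := by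
  obtain ⟨e, s, hs, he⟩ := X.mem_Hc.1 hb
  obtain ⟨v, hv⟩ := ((X.isUnit_gI h).pow e).exists_left_inv
  have h1 := Hg_pow (X.alg_mem J (X.gI_mem I)) e
  refine Hg_of_mul_unit (Hg_inv h1 hv) hv ?_
  have := congrArg (X.rs I J h) he
  rw [map_mul, map_pow, AlgHom.commutes, AlgHom.commutes] at this
  rw [this]
  exact X.alg_mem J hs

/-- relative forms on a chart -/
abbrev W (I : Finset V) : Type := DRk (Pk k m) (X.Ch I)

theorem compat_rs (I J : Finset V) (h : I ⊆ J) :
    Compat (Pk k m) (Pk k m) (X.rs I J h : X.Ch I →+* X.Ch J) :=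
  Compat.of_algHom ((X.rs I J h).restrictScalars (Pk k m))

/-- restriction of forms -/
noncomputable def resH (I J : Finset V) (h : I ⊆ J) : X.W I →+* X.W J :=
  pullk (X.rs I J h : X.Ch I →+* X.Ch J) (X.compat_rs I J h)

/-- restriction of forms, as a family of additive maps -/
noncomputable def res : Res X.W := fun I J h => (X.resH I J h).toAddMonoidHom

@[simp] theorem res_apply (I J : Finset V) (h : I ⊆ J) (x : X.W I) :
    X.res I J h x = X.resH I J h x := rfl

@[simp] theorem resH_fn (I J : Finset V) (h : I ⊆ J) (a : X.Ch I) :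
    X.resH I J h (fn _ a) = fn _ (X.rs I J h a) := pullk_fn _ _ a

@[simp] theorem resH_dk (I J : Finset V) (h : I ⊆ J) (a : X.Ch I) :
    X.resH I J h (dk _ a) = dk _ (X.rs I J h a) := pullk_dk _ _ a

theorem resH_dR (I J : Finset V) (h : I ⊆ J) (x : X.W I) :
    X.resH I J h (dR x) = dR (X.resH I J h x) := pullk_dR _ _ x

theorem resH_inv (I J : Finset V) (h : I ⊆ J) (x : X.W I) :
    X.resH I J h (inv x) = inv (X.resH I J h x) := pullk_inv _ _ x

theorem resH_ep (I J : Finset V) (h : I ⊆ J) (p : ℕ) (x : X.W I) :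
    ep p (X.resH I J h x) = X.resH I J h (ep p x) := pullk_ep _ _ p x

theorem isFun_res : IsFun X.res :=
  ⟨fun I h x => pullk_id _ _ (X.rs_id I h) x,
    fun I J K h h' x => pullk_pullk _ _ _ _ _ _ (X.rs_rs I J K h h') x⟩

/-- an element of `S` as a form of degree zero on a chart -/
noncomputable def act (I : Finset V) : X.S →+* X.W I := (fn _).comp (algebraMap X.S (X.Ch I))

theorem act_apply (I : Finset V) (s : X.S) : X.act I s = fn _ (algebraMap X.S (X.Ch I) s) := rfl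

theorem smul_def (I : Finset V) (s : X.S) (x : X.W I) : s • x = X.act I s * x := by
  rw [act_apply, ← smul_eq, algebraMap_smul]

theorem ksmul_def (I : Finset V) (c : k) (x : X.W I) : c • x = algebraMap k X.S c • x := by
  rw [algebraMap_smul]

@[simp] theorem resH_act (I J : Finset V) (h : I ⊆ J) (s : X.S) :
    X.resH I J h (X.act I s) = X.act J s := by simp [act_apply]

theorem resH_smul (I J : Finset V) (h : I ⊆ J) (s : X.S) (x : X.W I) :
    X.resH I J h (s • x) = s • X.resH I J h x := by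
  rw [smul_def, smul_def, map_mul, resH_act]

theorem dR_base_smul (I : Finset V) (c : Pk k m) (x : X.W I) :
    dR (algebraMap (Pk k m) X.S c • x) = algebraMap (Pk k m) X.S c • dR x := by
  rw [smul_def, smul_def, act_apply, ← IsScalarTower.algebraMap_apply (Pk k m) X.S (X.Ch I),
    dR_fn_mul (dk_algebraMap c)]

theorem exists_ρW (I : Finset V) : ∃ F : X.W I →+* AddMonoidAlgebra (X.W I) (Dg m),
    ∀ l, ∀ a ∈ X.Hc I l, fn _ a ∈ Hg F l ∧ dk _ a ∈ Hg F l :=
  exists_coDR (X.coc I) fun c l => by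
    obtain ⟨c', hc⟩ := X.pr_base c l
    rw [IsScalarTower.algebraMap_apply (Pk k m) X.S, pr_algebraMap (X.ρc_spec I), hc,
      ← IsScalarTower.algebraMap_apply, dk_algebraMap]

/-- the grading of the forms on a chart -/
noncomputable def ρW (I : Finset V) : X.W I →+* AddMonoidAlgebra (X.W I) (Dg m) :=
  (X.exists_ρW I).choose

theorem ρW_spec (I : Finset V) :
    ∀ l, ∀ a ∈ X.Hc I l, fn _ a ∈ Hg (X.ρW I) l ∧ dk _ a ∈ Hg (X.ρW I) l :=
  (X.exists_ρW I).choose_spec

theorem coW (I : Finset V) : IsCo (X.ρW I) := isCo_DR (X.ρW_spec I) (X.coc I)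

/-- homogeneous forms of multidegree `l` -/
noncomputable def LL (l : Dg m) (I : Finset V) : AddSubgroup (X.W I) := Hg (X.ρW I) l

/-- homogeneous `p`-forms of multidegree `l` -/
noncomputable def L (p : ℕ) (l : Dg m) (I : Finset V) : AddSubgroup (X.W I) :=
  (Fk (Pk k m) (X.Ch I) p).toAddSubgroup ⊓ X.LL l I

/-- the component of multidegree `l` -/
noncomputable def prW (l : Dg m) (I : Finset V) : X.W I →+ X.W I := pr (X.ρW I) l

variable {X}

theorem mem_L {p : ℕ} {l : Dg m} {I : Finset V} {x : X.W I} :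
    x ∈ X.L p l I ↔ x ∈ Fk _ _ p ∧ x ∈ X.LL l I := Iff.rfl

theorem L_induction {I : Finset V} {P : ℕ → Dg m → X.W I → Prop}
    (h0 : ∀ l, ∀ a ∈ X.Hc I l, P 0 l (fn _ a)) (hz : ∀ p l, P p l 0)
    (hadd : ∀ p l x y, P p l x → P p l y → P p l (x + y))
    (hs : ∀ p l l' l'' a b x, a ∈ X.Hc I l → b ∈ X.Hc I l' → x ∈ X.L p l'' I →
      P p l'' x → P (p + 1) (l + l' + l'') (fn _ a * dk _ b * x))
    {p : ℕ} {l : Dg m} {x : X.W I} (hx : x ∈ X.L p l I) : P p l x :=
  HF_induction (X.ρW_spec I) (X.coc I) h0 hz hadd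
    (fun p l l' l'' a b x ha hb h1 h2 h => hs p l l' l'' a b x ha hb ⟨h1, h2⟩ h) hx.1 hx.2

theorem fn_mem_L {I : Finset V} {l : Dg m} {a : X.Ch I} (h : a ∈ X.Hc I l) :
    fn _ a ∈ X.L 0 l I := ⟨fn_mem a, (X.ρW_spec I l a h).1⟩

theorem dk_mem_L {I : Finset V} {l : Dg m} {a : X.Ch I} (h : a ∈ X.Hc I l) :
    dk _ a ∈ X.L 1 l I := ⟨dk_mem a, (X.ρW_spec I l a h).2⟩

theorem mul_mem_LL {I : Finset V} {l l' : Dg m} {x y : X.W I} (hx : x ∈ X.LL l I)
    (hy : y ∈ X.LL l' I) : x * y ∈ X.LL (l + l') I := Hg_mul hx hy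

theorem mul_mem_L {I : Finset V} {p q : ℕ} {l l' : Dg m} {x y : X.W I} (hx : x ∈ X.L p l I)
    (hy : y ∈ X.L q l' I) : x * y ∈ X.L (p + q) (l + l') I := ⟨mul_mem hx.1 hy.1, Hg_mul hx.2 hy.2⟩

theorem smul_mem_LL {I : Finset V} {l l' : Dg m} {s : X.S} {x : X.W I} (hs : s ∈ X.H l)
    (hx : x ∈ X.LL l' I) : s • x ∈ X.LL (l + l') I :=
  X.smul_def I s x ▸ Hg_mul (fn_mem_L (X.alg_mem I hs)).2 hx

theorem smul_mem_L {I : Finset V} {p : ℕ} {l l' : Dg m} {s : X.S} {x : X.W I} (hs : s ∈ X.H l)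
    (hx : x ∈ X.L p l' I) : s • x ∈ X.L p (l + l') I :=
  ⟨X.smul_def I s x ▸ fn_mul_mem _ hx.1, smul_mem_LL hs hx.2⟩

theorem dR_mem_LL {I : Finset V} {l : Dg m} {x : X.W I} (hx : x ∈ X.LL l I) : dR x ∈ X.LL l I :=
  dR_mem_Hg (X.ρW_spec I) (X.coc I) hx

theorem dR_mem_L {I : Finset V} {p : ℕ} {l : Dg m} {x : X.W I} (hx : x ∈ X.L p l I) :
    dR x ∈ X.L (p + 1) l I := ⟨dR_mem hx.1, dR_mem_LL hx.2⟩

theorem inv_mem_LL {I : Finset V} {l : Dg m} {x : X.W I} (hx : x ∈ X.LL l I) : inv x ∈ X.LL l I :=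
  inv_mem_Hg (X.ρW_spec I) (X.coc I) hx

theorem ep_mem_L {I : Finset V} (p : ℕ) {l : Dg m} {x : X.W I} (hx : x ∈ X.LL l I) :
    ep p x ∈ X.L p l I := ⟨ep_mem p x, ep_mem_Hg (X.ρW_spec I) (X.coc I) p hx⟩

theorem prW_mem_LL (l : Dg m) {I : Finset V} (x : X.W I) : X.prW l I x ∈ X.LL l I :=
  (X.coW I).pr_mem l x

theorem prW_mem_L {p : ℕ} (l : Dg m) {I : Finset V} {x : X.W I} (hx : x ∈ Fk _ _ p) :
    X.prW l I x ∈ X.L p l I := ⟨pr_mem_Fk (X.ρW_spec I) (X.coc I) hx l, prW_mem_LL l x⟩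

theorem prW_of_mem {l : Dg m} {I : Finset V} {x : X.W I} (hx : x ∈ X.LL l I) : X.prW l I x = x :=
  pr_of_mem hx

theorem prW_of_ne {l l' : Dg m} {I : Finset V} {x : X.W I} (hx : x ∈ X.LL l I) (h : l ≠ l') :
    X.prW l' I x = 0 := pr_of_ne hx h

theorem prW_dR (l : Dg m) {I : Finset V} (x : X.W I) : X.prW l I (dR x) = dR (X.prW l I x) :=
  pr_dR (X.ρW_spec I) (X.coc I) l x

theorem prW_smul {l : Dg m} {s : X.S} (hs : s ∈ X.H l) (l' : Dg m) {I : Finset V} (x : X.W I) :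
    X.prW (l + l') I (s • x) = s • X.prW l' I x := by
  rw [smul_def, smul_def]; exact pr_mul_left (fn_mem_L (X.alg_mem I hs)).2 l' x

theorem res_mem_LL {l : Dg m} (I J : Finset V) (h : I ⊆ J) (x : X.W I) (hx : x ∈ X.LL l I) :
    X.res I J h x ∈ X.LL l J :=
  pullk_mem_Hg (X.ρW_spec I) (X.coc I) (X.ρW_spec J) _ _ (AddMonoidHom.id _)
    (fun l a ha => X.rs_mem I J h ha) hx

theorem res_mem_L {p : ℕ} {l : Dg m} (I J : Finset V) (h : I ⊆ J) (x : X.W I)
    (hx : x ∈ X.L p l I) : X.res I J h x ∈ X.L p l J :=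
  ⟨pullk_mem _ _ hx.1, res_mem_LL I J h x hx.2⟩

theorem prW_res (l : Dg m) (I J : Finset V) (h : I ⊆ J) (x : X.W I) :
    X.prW l J (X.res I J h x) = X.res I J h (X.prW l I x) :=
  (X.coW I).pr_comm (X.res I J h) id Function.injective_id (fun l x hx => res_mem_LL I J h x hx) l x

variable (X)

/-- the ring of elements of degree zero -/
def S0 : Subalgebra k X.S where
  carrier := X.H 0
  mul_mem' := fun ha hb => Hg_cast (Hg_mul ha hb) (add_zero 0)
  add_mem' := fun ha hb => add_mem ha hb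
  algebraMap_mem' := X.hk

theorem mem_S0 {s : X.S} : s ∈ X.S0 ↔ s ∈ X.H 0 := Iff.rfl

/-- algebraic form of properness: the sections cut out the irrelevant locus -/
def Proper : Prop :=
  ∀ e : ℕ, 1 ≤ e → ∀ f ∈ X.H (e • X.χ), f ∈ (Ideal.span (Set.range X.g)).radical

/-- properness for a second direction `c` with sections `μ` -/
structure Rad {ι : Type} (c : Dg m) (μ : ι → X.S) : Prop where
  mem : ∀ l, μ l ∈ X.H c
  proper : X.Proper
  left : ∀ a : ℕ, 1 ≤ a → ∀ f ∈ X.H (a • c), f ∈ (Ideal.span (Set.range μ)).radical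
  both : ∀ a e : ℕ, 1 ≤ a → 1 ≤ e → ∀ f ∈ X.H (a • c + e • X.χ),
    f ∈ (Ideal.span (Set.range μ) ⊔ Ideal.span (Set.range X.g)).radical

/-- the charts are smooth over `k[σ]` -/
def Sm : Prop := ∀ I : Finset V, I.Nonempty → Algebra.Smooth (Pk k m) (X.Ch I)

/-- no relative forms of degree above `n` on the charts -/
def Dim (n : ℕ) : Prop :=
  ∀ I : Finset V, I.Nonempty → ∀ p, n < p → ∀ x ∈ Fk (Pk k m) (X.Ch I) p, x = 0

theorem cech_smul [LinearOrder V] (s : X.S) (c : ∀ I, X.W I) :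
    cech X.res (s • c) = s • cech X.res c := by
  funext J
  simp only [cech_apply, Pi.smul_apply, res_apply, resH_smul, Finset.smul_sum, smul_comm s]

end Mod

/-- `f` exhibits `N'` as the base change of `N` -/
def IsBC (k k' : Type) [CommRing k] [CommRing k'] [Algebra k k'] {N N' : Type} [AddCommGroup N]
    [Module k N] [AddCommGroup N'] [Module k' N'] (f : N → N') : Prop :=
  ∃ e : k' ⊗[k] N ≃ₗ[k'] N', ∀ x, e (1 ⊗ₜ x) = f x

/-- `X'` is the base change of `X` -/
structure BC {k k' : Type} [CommRing k] [CommRing k'] [Algebra k k'] {m : ℕ} {V : Type}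
    (X : Mod k m V) (X' : Mod k' m V) where
  β : X.S →+* X'.S
  hk : ∀ c, β (algebraMap k X.S c) = algebraMap k' X'.S (algebraMap k k' c)
  hσ : ∀ j, β (X.σ j) = X'.σ j
  hρ : ∀ l, ∀ s ∈ X.H l, β s ∈ X'.H l
  hχ : X'.χ = X.χ
  hg : ∀ i, β (X.g i) = X'.g i
  bc : IsBC k k' β

namespace BC

variable {k k' : Type} [CommRing k] [CommRing k'] [Algebra k k'] {m : ℕ} {V : Type}
  {X : Mod k m V} {X' : Mod k' m V} (b : BC X X')

theorem β_gI (I : Finset V) : b.β (X.gI I) = X'.gI I := by simp [Mod.gI, b.hg]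

theorem β_base (c : Pk k m) : b.β (algebraMap (Pk k m) X.S c) =
    algebraMap (Pk k' m) X'.S (MvPolynomial.map (algebraMap k k') c) := by
  induction c using MvPolynomial.induction_on with
  | C a =>
    rw [MvPolynomial.map_C, ← MvPolynomial.algebraMap_eq, ← MvPolynomial.algebraMap_eq,
      ← IsScalarTower.algebraMap_apply, ← IsScalarTower.algebraMap_apply, b.hk]
  | add p q hp hq => simp only [map_add, hp, hq]
  | mul_X p j hp => simp only [map_mul, hp, MvPolynomial.map_X]; exact congrArg _ (b.hσ j)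

/-- base change of functions on a chart -/
noncomputable def ch (I : Finset V) : X.Ch I →+* X'.Ch I :=
  IsLocalization.Away.lift (X.gI I) (g := (algebraMap X'.S (X'.Ch I)).comp b.β)
    (by rw [RingHom.comp_apply, b.β_gI]; exact X'.isUnit_gI (Finset.Subset.refl I))

@[simp] theorem ch_alg (I : Finset V) (s : X.S) :
    b.ch I (algebraMap X.S _ s) = algebraMap X'.S _ (b.β s) := IsLocalization.Away.lift_eq _ _ s

theorem ch_base (I : Finset V) (c : Pk k m) : b.ch I (algebraMap (Pk k m) _ c) =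
    algebraMap (Pk k' m) _ (MvPolynomial.map (algebraMap k k') c) := by
  rw [IsScalarTower.algebraMap_apply (Pk k m) X.S, ch_alg, β_base,
    ← IsScalarTower.algebraMap_apply]

theorem ch_rs (I J : Finset V) (h : I ⊆ J) (x : X.Ch I) :
    b.ch J (X.rs I J h x) = X'.rs I J h (b.ch I x) :=
  DFunLike.congr_fun (X.ch_ext (f := (b.ch J).comp (X.rs I J h).toRingHom)
    (f' := (X'.rs I J h).toRingHom.comp (b.ch I)) (fun s => by simp)) x

theorem ch_mem (I : Finset V) {l : Dg m} {a : X.Ch I} (ha : a ∈ X.Hc I l) :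
    b.ch I a ∈ X'.Hc I l := by
  obtain ⟨e, s, hs, he⟩ := X.mem_Hc.1 ha
  refine X'.mem_Hc.2 ⟨e, b.β s, b.hχ ▸ b.hρ _ _ hs, ?_⟩
  rw [← ch_alg, ← he, map_mul, map_pow, ch_alg, β_gI]

theorem compat (I : Finset V) : Compat (Pk k m) (Pk k' m) (b.ch I) :=
  Compat.of_square _ (b.ch_base I)

/-- base change of forms on a chart -/
noncomputable def w (I : Finset V) : X.W I →+* X'.W I := pullk (b.ch I) (b.compat I)

@[simp] theorem w_fn (I : Finset V) (a : X.Ch I) : b.w I (fn _ a) = fn _ (b.ch I a) :=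
  pullk_fn _ _ a

@[simp] theorem w_dk (I : Finset V) (a : X.Ch I) : b.w I (dk _ a) = dk _ (b.ch I a) :=
  pullk_dk _ _ a

theorem w_res (I J : Finset V) (h : I ⊆ J) (x : X.W I) :
    X'.res I J h (b.w I x) = b.w J (X.res I J h x) :=
  DFunLike.congr_fun (DR_ext (F := (X'.resH I J h).comp (b.w I))
    (G := (b.w J).comp (X.resH I J h)) (fun a => by simp [ch_rs]) (fun a => by simp [ch_rs])) x

theorem w_smul (I : Finset V) (s : X.S) (x : X.W I) : b.w I (s • x) = b.β s • b.w I x := by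
  rw [Mod.smul_def, Mod.smul_def, map_mul, Mod.act_apply, Mod.act_apply, w_fn, ch_alg]

theorem w_dR (I : Finset V) (x : X.W I) : b.w I (dR x) = dR (b.w I x) := pullk_dR _ _ x

theorem w_mem_LL {l : Dg m} (I : Finset V) {x : X.W I} (hx : x ∈ X.LL l I) :
    b.w I x ∈ X'.LL l I :=
  pullk_mem_Hg (X.ρW_spec I) (X.coc I) (X'.ρW_spec I) _ _ (AddMonoidHom.id _)
    (fun l a ha => b.ch_mem I ha) hx

theorem w_mem_L {p : ℕ} {l : Dg m} (I : Finset V) {x : X.W I} (hx : x ∈ X.L p l I) :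
    b.w I x ∈ X'.L p l I := ⟨pullk_mem _ _ hx.1, b.w_mem_LL I hx.2⟩

theorem w_prW (l : Dg m) (I : Finset V) (x : X.W I) :
    X'.prW l I (b.w I x) = b.w I (X.prW l I x) :=
  (X.coW I).pr_comm (b.w I).toAddMonoidHom id Function.injective_id
    (fun l x hx => b.w_mem_LL I hx) l x

theorem w_ep (p : ℕ) (I : Finset V) (x : X.W I) : ep p (b.w I x) = b.w I (ep p x) :=
  pullk_ep _ _ p x

end BC

end Pool.Agent.P.MP_824f38_ag.V
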