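import Pool.Agent.P.MP_824f38_ag.V.PresDefs

set_option linter.unusedVariables false
set_option linter.unusedSectionVars false

namespace Pool.Agent.P.MP_824f38_ag.V

theorem Desc_and {p q : Subalgebra ℤ ℂ → Prop}
    (hp : ∃ t : Finset ℂ, ∀ A : Subalgebra ℤ ℂ, (t : Set ℂ) ⊆ A → p A)
    (hq : ∃ t : Finset ℂ, ∀ A : Subalgebra ℤ ℂ, (t : Set ℂ) ⊆ A → q A) :
    ∃ t : Finset ℂ, ∀ A : Subalgebra ℤ ℂ, (t : Set ℂ) ⊆ A → p A ∧ q A := by
  classical
  obtain ⟨t, ht⟩ := hp
  obtain ⟨t', ht'⟩ := hq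
  refine ⟨t ∪ t', fun A hA => ⟨ht A fun x hx => hA ?_, ht' A fun x hx => hA ?_⟩⟩
  · exact Finset.mem_coe.2 (Finset.mem_union_left _ (Finset.mem_coe.1 hx))
  · exact Finset.mem_coe.2 (Finset.mem_union_right _ (Finset.mem_coe.1 hx))

theorem Desc_all {ι : Type} [Fintype ι] {p : ι → Subalgebra ℤ ℂ → Prop}
    (hp : ∀ i, ∃ t : Finset ℂ, ∀ A : Subalgebra ℤ ℂ, (t : Set ℂ) ⊆ A → p i A) :
    ∃ t : Finset ℂ, ∀ A : Subalgebra ℤ ℂ, (t : Set ℂ) ⊆ A → ∀ i, p i A := by
  classical
  choose t ht using hp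
  refine ⟨Finset.univ.biUnion t, fun A hA i => ht i A fun x hx => hA ?_⟩
  exact Finset.mem_coe.2 (Finset.mem_biUnion.2 ⟨i, Finset.mem_univ i, Finset.mem_coe.1 hx⟩)

/- every polynomial has its coefficients in a finite set -/
theorem exists_coeffs {m : ℕ} {τ : Type} (x : Qk ℂ m τ) : ∃ t : Finset ℂ,
    ∀ A : Subalgebra ℤ ℂ, (t : Set ℂ) ⊆ A → x ∈ (mapQ (algebraMap A ℂ) m τ).range := by
  induction x using MvPolynomial.induction_on with
  | C c =>
    induction c using MvPolynomial.induction_on with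
    | C c =>
      refine ⟨{c}, fun A hA => ⟨MvPolynomial.C (MvPolynomial.C ⟨c, hA (by simp)⟩), ?_⟩⟩
      simp [mapQ]
    | add p q hp hq =>
      obtain ⟨t, ht⟩ := Desc_and hp hq
      exact ⟨t, fun A hA => by rw [map_add]; exact add_mem (ht A hA).1 (ht A hA).2⟩
    | mul_X p j hp =>
      obtain ⟨t, ht⟩ := hp
      refine ⟨t, fun A hA => ?_⟩
      rw [map_mul]
      exact Subring.mul_mem _ (ht A hA) ⟨MvPolynomial.C (MvPolynomial.X j), by simp [mapQ]⟩
  | add p q hp hq =>
    obtain ⟨t, ht⟩ := Desc_and hp hq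
    exact ⟨t, fun A hA => add_mem (ht A hA).1 (ht A hA).2⟩
  | mul_X p j hp =>
    obtain ⟨t, ht⟩ := hp
    exact ⟨t, fun A hA => Subring.mul_mem _ (ht A hA) ⟨MvPolynomial.X j, by simp [mapQ]⟩⟩

theorem Desc_rename {k k' : Type} [CommRing k] [CommRing k'] (φ : k →+* k') {m n : ℕ}
    (x : Qk k m (Fin n)) :
    mapQ φ m (Option (Fin n)) (MvPolynomial.rename some x) =
      MvPolynomial.rename some (mapQ φ m (Fin n) x) := by
  unfold mapQ
  exact MvPolynomial.map_rename _ _ _

theorem Desc_X {k k' : Type} [CommRing k] [CommRing k'] (φ : k →+* k') {m : ℕ} {τ : Type}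
    (a : τ) : mapQ φ m τ (MvPolynomial.X a) = MvPolynomial.X a := by
  unfold mapQ
  exact MvPolynomial.map_X _ _

theorem Desc_aeval {k k' : Type} [CommRing k] [CommRing k'] (φ : k →+* k') {m n : ℕ} {τ : Type}
    (z : Fin n → Qk k m τ) (x : Qk k m (Fin n)) :
    mapQ φ m τ (MvPolynomial.aeval z x) =
      MvPolynomial.aeval (fun a => mapQ φ m τ (z a)) (mapQ φ m (Fin n) x) := by
  induction x using MvPolynomial.induction_on with
  | C c => simp [mapQ]
  | add p q hp hq => simp only [map_add, hp, hq]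
  | mul_X p j hp => simp only [map_mul, hp, Desc_X, MvPolynomial.aeval_X]

theorem Desc_rel {k k' : Type} [CommRing k] [CommRing k'] (φ : k →+* k') {m : ℕ} {V : Type}
    {n s : ℕ} (B : Pres k m V n s) (i : V) (u : Option (Fin s)) :
    mapQ φ m (Option (Fin n)) (B.rel i u) = (B.map φ).rel i u := by
  cases u with
  | none =>
    show mapQ φ m (Option (Fin n)) (MvPolynomial.X none * MvPolynomial.rename some (B.g i) - 1) =
      MvPolynomial.X none * MvPolynomial.rename some (mapQ φ m _ (B.g i)) - 1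
    rw [map_sub, map_mul, map_one, Desc_X, Desc_rename]
  | some j => exact Desc_rename φ (B.f j)

theorem Desc_mon {k k' : Type} [CommRing k] [CommRing k'] (φ : k →+* k') {m : ℕ} {V : Type}
    {n s : ℕ} (B : Pres k m V n s) (r : Fin m → ℕ) (e : Fin n → ℕ) :
    mapQ φ m (Fin n) (B.mon r e) = (B.map φ).mon r e := by
  simp [Pres.mon, mapQ]

/- Collect the coefficients of `f`, `g` and of all witnesses (finitely many polynomials), let `A`
be the `ℤ`-algebra they generate, choose preimages. Homogeneity descends by `mem_of_mapQ`, the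
identities by `mapQ_injective` (`mapQ` commutes with `rename`, `aeval`, `rel`, `mon`). -/
theorem exists_pres_descent {m : ℕ} {V : Type} [Fintype V] {n s : ℕ} (B : Pres ℂ m V n s)
    (h1 : ∀ i, B.SmCert i) (h2 : B.PrCert) :
    ∃ (A : Subalgebra ℤ ℂ) (B0 : Pres A m V n s), Algebra.FiniteType ℤ A ∧
      B0.map (algebraMap A ℂ) = B ∧ (∀ i, B0.SmCert i) ∧ B0.PrCert := by
  choose z c c' hz hc using h1
  obtain ⟨N, r, e, w, b, b', hb, hcov⟩ := h2
  obtain ⟨t, ht⟩ := Desc_and (Desc_all fun j => exists_coeffs (B.f j))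
    (Desc_and (Desc_all fun i => exists_coeffs (B.g i))
    (Desc_and (Desc_all fun i => Desc_all fun a => exists_coeffs (z i a))
    (Desc_and (Desc_all fun i => Desc_all fun a => Desc_all fun u => exists_coeffs (c i a u))
    (Desc_and (Desc_all fun i => Desc_all fun j => Desc_all fun u => Desc_all fun u' =>
      exists_coeffs (c' i j u u'))
    (Desc_and (Desc_all fun u => Desc_all fun i => exists_coeffs (b u i))
      (Desc_all fun u => Desc_all fun j => exists_coeffs (b' u j)))))))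
  obtain ⟨e1, e2, e3, e4, e5, e6, e7⟩ := ht (Algebra.adjoin ℤ (t : Set ℂ)) Algebra.subset_adjoin
  have hft : Algebra.FiniteType ℤ (Algebra.adjoin ℤ (t : Set ℂ)) :=
    (Subalgebra.fg_iff_finiteType _).1 (Subalgebra.fg_adjoin_finset t)
  generalize Algebra.adjoin ℤ (t : Set ℂ) = A at e1 e2 e3 e4 e5 e6 e7 hft
  have hinj : Function.Injective (algebraMap A ℂ) := Subtype.val_injective
  simp only [RingHom.mem_range] at e1 e2 e3 e4 e5 e6 e7
  choose f0 hf0 using e1
  choose g0 hg0 using e2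
  choose z0 hz0 using e3
  choose c0 hc0 using e4
  choose c0' hc0' using e5
  choose b0 hb0 using e6
  choose b0' hb0' using e7
  let B0 : Pres A m V n s :=
    { d := B.d
      f := f0
      df := B.df
      hf := fun j => mem_of_mapQ hinj B.d (by rw [hf0]; exact B.hf j)
      χ := B.χ
      g := g0
      hg := fun i => mem_of_mapQ hinj B.d (by rw [hg0]; exact B.hg i) }
  have hmap : B0.map (algebraMap A ℂ) = B := by
    obtain ⟨d, f, df, hf, χ, g, hg⟩ := B
    have a1 : (fun j => mapQ (algebraMap A ℂ) m (Fin n) (f0 j)) = f := funext hf0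
    have a2 : (fun i => mapQ (algebraMap A ℂ) m (Fin n) (g0 i)) = g := funext hg0
    subst a1 a2
    rfl
  refine ⟨A, B0, hft, hmap, fun i => ⟨z0 i, c0 i, c0' i, fun a => ?_, fun j => ?_⟩,
    N, r, e, w, b0, b0', fun u => ?_, hcov⟩
  · apply mapQ_injective hinj
    simp only [map_sub, map_sum, map_mul, Desc_X, Desc_rel, hmap, hz0, hc0]
    exact hz i a
  · apply mapQ_injective hinj
    have a1 : mapQ (algebraMap A ℂ) m (Fin n) (B0.f j) = B.f j := hf0 j
    simp only [Desc_aeval, map_sum, map_mul, Desc_rel, hmap, hz0, hc0', a1]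
    exact hc i j
  · apply mapQ_injective hinj
    have a1 : ∀ j, mapQ (algebraMap A ℂ) m (Fin n) (B0.f j) = B.f j := hf0
    have a2 : ∀ i, mapQ (algebraMap A ℂ) m (Fin n) (B0.g i) = B.g i := hg0
    simp only [map_pow, map_add, map_sum, map_mul, Desc_mon, hmap, hb0, hb0', a1, a2]
    exact hb u

end Pool.Agent.P.MP_824f38_ag.V
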