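import Pool.Agent.P.MP_824f38_ag.V.Gens
import Pool.Agent.P.MP_824f38_ag.V.CartDefs

set_option linter.unusedVariables false
set_option linter.unusedSectionVars false

namespace Pool.Agent.P.MP_824f38_ag.V

namespace Mod

variable {k : Type} [CommRing k] {m : ℕ} {V : Type} (X : Mod k m V)

theorem Dick_surj : Function.Surjective (algebraMap X.S (X.Ch ∅)) := by
  intro b
  obtain ⟨e, s, hs⟩ := IsLocalization.Away.surj (X.gI ∅) b
  refine ⟨s, ?_⟩
  rw [← hs]
  simp [gI]

theorem Dick_prW_smul {I : Finset V} {d : Dg m} {w : X.W I} (hw : w ∈ X.LL d I) (l : Dg m)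
    (s : X.S) : X.prW l I (s • w) = pr X.ρ (l - d) s • w := by
  induction s using X.co.induction with
  | h0 l' s hs =>
    have h1 := smul_mem_LL hs hw
    by_cases h : l' = l - d
    · subst h
      rw [pr_of_mem hs]
      exact prW_of_mem (by simpa using h1)
    · rw [pr_of_ne hs h, zero_smul]
      exact prW_of_ne h1 (fun e => h (by rw [← e]; abel))
  | hadd x y hx hy => rw [add_smul, map_add, map_add, add_smul, hx, hy]

theorem Dick_smul_mul (I : Finset V) (s : X.S) (x z : X.W I) : (s • x) * z = s • (x * z) := by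
  rw [smul_def, smul_def, mul_assoc]

theorem Dick_mul_smul (I : Finset V) (s : X.S) (x z : X.W I) : x * (s • z) = s • (x * z) := by
  rw [smul_def, smul_def, act_apply, ← mul_assoc, ← fn_comm, mul_assoc]

theorem Dick_dk_mem (I : Finset V) {n : ℕ} {y : Fin n → X.S} {d : Fin n → Dg m}
    (h : X.IsGens y d) (s : X.S) :
    dk (Pk k m) (algebraMap X.S (X.Ch I) s) ∈ Submodule.span X.S
      (Set.range fun i => dk (Pk k m) (algebraMap X.S (X.Ch I) (y i))) := by
  have hs : s ∈ Algebra.adjoin k (Set.range y) := by rw [h.top]; trivial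
  induction hs using Algebra.adjoin_induction with
  | mem x hx => obtain ⟨i, rfl⟩ := hx; exact Submodule.subset_span ⟨i, rfl⟩
  | algebraMap c =>
    rw [IsScalarTower.algebraMap_apply k (Pk k m) X.S,
      ← IsScalarTower.algebraMap_apply (Pk k m) X.S (X.Ch I), dk_algebraMap]
    exact zero_mem _
  | add a b _ _ ha hb => rw [map_add, dk_add]; exact add_mem ha hb
  | mul a b _ _ ha hb =>
    rw [map_mul, dk_mul, ← act_apply, ← act_apply, ← smul_def, ← smul_def]
    exact add_mem (Submodule.smul_mem _ _ hb) (Submodule.smul_mem _ _ ha)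

theorem Dick_wdk_mem (I : Finset V) {n : ℕ} {y : Fin n → X.S} {d : Fin n → Dg m}
    (h : X.IsGens y d) (p : ℕ) (a : Fin p → X.S) :
    wdk (Pk k m) (fun t => algebraMap X.S (X.Ch I) (a t)) ∈ Submodule.span X.S
      (Set.range fun u : Fin p → Fin n =>
        wdk (Pk k m) (fun t => algebraMap X.S (X.Ch I) (y (u t)))) := by
  induction p with
  | zero =>
    refine Submodule.subset_span ⟨Fin.elim0, ?_⟩
    simp only [wdk_zero]
  | succ p ih =>
    rw [wdk_succ]
    have h1 := X.Dick_dk_mem I h (a 0)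
    have h2 := ih fun t => a t.succ
    generalize dk (Pk k m) (algebraMap X.S (X.Ch I) (a 0)) = x at h1
    generalize wdk (Pk k m) (fun t : Fin p => algebraMap X.S (X.Ch I) (a t.succ)) = z at h2
    induction h1 using Submodule.span_induction with
    | zero => rw [zero_mul]; exact zero_mem _
    | add x x' _ _ hx hx' => rw [add_mul]; exact add_mem hx hx'
    | smul s x _ hx => rw [Dick_smul_mul]; exact Submodule.smul_mem _ _ hx
    | mem x hx =>
      obtain ⟨i, rfl⟩ := hx
      induction h2 using Submodule.span_induction with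
      | zero => rw [mul_zero]; exact zero_mem _
      | add z z' _ _ hz hz' => rw [mul_add]; exact add_mem hz hz'
      | smul s z _ hz => rw [Dick_mul_smul]; exact Submodule.smul_mem _ _ hz
      | mem z hz =>
        obtain ⟨u, rfl⟩ := hz
        refine Submodule.subset_span ⟨Fin.cons i u, ?_⟩
        simp only [wdk_succ, Fin.cons_zero, Fin.cons_succ]

theorem Dick_wdk_L (I : Finset V) (p : ℕ) (a : Fin p → X.S) (d : Fin p → Dg m)
    (h : ∀ t, a t ∈ X.H (d t)) :
    wdk (Pk k m) (fun t => algebraMap X.S (X.Ch I) (a t)) ∈ X.L p (∑ t, d t) I := by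
  refine ⟨wdk_mem _, ?_⟩
  induction p with
  | zero => rw [wdk_zero, Fin.sum_univ_zero]; exact Hg_one (ρ := X.ρW I)
  | succ p ih =>
    rw [wdk_succ, Fin.sum_univ_succ]
    exact mul_mem_LL (dk_mem_L (X.alg_mem I (h 0))).2
      (ih (fun t => a t.succ) (fun t => d t.succ) fun t => h t.succ)

/- `X.Ch ∅` is the localisation at `1`, so `algebraMap X.S (X.Ch ∅)` is surjective. With
generators `y` of `X.S`, the forms `wdk (y ∘ u)`, `u : Fin p → Fin n`, are homogeneous and span
`Fk p` over `X.S` (`Fk_wdk_induction`; `dk` of a polynomial in the `y i` lies in the span of the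
`dk (y i)`). Apply `prW l` and `prW_smul` to get homogeneous coefficients. -/
theorem exists_form_gens [Algebra.FiniteType k X.S] (p : ℕ) :
    ∃ (n : ℕ) (w : Fin n → X.W ∅) (d : Fin n → Dg m), (∀ j, w j ∈ X.L p (d j) ∅) ∧
      ∀ l, ∀ x ∈ X.L p l ∅, ∃ a : Fin n → X.S, (∀ j, a j ∈ X.H (l - d j)) ∧
        x = ∑ j, a j • w j := by
  classical
  obtain ⟨n, y, d, h⟩ := X.exists_gens
  let w : (Fin p → Fin n) → X.W ∅ := fun u =>
    wdk (Pk k m) (fun t => algebraMap X.S (X.Ch ∅) (y (u t)))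
  let D : (Fin p → Fin n) → Dg m := fun u => ∑ t, d (u t)
  have hw : ∀ u, w u ∈ X.L p (D u) ∅ := fun u =>
    X.Dick_wdk_L ∅ p (fun t => y (u t)) (fun t => d (u t)) fun t => h.mem _
  let e := (Fintype.equivFin (Fin p → Fin n)).symm
  refine ⟨_, fun j => w (e j), fun j => D (e j), fun j => hw _, fun l x hx => ?_⟩
  have hsp : x ∈ Submodule.span X.S (Set.range w) := by
    refine Fk_wdk_induction (P := fun x => x ∈ Submodule.span X.S (Set.range w)) (zero_mem _)
      (fun a b ha hb => add_mem ha hb) (fun b a => ?_) hx.1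
    obtain ⟨s, rfl⟩ := X.Dick_surj b
    choose a' ha' using fun t => X.Dick_surj (a t)
    obtain rfl : a = fun t => algebraMap X.S (X.Ch ∅) (a' t) := funext fun t => (ha' t).symm
    rw [← act_apply, ← smul_def]
    exact Submodule.smul_mem _ _ (X.Dick_wdk_mem ∅ h p a')
  obtain ⟨c, hc⟩ := (Submodule.mem_span_range_iff_exists_fun X.S).1 hsp
  refine ⟨fun j => pr X.ρ (l - D (e j)) (c (e j)), fun j => X.co.pr_mem _ _, ?_⟩
  rw [e.sum_comp (fun u => pr X.ρ (l - D u) (c u) • w u), ← prW_of_mem hx.2, ← hc, map_sum]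
  exact Finset.sum_congr rfl fun u _ => X.Dick_prW_smul (hw u).2 l (c u)

/- from the above and `H_fg` -/
theorem L_fg [Algebra.FiniteType k X.S] (p : ℕ) (l : Dg m) : ∃ (n : ℕ) (t : Fin n → X.W ∅),
    (∀ j, t j ∈ X.L p l ∅) ∧ ∀ x ∈ X.L p l ∅, ∃ a : Fin n → X.S, (∀ j, a j ∈ X.H 0) ∧
      x = ∑ j, a j • t j := by
  classical
  obtain ⟨n, w, d, hw, hx⟩ := X.exists_form_gens p
  choose N t ht hs using fun j => X.H_fg (l - d j)
  let e := (Fintype.equivFin (Σ j : Fin n, Fin (N j))).symm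
  refine ⟨_, fun q => t (e q).1 (e q).2 • w (e q).1, fun q => ?_, fun x hxl => ?_⟩
  · simpa using smul_mem_L (ht (e q).1 (e q).2) (hw (e q).1)
  · obtain ⟨a, ha, rfl⟩ := hx l x hxl
    choose b hb hab using fun j => hs j (a j) (ha j)
    refine ⟨fun q => b (e q).1 (e q).2, fun q => hb _ _, ?_⟩
    rw [e.sum_comp (fun q : Σ j : Fin n, Fin (N j) => b q.1 q.2 • t q.1 q.2 • w q.1),
      Fintype.sum_sigma]
    refine Finset.sum_congr rfl fun j _ => ?_
    rw [hab j, Finset.sum_smul]
    exact Finset.sum_congr rfl fun i _ => mul_smul _ _ _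

/-- the ideal of the allowed sections -/
def Dick_J {ι : Type} (μ : ι → X.S) (α ε : Bool) : Ideal X.S :=
  (if α then Ideal.span (Set.range μ) else ⊥) ⊔ (if ε then Ideal.span (Set.range X.g) else ⊥)

theorem Dick_rad {ι : Type} {c : Dg m} {μ : ι → X.S} (h : X.Rad c μ) {α ε : Bool} {a e : ℕ}
    (hae : 1 ≤ a + e) (ha : a ≠ 0 → α = true) (he : e ≠ 0 → ε = true) {f : X.S}
    (hf : f ∈ X.H (a • c + e • X.χ)) : f ∈ (X.Dick_J μ α ε).radical := by
  by_cases h1 : a = 0
  · subst h1
    obtain rfl := he (by omega)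
    refine Ideal.radical_mono ?_ (h.proper e (by omega) f (by simpa using hf))
    simp [Dick_J]
  · obtain rfl := ha h1
    by_cases h2 : e = 0
    · subst h2
      refine Ideal.radical_mono ?_ (h.left a (by omega) f (by simpa using hf))
      simp [Dick_J]
    · obtain rfl := he h2
      refine Ideal.radical_mono ?_ (h.both a e (by omega) (by omega) f hf)
      simp [Dick_J]

theorem Dick_mon {ι : Type} {c : Dg m} {μ : ι → X.S} (h : X.Rad c μ) {n : ℕ} {y : Fin n → X.S}
    {d : Fin n → Dg m} (hy : X.IsGens y d) (α ε : Bool) : ∃ b : ℕ, ∀ v : Fin n ⊕ Bool → ℕ,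
      ∑ i, v (Sum.inl i) • d i = v (Sum.inr false) • c + v (Sum.inr true) • X.χ →
      b ≤ v (Sum.inr false) + v (Sum.inr true) → (v (Sum.inr false) ≠ 0 → α = true) →
      (v (Sum.inr true) ≠ 0 → ε = true) → ∏ i, y i ^ v (Sum.inl i) ∈ X.Dick_J μ α ε := by
  classical
  obtain ⟨Z, hZ, hmin⟩ := dickson {v : Fin n ⊕ Bool → ℕ |
    ∑ i, v (Sum.inl i) • d i = v (Sum.inr false) • c + v (Sum.inr true) • X.χ ∧
      1 ≤ v (Sum.inr false) + v (Sum.inr true) ∧ (v (Sum.inr false) ≠ 0 → α = true) ∧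
      (v (Sum.inr true) ≠ 0 → ε = true)}
  let I' : Ideal X.S := Ideal.span
    ((Z.image fun v => ∏ i, y i ^ v (Sum.inl i) : Finset X.S) : Set X.S)
  have hle : I' ≤ (X.Dick_J μ α ε).radical := by
    refine Ideal.span_le.2 fun f hf => ?_
    obtain ⟨v, hv, rfl⟩ := Finset.mem_image.1 (Finset.mem_coe.1 hf)
    obtain ⟨h1, h2, h3, h4⟩ := hZ v hv
    exact X.Dick_rad h h2 h3 h4 (h1 ▸ hy.mon_mem fun i => v (Sum.inl i))
  obtain ⟨K, hK⟩ := Ideal.exists_pow_le_of_le_radical_of_fg hle ⟨_, rfl⟩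
  let B : ℕ := Z.sup (fun v => v (Sum.inr false) + v (Sum.inr true)) + 1
  have key : ∀ N : ℕ, ∀ v : Fin n ⊕ Bool → ℕ,
      ∑ i, v (Sum.inl i) • d i = v (Sum.inr false) • c + v (Sum.inr true) • X.χ →
      N * B ≤ v (Sum.inr false) + v (Sum.inr true) → (v (Sum.inr false) ≠ 0 → α = true) →
      (v (Sum.inr true) ≠ 0 → ε = true) → ∏ i, y i ^ v (Sum.inl i) ∈ I' ^ N := by
    intro N
    induction N with
    | zero => intro v _ _ _ _; simp
    | succ N ih =>
      intro v h1 h2 h3 h4
      have hB : 1 ≤ B := Nat.le_add_left 1 _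
      rw [Nat.succ_mul] at h2
      obtain ⟨z, hz, hzv⟩ := hmin v ⟨h1, by omega, h3, h4⟩
      obtain ⟨w, rfl⟩ : ∃ w, v = z + w :=
        ⟨fun i => v i - z i, funext fun i => (Nat.add_sub_cancel' (hzv i)).symm⟩
      have hzB : z (Sum.inr false) + z (Sum.inr true) < B :=
        Nat.lt_succ_of_le (Finset.le_sup (f := fun v : Fin n ⊕ Bool → ℕ =>
          v (Sum.inr false) + v (Sum.inr true)) hz)
      have hz1 := (hZ z hz).1
      simp only [Pi.add_apply] at h1 h2 h3 h4 ⊢
      simp only [add_smul, Finset.sum_add_distrib] at h1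
      simp only [pow_add, Finset.prod_mul_distrib]
      rw [pow_one, mul_comm (I' ^ N)]
      refine Ideal.mul_mem_mul (Ideal.subset_span (Finset.mem_coe.2
        (Finset.mem_image.2 ⟨z, hz, rfl⟩))) (ih w ?_ (by omega) (fun e => h3 (by omega))
        (fun e => h4 (by omega)))
      rw [hz1] at h1
      have h5 : z (Sum.inr false) • c + z (Sum.inr true) • X.χ + ∑ i, w (Sum.inl i) • d i =
          z (Sum.inr false) • c + z (Sum.inr true) • X.χ +
            (w (Sum.inr false) • c + w (Sum.inr true) • X.χ) := by rw [h1]; abel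
      exact add_left_cancel h5
  exact ⟨K * B, fun v h1 h2 h3 h4 => hK (key K v h1 h2 h3 h4)⟩

theorem Dick_mem_J [Algebra.FiniteType k X.S] {ι : Type} {c : Dg m} {μ : ι → X.S}
    (h : X.Rad c μ) (l : Dg m) : ∃ b : ℕ, ∀ a e : ℕ, b ≤ a + e →
      ∀ s ∈ X.H (l + a • c + e • X.χ), s ∈ X.Dick_J μ (decide (a ≠ 0)) (decide (e ≠ 0)) := by
  classical
  obtain ⟨n, y, d, hy⟩ := X.exists_gens
  choose b hb using fun q : Bool × Bool => X.Dick_mon h hy q.1 q.2
  obtain ⟨T, hT, hmin⟩ := dickson {v : Fin n ⊕ Bool → ℕ |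
    ∑ i, v (Sum.inl i) • d i = l + v (Sum.inr false) • c + v (Sum.inr true) • X.χ}
  refine ⟨T.sup (fun v => v (Sum.inr false) + v (Sum.inr true)) + Finset.univ.sup b,
    fun a e hae s hs => ?_⟩
  have hsp := hy.mem_span hs
  clear hs
  induction hsp using Submodule.span_induction with
  | zero => exact zero_mem _
  | add x x' _ _ hx hx' => exact add_mem hx hx'
  | smul r x _ hx => rw [Algebra.smul_def]; exact Ideal.mul_mem_left _ _ hx
  | mem x hx =>
    obtain ⟨u, hu, rfl⟩ := hx
    let v : Fin n ⊕ Bool → ℕ := Sum.elim u fun t => if t then e else a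
    obtain ⟨z, hz, hzv⟩ := hmin v (by simpa [v] using hu)
    have hzB : z (Sum.inr false) + z (Sum.inr true) ≤
        T.sup (fun v => v (Sum.inr false) + v (Sum.inr true)) :=
      Finset.le_sup (f := fun v : Fin n ⊕ Bool → ℕ => v (Sum.inr false) + v (Sum.inr true)) hz
    have hbB : b (decide (a ≠ 0), decide (e ≠ 0)) ≤ Finset.univ.sup b :=
      Finset.le_sup (Finset.mem_univ _)
    obtain ⟨w, hw⟩ : ∃ w, v = z + w :=
      ⟨fun i => v i - z i, funext fun i => (Nat.add_sub_cancel' (hzv i)).symm⟩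
    have hu' : ∀ i, u i = z (Sum.inl i) + w (Sum.inl i) := fun i => congrFun hw (Sum.inl i)
    have ha' : a = z (Sum.inr false) + w (Sum.inr false) := congrFun hw (Sum.inr false)
    have he' : e = z (Sum.inr true) + w (Sum.inr true) := congrFun hw (Sum.inr true)
    have hz1 : ∑ i, z (Sum.inl i) • d i = l + z (Sum.inr false) • c + z (Sum.inr true) • X.χ :=
      hT z hz
    simp only [hu', pow_add, Finset.prod_mul_distrib]
    refine Ideal.mul_mem_left _ _ (hb (decide (a ≠ 0), decide (e ≠ 0)) w ?_ (by omega)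
      (fun h' => decide_eq_true (by omega)) (fun h' => decide_eq_true (by omega)))
    simp only [hu', add_smul, Finset.sum_add_distrib] at hu
    rw [hz1, ha', he', add_smul, add_smul] at hu
    have h5 : l + z (Sum.inr false) • c + z (Sum.inr true) • X.χ + ∑ i, w (Sum.inl i) • d i =
        l + z (Sum.inr false) • c + z (Sum.inr true) • X.χ +
          (w (Sum.inr false) • c + w (Sum.inr true) • X.χ) := by rw [hu]; abel
    exact add_left_cancel h5

theorem Dick_span {ι : Type} [Fintype ι] (μ : ι → X.S) {a : ℕ} {s : X.S}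
    (hs : s ∈ (if decide (a ≠ 0) then Ideal.span (Set.range μ) else ⊥ : Ideal X.S)) :
    ∃ y : ι → X.S, s = ∑ i, μ i * y i ∧ (a = 0 → ∀ i, y i = 0) := by
  by_cases ha : a = 0
  · refine ⟨0, ?_, fun _ _ => rfl⟩
    simpa [ha] using hs
  · rw [if_pos (decide_eq_true ha)] at hs
    obtain ⟨y, hy⟩ := Ideal.mem_span_range_iff_exists_fun.1 hs
    exact ⟨y, by rw [← hy]; exact Finset.sum_congr rfl fun i _ => mul_comm _ _,
      fun h => absurd h ha⟩

/- Let `y`, `d` be homogeneous generators, `E l = {(u, a, e) | ∑ u i • d i = l + a • c + e • χ}`.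
By `dickson` each element of `E l` is a minimal one plus an element of `E 0`, and `E 0` is
generated by finitely many minimal non-zero elements `z`. For a generator `z = (u, a, e)` with
`a + e > 0` a power `r` of the monomial `y ^ u` is `∑ μ i * s i + ∑ g v * s' v` (only the `g` if
`a = 0`, only the `μ` if `e = 0`: fields `proper`, `left`, `both` of `Rad`); take one `r` for all
generators. If `a + e` is large, some such generator occurs at least `r` times. Project the
coefficients to the right degree with `pr` at the end. -/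
theorem H_gen [Algebra.FiniteType k X.S] [Fintype V] {ι : Type} [Fintype ι] {c : Dg m}
    {μ : ι → X.S} (h : X.Rad c μ) (l : Dg m) : ∃ b : ℕ, ∀ a e : ℕ, b ≤ a + e →
      ∀ s ∈ X.H (l + a • c + e • X.χ), ∃ (y : ι → X.S) (z : V → X.S),
        s = ∑ i, μ i * y i + ∑ v, X.g v * z v ∧
        (∀ i, y i ∈ X.H (l + a • c + e • X.χ - c) ∧ (a = 0 → y i = 0)) ∧
        ∀ v, z v ∈ X.H (l + a • c + e • X.χ - X.χ) ∧ (e = 0 → z v = 0) := by
  obtain ⟨b, hb⟩ := X.Dick_mem_J h l
  refine ⟨b, fun a e hae s hs => ?_⟩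
  obtain ⟨s1, h1, s2, h2, hs12⟩ := Submodule.mem_sup.1 (hb a e hae s hs)
  obtain ⟨y, rfl, hy⟩ := X.Dick_span μ h1
  obtain ⟨z, rfl, hz⟩ := X.Dick_span X.g h2
  generalize l + a • c + e • X.χ = L at hs ⊢
  refine ⟨fun i => pr X.ρ (L - c) (y i), fun v => pr X.ρ (L - X.χ) (z v), ?_,
    fun i => ⟨X.co.pr_mem _ _, fun h0 => by simp only [hy h0 i, map_zero]⟩,
    fun v => ⟨X.co.pr_mem _ _, fun h0 => by simp only [hz h0 v, map_zero]⟩⟩
  rw [← pr_of_mem hs, ← hs12, map_add, map_sum, map_sum]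
  congr 1
  · refine Finset.sum_congr rfl fun i _ => ?_
    rw [← pr_mul_left (h.mem i), add_sub_cancel]
  · refine Finset.sum_congr rfl fun v _ => ?_
    rw [← pr_mul_left (X.hg v), add_sub_cancel]

/- from `exists_form_gens` and `H_gen` applied to the finitely many degrees `l - d j` -/
theorem L_gen [Algebra.FiniteType k X.S] [Fintype V] {ι : Type} [Fintype ι] {c : Dg m}
    {μ : ι → X.S} (h : X.Rad c μ) (p : ℕ) (l : Dg m) : ∃ b : ℕ, ∀ a e : ℕ, b ≤ a + e →
      ∀ x ∈ X.L p (l + a • c + e • X.χ) ∅, ∃ (y : ι → X.W ∅) (z : V → X.W ∅),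
        x = ∑ i, μ i • y i + ∑ v, X.g v • z v ∧
        (∀ i, y i ∈ X.L p (l + a • c + e • X.χ - c) ∅ ∧ (a = 0 → y i = 0)) ∧
        ∀ v, z v ∈ X.L p (l + a • c + e • X.χ - X.χ) ∅ ∧ (e = 0 → z v = 0) := by
  obtain ⟨n, w, d, hw, hx⟩ := X.exists_form_gens p
  choose b hb using fun j => X.H_gen h (l - d j)
  refine ⟨Finset.univ.sup b, fun a e hae x hxl => ?_⟩
  obtain ⟨s, hs, rfl⟩ := hx _ x hxl
  choose y z hyz hy hz using fun j => hb j a e
    ((Finset.le_sup (f := b) (Finset.mem_univ j)).trans hae) (s j) (Hg_cast (hs j) (by abel))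
  refine ⟨fun i => ∑ j, y j i • w j, fun v => ∑ j, z j v • w j, ?_, fun i => ⟨?_, fun h0 => ?_⟩,
    fun v => ⟨?_, fun h0 => ?_⟩⟩
  · simp only [Finset.smul_sum, smul_smul]
    rw [Finset.sum_comm, Finset.sum_comm (s := (Finset.univ : Finset V)),
      ← Finset.sum_add_distrib]
    refine Finset.sum_congr rfl fun j _ => ?_
    rw [hyz j, add_smul, Finset.sum_smul, Finset.sum_smul]
  · refine sum_mem fun j _ => ?_
    have := smul_mem_L (hy j i).1 (hw j)
    rwa [show l - d j + a • c + e • X.χ - c + d j = l + a • c + e • X.χ - c by abel] at this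
  · exact Finset.sum_eq_zero fun j _ => by rw [(hy j i).2 h0, zero_smul]
  · refine sum_mem fun j _ => ?_
    have := smul_mem_L (hz j v).1 (hw j)
    rwa [show l - d j + a • c + e • X.χ - X.χ + d j = l + a • c + e • X.χ - X.χ by abel] at this
  · exact Finset.sum_eq_zero fun j _ => by rw [(hz j v).2 h0, zero_smul]

end Mod

end Pool.Agent.P.MP_824f38_ag.V
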