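import Pool.Agent.P.MP_824f38_ag.V.Stmts
import Pool.Agent.P.MP_824f38_ag.V.ExtBC
import Pool.Agent.P.MP_824f38_ag.V.FlatDR

set_option linter.unusedVariables false
set_option linter.unusedSectionVars false

namespace Pool.Agent.P.MP_824f38_ag.V

open TensorProduct

theorem FieldInj_smooth (F K : Type) [Field F] [Field K] [CharZero F] [Algebra F K] :
    Algebra.FormallySmooth F K := by
  obtain ⟨s, hs⟩ := exists_isTranscendenceBasis F K
  have h1 := hs.isAlgebraic_field
  have h2 : CharZero (IntermediateField.adjoin F (Set.range ((↑) : s → K))) :=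
    algebraRat.charZero _
  exact .of_algebraicIndependent_of_isSeparable hs.1

theorem FieldInj_sq {F K M : Type} [CommRing F] [CommRing K] [Algebra F K] [AddCommGroup M]
    [Module F M] (y : K ⊗[F] M) :
    (ExteriorAlgebra.ι F).baseChange K y * (ExteriorAlgebra.ι F).baseChange K y = 0 := by
  have h2 : ∀ y y' : K ⊗[F] M,
      (ExteriorAlgebra.ι F).baseChange K y * (ExteriorAlgebra.ι F).baseChange K y' +
      (ExteriorAlgebra.ι F).baseChange K y' * (ExteriorAlgebra.ι F).baseChange K y = 0 := by
    intro y y'
    induction y using TensorProduct.induction_on with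
    | zero => simp
    | add x y hx hy => rw [map_add, add_mul, mul_add, add_add_add_comm, hx, hy, add_zero]
    | tmul a m =>
      induction y' using TensorProduct.induction_on with
      | zero => simp
      | add x y hx hy => rw [map_add, add_mul, mul_add, add_add_add_comm, hx, hy, add_zero]
      | tmul a' m' =>
        rw [LinearMap.baseChange_tmul, LinearMap.baseChange_tmul,
          Algebra.TensorProduct.tmul_mul_tmul, Algebra.TensorProduct.tmul_mul_tmul, mul_comm a' a,
          ← TensorProduct.tmul_add, ExteriorAlgebra.ι_add_mul_swap, TensorProduct.tmul_zero]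
  induction y using TensorProduct.induction_on with
  | zero => simp
  | add x y hx hy => rw [map_add, add_mul, mul_add, mul_add, hx, hy, zero_add, add_zero, h2]
  | tmul a m =>
    rw [LinearMap.baseChange_tmul, Algebra.TensorProduct.tmul_mul_tmul, ExteriorAlgebra.ι_sq_zero,
      TensorProduct.tmul_zero]

theorem field_field_inj {F K : Type} [Field F] [Field K] [Algebra ℂ F] [Algebra ℂ K]
    (ψ : F →ₐ[ℂ] K) : Function.Injective (pull ψ) := by
  let _ : Algebra F K := ψ.toRingHom.toAlgebra
  have : IsScalarTower ℂ F K := IsScalarTower.of_algHom ψ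
  have : CharZero F := charZero_of_injective_algebraMap (algebraMap ℂ F).injective
  have := FieldInj_smooth F K
  have inj : LinearMap.ker (KaehlerDifferential.mapBaseChange ℂ F K) = ⊥ := by
    rw [LinearMap.ker_eq_bot']
    intro x hx
    obtain ⟨x, rfl⟩ := (Algebra.H1Cotangent.exact_δ_mapBaseChange ℂ F K x).mp hx
    rw [Subsingleton.elim x 0, map_zero]
  obtain ⟨g, hg⟩ := LinearMap.exists_leftInverse_of_injective _ inj
  let θ : DRk ℂ K →ₐ[K] K ⊗[F] DRk ℂ F := ExteriorAlgebra.lift K
    ⟨(ExteriorAlgebra.ι F).baseChange K ∘ₗ g, fun m => FieldInj_sq (g m)⟩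
  have key : θ.toRingHom.comp (pullk (ψ : F →+* K) (Compat.of_algHom ψ)) =
      (Algebra.TensorProduct.includeRight (R := F) (A := K) (B := DRk ℂ F)).toRingHom := by
    refine DR_ext (fun a => ?_) fun a => ?_
    · rw [RingHom.comp_apply, pullk_fn]
      exact (θ.commutes _).trans
        ((Algebra.TensorProduct.includeRight (R := F) (A := K) (B := DRk ℂ F)).commutes a).symm
    · rw [RingHom.comp_apply, pullk_dk]
      refine (ExteriorAlgebra.lift_ι_apply K _ _ _).trans ?_
      have e := LinearMap.congr_fun hg (1 ⊗ₜ KaehlerDifferential.D ℂ F a)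
      rw [LinearMap.comp_apply, KaehlerDifferential.mapBaseChange_tmul, one_smul,
        KaehlerDifferential.map_D] at e
      exact congrArg ((ExteriorAlgebra.ι F).baseChange K) e
  rw [pull_eq_pullk]
  refine Function.Injective.of_comp (f := θ.toRingHom) ?_
  rw [← RingHom.coe_comp, key]
  exact Algebra.TensorProduct.includeRight_injective (algebraMap F K).injective

theorem field_inj : FieldInjStmt := by
  intro B K _ _ _ _ _ ψ hψ
  have : IsDomain B := hψ.isDomain ψ.toRingHom
  let χ : FractionRing B →ₐ[ℂ] K := IsFractionRing.liftAlgHom (g := ψ) hψ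
  have c : Compat ℂ ℂ (algebraMap B (FractionRing B)) :=
    Compat.of_algHom (IsScalarTower.toAlgHom ℂ B (FractionRing B))
  rw [pull_eq_pullk, injective_iff_map_eq_zero]
  intro x hx
  rw [← pullk_pullk _ c (χ : FractionRing B →+* K) (Compat.of_algHom χ) (ψ : B →+* K) _
    (fun a => IsFractionRing.lift_algebraMap hψ a), ← pull_eq_pullk] at hx
  obtain ⟨b, hb, h⟩ := frac_inj c x ((injective_iff_map_eq_zero _).1 (field_field_inj χ) _ hx)
  exact regular_DR' b (mem_nonZeroDivisors_of_ne_zero hb) x h

end Pool.Agent.P.MP_824f38_ag.V
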