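import Pool.Agent.P.MP_824f38_ag.V.BCCh

set_option linter.unusedVariables false
set_option linter.unusedSectionVars false

namespace Pool.Agent.P.MP_824f38_ag.V

theorem Frob_lift {P A T C : Type} [CommRing P] [CommRing A] [CommRing T] [CommRing C]
    [Algebra P A] [Algebra.FormallySmooth P A] (π : T →+* C) (hπ : Function.Surjective π)
    (h2 : ∀ x y, π x = 0 → π y = 0 → x * y = 0) (u : P →+* T) (ψ : A →+* C)
    (h : ∀ c, ψ (algebraMap P A c) = π (u c)) :
    ∃ φ : A →+* T, (∀ a, π (φ a) = ψ a) ∧ ∀ c, φ (algebraMap P A c) = u c := by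
  let _ := u.toAlgebra
  let _ := (π.comp u).toAlgebra
  let f : A →ₐ[P] C := { ψ with commutes' := h }
  let g : T →ₐ[P] C := { π with commutes' := fun _ => rfl }
  have hn : IsNilpotent (RingHom.ker (g : T →+* C)) := ⟨2, by
    rw [sq, Ideal.zero_eq_bot, eq_bot_iff, Ideal.mul_le]
    exact fun x hx y hy => h2 x y hx hy⟩
  exact ⟨Algebra.FormallySmooth.liftOfSurjective f g hπ hn,
    fun a => Algebra.FormallySmooth.liftOfSurjective_apply f g hπ hn a,
    (Algebra.FormallySmooth.liftOfSurjective f g hπ hn).commutes⟩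

theorem Frob_unit {T C : Type} [CommRing T] [CommRing C] (π : T →+* C)
    (hπ : Function.Surjective π) (h2 : ∀ x y, π x = 0 → π y = 0 → x * y = 0) {t : T}
    (ht : IsUnit (π t)) : IsUnit t := by
  obtain ⟨w, hw⟩ := ht.exists_right_inv
  obtain ⟨t', rfl⟩ := hπ w
  have h0 : π (t * t' - 1) = 0 := by rw [map_sub, map_mul, hw, map_one, sub_self]
  have h1 : IsNilpotent (t * t' - 1) := ⟨2, by rw [sq]; exact h2 _ _ h0 h0⟩
  have h3 := h1.isUnit_add_one
  rw [sub_add_cancel] at h3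
  exact isUnit_of_mul_isUnit_left h3

variable {p : ℕ} [Fact p.Prime] [Algebra (ZMod (p ^ 2)) (ZMod p)] {m : ℕ} {V : Type}
  {X : Mod (ZMod (p ^ 2)) m V} {Y : Mod (ZMod p) m V} (b : BC X Y)

theorem Frob_ker {c : ZMod (p ^ 2)} (h : algebraMap (ZMod (p ^ 2)) (ZMod p) c = 0) :
    ∃ d, c = (p : ZMod (p ^ 2)) * d := by
  obtain ⟨n, rfl⟩ := ZMod.intCast_surjective c
  rw [map_intCast, ZMod.intCast_zmod_eq_zero_iff_dvd] at h
  obtain ⟨d, rfl⟩ := h
  exact ⟨d, by push_cast; rfl⟩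

theorem Frob_surj (I : Finset V) : Function.Surjective (b.ch I) :=
  (b.isBC_ch I).surjective (ZMod.ringHom_surjective _)

theorem Frob_sq (I : Finset V) (x y : X.Ch I) (hx : b.ch I x = 0) (hy : b.ch I y = 0) :
    x * y = 0 := by
  rw [(b.isBC_ch I).eq_zero_iff (ZMod.ringHom_surjective _)] at hx hy
  refine Submodule.smul_induction_on hx (fun c hc a _ => ?_)
    fun a a' h h' => by rw [add_mul, h, h', add_zero]
  refine Submodule.smul_induction_on hy (fun c' hc' a' _ => ?_)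
    fun a a' h h' => by rw [mul_add, h, h', add_zero]
  obtain ⟨d, rfl⟩ := Frob_ker hc
  obtain ⟨d', rfl⟩ := Frob_ker hc'
  have h0 : (p : ZMod (p ^ 2)) * p = 0 := by
    rw [← sq, ← Nat.cast_pow, ZMod.natCast_self]
  rw [smul_mul_smul_comm, mul_mul_mul_comm, h0, zero_mul, zero_smul]

/-- the map `a ↦ (b.ch I a) ^ p` -/
noncomputable def Frob_pow (I : Finset V) : X.Ch I →+* Y.Ch I :=
  (FiniteField.frobeniusAlgHom (ZMod p) (Y.Ch I)).toRingHom.comp (b.ch I)

theorem Frob_pow_apply (I : Finset V) (a : X.Ch I) : Frob_pow b I a = b.ch I a ^ p := by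
  change FiniteField.frobeniusAlgHom (ZMod p) (Y.Ch I) (b.ch I a) = _
  rw [FiniteField.coe_frobeniusAlgHom, ZMod.card]

theorem Frob_single (hs : X.Sm) (v : V) : ∃ φ : X.Ch {v} →+* X.Ch {v},
    (∀ a, b.ch {v} (φ a) = b.ch {v} a ^ p) ∧ ∀ c, φ (algebraMap (Pk (ZMod (p ^ 2)) m) _ c) =
      algebraMap (Pk (ZMod (p ^ 2)) m) _ (MvPolynomial.expand p c) := by
  have := hs {v} (Finset.singleton_nonempty v)
  obtain ⟨φ, h1, h2⟩ := Frob_lift (P := Pk (ZMod (p ^ 2)) m) (b.ch {v}) (Frob_surj b _)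
    (Frob_sq b _) ((algebraMap _ (X.Ch {v})).comp (MvPolynomial.expand p).toRingHom)
    (Frob_pow b {v}) fun c => by
      change _ = b.ch {v} (algebraMap _ _ (MvPolynomial.expand p c))
      rw [Frob_pow_apply, b.ch_base, b.ch_base, MvPolynomial.map_expand, MvPolynomial.expand_zmod,
        map_pow]
  exact ⟨φ, fun a => (h1 a).trans (Frob_pow_apply b _ a), h2⟩

include b in
theorem exists_frob (hs : X.Sm) : ∃ φ : ∀ (I : Finset V) (v : V), v ∈ I → (X.Ch I →+* X.Ch I),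
    (∀ I v h a, b.ch I (φ I v h a) = b.ch I a ^ p) ∧
    (∀ I v h c, φ I v h (algebraMap (Pk (ZMod (p ^ 2)) m) _ c) =
      algebraMap (Pk (ZMod (p ^ 2)) m) _ (MvPolynomial.expand p c)) ∧
    ∀ I J (hIJ : I ⊆ J) v h a, X.rs I J hIJ (φ I v h a) = φ J v (hIJ h) (X.rs I J hIJ a) := by
  choose φ₀ h1 h2 using Frob_single b hs
  let χ : ∀ (I : Finset V) (v : V), v ∈ I → (X.S →+* X.Ch I) := fun I v h =>
    ((X.rs {v} I (Finset.singleton_subset_iff.2 h)).toRingHom.comp (φ₀ v)).comp (algebraMap _ _)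
  have hχ : ∀ I v h s, χ I v h s =
      X.rs {v} I (Finset.singleton_subset_iff.2 h) (φ₀ v (algebraMap _ _ s)) := fun _ _ _ _ => rfl
  have h3 : ∀ I v h s, b.ch I (χ I v h s) = b.ch I (algebraMap _ _ s) ^ p := fun I v h s => by
    rw [hχ I v h, b.ch_rs, h1, map_pow, ← b.ch_rs, AlgHom.commutes]
  have hu : ∀ I v h, IsUnit (χ I v h (X.gI I)) := fun I v h =>
    Frob_unit _ (Frob_surj b I) (Frob_sq b I)
      (h3 I v h _ ▸ ((X.isUnit_gI (Finset.Subset.refl I)).map (b.ch I)).pow p)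
  let φ : ∀ (I : Finset V) (v : V), v ∈ I → (X.Ch I →+* X.Ch I) := fun I v h =>
    IsLocalization.Away.lift (X.gI I) (hu I v h)
  have hφ : ∀ I v h s, φ I v h (algebraMap _ _ s) = χ I v h s := fun I v h s =>
    IsLocalization.Away.lift_eq _ (hu I v h) s
  refine ⟨φ, fun I v h a => ?_, fun I v h c => ?_, fun I J hIJ v h a => ?_⟩
  · rw [← Frob_pow_apply]
    exact DFunLike.congr_fun (X.ch_ext (f := (b.ch I).comp (φ I v h)) (f' := Frob_pow b I)
      fun s => by rw [RingHom.comp_apply, hφ I v h, h3 I v h, Frob_pow_apply]) a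
  · rw [IsScalarTower.algebraMap_apply _ X.S, hφ I v h, hχ I v h,
      ← IsScalarTower.algebraMap_apply, h2, IsScalarTower.algebraMap_apply _ X.S,
      AlgHom.commutes, ← IsScalarTower.algebraMap_apply]
  · refine DFunLike.congr_fun (X.ch_ext (f := (X.rs I J hIJ).toRingHom.comp (φ I v h))
      (f' := (φ J v (hIJ h)).comp (X.rs I J hIJ).toRingHom) fun s => ?_) a
    change X.rs I J hIJ (φ I v h (algebraMap _ _ s)) =
      φ J v (hIJ h) (X.rs I J hIJ (algebraMap _ _ s))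
    rw [AlgHom.commutes, hφ I v h, hφ J v (hIJ h), hχ I v h, hχ J v (hIJ h), X.rs_rs]

end Pool.Agent.P.MP_824f38_ag.V
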