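import Pool.Agent.P.MP_824f38_ag.V.Defs

set_option linter.unusedVariables false
set_option linter.unusedSectionVars false

namespace Pool.Agent.P.MP_824f38_ag.V

namespace Mod

variable {k : Type} [CommRing k] {m : ℕ} {V : Type} (X : Mod k m V)

/-- a finite family of homogeneous generators -/
structure IsGens {n : ℕ} (y : Fin n → X.S) (d : Fin n → Dg m) : Prop where
  mem : ∀ i, y i ∈ X.H (d i)
  top : Algebra.adjoin k (Set.range y) = ⊤

/- take the homogeneous components (`IsCo.exists_sum`) of a finite generating set -/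
theorem exists_gens [Algebra.FiniteType k X.S] :
    ∃ (n : ℕ) (y : Fin n → X.S) (d : Fin n → Dg m), X.IsGens y d := by
  classical
  obtain ⟨s, hs⟩ := Algebra.FiniteType.out (R := k) (A := X.S)
  choose T hT using X.co.exists_sum
  let U : Finset (X.S × Dg m) := s ×ˢ s.biUnion T
  let e := U.equivFin.symm
  refine ⟨_, fun i => pr X.ρ (e i).1.2 (e i).1.1, fun i => (e i).1.2,
    fun i => X.co.pr_mem _ _, ?_⟩
  rw [eq_top_iff, ← hs]
  refine Algebra.adjoin_le fun x hx => ?_
  rw [← hT x (s.biUnion T) (Finset.subset_biUnion_of_mem T hx)]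
  refine Subalgebra.sum_mem _ fun l hl => Algebra.subset_adjoin ?_
  exact ⟨e.symm ⟨(x, l), Finset.mem_product.2 ⟨hx, hl⟩⟩, by simp⟩

variable {X}

theorem IsGens.mon_mem {n : ℕ} {y : Fin n → X.S} {d : Fin n → Dg m} (h : X.IsGens y d)
    (e : Fin n → ℕ) : ∏ i, y i ^ e i ∈ X.H (∑ i, e i • d i) :=
  Hg_prod Finset.univ fun i _ => Hg_pow (h.mem i) (e i)

/- every element is in the span of all monomials; apply `pr X.ρ l` (it is `k`-linear) -/
theorem IsGens.mem_span {n : ℕ} {y : Fin n → X.S} {d : Fin n → Dg m} (h : X.IsGens y d)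
    {l : Dg m} {s : X.S} (hs : s ∈ X.H l) :
    s ∈ Submodule.span k {x | ∃ e : Fin n → ℕ, ∑ i, e i • d i = l ∧ x = ∏ i, y i ^ e i} := by
  have h1 : ∀ x : X.S,
      x ∈ Submodule.span k {x | ∃ e : Fin n → ℕ, x = ∏ i, y i ^ e i} := by
    intro x
    have h2 : x ∈ Subalgebra.toSubmodule (Algebra.adjoin k (Set.range y)) := by
      rw [h.top]; trivial
    rw [Algebra.adjoin_eq_span] at h2
    refine Submodule.span_mono (fun z hz => ?_) h2
    obtain ⟨e, he⟩ := (Submonoid.mem_closure_range_iff_of_fintype).1 hz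
    exact ⟨e, he⟩
  rw [← pr_of_mem hs]
  clear hs
  induction h1 s using Submodule.span_induction with
  | mem x hx =>
    obtain ⟨e, rfl⟩ := hx
    by_cases he : ∑ i, e i • d i = l
    · rw [← he, pr_of_mem (h.mon_mem e)]
      exact Submodule.subset_span ⟨e, rfl, rfl⟩
    · rw [pr_of_ne (h.mon_mem e) he]
      exact zero_mem _
  | zero => rw [map_zero]; exact zero_mem _
  | add a b _ _ ha hb => rw [map_add]; exact add_mem ha hb
  | smul c a _ ha =>
    have := pr_mul_left (X.hk c) l a
    rw [zero_add] at this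
    rw [Algebra.smul_def, this, ← Algebra.smul_def]
    exact Submodule.smul_mem _ c ha

end Mod

/- Dickson's lemma: a subset of `ι → ℕ` has finitely many minimal elements
(`Pi.isPWO`, `Set.PartiallyWellOrderedOn`, `IsAntichain.finite_of_partiallyWellOrderedOn`,
or `WellQuasiOrderedLE`, see `AddSubmonoid.fg_of_subtractive`). -/
theorem dickson {ι : Type} [Finite ι] (E : Set (ι → ℕ)) :
    ∃ s : Finset (ι → ℕ), (∀ x ∈ s, x ∈ E) ∧ ∀ y ∈ E, ∃ x ∈ s, x ≤ y := by
  have hpwo := Set.isPWO_of_wellQuasiOrderedLE E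
  have hfin := (setOfPred_minimal_antichain (· ∈ E)).finite_of_partiallyWellOrderedOn
    (hpwo.mono (setOfPred_minimal_subset E))
  refine ⟨hfin.toFinset, fun x hx => (hfin.mem_toFinset.1 hx).prop, fun y hy => ?_⟩
  obtain ⟨z, hz, hz'⟩ := hpwo.exists_le_minimal hy
  exact ⟨z, hfin.mem_toFinset.2 hz', hz⟩

namespace Mod

variable {k : Type} [CommRing k] {m : ℕ} {V : Type} (X : Mod k m V)

/- the monomials of degree zero with minimal non-zero exponent generate (induction on the total
degree of the exponent) -/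
theorem finiteType_S0 [Algebra.FiniteType k X.S] : Algebra.FiniteType k X.S0 := by
  classical
  obtain ⟨n, y, d, h⟩ := X.exists_gens
  let P : AddSubmonoid (Fin n → ℕ) :=
    { carrier := {e | ∑ i, e i • d i = 0}
      zero_mem' := by simp
      add_mem' := fun {a b} ha hb => by
        simp only [Set.mem_ofPred_eq] at ha hb ⊢
        simp only [Pi.add_apply, add_smul, Finset.sum_add_distrib, ha, hb, add_zero] }
  obtain ⟨s, hs⟩ : P.FG := AddSubmonoid.fg_of_subtractive fun a ha b hb => by
    change ∑ i, a i • d i = 0 at ha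
    change ∑ i, (a + b) i • d i = 0 at hb
    change ∑ i, b i • d i = 0
    simpa only [Pi.add_apply, add_smul, Finset.sum_add_distrib, ha, zero_add] using hb
  rw [← Subalgebra.fg_iff_finiteType]
  refine ⟨s.image fun e => ∏ i, y i ^ e i, le_antisymm (Algebra.adjoin_le ?_) fun x hx => ?_⟩
  · intro x hx
    obtain ⟨e, he, rfl⟩ := Finset.mem_image.1 hx
    have he' : e ∈ P := hs ▸ AddSubmonoid.subset_closure he
    exact Hg_cast (h.mon_mem e) he'
  · refine (Subalgebra.mem_toSubmodule _).1 (Submodule.span_le.2 ?_ (h.mem_span hx))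
    rintro _ ⟨e, he, rfl⟩
    have he' : e ∈ AddSubmonoid.closure (s : Set (Fin n → ℕ)) := hs.symm ▸ he
    change _ ∈ Algebra.adjoin k _
    clear he
    induction he' using AddSubmonoid.closure_induction with
    | mem e he => exact Algebra.subset_adjoin (Finset.mem_image_of_mem _ he)
    | zero => simp
    | add a b _ _ ha hb =>
      simp only [Pi.add_apply, pow_add, Finset.prod_mul_distrib]
      exact Subalgebra.mul_mem _ ha hb

/- the monomials of degree `l` with minimal exponent generate over `X.S0` -/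
theorem H_fg [Algebra.FiniteType k X.S] (l : Dg m) : ∃ (n : ℕ) (t : Fin n → X.S),
    (∀ j, t j ∈ X.H l) ∧ ∀ s ∈ X.H l, ∃ a : Fin n → X.S, (∀ j, a j ∈ X.H 0) ∧
      s = ∑ j, a j * t j := by
  obtain ⟨n, y, d, h⟩ := X.exists_gens
  obtain ⟨s, hs, hs'⟩ := dickson {e : Fin n → ℕ | ∑ i, e i • d i = l}
  let e := s.equivFin.symm
  refine ⟨_, fun j => ∏ i, y i ^ (e j).1 i, fun j => Hg_cast (h.mon_mem _) (hs _ (e j).2),
    fun x hx => ?_⟩
  have h1 := h.mem_span hx
  clear hx
  induction h1 using Submodule.span_induction with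
  | mem x hx =>
    obtain ⟨a, ha, rfl⟩ := hx
    obtain ⟨b, hb, hba⟩ := hs' a ha
    obtain ⟨c, rfl⟩ := exists_add_of_le hba
    have hb' : ∑ i, b i • d i = l := hs b hb
    have hc : ∑ i, c i • d i = 0 := by
      simpa only [Pi.add_apply, add_smul, Finset.sum_add_distrib, hb', add_eq_left] using ha
    refine ⟨Pi.single (e.symm ⟨b, hb⟩) (∏ i, y i ^ c i), fun j => ?_, ?_⟩
    · by_cases hj : j = e.symm ⟨b, hb⟩
      · rw [hj, Pi.single_eq_same]
        exact Hg_cast (h.mon_mem c) hc
      · rw [Pi.single_eq_of_ne hj]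
        exact zero_mem _
    · rw [Finset.sum_eq_single (e.symm ⟨b, hb⟩) (fun j _ hj => by
        rw [Pi.single_eq_of_ne hj, zero_mul]) (by simp)]
      simp only [Pi.single_eq_same, Equiv.apply_symm_apply, Pi.add_apply, pow_add,
        Finset.prod_mul_distrib]
      exact mul_comm _ _
  | zero => exact ⟨0, fun _ => zero_mem _, by simp⟩
  | add a b _ _ ha hb =>
    obtain ⟨u, hu, rfl⟩ := ha
    obtain ⟨v, hv, rfl⟩ := hb
    exact ⟨u + v, fun j => add_mem (hu j) (hv j), by simp [add_mul, Finset.sum_add_distrib]⟩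
  | smul c a _ ha =>
    obtain ⟨u, hu, rfl⟩ := ha
    refine ⟨fun j => algebraMap k X.S c * u j,
      fun j => Hg_cast (Hg_mul (X.hk c) (hu j)) (add_zero 0), ?_⟩
    simp only [Algebra.smul_def, Finset.mul_sum, mul_assoc]

end Mod

end Pool.Agent.P.MP_824f38_ag.V
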