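import Pool.Agent.P.MP_824f38_ag.V.DRk

/-! Gradings as coactions `T → T[M]`; extension to localisations and to forms. -/

set_option linter.style.haveILetI false
set_option linter.unusedSimpArgs false
set_option linter.unusedVariables false

namespace Pool.Agent.P.MP_824f38_ag.V

open AddMonoidAlgebra

section
variable {T T' M M' : Type} [Ring T] [Ring T'] [AddCommGroup M] [AddCommGroup M']

/-- the homogeneous elements of degree `l` -/
def Hg (ρ : T →+* AddMonoidAlgebra T M) (l : M) : AddSubgroup T where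
  carrier := {x | ρ x = single l x}
  add_mem' := fun {a b} ha hb => by
    simp only [Set.mem_ofPred_eq] at *
    rw [map_add, ha, hb, single_add]
  zero_mem' := by simp
  neg_mem' := fun {a} ha => by
    simp only [Set.mem_ofPred_eq] at *
    rw [map_neg, ha]
    exact (map_neg (singleAddHom l) a).symm

/-- the component of degree `l` -/
noncomputable def pr (ρ : T →+* AddMonoidAlgebra T M) (l : M) : T →+ T :=
  AddMonoidHom.mk' (fun x => (ρ x).coeff l) (fun x y => by simp)

/-- every element is a sum of homogeneous elements -/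
def IsCo (ρ : T →+* AddMonoidAlgebra T M) : Prop :=
  ∀ x, x ∈ AddSubgroup.closure {y | ∃ l, y ∈ Hg ρ l}

variable {ρ : T →+* AddMonoidAlgebra T M} {ρ' : T' →+* AddMonoidAlgebra T' M'}

theorem mem_Hg {l : M} {x : T} : x ∈ Hg ρ l ↔ ρ x = single l x := Iff.rfl
theorem pr_apply (l : M) (x : T) : pr ρ l x = (ρ x).coeff l := rfl

theorem Hg_one : (1 : T) ∈ Hg ρ 0 := by rw [mem_Hg, map_one]; rfl

theorem Hg_mul {l l' : M} {x y : T} (hx : x ∈ Hg ρ l) (hy : y ∈ Hg ρ l') :
    x * y ∈ Hg ρ (l + l') := by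
  rw [mem_Hg] at *; rw [map_mul, hx, hy, single_mul_single]

theorem Hg_pow {l : M} {x : T} (hx : x ∈ Hg ρ l) (n : ℕ) : x ^ n ∈ Hg ρ (n • l) := by
  rw [mem_Hg] at *; rw [map_pow, hx, single_pow]

theorem Hg_natCast (n : ℕ) : (n : T) ∈ Hg ρ 0 := by
  simpa using nsmul_mem (Hg_one (ρ := ρ)) n

theorem Hg_cast {l l' : M} {x : T} (hx : x ∈ Hg ρ l) (e : l = l') : x ∈ Hg ρ l' := e ▸ hx

theorem pr_of_mem {l : M} {x : T} (hx : x ∈ Hg ρ l) : pr ρ l x = x := by
  rw [pr_apply, mem_Hg.1 hx]; simp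

theorem pr_of_ne {l l' : M} {x : T} (hx : x ∈ Hg ρ l) (h : l ≠ l') : pr ρ l' x = 0 := by
  rw [pr_apply, mem_Hg.1 hx]; simp [Finsupp.single_eq_of_ne h.symm]

theorem pr_mul_left {m : M} {h : T} (hh : h ∈ Hg ρ m) (l : M) (x : T) :
    pr ρ (m + l) (h * x) = h * pr ρ l x := by
  rw [pr_apply, pr_apply, map_mul, mem_Hg.1 hh, coeff_single_mul_add]

theorem pr_mul_right {m : M} {h : T} (hh : h ∈ Hg ρ m) (l : M) (x : T) :
    pr ρ (l + m) (x * h) = pr ρ l x * h := by
  rw [pr_apply, pr_apply, map_mul, mem_Hg.1 hh, coeff_mul_single_add]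

theorem IsCo.induction (co : IsCo ρ) {P : T → Prop} (h0 : ∀ l, ∀ x ∈ Hg ρ l, P x)
    (hadd : ∀ x y, P x → P y → P (x + y)) (x : T) : P x := by
  suffices h : P x ∧ P (-x) from h.1
  induction co x using AddSubgroup.closure_induction with
  | mem y hy => obtain ⟨l, hy⟩ := hy; exact ⟨h0 l y hy, h0 l _ (neg_mem hy)⟩
  | zero => exact ⟨h0 0 0 (zero_mem _), h0 0 _ (neg_mem (zero_mem _))⟩
  | add a b _ _ ha hb => exact ⟨hadd _ _ ha.1 hb.1, by rw [neg_add]; exact hadd _ _ ha.2 hb.2⟩
  | neg a _ ha => exact ⟨ha.2, by rw [neg_neg]; exact ha.1⟩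

theorem IsCo.of_mem {l : M} {x : T} (hx : x ∈ Hg ρ l) :
    x ∈ AddSubgroup.closure {y | ∃ l, y ∈ Hg ρ l} := AddSubgroup.subset_closure ⟨l, hx⟩

theorem IsCo.pr_mem (co : IsCo ρ) (l : M) (x : T) : pr ρ l x ∈ Hg ρ l := by
  induction x using co.induction with
  | h0 m x hx =>
    by_cases h : m = l
    · subst h; rwa [pr_of_mem hx]
    · rw [pr_of_ne hx h]; exact zero_mem _
  | hadd x y hx hy => rw [map_add]; exact add_mem hx hy

theorem IsCo.mem_iff (co : IsCo ρ) {l : M} {x : T} : x ∈ Hg ρ l ↔ pr ρ l x = x :=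
  ⟨pr_of_mem, fun h => h ▸ co.pr_mem l x⟩

theorem IsCo.exists_sum (co : IsCo ρ) (x : T) :
    ∃ s : Finset M, ∀ t : Finset M, s ⊆ t → ∑ l ∈ t, pr ρ l x = x := by
  classical
  induction x using co.induction with
  | h0 m x hx =>
    refine ⟨{m}, fun t ht => ?_⟩
    rw [Finset.sum_eq_single m (fun q _ hq => pr_of_ne hx hq.symm)
      (fun h => absurd (ht (Finset.mem_singleton_self m)) h), pr_of_mem hx]
  | hadd x y hx hy =>
    obtain ⟨s, hs⟩ := hx
    obtain ⟨s', hs'⟩ := hy
    refine ⟨s ∪ s', fun t ht => ?_⟩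
    simp only [map_add, Finset.sum_add_distrib]
    rw [hs t (Finset.subset_union_left.trans ht), hs' t (Finset.subset_union_right.trans ht)]

theorem IsCo.pr_comm (co : IsCo ρ) (f : T →+ T') (s : M → M') (hs : Function.Injective s)
    (hf : ∀ l, ∀ x ∈ Hg ρ l, f x ∈ Hg ρ' (s l)) (l : M) (x : T) :
    pr ρ' (s l) (f x) = f (pr ρ l x) := by
  induction x using co.induction with
  | h0 q x hx =>
    by_cases h : q = l
    · subst h; rw [pr_of_mem hx, pr_of_mem (hf _ _ hx)]
    · rw [pr_of_ne hx h, pr_of_ne (hf _ _ hx) (fun e => h (hs e)), map_zero]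
  | hadd x y hx hy => simp only [map_add, hx, hy]

theorem Hg_of_mul_unit {m l : M} {u v x : T} (hv : v ∈ Hg ρ (-m)) (h : v * u = 1)
    (hx : u * x ∈ Hg ρ (m + l)) : x ∈ Hg ρ l := by
  have := Hg_mul hv hx
  rwa [← mul_assoc, h, one_mul, neg_add_cancel_left] at this

end

section
variable {S B M : Type} [CommRing S] [CommRing B] [Algebra S B] [AddCommGroup M]
  {ρ : S →+* AddMonoidAlgebra S M}

theorem Hg_prod {ι : Type} (s : Finset ι) {x : ι → S} {l : ι → M} (h : ∀ i ∈ s, x i ∈ Hg ρ (l i)) :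
    ∏ i ∈ s, x i ∈ Hg ρ (∑ i ∈ s, l i) := by
  classical
  induction s using Finset.induction_on with
  | empty => simpa using Hg_one
  | insert a s ha ih =>
    rw [Finset.prod_insert ha, Finset.sum_insert ha]
    exact Hg_mul (h a (Finset.mem_insert_self _ _))
      (ih fun i hi => h i (Finset.mem_insert_of_mem hi))

theorem Hg_inv {m : M} {u v : S} (hu : u ∈ Hg ρ m) (h : v * u = 1) : v ∈ Hg ρ (-m) := by
  rw [mem_Hg] at *
  have h1 : ρ v * single m u = 1 := by rw [← hu, ← map_mul, h, map_one]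
  have h2 : single m u * single (-m) v = (1 : AddMonoidAlgebra S M) := by
    rw [single_mul_single, add_neg_cancel, mul_comm, h]; rfl
  rw [← mul_one (ρ v), ← h2, ← mul_assoc, h1, one_mul]

theorem exists_coLoc (g : S) [IsLocalization.Away g B] {χ : M} (hg : g ∈ Hg ρ χ) :
    ∃ ρ' : B →+* AddMonoidAlgebra B M,
      ∀ s, ρ' (algebraMap S B s) = mapRingHom M (algebraMap S B) (ρ s) := by
  have hu : IsUnit (((mapRingHom M (algebraMap S B)).comp ρ) g) := by
    obtain ⟨v, hv⟩ := (IsLocalization.Away.algebraMap_isUnit (S := B) g).exists_right_inv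
    refine IsUnit.of_mul_eq_one (single (-χ) v) ?_
    rw [RingHom.comp_apply, mem_Hg.1 hg, mapRingHom_single, single_mul_single, add_neg_cancel, hv]
    rfl
  exact ⟨IsLocalization.Away.lift g hu, fun s => IsLocalization.Away.lift_eq g hu s⟩

variable {ρ' : B →+* AddMonoidAlgebra B M}
  (hρ : ∀ s, ρ' (algebraMap S B s) = mapRingHom M (algebraMap S B) (ρ s))
include hρ

theorem Hg_algebraMap {l : M} {s : S} (hs : s ∈ Hg ρ l) : algebraMap S B s ∈ Hg ρ' l := by
  rw [mem_Hg] at *; rw [hρ, hs, mapRingHom_single]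

theorem pr_algebraMap (l : M) (s : S) : pr ρ' l (algebraMap S B s) = algebraMap S B (pr ρ l s) := by
  rw [pr_apply, pr_apply, hρ, coeff_mapRingHom]

theorem isCo_loc (co : IsCo ρ) (g : S) [IsLocalization.Away g B] {χ : M} (hg : g ∈ Hg ρ χ) :
    IsCo ρ' := by
  intro b
  obtain ⟨e, s, hs⟩ := IsLocalization.Away.surj g b
  obtain ⟨v, hv⟩ := ((IsLocalization.Away.algebraMap_isUnit (S := B) g).pow e).exists_left_inv
  have hv' := Hg_inv (Hg_pow (Hg_algebraMap hρ hg) e) hv
  have : b = v * algebraMap S B s := by rw [← hs, mul_comm b, ← mul_assoc, hv, one_mul]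
  rw [this]
  clear this hs
  induction s using co.induction with
  | h0 l s hs => exact IsCo.of_mem (Hg_mul hv' (Hg_algebraMap hρ hs))
  | hadd x y hx hy => rw [map_add, mul_add]; exact add_mem hx hy

theorem mem_Hg_loc (co : IsCo ρ) (g : S) [IsLocalization.Away g B] {χ : M} (hg : g ∈ Hg ρ χ)
    {l : M} {b : B} : b ∈ Hg ρ' l ↔
      ∃ (e : ℕ) (s : S), s ∈ Hg ρ (e • χ + l) ∧ algebraMap S B g ^ e * b = algebraMap S B s := by
  constructor
  · intro hb
    obtain ⟨e, s, hs⟩ := IsLocalization.Away.surj g b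
    refine ⟨e, pr ρ (e • χ + l) s, co.pr_mem _ _, ?_⟩
    rw [← pr_algebraMap hρ, ← hs, mul_comm b,
      pr_of_mem (Hg_mul (Hg_pow (Hg_algebraMap hρ hg) e) hb)]
  · rintro ⟨e, s, hs, h⟩
    obtain ⟨v, hv⟩ := ((IsLocalization.Away.algebraMap_isUnit (S := B) g).pow e).exists_left_inv
    exact Hg_of_mul_unit (Hg_inv (Hg_pow (Hg_algebraMap hρ hg) e) hv) hv
      (h ▸ Hg_algebraMap hρ hs)

end

section
variable {k A M : Type} [CommRing k] [CommRing A] [Algebra k A] [AddCommGroup M]
  {ρ : A →+* AddMonoidAlgebra A M}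

theorem exists_coDR (co : IsCo ρ) (hk : ∀ (c : k) l, dk k (pr ρ l (algebraMap k A c)) = 0) :
    ∃ F : DRk k A →+* AddMonoidAlgebra (DRk k A) M,
      ∀ l, ∀ a ∈ Hg ρ l, fn k a ∈ Hg F l ∧ dk k a ∈ Hg F l := by
  let φ : A →+* AddMonoidAlgebra (DRk k A) M := (mapRingHom M (fn k)).comp ρ
  let D : A →+ AddMonoidAlgebra (DRk k A) M :=
    AddMonoidHom.mk' (fun a => AddMonoidAlgebra.map (dkHom k) (ρ a))
      (fun a b => by rw [map_add, AddMonoidAlgebra.map_add])
  have hφ : ∀ l, ∀ a ∈ Hg ρ l, φ a = single l (fn k a) := fun l a ha => by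
    simp [φ, mem_Hg.1 ha]
  have hD : ∀ l, ∀ a ∈ Hg ρ l, D a = single l (dk k a) := fun l a ha => by
    simp [D, mem_Hg.1 ha]
  have hanti : ∀ a b, D a * D b + D b * D a = 0 := by
    intro a b
    induction a using co.induction with
    | hadd x y hx hy => rw [map_add, add_mul, mul_add, add_add_add_comm, hx, hy, add_zero]
    | h0 l a ha =>
      induction b using co.induction with
      | hadd x y hx hy => rw [map_add, add_mul, mul_add, add_add_add_comm, hx, hy, add_zero]
      | h0 l' b hb =>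
        rw [hD l a ha, hD l' b hb, single_mul_single, single_mul_single, add_comm l' l,
          ← single_add, dk_anti a b, neg_add_cancel, single_zero]
  obtain ⟨F, hF, hF'⟩ := exists_lift (k := k) φ D
    (fun a b => by
      induction a using co.induction with
      | hadd x y hx hy => rw [map_add, add_mul, mul_add, hx, hy]
      | h0 l a ha =>
        induction b using co.induction with
        | hadd x y hx hy => rw [map_add, add_mul, mul_add, hx, hy]
        | h0 l' b hb =>
          rw [hφ l a ha, hD l' b hb, single_mul_single, single_mul_single, add_comm l' l, fn_comm])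
    (fun a b => by
      induction a using co.induction with
      | hadd x y hx hy => simp only [map_add, add_mul, mul_add, hx, hy]; abel
      | h0 l a ha =>
        induction b using co.induction with
        | hadd x y hx hy => simp only [map_add, add_mul, mul_add, hx, hy]; abel
        | h0 l' b hb =>
          rw [hφ l a ha, hφ l' b hb, hD l a ha, hD l' b hb, hD _ _ (Hg_mul ha hb),
            single_mul_single, single_mul_single, add_comm l' l, ← single_add, dk_mul])
    (fun c => by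
      ext l
      simpa [D, pr_apply] using hk c l)
    (fun a => by
      induction a using co.induction with
      | hadd x y hx hy =>
        rw [map_add, add_mul, mul_add, mul_add, hx, hy, zero_add, add_zero, hanti]
      | h0 l a ha => rw [hD l a ha, single_mul_single, dk_sq, single_zero])
  exact ⟨F, fun l a ha => ⟨(hF a).trans (hφ l a ha), (hF' a).trans (hD l a ha)⟩⟩

variable {F : DRk k A →+* AddMonoidAlgebra (DRk k A) M}
  (hF : ∀ l, ∀ a ∈ Hg ρ l, fn k a ∈ Hg F l ∧ dk k a ∈ Hg F l)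
include hF

theorem isCo_DR (co : IsCo ρ) : IsCo F := by
  intro x
  induction x using DR_induction with
  | h0 a =>
    induction a using co.induction with
    | h0 l a ha => exact IsCo.of_mem (hF l a ha).1
    | hadd x y hx hy => rw [map_add]; exact add_mem hx hy
  | h1 a =>
    induction a using co.induction with
    | h0 l a ha => exact IsCo.of_mem (hF l a ha).2
    | hadd x y hx hy => rw [dk_add]; exact add_mem hx hy
  | hadd x y hx hy => exact add_mem hx hy
  | hmul x y hx hy =>
    induction hx using AddSubgroup.closure_induction with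
    | zero => rw [zero_mul]; exact zero_mem _
    | add a b _ _ ha hb => rw [add_mul]; exact add_mem ha hb
    | neg a _ ha => rw [neg_mul]; exact neg_mem ha
    | mem a ha =>
      induction hy using AddSubgroup.closure_induction with
      | zero => rw [mul_zero]; exact zero_mem _
      | add a b _ _ ha hb => rw [mul_add]; exact add_mem ha hb
      | neg a _ ha => rw [mul_neg]; exact neg_mem ha
      | mem b hb =>
        obtain ⟨l, ha⟩ := ha
        obtain ⟨l', hb⟩ := hb
        exact IsCo.of_mem (Hg_mul ha hb)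

/-- induction principle for homogeneous forms of form degree `p` -/
theorem HF_induction (co : IsCo ρ) {P : ℕ → M → DRk k A → Prop}
    (h0 : ∀ l, ∀ a ∈ Hg ρ l, P 0 l (fn k a)) (hz : ∀ p l, P p l 0)
    (hadd : ∀ p l x y, P p l x → P p l y → P p l (x + y))
    (hs : ∀ p l l' l'' a b x, a ∈ Hg ρ l → b ∈ Hg ρ l' → x ∈ Fk k A p → x ∈ Hg F l'' →
      P p l'' x → P (p + 1) (l + l' + l'') (fn k a * dk k b * x))
    {p : ℕ} {l : M} {x : DRk k A} (hx : x ∈ Fk k A p) (hl : x ∈ Hg F l) : P p l x := by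
  have key : ∀ l, pr F l x ∈ Fk k A p ∧ P p l (pr F l x) := by
    clear hl
    induction hx using Fk_induction with
    | h0 a =>
      intro l
      have : pr F l (fn k a) = fn k (pr ρ l a) :=
        co.pr_comm (fn k).toAddMonoidHom id Function.injective_id (fun l a ha => (hF l a ha).1) l a
      rw [this]
      exact ⟨fn_mem _, h0 _ _ (co.pr_mem l a)⟩
    | hz p => intro l; rw [map_zero]; exact ⟨zero_mem _, hz _ _⟩
    | hadd p x y _ _ h1 h2 =>
      intro l; rw [map_add]; exact ⟨add_mem (h1 l).1 (h2 l).1, hadd _ _ _ _ (h1 l).2 (h2 l).2⟩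
    | hs p a b x hx h =>
      intro l
      induction a using co.induction with
      | hadd a a' h1 h2 =>
        rw [map_add, add_mul, add_mul, map_add]
        exact ⟨add_mem h1.1 h2.1, hadd _ _ _ _ h1.2 h2.2⟩
      | h0 m a ha =>
        induction b using co.induction with
        | hadd b b' h1 h2 =>
          rw [dk_add, mul_add, add_mul, map_add]
          exact ⟨add_mem h1.1 h2.1, hadd _ _ _ _ h1.2 h2.2⟩
        | h0 m' b hb =>
          obtain ⟨l'', rfl⟩ : ∃ l'', l = m + m' + l'' := ⟨l - (m + m'), by abel⟩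
          rw [pr_mul_left (Hg_mul (hF m a ha).1 (hF m' b hb).2)]
          exact ⟨fn_dk_mul_mem _ _ (h l'').1,
            hs _ _ _ _ _ _ _ ha hb (h l'').1 ((isCo_DR hF co).pr_mem _ _) (h l'').2⟩
  have := (key l).2
  rwa [pr_of_mem hl] at this

theorem pr_mem_Fk (co : IsCo ρ) {p : ℕ} {x : DRk k A} (hx : x ∈ Fk k A p) (l : M) :
    pr F l x ∈ Fk k A p := by
  induction hx using Fk_induction generalizing l with
  | h0 a =>
    have : pr F l (fn k a) = fn k (pr ρ l a) :=
      co.pr_comm (fn k).toAddMonoidHom id Function.injective_id (fun l a ha => (hF l a ha).1) l a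
    rw [this]
    exact fn_mem _
  | hz p => rw [map_zero]; exact zero_mem _
  | hadd p x y _ _ h1 h2 => rw [map_add]; exact add_mem (h1 l) (h2 l)
  | hs p a b x hx h =>
    induction a using co.induction with
    | hadd a a' h1 h2 => rw [map_add, add_mul, add_mul, map_add]; exact add_mem h1 h2
    | h0 m a ha =>
      induction b using co.induction with
      | hadd b b' h1 h2 => rw [dk_add, mul_add, add_mul, map_add]; exact add_mem h1 h2
      | h0 m' b hb =>
        obtain ⟨l'', rfl⟩ : ∃ l'', l = m + m' + l'' := ⟨l - (m + m'), by abel⟩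
        rw [pr_mul_left (Hg_mul (hF m a ha).1 (hF m' b hb).2)]
        exact fn_dk_mul_mem _ _ (h l'')

theorem ep_pr (co : IsCo ρ) (p : ℕ) (l : M) (x : DRk k A) : ep p (pr F l x) = pr F l (ep p x) :=
  ep_comm (pr F l) id Function.injective_id (fun _ _ hx => pr_mem_Fk hF co hx l) p x

theorem ep_mem_Hg (co : IsCo ρ) (p : ℕ) {l : M} {x : DRk k A} (hx : x ∈ Hg F l) :
    ep p x ∈ Hg F l := by
  rw [(isCo_DR hF co).mem_iff, ← ep_pr hF co, pr_of_mem hx]

/-- an additive map that preserves homogeneous forms of each form degree preserves homogeneous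
forms -/
theorem Hg_of_Fk (co : IsCo ρ) {N : Type} [AddCommGroup N] (G : AddSubgroup N) (f : DRk k A →+ N)
    {l : M} (hf : ∀ p, ∀ x ∈ Fk k A p, x ∈ Hg F l → f x ∈ G) {x : DRk k A} (hx : x ∈ Hg F l) :
    f x ∈ G := by
  obtain ⟨N, hN⟩ := exists_sum_ep x
  rw [← hN N le_rfl, map_sum]
  exact sum_mem fun p _ => hf p _ (ep_mem p x) (ep_mem_Hg hF co p hx)

theorem inv_mem_Hg (co : IsCo ρ) {l : M} {x : DRk k A} (hx : x ∈ Hg F l) : inv x ∈ Hg F l := by
  refine Hg_of_Fk hF co (Hg F l) (inv (k := k) (A := A)).toRingHom.toAddMonoidHom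
    (fun p x h1 h2 => ?_) hx
  change inv x ∈ _
  rw [inv_of_mem h1]
  rcases neg_one_pow_eq_or (DRk k A) p with h | h <;> simp [h, h2]

theorem dR_mem_Hg (co : IsCo ρ) {l : M} {x : DRk k A} (hx : x ∈ Hg F l) : dR x ∈ Hg F l := by
  refine Hg_of_Fk hF co (Hg F l) dR (fun p x h1 h2 => ?_) hx
  refine HF_induction hF co (P := fun _ l x => dR x ∈ Hg F l) (fun l a ha => ?_)
    (fun _ _ => by simp) (fun _ _ x y h1 h2 => by rw [map_add]; exact add_mem h1 h2)
    (fun p l l' l'' a b x ha hb _ hx h => ?_) h1 h2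
  · simpa using (hF l a ha).2
  · simp only [dR_mul, dR_fn, dR_dk, mul_zero, add_zero, map_mul, inv_fn, inv_dk, neg_mul, mul_neg]
    exact add_mem (Hg_mul (Hg_mul (hF l a ha).2 (hF l' b hb).2) hx)
      (neg_mem (Hg_mul (Hg_mul (hF l a ha).1 (hF l' b hb).2) h))

theorem pr_dR (co : IsCo ρ) (l : M) (x : DRk k A) : pr F l (dR x) = dR (pr F l x) :=
  (isCo_DR hF co).pr_comm dR id Function.injective_id (fun _ _ hx => dR_mem_Hg hF co hx) l x

theorem pullk_mem_Hg (co : IsCo ρ) {k' A' M' : Type} [CommRing k'] [CommRing A'] [Algebra k' A']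
    [AddCommGroup M'] {ρ' : A' →+* AddMonoidAlgebra A' M'}
    {F' : DRk k' A' →+* AddMonoidAlgebra (DRk k' A') M'}
    (hF' : ∀ l, ∀ a ∈ Hg ρ' l, fn k' a ∈ Hg F' l ∧ dk k' a ∈ Hg F' l)
    (φ : A →+* A') (h : Compat k k' φ) (s : M →+ M')
    (hφ : ∀ l, ∀ a ∈ Hg ρ l, φ a ∈ Hg ρ' (s l)) {l : M} {x : DRk k A} (hx : x ∈ Hg F l) :
    pullk φ h x ∈ Hg F' (s l) := by
  refine Hg_of_Fk hF co (Hg F' (s l)) (pullk φ h).toAddMonoidHom (fun p x h1 h2 => ?_) hx
  change pullk φ h x ∈ _
  refine HF_induction hF co (P := fun _ l x => pullk φ h x ∈ Hg F' (s l)) (fun l a ha => ?_)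
    (fun _ _ => by simp) (fun _ _ x y h1 h2 => by rw [map_add]; exact add_mem h1 h2)
    (fun p l l' l'' a b x ha hb _ hx h => ?_) h1 h2
  · simpa using (hF' _ _ (hφ l a ha)).1
  · simp only [map_mul, pullk_fn, pullk_dk, map_add]
    exact Hg_mul (Hg_mul (hF' _ _ (hφ l a ha)).1 (hF' _ _ (hφ l' b hb)).2) h

end

end Pool.Agent.P.MP_824f38_ag.V
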