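import Pool.Agent.P.MP_824f38_ag.V.Defs

set_option linter.unusedVariables false
set_option linter.unusedSectionVars false

namespace Pool.Agent.P.MP_824f38_ag.V

open Polynomial in
theorem Hom_schur (h : ℤ[X]) (hd : 0 < h.natDegree) (b : ℕ) :
    ∃ p : ℕ, p.Prime ∧ b < p ∧ ∃ a : ℤ, (p : ℤ) ∣ h.eval a := by
  by_cases hc : h.eval 0 = 0
  · obtain ⟨p, hp, hpp⟩ := Nat.exists_infinite_primes (b + 1)
    exact ⟨p, hpp, hp, 0, by rw [hc]; exact dvd_zero _⟩
  set c := h.eval 0 with hcdef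
  set M : ℤ := (b.factorial : ℤ) with hM
  have hM0 : M ≠ 0 := by rw [hM]; exact_mod_cast b.factorial_ne_zero
  have hne1 : h - C c ≠ 0 := by
    intro e
    have : h = C c := sub_eq_zero.1 e
    rw [this, natDegree_C] at hd
    exact lt_irrefl _ hd
  have hne2 : h + C c ≠ 0 := by
    intro e
    have : h = C (-c) := by rw [C_neg]; exact eq_neg_of_add_eq_zero_left e
    rw [this, natDegree_C] at hd
    exact lt_irrefl _ hd
  have hne : (h - C c) * (h + C c) ≠ 0 := mul_ne_zero hne1 hne2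
  have hfin : {x : ℤ | IsRoot ((h - C c) * (h + C c)) x}.Finite := finite_setOfPred_isRoot hne
  have hinj : Function.Injective (fun x : ℤ => c * M * x) :=
    fun x y e => mul_left_cancel₀ (mul_ne_zero hc hM0) e
  obtain ⟨x, hx⟩ := (hfin.preimage hinj.injOn).infinite_compl.nonempty
  have hx' : ¬ IsRoot ((h - C c) * (h + C c)) (c * M * x) := hx
  rw [IsRoot.def, eval_mul, eval_sub, eval_add, eval_C, mul_eq_zero, not_or] at hx'
  obtain ⟨k, hk⟩ : c * M * x - 0 ∣ h.eval (c * M * x) - h.eval 0 := sub_dvd_eval_sub _ _ h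
  have e : h.eval (c * M * x) = c * (1 + M * (x * k)) := by
    rw [← hcdef] at hk
    linear_combination hk
  have hu : (1 + M * (x * k)).natAbs ≠ 1 := by
    intro e1
    rcases Int.natAbs_eq_iff.1 e1 with e2 | e2
    · apply hx'.1
      rw [e, e2]; simp
    · apply hx'.2
      rw [e, e2]; simp
  obtain ⟨p, hp, hpd⟩ := Nat.exists_prime_and_dvd hu
  have hpd' : (p : ℤ) ∣ 1 + M * (x * k) := Int.natCast_dvd.2 hpd
  refine ⟨p, hp, ?_, c * M * x, ?_⟩
  · by_contra hle
    have h1 : (p : ℤ) ∣ M := by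
      rw [hM]
      exact_mod_cast (hp.dvd_factorial.2 (not_lt.1 hle))
    have h2 : (p : ℤ) ∣ 1 := (dvd_add_left (h1.mul_right _)).1 hpd'
    have h3 : p ∣ 1 := by exact_mod_cast h2
    exact hp.one_lt.ne' (Nat.dvd_one.1 h3)
  · rw [e]; exact hpd'.mul_left c

theorem Hom_fin (L : Type) [Field L] [CharZero L] (i : Algebra ℚ L)
    (h : @Algebra.FiniteType ℚ L _ _ i) :
    @Module.Finite ℚ L _ _ (@Algebra.toModule ℚ L _ _ DivisionRing.toRatAlgebra) := by
  obtain rfl : i = DivisionRing.toRatAlgebra := Subsingleton.elim _ _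
  exact finite_of_finite_type_of_isJacobsonRing ℚ L

theorem Hom_field (A : Type) [CommRing A] [IsDomain A] [CharZero A]
    [Algebra.FiniteType ℤ A] (f : A) (hf : f ≠ 0) :
    ∃ (L : Type) (_ : Field L) (_ : CharZero L) (_ : Module.Finite ℚ L) (φ : A →+* L),
      φ f ≠ 0 := by
  classical
  let K := FractionRing A
  have hinj : Function.Injective (algebraMap A K) := IsFractionRing.injective A K
  have : CharZero K := charZero_of_injective_algebraMap hinj
  obtain ⟨s, hs⟩ := Algebra.FiniteType.out (R := ℤ) (A := A)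
  let t : Finset K := insert (algebraMap A K f)⁻¹ (s.image (algebraMap A K))
  let B : Subalgebra ℚ K := Algebra.adjoin ℚ (t : Set K)
  have hB : ∀ a : A, algebraMap A K a ∈ B := by
    intro a
    have ha : a ∈ Algebra.adjoin ℤ (s : Set A) := by rw [hs]; trivial
    induction ha using Algebra.adjoin_induction with
    | mem x hx =>
      exact Algebra.subset_adjoin (Finset.mem_coe.2
        (Finset.mem_insert_of_mem (Finset.mem_image_of_mem _ hx)))
    | algebraMap r =>
      rw [eq_intCast, map_intCast]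
      exact intCast_mem B r
    | add x y _ _ hx hy => rw [map_add]; exact B.add_mem hx hy
    | mul x y _ _ hx hy => rw [map_mul]; exact B.mul_mem hx hy
  have hfi : (algebraMap A K f)⁻¹ ∈ B :=
    Algebra.subset_adjoin (Finset.mem_coe.2 (Finset.mem_insert_self _ _))
  have : Algebra.FiniteType ℚ B :=
    (Subalgebra.fg_iff_finiteType B).1 (Subalgebra.fg_adjoin_finset t)
  obtain ⟨m, hm⟩ := Ideal.exists_maximal B
  let : Field (B ⧸ m) := Ideal.Quotient.field m
  have : CharZero (B ⧸ m) := algebraRat.charZero _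
  let g : A →+* B := (algebraMap A K).codRestrict B hB
  refine ⟨B ⧸ m, inferInstance, inferInstance,
    Hom_fin (B ⧸ m) (Ideal.instAlgebraQuotient ℚ m) (Algebra.FiniteType.quotient ℚ m), (Ideal.Quotient.mk m).comp g, ?_⟩
  · have h1 : g f * ⟨_, hfi⟩ = 1 := by
      apply Subtype.ext
      exact mul_inv_cancel₀ ((map_ne_zero_iff _ hinj).2 hf)
    intro h0
    have h2 := congrArg (Ideal.Quotient.mk m) h1
    rw [map_mul, map_one] at h2
    rw [RingHom.comp_apply] at h0
    rw [h0, zero_mul] at h2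
    exact zero_ne_one h2

open Polynomial in
theorem Hom_prim (L : Type) [Field L] [CharZero L] [Module.Finite ℚ L] :
    ∃ θ : L, IsIntegral ℤ θ ∧
      ∀ x : L, ∃ d : ℤ, d ≠ 0 ∧ ∃ q : ℤ[X], (d : L) * x = aeval θ q := by
  obtain ⟨α, hα⟩ := Field.exists_primitive_element ℚ L
  have ha : IsAlgebraic ℚ α := IsAlgebraic.of_finite ℚ α
  have ha' : IsAlgebraic ℤ α := (IsFractionRing.isAlgebraic_iff ℤ ℚ L).2 ha
  obtain ⟨y, hy, hint⟩ := ha'.exists_integral_multiple
  refine ⟨y • α, hint, fun x => ?_⟩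
  have h1 : x ∈ Algebra.adjoin ℚ {α} := by
    rw [← IntermediateField.adjoin_simple_toSubalgebra_of_isAlgebraic ha, hα]
    trivial
  rw [Algebra.adjoin_singleton_eq_range_aeval] at h1
  obtain ⟨P, hP⟩ := h1
  have hP' : aeval α P = x := hP
  have hyq : (y : ℚ) ≠ 0 := by exact_mod_cast hy
  have hyL : (y : L) ≠ 0 := by exact_mod_cast hy
  have h2 : aeval (y • α) (P.comp (C (y : ℚ)⁻¹ * X)) = x := by
    rw [aeval_comp, map_mul, aeval_C, aeval_X, ← hP']
    congr 2
    rw [zsmul_eq_mul, map_inv₀, map_intCast, ← mul_assoc, inv_mul_cancel₀ hyL, one_mul]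
  obtain ⟨d, hd, hq⟩ := IsLocalization.integerNormalization_spec (nonZeroDivisors ℤ)
    (P.comp (C (y : ℚ)⁻¹ * X))
  refine ⟨d, nonZeroDivisors.ne_zero hd,
    IsLocalization.integerNormalization (nonZeroDivisors ℤ) (P.comp (C (y : ℚ)⁻¹ * X)), ?_⟩
  rw [← aeval_map_algebraMap ℚ, hq, map_zsmul, h2, zsmul_eq_mul]

open Polynomial in
theorem Hom_common {L : Type} [Field L] (θ : L)
    (h : ∀ x : L, ∃ d : ℤ, d ≠ 0 ∧ ∃ q : ℤ[X], (d : L) * x = aeval θ q) (s : Finset L) :
    ∃ d : ℤ, d ≠ 0 ∧ ∀ x ∈ s, ∃ q : ℤ[X], (d : L) * x = aeval θ q := by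
  classical
  induction s using Finset.induction_on with
  | empty => exact ⟨1, one_ne_zero, fun x hx => absurd hx (Finset.notMem_empty x)⟩
  | insert a s _ ih =>
    obtain ⟨d, hd, H⟩ := ih
    obtain ⟨e, he, q, hq⟩ := h a
    refine ⟨d * e, mul_ne_zero hd he, fun x hx => ?_⟩
    rcases Finset.mem_insert.1 hx with rfl | hx
    · refine ⟨C d * q, ?_⟩
      rw [map_mul, ← hq, aeval_C, eq_intCast, Int.cast_mul, mul_assoc]
    · obtain ⟨q', hq'⟩ := H x hx
      refine ⟨C e * q', ?_⟩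
      rw [map_mul, ← hq', aeval_C, eq_intCast, Int.cast_mul]
      ring

open Polynomial in
theorem Hom_root (h v w : ℤ[X]) (D : ℤ) (hD : D ≠ 0) (hd : 0 < h.natDegree)
    (e : v * derivative h - C D = h * w) (b : ℕ) :
    ∃ p : ℕ, p.Prime ∧ b < p ∧ IsUnit (D : ZMod (p ^ 2)) ∧
      ∃ a : ZMod (p ^ 2), aeval a h = 0 := by
  obtain ⟨p, hp, hb, a, ha⟩ := Hom_schur h hd (max b D.natAbs)
  have hDu : IsUnit (D : ZMod (p ^ 2)) := by
    rw [ZMod.coe_int_isUnit_iff_isCoprime, Nat.cast_pow]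
    apply IsCoprime.pow_left
    rw [Int.isCoprime_iff_gcd_eq_one, Int.gcd_eq_natAbs, Int.natAbs_natCast]
    refine (Nat.Prime.coprime_iff_not_dvd hp).2 (fun hdv => ?_)
    have h1 := Nat.le_of_dvd (Int.natAbs_pos.2 hD) hdv
    have h2 := lt_of_le_of_lt (le_max_right b D.natAbs) hb
    omega
  refine ⟨p, hp, lt_of_le_of_lt (le_max_left _ _) hb, hDu, ?_⟩
  set t : ZMod (p ^ 2) := aeval (a : ZMod (p ^ 2)) h with ht
  have ht2 : t ^ 2 = 0 := by
    have h1 : t = ((h.eval a : ℤ) : ZMod (p ^ 2)) := by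
      rw [ht, ← eq_intCast (algebraMap ℤ (ZMod (p ^ 2))) a, aeval_algebraMap_apply,
        coe_aeval_eq_eval, eq_intCast]
    rw [h1, ← Int.cast_pow, ZMod.intCast_zmod_eq_zero_iff_dvd, Nat.cast_pow]
    exact pow_dvd_pow_of_dvd ha 2
  have e1 := congrArg (aeval (a : ZMod (p ^ 2))) e
  rw [map_sub, map_mul, map_mul, aeval_C, eq_intCast, ← ht] at e1
  have hu : IsUnit (aeval (a : ZMod (p ^ 2)) (derivative h)) := by
    have h1 : IsNilpotent (t * aeval (a : ZMod (p ^ 2)) w) :=
      ⟨2, by rw [mul_pow, ht2, zero_mul]⟩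
    have h2 := h1.isUnit_add_left_of_commute hDu (Commute.all _ _)
    have h3 : (D : ZMod (p ^ 2)) + t * aeval (a : ZMod (p ^ 2)) w
        = aeval (a : ZMod (p ^ 2)) v * aeval (a : ZMod (p ^ 2)) (derivative h) := by
      linear_combination -e1
    rw [h3] at h2
    exact isUnit_of_mul_isUnit_right h2
  obtain ⟨u, hu'⟩ := hu.exists_right_inv
  refine ⟨(a : ZMod (p ^ 2)) + -(u * t), ?_⟩
  rw [aeval_add_of_sq_eq_zero _ _ _ (by rw [neg_sq, mul_pow, ht2, mul_zero]), ← ht]
  linear_combination (-t) * hu'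

/- `A1 = Localization.Away f` is a finitely generated domain of characteristic zero. Take a maximal
ideal of the non-trivial finite-type `ℚ`-algebra `ℚ ⊗ A1` (or of the localisation at the non-zero
integers): the residue field `L` is finite over `ℚ` (`finite_of_finite_type_of_isJacobsonRing`).
`L = ℚ(θ)` with `θ` integral over `ℤ` (primitive element, scaled), `h = minpoly ℤ θ` monic; the
image of `A1` lies in `ℤ[θ][1/D]` for an integer `D ≠ 0`; `u h + v h' = D'` with an integer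
`D' ≠ 0` (separability over `ℚ`). Schur: infinitely many primes divide some non-zero value
`h(a)` (Mathlib: `Nat.exists_prime_gt_modEq_one` has the argument for cyclotomic polynomials;
directly: if `h(0) = c ≠ 0` look at `h(c * M! * x) / c ≡ 1 mod M!` for large `x`; if `h = X` it is
trivial). Take `p > b`, `p ∤ D D'`; lift the root to `ZMod (p ^ 2)` by one Newton step; map
`ℤ[θ] ≃ AdjoinRoot h` to `ZMod (p ^ 2)` and invert `D`. Any other proof is welcome (for example
through a prime of degree one and `ℤ_[p]`). -/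
theorem exists_hom_zmod (A : Type) [CommRing A] [IsDomain A] [CharZero A]
    [Algebra.FiniteType ℤ A] (f : A) (hf : f ≠ 0) (b : ℕ) :
    ∃ p : ℕ, p.Prime ∧ b < p ∧ ∃ ψ : A →+* ZMod (p ^ 2), IsUnit (ψ f) := by
  classical
  obtain ⟨L, _, _, _, φ, hφ⟩ := Hom_field A f hf
  obtain ⟨θ, hθ, hall⟩ := Hom_prim L
  obtain ⟨n, π, hπ⟩ := Algebra.FiniteType.iff_quotient_mvPolynomial''.1
    (inferInstance : Algebra.FiniteType ℤ A)
  set h : Polynomial ℤ := minpoly ℤ θ with hh
  have hder : Polynomial.aeval θ (Polynomial.derivative h) ≠ 0 := by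
    have h1 : (minpoly ℚ θ).Separable := Algebra.IsSeparable.isSeparable ℚ θ
    have h2 := h1.aeval_derivative_ne_zero (minpoly.aeval ℚ θ)
    rwa [minpoly.isIntegrallyClosed_eq_field_fractions' ℚ hθ, Polynomial.derivative_map,
      Polynomial.aeval_map_algebraMap] at h2
  obtain ⟨D, hD, H⟩ := Hom_common θ hall
    (insert (φ f)⁻¹ (insert (Polynomial.aeval θ (Polynomial.derivative h))⁻¹
      (Finset.univ.image fun i => φ (π (MvPolynomial.X i)))))
  obtain ⟨qf, hqf⟩ := H _ (Finset.mem_insert_self _ _)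
  obtain ⟨v, hv⟩ := H _ (Finset.mem_insert_of_mem (Finset.mem_insert_self _ _))
  choose q hq using fun i => H (φ (π (MvPolynomial.X i))) (Finset.mem_insert_of_mem
    (Finset.mem_insert_of_mem (Finset.mem_image_of_mem _ (Finset.mem_univ i))))
  obtain ⟨w, hw⟩ : h ∣ v * Polynomial.derivative h - Polynomial.C D := by
    refine minpoly.isIntegrallyClosed_dvd hθ ?_
    rw [map_sub, map_mul, ← hv, Polynomial.aeval_C, eq_intCast, mul_assoc,
      inv_mul_cancel₀ hder, mul_one, sub_self]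
  obtain ⟨p, hp, hb, hDu, a, ha⟩ := Hom_root h v w D hD (minpoly.natDegree_pos hθ) hw b
  obtain ⟨E, hE⟩ := hDu.exists_right_inv
  have hz : ∀ r : Polynomial ℤ, Polynomial.aeval θ r = 0 → Polynomial.aeval a r = 0 := by
    intro r hr
    obtain ⟨r', rfl⟩ : h ∣ r := minpoly.isIntegrallyClosed_dvd hθ hr
    rw [map_mul, ha, zero_mul]
  let ψ0 : MvPolynomial (Fin n) ℤ →+* ZMod (p ^ 2) :=
    MvPolynomial.eval₂Hom (Int.castRingHom _) fun i => E * Polynomial.aeval a (q i)
  have hrel : ∀ P : MvPolynomial (Fin n) ℤ, ∃ (k : ℕ) (r : Polynomial ℤ),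
      (D : L) ^ k * φ (π P) = Polynomial.aeval θ r ∧
      (D : ZMod (p ^ 2)) ^ k * ψ0 P = Polynomial.aeval a r := by
    intro P
    induction P using MvPolynomial.induction_on with
    | C c =>
      refine ⟨0, Polynomial.C c, ?_, ?_⟩
      · rw [pow_zero, one_mul, Polynomial.aeval_C, eq_intCast, eq_intCast, map_intCast,
          map_intCast]
      · rw [pow_zero, one_mul, Polynomial.aeval_C, eq_intCast, eq_intCast, map_intCast]
    | add P Q hP hQ =>
      obtain ⟨k, r, h1, h2⟩ := hP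
      obtain ⟨k', r', h1', h2'⟩ := hQ
      refine ⟨k + k', Polynomial.C D ^ k' * r + Polynomial.C D ^ k * r', ?_, ?_⟩
      · simp only [map_add, map_mul, map_pow, eq_intCast, map_intCast]
        rw [← h1, ← h1']
        ring
      · simp only [map_add, map_mul, map_pow, eq_intCast, map_intCast]
        rw [← h2, ← h2']
        ring
    | mul_X P i hP =>
      obtain ⟨k, r, h1, h2⟩ := hP
      refine ⟨k + 1, r * q i, ?_, ?_⟩
      · rw [map_mul, map_mul, map_mul, ← h1, ← hq i]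
        ring
      · have e : ψ0 (MvPolynomial.X i) = E * Polynomial.aeval a (q i) :=
          MvPolynomial.eval₂Hom_X' _ _ i
        rw [map_mul, map_mul, ← h2, e]
        linear_combination ((D : ZMod (p ^ 2)) ^ k * ψ0 P * Polynomial.aeval a (q i)) * hE
  have hker : RingHom.ker (π : MvPolynomial (Fin n) ℤ →+* A) ≤ RingHom.ker ψ0 := by
    intro P hP
    obtain ⟨k, r, h1, h2⟩ := hrel P
    have hP' : π P = 0 := hP
    rw [hP', map_zero, mul_zero] at h1
    rw [hz r h1.symm] at h2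
    exact ((hDu.pow k).mul_right_eq_zero).1 h2
  refine ⟨p, hp, hb,
    RingHom.liftOfSurjective (π : MvPolynomial (Fin n) ℤ →+* A) hπ ⟨ψ0, hker⟩, ?_⟩
  obtain ⟨F, rfl⟩ := hπ f
  have e : RingHom.liftOfSurjective (π : MvPolynomial (Fin n) ℤ →+* A) hπ ⟨ψ0, hker⟩ (π F)
      = ψ0 F := RingHom.liftOfRightInverse_comp_apply _ _ _ ⟨ψ0, hker⟩ F
  rw [e]
  obtain ⟨k, r, h1, h2⟩ := hrel F
  have h3 := hz (r * qf - Polynomial.C D ^ (k + 1)) (by
    rw [map_sub, map_mul, map_pow, ← h1, ← hqf, Polynomial.aeval_C, eq_intCast]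
    have := mul_inv_cancel₀ hφ
    linear_combination ((D : L) ^ (k + 1)) * this)
  rw [map_sub, map_mul, map_pow, ← h2, Polynomial.aeval_C, eq_intCast, sub_eq_zero] at h3
  have h4 : IsUnit ((D : ZMod (p ^ 2)) ^ k * ψ0 F * Polynomial.aeval a qf) := by
    rw [h3]; exact hDu.pow _
  exact isUnit_of_mul_isUnit_right (isUnit_of_mul_isUnit_left h4)

end Pool.Agent.P.MP_824f38_ag.V
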