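import Pool.Agent.P.MP_824f38_ag.V.PresBC

set_option linter.unusedVariables false
set_option linter.unusedSectionVars false

namespace Pool.Agent.P.MP_824f38_ag.V

namespace Pres

variable {k : Type} [CommRing k] {m : ℕ} {V : Type} [Fintype V] {n s : ℕ}

theorem mon_mem (A : Pres k m V n s) (r : Fin m → ℕ) (e : Fin n → ℕ) :
    A.mon r e ∈ Hg (ρQ k A.d) (A.dmon r e) := by
  unfold mon dmon
  refine Hg_mul ?_ (Hg_prod _ fun a _ => Hg_pow (ρQ_X A.d a) (e a))
  rw [map_prod]
  refine Hg_cast (Hg_prod (l := fun j => r j • (-Pi.single j 1 : Dg m)) _ fun j _ => ?_) ?_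
  · rw [map_pow]
    exact Hg_pow (ρQ_CX A.d j) (r j)
  · funext i
    simp [Finset.sum_apply, Pi.single_apply]

theorem PrCert_mon_add (A : Pres k m V n s) (r r' : Fin m → ℕ) (e e' : Fin n → ℕ) :
    A.mon (r + r') (e + e') = A.mon r e * A.mon r' e' := by
  simp only [mon, Pi.add_apply, pow_add, Finset.prod_mul_distrib, map_mul]
  ring

theorem PrCert_mon_X (A : Pres k m V n s) (a : Fin n) :
    A.mon 0 (Pi.single a 1) = MvPolynomial.X a := by
  simp only [mon, Pi.zero_apply, pow_zero, Finset.prod_const_one, map_one, one_mul]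
  rw [Finset.prod_eq_single a (fun b _ hb => by simp [hb]) (by simp)]
  simp

theorem PrCert_mon_CX (A : Pres k m V n s) (j : Fin m) :
    A.mon (Pi.single j 1) 0 = MvPolynomial.C (MvPolynomial.X j) := by
  simp only [mon, Pi.zero_apply, pow_zero, Finset.prod_const_one, mul_one]
  rw [Finset.prod_eq_single j (fun b _ hb => by simp [hb]) (by simp)]
  simp

theorem PrCert_smul (c : k) (x : Qk k m (Fin n)) :
    c • x = MvPolynomial.C (MvPolynomial.C c) * x := by
  rw [Algebra.smul_def]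
  rfl

theorem PrCert_span_mul (A : Pres k m V n s) {x : Qk k m (Fin n)}
    (hx : x ∈ Submodule.span k {y | ∃ r e, y = A.mon r e}) (r : Fin m → ℕ) (e : Fin n → ℕ) :
    x * A.mon r e ∈ Submodule.span k {y | ∃ r e, y = A.mon r e} := by
  induction hx using Submodule.span_induction with
  | mem y hy =>
    obtain ⟨r', e', rfl⟩ := hy
    exact Submodule.subset_span ⟨r' + r, e' + e, (A.PrCert_mon_add _ _ _ _).symm⟩
  | zero => rw [zero_mul]; exact zero_mem _
  | add a b _ _ ha hb => rw [add_mul]; exact add_mem ha hb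
  | smul c a _ ha => rw [smul_mul_assoc]; exact Submodule.smul_mem _ c ha

theorem PrCert_span (A : Pres k m V n s) (x : Qk k m (Fin n)) :
    x ∈ Submodule.span k {y | ∃ r e, y = A.mon r e} := by
  induction x using MvPolynomial.induction_on with
  | C c =>
    induction c using MvPolynomial.induction_on with
    | C c =>
      have h1 : A.mon 0 0 = 1 := by simp [mon]
      rw [← mul_one (MvPolynomial.C (MvPolynomial.C c)), ← PrCert_smul]
      exact Submodule.smul_mem _ c (Submodule.subset_span ⟨0, 0, h1.symm⟩)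
    | add p q hp hq => rw [map_add]; exact add_mem hp hq
    | mul_X p j hp => rw [map_mul, ← A.PrCert_mon_CX]; exact A.PrCert_span_mul hp _ _
  | add p q hp hq => exact add_mem hp hq
  | mul_X p j hp => rw [← A.PrCert_mon_X]; exact A.PrCert_span_mul hp _ _

/- every polynomial is a `k`-combination of the `A.mon r e`; apply `pr` -/
theorem mem_span_mon (A : Pres k m V n s) {l : Dg m} {x : Qk k m (Fin n)}
    (hx : x ∈ Hg (ρQ k A.d) l) :
    x ∈ Submodule.span k {y | ∃ r e, A.dmon r e = l ∧ y = A.mon r e} := by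
  rw [← pr_of_mem hx]
  have h := A.PrCert_span x
  clear hx
  induction h using Submodule.span_induction with
  | mem y hy =>
    obtain ⟨r, e, rfl⟩ := hy
    by_cases h : A.dmon r e = l
    · rw [pr_of_mem (Hg_cast (A.mon_mem r e) h)]
      exact Submodule.subset_span ⟨r, e, h, rfl⟩
    · rw [pr_of_ne (A.mon_mem r e) h]
      exact zero_mem _
  | zero => rw [map_zero]; exact zero_mem _
  | add a b _ _ ha hb => rw [map_add]; exact add_mem ha hb
  | smul c a _ ha =>
    have h1 := pr_mul_left (ρQ_CC A.d c) l a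
    rw [zero_add] at h1
    rw [PrCert_smul, h1, ← PrCert_smul]
    exact Submodule.smul_mem _ c ha

/- `dickson` on `Fin m ⊕ Fin n → ℕ`, `Presents.mem`, `h.ker` -/
theorem prCert_of_proper {A : Pres k m V n s} {X : Mod k m V} (h : A.Presents X)
    (hp : X.Proper) : A.PrCert := by
  obtain ⟨t, ht, ht'⟩ := dickson {x : Fin m ⊕ Fin n → ℕ |
    ∃ a : ℕ, 1 ≤ a ∧ A.dmon (fun j => x (Sum.inl j)) (fun i => x (Sum.inr i)) = a • A.χ}
  have key : ∀ x ∈ t, ∃ (w : ℕ) (c : V → Qk k m (Fin n)) (c' : Fin s → Qk k m (Fin n)),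
      A.mon (fun j => x (Sum.inl j)) (fun i => x (Sum.inr i)) ^ w =
        ∑ i, c i * A.g i + ∑ j, c' j * A.f j := by
    intro x hx
    obtain ⟨a, ha, hd⟩ := ht x hx
    have h1 := h.mem (Hg_cast (A.mon_mem _ _) hd)
    rw [← h.hχ] at h1
    obtain ⟨w, hw⟩ := hp a ha _ h1
    obtain ⟨c, hc⟩ := Ideal.mem_span_range_iff_exists_fun.1 hw
    choose c0 hc0 using fun i => h.surj (c i)
    have h2 : h.φ (A.mon (fun j => x (Sum.inl j)) (fun i => x (Sum.inr i)) ^ w -
        ∑ i, c0 i * A.g i) = 0 := by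
      rw [map_sub, map_pow, ← hc, map_sum, sub_eq_zero]
      exact Finset.sum_congr rfl fun i _ => by rw [map_mul, hc0, h.hg]
    obtain ⟨c', hc'⟩ := Ideal.mem_span_range_iff_exists_fun.1 ((h.ker _).1 h2)
    exact ⟨w, c0, c', by rw [hc', add_sub_cancel]⟩
  choose w c c' hw using key
  let q := t.equivFin.symm
  refine ⟨t.card, fun u j => (q u).1 (Sum.inl j), fun u i => (q u).1 (Sum.inr i),
    fun u => w _ (q u).2, fun u => c _ (q u).2, fun u => c' _ (q u).2, fun u => hw _ (q u).2,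
    fun r' e' a ha hd => ?_⟩
  obtain ⟨x, hx, hle⟩ := ht' (Sum.elim r' e') ⟨a, ha, hd⟩
  obtain ⟨u, hu⟩ := q.surjective ⟨x, hx⟩
  refine ⟨u, fun j => ?_, fun i => ?_⟩
  · show (q u).1 (Sum.inl j) ≤ r' j
    rw [hu]; exact hle (Sum.inl j)
  · show (q u).1 (Sum.inr i) ≤ e' i
    rw [hu]; exact hle (Sum.inr i)

/- a homogeneous class is the class of a homogeneous polynomial; `mem_span_mon`; each monomial is
a multiple of one of the monomials of the certificate -/
theorem proper_of_prCert (A : Pres k m V n s) (h : A.PrCert) : A.toMod.Proper := by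
  obtain ⟨N, r, e, w, c, c', h1, h2⟩ := h
  intro a ha f hf
  obtain ⟨x, rfl⟩ := Ideal.Quotient.mk_surjective (I := A.I) f
  have h3 := (isCo_ρQ A.d).pr_comm (ρ' := A.ρ) (Ideal.Quotient.mk A.I).toAddMonoidHom id
    Function.injective_id (fun l x hx => A.mk_mem hx) (a • A.χ) x
  have h4 : pr A.ρ (a • A.χ) (Ideal.Quotient.mk A.I x) = Ideal.Quotient.mk A.I x := pr_of_mem hf
  have h5 : Ideal.Quotient.mk A.I x = Ideal.Quotient.mk A.I (pr (ρQ k A.d) (a • A.χ) x) :=
    h4.symm.trans h3
  have h6 := A.mem_span_mon ((isCo_ρQ A.d).pr_mem (a • A.χ) x)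
  show Ideal.Quotient.mk A.I x ∈
    (Ideal.span (Set.range fun i => Ideal.Quotient.mk A.I (A.g i))).radical
  rw [h5]
  generalize pr (ρQ k A.d) (a • A.χ) x = y at h6
  induction h6 using Submodule.span_induction with
  | mem y hy =>
    obtain ⟨r', e', hd, rfl⟩ := hy
    obtain ⟨u, hr, he⟩ := h2 r' e' a ha hd
    obtain ⟨r1, rfl⟩ := exists_add_of_le hr
    obtain ⟨e1, rfl⟩ := exists_add_of_le he
    rw [PrCert_mon_add, map_mul]
    refine Ideal.mul_mem_right _ _ ⟨w u, ?_⟩
    have h7 : Ideal.Quotient.mk A.I (∑ j, c' u j * A.f j) = 0 :=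
      Ideal.Quotient.eq_zero_iff_mem.2 (Ideal.mem_span_range_iff_exists_fun.2 ⟨c' u, rfl⟩)
    rw [← map_pow, h1 u, map_add, h7, add_zero, map_sum]
    refine Ideal.sum_mem _ fun i _ => ?_
    rw [map_mul]
    exact Ideal.mul_mem_left _ _ (Ideal.subset_span ⟨i, rfl⟩)
  | zero => rw [map_zero]; exact zero_mem _
  | add a b _ _ ha hb => rw [map_add]; exact add_mem ha hb
  | smul c a _ ha => rw [PrCert_smul, map_mul]; exact Ideal.mul_mem_left _ _ ha

end Pres

end Pool.Agent.P.MP_824f38_ag.V
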