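import Pool.Agent.P.MP_824f38_ag.V.SerreDefs
import Pool.Agent.P.MP_824f38_ag.V.Chart

/-! The bigraded module attached to a model. -/

set_option linter.unusedVariables false
set_option linter.unusedSectionVars false
set_option linter.unusedSimpArgs false

namespace Pool.Agent.P.MP_824f38_ag.V

open AddMonoidAlgebra MvPolynomial

namespace Mod

variable {k : Type} [CommRing k] {m : ℕ} {V : Type} [LinearOrder V] (X : Mod k m V) {ι : Type}
  (μ : ι → X.S)

/-- polynomials in the second direction -/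
abbrev R0 (ι : Type) : Type := MvPolynomial ι X.S0

/-- the bigraded Rees map -/
noncomputable def lam : MvPolynomial V (X.R0 ι) →+* AddMonoidAlgebra X.S (ℤ × ℤ) :=
  eval₂Hom (eval₂Hom (singleZeroRingHom.comp X.S0.val.toRingHom) fun l => single (1, 0) (μ l))
    fun v => single (0, 1) (X.g v)

/-- forms with two external degrees -/
def WW (μ : ι → X.S) (I : Finset V) : Type := AddMonoidAlgebra (X.W I) (ℤ × ℤ)

noncomputable instance (I : Finset V) : Ring (X.WW μ I) :=
  inferInstanceAs (Ring (AddMonoidAlgebra (X.W I) (ℤ × ℤ)))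

/-- the action -/
noncomputable def phi (I : Finset V) : MvPolynomial V (X.R0 ι) →+* X.WW μ I :=
  (mapRingHom (ℤ × ℤ) (X.act I)).comp (X.lam μ)

noncomputable instance (I : Finset V) : Module (MvPolynomial V (X.R0 ι)) (X.WW μ I) :=
  Module.compHom (X.WW μ I) (X.phi μ I)

/-- coefficients -/
noncomputable def cf (d : ℤ × ℤ) (I : Finset V) : X.WW μ I →+ X.W I :=
  AddMonoidHom.mk' (fun y => AddMonoidAlgebra.coeff y d) (fun _ _ => rfl)

/-- monomials -/
noncomputable def sg (d : ℤ × ℤ) (I : Finset V) : X.W I →+ X.WW μ I := singleAddHom d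

variable {X μ}

theorem ww_ext {I : Finset V} {y y' : X.WW μ I} (h : ∀ a e, X.cf μ (a, e) I y = X.cf μ (a, e) I y') :
    y = y' := AddMonoidAlgebra.ext (Finsupp.ext fun d => h d.1 d.2)

theorem cf_sg (d d' : ℤ × ℤ) (I : Finset V) (x : X.W I) :
    X.cf μ d I (X.sg μ d' I x) = if d' = d then x else 0 := Finsupp.single_apply

theorem smul_of_lam {r : MvPolynomial V (X.R0 ι)} {d : ℤ × ℤ} {s : X.S}
    (h : X.lam μ r = single d s) (I : Finset V) (y : X.WW μ I) :
    r • y = X.sg μ d I (X.act I s) * y := by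
  have : X.phi μ I r = X.sg μ d I (X.act I s) := by
    change mapRingHom (ℤ × ℤ) (X.act I) (X.lam μ r) = single d (X.act I s)
    rw [h, mapRingHom_single]
  rw [← this]
  rfl

theorem cf_smul {r : MvPolynomial V (X.R0 ι)} {d : ℤ × ℤ} {s : X.S} (h : X.lam μ r = single d s)
    (I : Finset V) (y : X.WW μ I) (d' : ℤ × ℤ) :
    X.cf μ (d + d') I (r • y) = s • X.cf μ d' I y := by
  rw [smul_of_lam h, smul_def]
  exact coeff_single_mul_add _ _ _ _

theorem smul_sg {r : MvPolynomial V (X.R0 ι)} {d : ℤ × ℤ} {s : X.S} (h : X.lam μ r = single d s)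
    (I : Finset V) (x : X.W I) (d' : ℤ × ℤ) :
    r • X.sg μ d' I x = X.sg μ (d + d') I (s • x) := by
  rw [smul_of_lam h, smul_def]
  exact single_mul_single _ _ _ _

theorem lam_X (v : V) : X.lam μ (MvPolynomial.X v) = single (0, 1) (X.g v) := by simp [lam]

theorem lam_CX (l : ι) : X.lam μ (C (MvPolynomial.X l)) = single (1, 0) (μ l) := by simp [lam]

theorem lam_CC (s : X.S0) : X.lam μ (C (C s)) = single 0 (s : X.S) := by simp [lam]

theorem lam_xI (I : Finset V) (e : ℕ) :
    X.lam μ (xI (X.R0 ι) I ^ e) = single (0, (e * I.card : ℤ)) (X.gI I ^ e) := by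
  simp [xI, map_prod, lam_X, gI, AddMonoidAlgebra.prod_single]

theorem cf_X (v : V) (I : Finset V) (y : X.WW μ I) (a e : ℤ) :
    X.cf μ (a, e) I ((MvPolynomial.X v : MvPolynomial V (X.R0 ι)) • y) =
      X.g v • X.cf μ (a, e - 1) I y := by
  rw [← cf_smul (lam_X v)]; simp

theorem cf_CX (l : ι) (I : Finset V) (y : X.WW μ I) (a e : ℤ) :
    X.cf μ (a, e) I ((C (MvPolynomial.X l) : MvPolynomial V (X.R0 ι)) • y) =
      μ l • X.cf μ (a - 1, e) I y := by
  rw [← cf_smul (lam_CX l)]; simp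

theorem cf_CC (s : X.S0) (I : Finset V) (y : X.WW μ I) (d : ℤ × ℤ) :
    X.cf μ d I ((C (C s) : MvPolynomial V (X.R0 ι)) • y) = (s : X.S) • X.cf μ d I y := by
  rw [← cf_smul (lam_CC s), zero_add]

theorem sum_sg {I : Finset V} (y : X.WW μ I) : ∃ s : Finset (ℤ × ℤ),
    (∀ d, d ∉ s → X.cf μ d I y = 0) ∧ ∑ d ∈ s, X.sg μ d I (X.cf μ d I y) = y :=
  ⟨(AddMonoidAlgebra.coeff y).support, fun d hd => Finsupp.notMem_support_iff.1 hd,
    sum_coeff_single y⟩

variable (X μ)

/-- restriction -/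
noncomputable def rW : Res (X.WW μ) := fun I J h =>
  (mapRingHom (ℤ × ℤ) (X.resH I J h)).toAddMonoidHom

/-- projection to one value of the second external degree -/
noncomputable def piW (e : ℤ) (I : Finset V) : X.WW μ I →+ X.WW μ I :=
  AddMonoidHom.mk' (fun y => AddMonoidAlgebra.ofCoeff
    ((AddMonoidAlgebra.coeff y).filter fun d => d.2 = e))
    (fun _ _ => AddMonoidAlgebra.ext Finsupp.filter_add)

variable {X μ}

theorem cf_rW (d : ℤ × ℤ) (I J : Finset V) (h : I ⊆ J) (y : X.WW μ I) :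
    X.cf μ d J (X.rW μ I J h y) = X.res I J h (X.cf μ d I y) := coeff_mapRingHom _ _ _

theorem rW_sg (d : ℤ × ℤ) (I J : Finset V) (h : I ⊆ J) (x : X.W I) :
    X.rW μ I J h (X.sg μ d I x) = X.sg μ d J (X.res I J h x) := mapRingHom_single _ _ _

theorem cf_piW (a e e' : ℤ) (I : Finset V) (y : X.WW μ I) :
    X.cf μ (a, e) I (X.piW μ e' I y) = if e = e' then X.cf μ (a, e) I y else 0 :=
  Finsupp.filter_apply (fun d : ℤ × ℤ => d.2 = e') (AddMonoidAlgebra.coeff y) (a, e)

theorem rW_smul (I J : Finset V) (h : I ⊆ J) (r : MvPolynomial V (X.R0 ι)) (y : X.WW μ I) :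
    X.rW μ I J h (r • y) = r • X.rW μ I J h y := by
  have : (X.resH I J h).comp (X.act I) = X.act J := RingHom.ext (X.resH_act I J h)
  have key : ∀ (z : AddMonoidAlgebra X.S (ℤ × ℤ)) (y : AddMonoidAlgebra (X.W I) (ℤ × ℤ)),
      mapRingHom _ (X.resH I J h) (mapRingHom _ (X.act I) z * y) =
        mapRingHom _ (X.act J) z * mapRingHom _ (X.resH I J h) y := fun z y => by
    rw [map_mul, ← RingHom.comp_apply, ← mapRingHom_comp, this]
  exact key _ y

theorem piW_C (e : ℤ) (I : Finset V) (r : X.R0 ι) (y : X.WW μ I) :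
    X.piW μ e I ((C r : MvPolynomial V (X.R0 ι)) • y) =
      (C r : MvPolynomial V (X.R0 ι)) • X.piW μ e I y := by
  induction r using MvPolynomial.induction_on generalizing y with
  | C s =>
    refine ww_ext fun a e' => ?_
    rw [cf_piW, cf_CC, cf_CC, cf_piW]
    split_ifs <;> simp
  | add p q hp hq => simp only [map_add, add_smul, hp, hq]
  | mul_X p l hp =>
    rw [map_mul, mul_smul, mul_smul, hp]
    congr 1
    refine ww_ext fun a e' => ?_
    rw [cf_piW, cf_CX, cf_CX, cf_piW]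
    split_ifs <;> simp

variable (X μ)

/-- the Serre datum of a model -/
noncomputable def sd : SD (X.R0 ι) V (X.WW μ) where
  r := X.rW μ
  isFun := ⟨fun I h y => ww_ext fun a e => by rw [cf_rW, X.isFun_res.id],
    fun I J K h h' y => ww_ext fun a e => by rw [cf_rW, cf_rW, cf_rW, X.isFun_res.comp]⟩
  r_smul := rW_smul
  π := X.piW μ
  π_same := fun e I y => ww_ext fun a e' => by
    rw [cf_piW, cf_piW]; split_ifs <;> rfl
  π_ne := fun e e' I y h => ww_ext fun a e'' => by
    rw [cf_piW, cf_piW, map_zero]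
    split_ifs with h1 h2
    · exact absurd (h1.symm.trans h2) h
    · rfl
    · rfl
  π_r := fun e I J h y => ww_ext fun a e' => by
    rw [cf_piW, cf_rW, cf_rW, cf_piW]; split_ifs <;> simp
  π_X := fun e I v y => ww_ext fun a e' => by
    rw [cf_piW, cf_X, cf_X, cf_piW]
    by_cases h : e' = e + 1
    · rw [if_pos h, if_pos (by omega)]
    · rw [if_neg h, if_neg (by omega), smul_zero]
  π_C := piW_C
  unit := fun I v hv => by
    obtain ⟨u, hu⟩ := (X.isUnit_g hv).exists_left_inv
    have h1 : X.sg μ (0, -1) I (fn _ u) * X.sg μ (0, 1) I (X.act I (X.g v)) = 1 := by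
      refine (single_mul_single _ _ _ _).trans ?_
      rw [act_apply, ← map_mul, hu, map_one]; rfl
    have h2 : X.sg μ (0, 1) I (X.act I (X.g v)) * X.sg μ (0, -1) I (fn _ u) = 1 := by
      refine (single_mul_single _ _ _ _).trans ?_
      rw [act_apply, ← map_mul, mul_comm, hu, map_one]; rfl
    refine Function.bijective_iff_has_inverse.2
      ⟨fun y => X.sg μ (0, -1) I (fn _ u) * y, fun y => ?_, fun y => ?_⟩
    · simp only [smul_of_lam (lam_X v), ← mul_assoc, h1, one_mul]
    · simp only [smul_of_lam (lam_X v), ← mul_assoc, h2, one_mul]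
  inj := fun I h w hw => by
    obtain ⟨s, hs, -⟩ := sum_sg w
    have : ∀ d, ∃ e : ℕ, X.gI I ^ e • X.cf μ d ∅ w = 0 := fun d =>
      X.res_inj h _ (by rw [← res_apply, ← cf_rW, hw, map_zero])
    choose e he using this
    refine ⟨s.sup e, ww_ext fun a e' => ?_⟩
    have := cf_smul (lam_xI (μ := μ) I (s.sup e)) ∅ w (a, e' - (s.sup e : ℕ) * I.card)
    simp only [Prod.mk_add_mk, zero_add, add_sub_cancel] at this
    rw [this, map_zero]
    generalize (a, e' - (s.sup e : ℕ) * I.card) = d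
    by_cases hd : d ∈ s
    · obtain ⟨f, hf⟩ := Nat.exists_eq_add_of_le (Finset.le_sup (f := e) hd)
      rw [hf, add_comm, pow_add, mul_smul, he, smul_zero]
    · rw [hs _ hd, smul_zero]

end Mod

end Pool.Agent.P.MP_824f38_ag.V
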