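import Pool.Agent.P.MP_824f38_ag.V.SerreD
import Pool.Agent.P.MP_824f38_ag.V.Dick
import Pool.Agent.P.MP_824f38_ag.V.SerreExt

/-! Serre's theorems for the homogeneous forms of a model. -/

set_option linter.unusedVariables false
set_option linter.unusedSectionVars false
set_option linter.unusedSimpArgs false
set_option linter.style.haveILetI false

namespace Pool.Agent.P.MP_824f38_ag.V

open MvPolynomial

theorem exists_decomp {A ι : Type} [CommRing A] [Fintype ι] (r : MvPolynomial ι A) :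
    ∃ (r0 : A) (f : ι → MvPolynomial ι A), r = C r0 + ∑ l, X l * f l := by
  classical
  induction r using MvPolynomial.induction_on with
  | C a => exact ⟨a, 0, by simp⟩
  | add p q hp hq =>
    obtain ⟨a, f, rfl⟩ := hp
    obtain ⟨b, g, rfl⟩ := hq
    exact ⟨a + b, f + g, by simp [mul_add, Finset.sum_add_distrib]; ring⟩
  | mul_X p l _ =>
    refine ⟨0, Pi.single l p, ?_⟩
    rw [Finset.sum_eq_single l (fun b _ h => by simp [Pi.single_eq_of_ne h]) (by simp)]
    simp [mul_comm]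

namespace Mod

variable {k : Type} [CommRing k] {m : ℕ} {V : Type} [LinearOrder V] [Fintype V] (X : Mod k m V)
  {ι : Type} (μ : ι → X.S) (c : Dg m) (p : ℕ) (l : Dg m)

/-- elements whose coefficients have the right internal degree, supported where `P` holds -/
noncomputable def GG (P : ℤ → Prop) (I : Finset V) : AddSubgroup (X.WW μ I) where
  carrier := {y | ∀ a e : ℤ, X.cf μ (a, e) I y ∈ X.L p (l + a • c + e • X.χ) I ∧
    (a < 0 ∨ ¬P e → X.cf μ (a, e) I y = 0)}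
  zero_mem' := fun a e => by simp
  add_mem' := fun {y y'} h h' a e => by
    rw [map_add]
    exact ⟨add_mem (h a e).1 (h' a e).1, fun g => by rw [(h a e).2 g, (h' a e).2 g, add_zero]⟩
  neg_mem' := fun {y} h a e => by
    rw [map_neg]
    exact ⟨neg_mem (h a e).1, fun g => by rw [(h a e).2 g, neg_zero]⟩

variable {X μ c p l}

theorem L_cast {I : Finset V} {l l' : Dg m} {x : X.W I} (h : x ∈ X.L p l I) (e : l = l') :
    x ∈ X.L p l' I := e ▸ h

theorem GG_C (hμ : ∀ i, μ i ∈ X.H c) {P : ℤ → Prop} {I : Finset V} (r : X.R0 ι) {y : X.WW μ I}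
    (hy : y ∈ X.GG μ c p l P I) : (C r : MvPolynomial V (X.R0 ι)) • y ∈ X.GG μ c p l P I := by
  induction r using MvPolynomial.induction_on generalizing y with
  | C s =>
    intro a e
    rw [cf_CC]
    exact ⟨L_cast (smul_mem_L s.2 (hy a e).1) (zero_add _), fun g => by
      rw [(hy a e).2 g, smul_zero]⟩
  | add r r' h h' => rw [map_add, add_smul]; exact add_mem (h hy) (h' hy)
  | mul_X r i h =>
    rw [map_mul, mul_smul]
    refine h fun a e => ?_
    rw [cf_CX]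
    refine ⟨L_cast (smul_mem_L (hμ i) (hy _ e).1) (by rw [sub_smul, one_smul]; abel), fun g => ?_⟩
    rw [(hy _ e).2 (g.imp_left fun h => by omega), smul_zero]

theorem sg_mem {P : ℤ → Prop} {I : Finset V} {a e : ℤ} (ha : 0 ≤ a) (he : P e) {x : X.W I}
    (hx : x ∈ X.L p (l + a • c + e • X.χ) I) : X.sg μ (a, e) I x ∈ X.GG μ c p l P I := by
  intro a' e'
  rw [cf_sg]
  split_ifs with h
  · obtain ⟨rfl, rfl⟩ := Prod.mk.inj h
    exact ⟨hx, fun g => absurd g (by simp [ha, he])⟩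
  · exact ⟨zero_mem _, fun _ => rfl⟩

theorem sg_mem_eq {I : Finset V} {a e : ℤ} (ha : 0 ≤ a) {l' : Dg m} {x : X.W I}
    (hx : x ∈ X.L p l' I) (h : l' = l + a • c + e • X.χ) :
    X.sg μ (a, e) I x ∈ X.GG μ c p l (· = e) I := sg_mem (P := (· = e)) ha rfl (L_cast hx h)

theorem GG_induction {P : ℤ → Prop} {I : Finset V} (U : AddSubmonoid (X.WW μ I))
    (h : ∀ (a : ℕ) (e : ℤ), P e → ∀ x ∈ X.L p (l + (a : ℤ) • c + e • X.χ) I,
      X.sg μ (a, e) I x ∈ U) {y : X.WW μ I} (hy : y ∈ X.GG μ c p l P I) : y ∈ U := by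
  obtain ⟨s, -, hs⟩ := sum_sg y
  rw [← hs]
  refine sum_mem fun d _ => ?_
  obtain ⟨a, e⟩ := d
  by_cases g : a < 0 ∨ ¬P e
  · rw [(hy a e).2 g, map_zero]; exact zero_mem _
  · push Not at g
    obtain ⟨a, rfl⟩ := Int.eq_ofNat_of_zero_le g.1
    exact h a e g.2 _ (hy a e).1

/-- the module of global sections in non-negative degrees -/
noncomputable def NN (hμ : ∀ i, μ i ∈ X.H c) (p : ℕ) (l : Dg m) :
    Submodule (MvPolynomial V (X.R0 ι)) (X.WW μ ∅) where
  toAddSubmonoid := (X.GG μ c p l (0 ≤ ·) ∅).toAddSubmonoid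
  smul_mem' := fun r y hy => by
    change r • y ∈ X.GG μ c p l (0 ≤ ·) ∅
    change y ∈ X.GG μ c p l (0 ≤ ·) ∅ at hy
    induction r using MvPolynomial.induction_on generalizing y with
    | C s => exact GG_C hμ s hy
    | add r r' h h' => rw [add_smul]; exact add_mem (h _ hy) (h' _ hy)
    | mul_X r v h =>
      rw [mul_smul]
      refine h _ fun a e => ?_
      rw [cf_X]
      refine ⟨L_cast (smul_mem_L (X.hg v) (hy a _).1) (by rw [sub_smul, one_smul]; abel),
        fun g => ?_⟩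
      rw [(hy a _).2 (g.imp_right fun h => by omega), smul_zero]

theorem mem_NN (hμ : ∀ i, μ i ∈ X.H c) {y : X.WW μ ∅} :
    y ∈ NN hμ p l ↔ y ∈ X.GG μ c p l (0 ≤ ·) ∅ := Iff.rfl

theorem homog_NN (hμ : ∀ i, μ i ∈ X.H c) : (X.sd μ).Homog (NN hμ p l) := by
  intro w hw
  refine ⟨fun e a e' => ?_, ?_⟩
  · change X.cf μ _ _ (X.piW μ e ∅ w) ∈ _ ∧ (_ → X.cf μ _ _ (X.piW μ e ∅ w) = 0)
    rw [cf_piW]
    split_ifs
    · exact hw a e'
    · exact ⟨zero_mem _, fun _ => rfl⟩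
  · obtain ⟨s, hs, -⟩ := sum_sg w
    refine ⟨s.image Prod.snd, ww_ext fun a e => ?_⟩
    change X.cf μ _ _ (∑ e' ∈ _, X.piW μ e' ∅ w) = _
    simp only [map_sum, cf_piW, Finset.sum_ite_eq]
    split_ifs with h
    · rfl
    · exact (hs _ fun h' => h (Finset.mem_image.2 ⟨_, h', rfl⟩)).symm

theorem gI_div {I : Finset V} (e : ℕ) {l : Dg m} {x : X.W I}
    (h : X.gI I ^ e • x ∈ X.L p (e • I.card • X.χ + l) I) : x ∈ X.L p l I := by
  obtain ⟨v, hv⟩ := ((X.isUnit_gI (Finset.Subset.refl I)).pow e).exists_left_inv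
  have h1 := fn_mem_L (Hg_inv (Hg_pow (X.alg_mem I (X.gI_mem I)) e) hv)
  have := mul_mem_L h1 h
  rwa [smul_def, act_apply, map_pow, ← mul_assoc, ← map_mul, hv, map_one, one_mul, zero_add,
    neg_add_cancel_left] at this

theorem gI_inj {I : Finset V} (e : ℕ) {x : X.W I} (h : X.gI I ^ e • x = 0) : x = 0 := by
  obtain ⟨v, hv⟩ := ((X.isUnit_gI (Finset.Subset.refl I)).pow e).exists_left_inv
  have := congrArg (fun y => fn _ v * y) h
  simpa only [smul_def, act_apply, map_pow (algebraMap X.S _), ← mul_assoc, ← map_mul, hv,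
    map_one, one_mul, mul_zero] using this

theorem ext_le (hμ : ∀ i, μ i ∈ X.H c) (e : ℤ) (I : Finset V) {y : X.WW μ I}
    (hy : y ∈ (X.sd μ).ext (NN hμ p l) e I) : y ∈ X.GG μ c p l (· = e) I := by
  obtain ⟨h1, f, w, hw, h2⟩ := hy
  intro a e'
  by_cases h : e' = e
  · subst h
    have h3 := cf_smul (lam_xI (μ := μ) I f) I y (a, e')
    rw [h2, Prod.mk_add_mk, zero_add] at h3
    change X.cf μ _ _ (X.rW μ _ _ _ w) = _ at h3
    rw [cf_rW] at h3
    refine ⟨gI_div f ?_, fun g => gI_inj f ?_⟩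
    · rw [← h3]
      refine L_cast (res_mem_L _ _ _ _ (hw a _).1) ?_
      rw [add_smul, mul_smul, natCast_zsmul, natCast_zsmul]; abel
    · rw [← h3, (hw a _).2 (Or.inl (by simpa using g)), map_zero]
  · have : X.cf μ (a, e') I y = 0 := by
      rw [← h1]
      exact (cf_piW a e' e I y).trans (if_neg h)
    rw [this]
    exact ⟨zero_mem _, fun _ => rfl⟩

theorem le_ext (hμ : ∀ i, μ i ∈ X.H c) {e : ℤ} (he : 0 ≤ e) (I : Finset V) {y : X.WW μ I}
    (hy : y ∈ X.GG μ c p l (· = e) I) : y ∈ (X.sd μ).ext (NN hμ p l) e I := by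
  refine GG_induction ((X.sd μ).ext (NN hμ p l) e I).toAddSubmonoid (fun a e' h x hx => ?_) hy
  subst h
  obtain ⟨f, w, hw⟩ := X.res_surj (Finset.empty_subset I) x
  have hx' := smul_mem_L (Hg_pow (X.gI_mem I) f) hx
  refine ⟨ww_ext fun a' e'' => ?_, f, X.sg μ (a, f * I.card + e') ∅
    (X.prW (l + (a : ℤ) • c + (f * I.card + e' : ℤ) • X.χ) ∅ (ep p w)),
    sg_mem (by omega) (by positivity) (prW_mem_L _ (ep_mem p w)), ?_⟩
  · refine (cf_piW a' e'' e' I _).trans ?_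
    rw [cf_sg]
    split_ifs with h1 h2 h2
    · rfl
    · rfl
    · exact absurd (Prod.mk.inj h2).2.symm h1
    · rfl
  · change _ = X.rW μ _ _ _ _
    rw [smul_sg (lam_xI I f), rW_sg, ← prW_res, res_apply, ← resH_ep, ← hw, ep_of_mem hx'.1,
      prW_of_mem, Prod.mk_add_mk, zero_add]
    refine (L_cast hx' ?_).2
    funext j; simp; ring

theorem fg_NN [Algebra.FiniteType k X.S] [Fintype ι] (h : X.Rad c μ) : (NN h.mem p l).FG := by
  obtain ⟨b, hb⟩ := X.L_gen h p l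
  choose n t ht ht' using fun d : ℕ × ℕ => X.L_fg p (l + d.1 • c + d.2 • X.χ)
  let T : Set (X.WW μ ∅) := Set.range fun u : Σ d : Fin b × Fin b, Fin (n (d.1, d.2)) =>
    X.sg μ ((u.1.1 : ℕ), (u.1.2 : ℕ)) ∅ (t (u.1.1, u.1.2) u.2)
  refine Submodule.fg_def.2 ⟨T, Set.finite_range _, le_antisymm ?_ ?_⟩
  · rw [Submodule.span_le]
    rintro _ ⟨u, rfl⟩
    exact sg_mem (by positivity) (by positivity) (by simpa using ht (u.1.1, u.1.2) u.2)
  · have key : ∀ s a e : ℕ, a + e = s → ∀ x ∈ X.L p (l + a • c + e • X.χ) ∅,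
        X.sg μ (a, e) ∅ x ∈ Submodule.span (MvPolynomial V (X.R0 ι)) T := by
      intro s
      induction s using Nat.strong_induction_on with
      | _ s ih =>
        intro a e hs x hx
        by_cases hlt : a + e < b
        · obtain ⟨u, hu, rfl⟩ := ht' (a, e) x hx
          rw [map_sum]
          refine Submodule.sum_mem _ fun j _ => ?_
          have := smul_sg (lam_CC (μ := μ) ⟨u j, hu j⟩) ∅ (t (a, e) j) (a, e)
          rw [zero_add] at this
          rw [← this]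
          exact Submodule.smul_mem _ _ (Submodule.subset_span
            ⟨⟨(⟨a, by omega⟩, ⟨e, by omega⟩), j⟩, rfl⟩)
        · obtain ⟨y, z, rfl, hy, hz⟩ := hb a e (by omega) x hx
          rw [map_add, map_sum, map_sum]
          refine add_mem (Submodule.sum_mem _ fun i _ => ?_) (Submodule.sum_mem _ fun v _ => ?_)
          · rcases a with _ | a
            · simp [(hy i).2 rfl]
            · have := smul_sg (lam_CX (μ := μ) i) ∅ (y i) (a, e)
              rw [Prod.mk_add_mk, zero_add, add_comm] at this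
              rw [Nat.cast_succ, ← this]
              exact Submodule.smul_mem _ _ (ih (a + e) (by omega) a e rfl _
                (L_cast (hy i).1 (by rw [succ_nsmul]; abel)))
          · rcases e with _ | e
            · simp [(hz v).2 rfl]
            · have := smul_sg (lam_X (μ := μ) v) ∅ (z v) (a, e)
              rw [Prod.mk_add_mk, zero_add, add_comm] at this
              rw [Nat.cast_succ, ← this]
              exact Submodule.smul_mem _ _ (ih (a + e) (by omega) a e rfl _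
                (L_cast (hz v).1 (by rw [succ_nsmul]; abel)))
    intro y hy
    refine GG_induction (Submodule.span (MvPolynomial V (X.R0 ι)) T).toAddSubmonoid
      (fun a e he x hx => ?_) hy
    obtain ⟨e, rfl⟩ := Int.eq_ofNat_of_zero_le he
    exact key _ a e rfl x (by simpa using hx)

theorem cech_cf (d : ℤ × ℤ) (y : ∀ I, X.WW μ I) :
    cech X.res (cmap (X.cf μ d) y) = cmap (X.cf μ d) (cech (X.rW μ) y) :=
  cech_cmap _ (fun I J h x => (cf_rW d I J h x).symm) y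

theorem cech_sg (d : ℤ × ℤ) (z : ∀ I, X.W I) :
    cech (X.rW μ) (cmap (X.sg μ d) z) = cmap (X.sg μ d) (cech X.res z) :=
  cech_cmap _ (fun I J h x => rW_sg d I J h x) z

theorem cf_sg_self (d : ℤ × ℤ) (z : ∀ I, X.W I) : cmap (X.cf μ d) (cmap (X.sg μ d) z) = z :=
  funext fun I => by simp [cf_sg]

theorem homog_bot {R V : Type} [CommRing R] [LinearOrder V] {W : Finset V → Type}
    [∀ I, AddCommGroup (W I)] [∀ I, Module (MvPolynomial V R) (W I)] (D : SD R V W) :
    D.Homog ⊥ := by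
  rintro w rfl
  exact ⟨fun e => map_zero _, ∅, by simp⟩

theorem rb_bot' {R V : Type} [CommRing R] [LinearOrder V] {W : Finset V → Type}
    [∀ I, AddCommGroup (W I)] [∀ I, Module (MvPolynomial V R) (W I)] (D : SD R V W)
    {N : Submodule (MvPolynomial V R) (W ∅)} {e : ℤ} {z : ∀ I, W I} (h : D.RB ⊥ N e z) :
    ∃ b : ∀ I, W I, (∀ I, b I ∈ D.ext N e I) ∧ z = cech D.r b := by
  obtain ⟨b, hb, hb'⟩ := h
  exact ⟨b, hb, funext fun J => sub_eq_zero.1 (D.ext_bot (hb' J))⟩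

theorem sd_r : (X.sd μ).r = X.rW μ := rfl

theorem rz_bot {N : Submodule (MvPolynomial V (X.R0 ι)) (X.WW μ ∅)} {e : ℤ} {z : ∀ I, X.WW μ I} :
    (X.sd μ).RZ ⊥ N e z ↔ (∀ I, z I ∈ (X.sd μ).ext N e I) ∧ cech (X.rW μ) z = 0 := by
  rw [← sd_r]
  exact and_congr_right fun _ => ⟨fun h => funext fun J => (X.sd μ).ext_bot (h J),
    fun h J => by rw [h]; exact zero_mem _⟩

theorem rb_bot {N : Submodule (MvPolynomial V (X.R0 ι)) (X.WW μ ∅)} {e : ℤ} {z : ∀ I, X.WW μ I}
    (h : (X.sd μ).RB ⊥ N e z) :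
    ∃ b : ∀ I, X.WW μ I, (∀ I, b I ∈ (X.sd μ).ext N e I) ∧ z = cech (X.rW μ) b := by
  rw [← sd_r]
  exact rb_bot' _ h

theorem noeth_R0 [IsNoetherianRing k] [Algebra.FiniteType k X.S] [Fintype ι] :
    IsNoetherianRing (X.R0 ι) := by
  haveI := X.finiteType_S0
  haveI : IsNoetherianRing X.S0 := Algebra.FiniteType.isNoetherianRing k _
  infer_instance

theorem Proper.rad (hP : X.Proper) : X.Rad X.χ X.g :=
  ⟨X.hg, hP, hP, fun a e ha he f hf =>
    Ideal.radical_mono le_sup_left (hP (a + e) (by omega) f (by rwa [add_smul]))⟩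

theorem cpart_smul (q : ℕ) (s : X.S) (z : ∀ I, X.W I) : cpart q (s • z) = s • cpart q z := by
  funext I
  simp only [cpart_apply, Pi.smul_apply]
  split_ifs <;> simp

theorem isCyc_cpart {q : ℕ} {z : ∀ I, X.W I} (h : ∀ I, z I ∈ X.L p l I) (h0 : cech X.res z = 0) :
    IsCyc X.res (X.L p l) q (cpart (q + 1) z) :=
  ⟨cpart_mem _ h, by rw [← cpart_cech, h0, map_zero]⟩

theorem isBd_cpart {q : ℕ} {b : ∀ I, X.W I} (h : ∀ I, b I ∈ X.L p l I) (h0 : b ∅ = 0) :
    IsBd X.res (X.L p l) q (cpart (q + 1) (cech X.res b)) :=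
  ⟨cpart q b, cpart_mem _ h, by rw [cpart_apply, h0, ite_self], (cpart_cech _ _ _).symm⟩

variable (X)

theorem serre_van [IsNoetherianRing k] [Algebra.FiniteType k X.S] (hP : X.Proper) (p : ℕ)
    (l : Dg m) : ∃ e0 : ℕ, ∀ e : ℕ, e0 ≤ e → ∀ q, 1 ≤ q → CEx X.res (X.L p (l + e • X.χ)) q := by
  haveI := noeth_R0 (X := X) (ι := V)
  obtain ⟨k0, h⟩ := (X.sd X.g).serre_rex (homog_NN (p := p) (l := l) hP.rad.mem) (homog_bot _)
    bot_le (fg_NN hP.rad)
  refine ⟨k0.toNat, fun e he q hq z hz => ?_⟩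
  obtain ⟨b, hb, h1⟩ := rb_bot (h e (by omega) (cmap (X.sg X.g (0, e)) z) (rz_bot.2
    ⟨fun I => le_ext hP.rad.mem (by positivity) I
      (sg_mem_eq le_rfl (hz.1 I).1 (by funext j; simp)), by rw [cech_sg, hz.2, map_zero]⟩))
  refine ⟨cpart q (cmap (X.cf X.g (0, e)) b),
    cpart_mem _ fun I => L_cast (ext_le hP.rad.mem _ I (hb I) 0 e).1 (by funext j; simp), ?_, ?_⟩
  · rw [cpart_apply, if_neg (by simp; omega)]
  · rw [← cpart_cech, cech_cf, ← h1, cf_sg_self, cpart_of_mem hz.1]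

variable {X}

theorem core_fin [IsNoetherianRing k] [Algebra.FiniteType k X.S] [Fintype ι] (h : X.Rad c μ)
    (p : ℕ) (l : Dg m) : ∃ (n : ℕ) (T : Fin n → ∀ I, X.WW μ I),
      (∀ j, (∀ I, T j I ∈ X.GG μ c p l (· = 0) I) ∧ cech (X.rW μ) (T j) = 0) ∧
      ∀ z : ∀ I, X.WW μ I, (∀ I, z I ∈ X.GG μ c p l (· = 0) I) → cech (X.rW μ) z = 0 →
        ∃ (a : Fin n → X.R0 ι) (b : ∀ I, X.WW μ I), (∀ I, b I ∈ X.GG μ c p l (· = 0) I) ∧
          b ∅ = 0 ∧ z = ∑ j, (C (a j) : MvPolynomial V (X.R0 ι)) • T j + cech (X.rW μ) b := by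
  haveI := noeth_R0 (X := X) (ι := ι)
  obtain ⟨n, t, ht, ht'⟩ := (X.sd μ).serre_rfg (homog_NN (p := p) (l := l) h.mem) (homog_bot _)
    bot_le (fg_NN h) 0
  obtain ⟨n', s, hs, hs'⟩ := (X.sd μ).piece_fg (homog_NN (p := p) (l := l) h.mem) (fg_NN h) 0
  have hsing : ∀ (x : X.WW μ ∅), x ∈ (X.sd μ).ext (NN h.mem p l) 0 ∅ → ∀ I,
      (Pi.single ∅ x : ∀ I, X.WW μ I) I ∈ (X.sd μ).ext (NN h.mem p l) 0 I := fun x hx I => by
    by_cases hI : I = ∅
    · subst hI; rwa [Pi.single_eq_same]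
    · rw [Pi.single_eq_of_ne hI]; exact zero_mem _
  refine ⟨n + n', Fin.append t fun i => cech (X.rW μ) (Pi.single ∅ (s i)), fun j => ?_,
    fun z hz hz0 => ?_⟩
  · refine Fin.addCases (fun j => ?_) (fun j => ?_) j
    · rw [Fin.append_left]
      exact ⟨fun I => ext_le h.mem _ I ((ht j).1 I), (rz_bot.1 (ht j)).2⟩
    · rw [Fin.append_right]
      exact ⟨fun I => ext_le h.mem _ I ((X.sd μ).cech_ext (hsing _ (hs j)) I),
        cech_cech (X.sd μ).isFun _⟩
  · obtain ⟨a, hb⟩ := ht' z (rz_bot.2 ⟨fun I => le_ext h.mem le_rfl I (hz I), hz0⟩)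
    obtain ⟨b, hb, h1⟩ := rb_bot hb
    obtain ⟨a', ha'⟩ := hs' _ (hb ∅)
    have h2 : (Pi.single ∅ (b ∅) : ∀ I, X.WW μ I) =
        ∑ j, (C (a' j) : MvPolynomial V (X.R0 ι)) • (Pi.single ∅ (s j) : ∀ I, X.WW μ I) := by
      funext I
      by_cases hI : I = ∅
      · subst hI; simpa using ha'
      · simp [Pi.single_eq_of_ne hI]
    refine ⟨Fin.append a a', b - Pi.single ∅ (b ∅),
      fun I => ext_le h.mem _ I (sub_mem (hb I) (hsing _ (hb ∅) I)), by simp, ?_⟩
    rw [Fin.sum_univ_add, map_sub, ← h1, h2, map_sum]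
    simp only [Fin.append_left, Fin.append_right]
    have h3 : ∀ (r : MvPolynomial V (X.R0 ι)) (y : ∀ I, X.WW μ I),
        cech (X.rW μ) (r • y) = r • cech (X.rW μ) y := (X.sd μ).cech_smul
    simp only [h3]
    abel

theorem cf_C_decomp [Fintype ι] (r0 : X.S0) (f : ι → X.R0 ι) (y : ∀ I, X.WW μ I) (a : ℤ) :
    cmap (X.cf μ (a, 0)) ((C (C r0 + ∑ i, MvPolynomial.X i * f i) : MvPolynomial V (X.R0 ι)) • y) =
      (r0 : X.S) • cmap (X.cf μ (a, 0)) y +
        ∑ i, μ i • cmap (X.cf μ (a - 1, 0)) ((C (f i) : MvPolynomial V (X.R0 ι)) • y) := by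
  funext I
  simp only [cmap_apply, Pi.smul_apply, Pi.add_apply, Finset.sum_apply, map_add, map_sum, map_mul,
    add_smul, Finset.sum_smul, mul_smul, cf_CC, cf_CX]

variable (X)

theorem serre_fin [IsNoetherianRing k] [Algebra.FiniteType k X.S] (hP : X.Proper) (p : ℕ)
    (l : Dg m) (q : ℕ) : ∃ (n : ℕ) (t : Fin n → ∀ I, X.W I),
      (∀ j, IsCyc X.res (X.L p l) q (t j)) ∧ ∀ z, IsCyc X.res (X.L p l) q z →
        ∃ a : Fin n → X.S, (∀ j, a j ∈ X.H 0) ∧ IsBd X.res (X.L p l) q (z - ∑ j, a j • t j) := by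
  obtain ⟨n, T, hT, hT'⟩ := core_fin hP.rad p l
  refine ⟨n, fun j => cpart (q + 1) (cmap (X.cf X.g (0, 0)) (T j)), fun j => isCyc_cpart
    (fun I => by simpa using ((hT j).1 I 0 0).1) (by rw [cech_cf, (hT j).2, map_zero]),
    fun z hz => ?_⟩
  obtain ⟨a, b, hb, hb0, he⟩ := hT' (cmap (X.sg X.g (0, 0)) z)
    (fun I => sg_mem_eq le_rfl (hz.1 I).1 (by simp)) (by rw [cech_sg, hz.2, map_zero])
  choose r0 f hf using fun j => exists_decomp (a j)
  refine ⟨fun j => r0 j, fun j => (r0 j).2, ?_⟩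
  have h1 := congrArg (fun y => cpart (q + 1) (cmap (X.cf X.g (0, 0)) y)) he
  simp only [cf_sg_self, cpart_of_mem hz.1, map_add, map_sum, hf, ← cech_cf] at h1
  have h2 : ∀ j i, cmap (X.cf X.g (0 - 1, 0)) ((C (f j i) : MvPolynomial V (X.R0 V)) • T j) = 0 :=
    fun j i => funext fun I => (GG_C X.hg (f j i) ((hT j).1 I) _ _).2 (Or.inl (by norm_num))
  simp only [← map_sum, ← map_add C, cf_C_decomp, h2, smul_zero, Finset.sum_const_zero,
    add_zero] at h1
  simp only [map_sum, cpart_smul] at h1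
  rw [sub_eq_iff_eq_add'.2 h1]
  exact isBd_cpart (fun I => by simpa using (hb I 0 0).1) (by rw [cmap_apply, hb0, map_zero])

theorem serre_gen [IsNoetherianRing k] [Algebra.FiniteType k X.S] {ι : Type} [Fintype ι]
    {c : Dg m} {μ : ι → X.S} (h : X.Rad c μ) (p : ℕ) (l : Dg m) (q : ℕ) : ∃ a0 : ℕ,
      ∀ a : ℕ, a0 ≤ a → ∀ z, IsCyc X.res (X.L p (l + (a + 1) • c)) q z →
        ∃ y : ι → ∀ I, X.W I, (∀ i, IsCyc X.res (X.L p (l + a • c)) q (y i)) ∧
          IsBd X.res (X.L p (l + (a + 1) • c)) q (z - ∑ i, μ i • y i) := by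
  obtain ⟨n, T, hT, hT'⟩ := core_fin h p l
  choose s hs using fun u : Fin n × Finset V => sum_sg (T u.1 u.2)
  refine ⟨Finset.univ.sup fun u => (s u).sup fun d => d.1.toNat, fun a ha z hz => ?_⟩
  have h0 : ∀ j, cmap (X.cf μ ((a : ℤ) + 1, 0)) (T j) = 0 := fun j => funext fun I =>
    (hs (j, I)).1 _ fun hd => by
      have h1 := Finset.le_sup (f := fun d : ℤ × ℤ => d.1.toNat) hd
      have h2 := Finset.le_sup (f := fun u => (s u).sup fun d => d.1.toNat) (Finset.mem_univ (j, I))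
      simp only at h1 h2
      omega
  have e1 : l + ((a : ℤ) + 1) • c + (0 : ℤ) • X.χ = l + (a + 1) • c := by
    rw [zero_smul, add_zero, ← natCast_zsmul, Nat.cast_succ]
  have e2 : l + ((a : ℤ) + 1 - 1) • c + (0 : ℤ) • X.χ = l + a • c := by simp
  obtain ⟨u, b, hb, hb0, he⟩ := hT' (cmap (X.sg μ ((a : ℤ) + 1, 0)) z)
    (fun I => sg_mem_eq (by positivity) (hz.1 I).1 e1.symm)
    (by rw [cech_sg, hz.2, map_zero])
  choose r0 f hf using fun j => exists_decomp (u j)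
  have h3 : ∀ (r : MvPolynomial V (X.R0 ι)) (y : ∀ I, X.WW μ I),
      cech (X.rW μ) (r • y) = r • cech (X.rW μ) y := (X.sd μ).cech_smul
  refine ⟨fun i => cpart (q + 1) (∑ j, cmap (X.cf μ ((a : ℤ) + 1 - 1, 0))
    ((C (f j i) : MvPolynomial V (X.R0 ι)) • T j)), fun i => isCyc_cpart (fun I => ?_) ?_, ?_⟩
  · rw [Finset.sum_apply]
    exact sum_mem fun j _ => L_cast (GG_C h.mem (f j i) ((hT j).1 I) _ _).1 e2
  · rw [map_sum]
    exact Finset.sum_eq_zero fun j _ => by rw [cech_cf, h3, (hT j).2, smul_zero, map_zero]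
  · have h1 := congrArg (fun y => cpart (q + 1) (cmap (X.cf μ ((a : ℤ) + 1, 0)) y)) he
    simp only [cf_sg_self, cpart_of_mem hz.1, map_add, map_sum, hf, ← cech_cf] at h1
    simp only [← map_sum, ← map_add C, cf_C_decomp, h0, smul_zero, zero_add] at h1
    rw [Finset.sum_comm] at h1
    simp only [← Finset.smul_sum] at h1
    rw [map_sum] at h1
    simp only [cpart_smul] at h1
    rw [sub_eq_iff_eq_add'.2 h1]
    exact isBd_cpart (fun I => L_cast (hb I _ _).1 e1) (by rw [cmap_apply, hb0, map_zero])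

end Mod

end Pool.Agent.P.MP_824f38_ag.V
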