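import Pool.Agent.P.MP_824f38_ag.V.PresDefs

set_option linter.unusedVariables false
set_option linter.unusedSectionVars false

namespace Pool.Agent.P.MP_824f38_ag.V

theorem SmCert_lift {R Q S T C : Type} [CommRing R] [CommRing Q] [CommRing S] [CommRing T]
    [CommRing C] [Algebra R Q] [Algebra R S] [Algebra R T] [Algebra R C] [Algebra S T]
    [IsScalarTower R S T] (φ : Q →ₐ[R] S) (hφ : Function.Surjective φ) (g : Q) (g' : S)
    (hg : φ g = g') [IsLocalization.Away g' T] (e : Q →ₐ[R] C) (he : ∀ x, φ x = 0 → e x = 0)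
    (hu : IsUnit (e g)) : ∃ ψ : T →ₐ[R] C, ∀ x, ψ (algebraMap S T (φ x)) = e x := by
  let e' : S →ₐ[R] C := AlgHom.liftOfSurjective φ hφ e fun x hx => he x hx
  have he' : ∀ x, e' (φ x) = e x := fun x => AlgHom.liftOfSurjective_apply φ hφ e _ x
  have hu' : IsUnit (e' g') := by rw [← hg, he']; exact hu
  refine ⟨IsLocalization.Away.liftAlgHom g' hu', fun x => ?_⟩
  rw [IsLocalization.Away.liftAlgHom_apply, IsLocalization.Away.lift_eq]
  exact he' x

theorem SmCert_sq {Q ι : Type} [CommRing Q] [Fintype ι] (r : ι → Q) {x : Q}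
    (hx : x ∈ Ideal.span (Set.range r) ^ 2) :
    ∃ c : ι → ι → Q, x = ∑ u, ∑ u', c u u' * (r u * r u') := by
  rw [pow_two] at hx
  refine Submodule.mul_induction_on hx ?_ ?_
  · intro a ha b hb
    obtain ⟨c, rfl⟩ := Ideal.mem_span_range_iff_exists_fun.1 ha
    obtain ⟨d, rfl⟩ := Ideal.mem_span_range_iff_exists_fun.1 hb
    refine ⟨fun u u' => c u * d u', ?_⟩
    rw [Finset.sum_mul_sum]
    exact Finset.sum_congr rfl fun u _ => Finset.sum_congr rfl fun u' _ => by ring
  · rintro a b ⟨c, rfl⟩ ⟨d, rfl⟩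
    refine ⟨fun u u' => c u u' + d u u', ?_⟩
    simp only [add_mul, Finset.sum_add_distrib]

theorem SmCert_lift_sq {R Q T : Type} [CommRing R] [CommRing Q] [CommRing T] [Algebra R Q]
    [Algebra R T] [Algebra.FormallySmooth R T] (J : Ideal Q) (ψ : T →ₐ[R] Q ⧸ J) :
    ∃ L : T →ₐ[R] Q ⧸ J ^ 2, ∀ t z, Ideal.Quotient.mk (J ^ 2) z = L t →
      Ideal.Quotient.mk J z = ψ t := by
  let g : (Q ⧸ J ^ 2) →ₐ[R] Q ⧸ J := Ideal.Quotient.factorₐ R (Ideal.pow_le_self two_ne_zero)
  have hg0 : ∀ z, g (Ideal.Quotient.mk (J ^ 2) z) = Ideal.Quotient.mk J z := fun z => rfl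
  have hg : Function.Surjective g := fun y => by
    obtain ⟨z, rfl⟩ := Ideal.Quotient.mk_surjective y
    exact ⟨_, hg0 z⟩
  have hn : IsNilpotent (RingHom.ker g) := by
    refine ⟨2, ?_⟩
    rw [Ideal.zero_eq_bot, pow_two (RingHom.ker g), eq_bot_iff, Ideal.mul_le]
    intro a ha b hb
    obtain ⟨a, rfl⟩ := Ideal.Quotient.mk_surjective a
    obtain ⟨b, rfl⟩ := Ideal.Quotient.mk_surjective b
    rw [RingHom.mem_ker, hg0, Ideal.Quotient.eq_zero_iff_mem] at ha hb
    rw [Ideal.mem_bot, ← map_mul, Ideal.Quotient.eq_zero_iff_mem, pow_two]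
    exact Ideal.mul_mem_mul ha hb
  refine ⟨Algebra.FormallySmooth.liftOfSurjective ψ g hg hn, fun t z hz => ?_⟩
  rw [← hg0, hz]
  exact Algebra.FormallySmooth.liftOfSurjective_apply ψ g hg hn t

theorem SmCert_gen {R σ Q S T : Type} [CommRing R] [CommRing Q] [CommRing S] [CommRing T]
    [Algebra R Q] [Algebra R S] [Algebra R T] [Algebra S T] [IsScalarTower R S T]
    [Algebra.FormallySmooth R T] (φ : MvPolynomial σ R →ₐ[R] S) (hφ : Function.Surjective φ)
    (g : MvPolynomial σ R) (g' : S) (hg : φ g = g') [IsLocalization.Away g' T]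
    (ρ : MvPolynomial σ R →ₐ[R] Q) (J : Ideal Q) (he : ∀ x, φ x = 0 → ρ x ∈ J) (w : Q)
    (hw : w * ρ g - 1 ∈ J) : ∃ z : σ → Q, (∀ a, z a - ρ (MvPolynomial.X a) ∈ J) ∧
      ∀ x, φ x = 0 → MvPolynomial.aeval z x ∈ J ^ 2 := by
  let e : MvPolynomial σ R →ₐ[R] Q ⧸ J := (Ideal.Quotient.mkₐ R J).comp ρ
  have he0 : ∀ x, e x = Ideal.Quotient.mk J (ρ x) := fun x => rfl
  have hu : IsUnit (e g) := by
    rw [← Ideal.Quotient.eq, map_mul, map_one, mul_comm] at hw
    exact isUnit_iff_exists_inv.2 ⟨_, hw⟩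
  obtain ⟨ψ, hψ⟩ := SmCert_lift (T := T) φ hφ g g' hg e
    (fun x hx => Ideal.Quotient.eq_zero_iff_mem.2 (he x hx)) hu
  obtain ⟨L, hL⟩ := SmCert_lift_sq J ψ
  choose z hz using fun a : σ => Ideal.Quotient.mk_surjective (I := J ^ 2)
    (L (algebraMap S T (φ (MvPolynomial.X a))))
  refine ⟨z, fun a => by rw [← Ideal.Quotient.eq, hL _ _ (hz a), hψ, he0], fun x hx => ?_⟩
  have h2 : (Ideal.Quotient.mkₐ R (J ^ 2)).comp (MvPolynomial.aeval z) =
      L.comp ((IsScalarTower.toAlgHom R S T).comp φ) := by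
    refine MvPolynomial.algHom_ext fun a => ?_
    simpa using hz a
  have h4 := DFunLike.congr_fun h2 x
  simp only [AlgHom.comp_apply, hx, map_zero, Ideal.Quotient.mkₐ_eq_mk] at h4
  exact Ideal.Quotient.eq_zero_iff_mem.1 h4

namespace Pres

variable {k : Type} [CommRing k] {m : ℕ} {V : Type} {n s : ℕ}

/- Let `Q' = Qk k m (Option (Fin n))`, `J = span (range (A.rel i))`. There is a `Pk k m`-algebra map
`X.Ch {i} → Q' ⧸ J` with `φ (X a) ↦ X (some a)` (factor through `X.S` by `h.ker`, `h.surj`, then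
`IsLocalization.Away.lift`). Lift it along `Q' ⧸ J ^ 2 → Q' ⧸ J`
(`Algebra.FormallySmooth.exists_lift` or `liftOfSurjective`); `z a` represents the image of
`φ (X a)`. Membership in `J` and `J ^ 2 = span {rel u * rel u'}` gives `c`, `c'`
(`Ideal.mem_span_range_iff_exists_fun`). -/
theorem smCert_of_smooth {A : Pres k m V n s} {X : Mod k m V} (h : A.Presents X) (i : V)
    (hs : Algebra.Smooth (Pk k m) (X.Ch {i})) : A.SmCert i := by
  obtain ⟨z, h1, h3⟩ := SmCert_gen (T := X.Ch {i}) h.φ h.surj (A.g i) (X.g i) (h.hg i)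
    (MvPolynomial.rename some) (Ideal.span (Set.range (A.rel i)))
    (fun x hx => by
      have : A.I ≤ (Ideal.span (Set.range (A.rel i))).comap (MvPolynomial.rename some :
          Qk k m (Fin n) →ₐ[Pk k m] Qk k m (Option (Fin n))) := by
        refine Ideal.span_le.2 ?_
        rintro _ ⟨j, rfl⟩
        exact Ideal.subset_span ⟨some j, rfl⟩
      exact this ((h.ker x).1 hx))
    (MvPolynomial.X none) (Ideal.subset_span ⟨none, rfl⟩)
  choose c hc using fun a => Ideal.mem_span_range_iff_exists_fun.1 (h1 a)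
  choose c' hc' using fun j => SmCert_sq (A.rel i)
    (h3 (A.f j) ((h.ker _).2 (Ideal.subset_span ⟨j, rfl⟩)))
  refine ⟨z, c, c', fun a => ?_, hc'⟩
  rw [hc a, MvPolynomial.rename_X]

/- Formal smoothness (`Algebra.FormallySmooth.of_comp_surjective` or `iff_comp_surjective`): given
`ψ : Ch → C ⧸ J` with `J ^ 2 = 0`, lift the images of the variables and of the inverse of `g i`
to `C`; `ev : Q' → C` sends each `A.rel i u` into `J`. The map `X a ↦ ev (z a)` kills the
relations, agrees with `ψ` modulo `J`, and sends `g i` to a unit. Finite presentation: quotient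
by a finitely generated ideal, then `IsLocalization.Away.finitePresentation`. -/
theorem smooth_of_smCert (A : Pres k m V n s) (i : V) (h : A.SmCert i) :
    Algebra.Smooth (Pk k m) (A.toMod.Ch {i}) := by
  obtain ⟨z, c, c', hc, hc'⟩ := h
  let φ : Qk k m (Fin n) →ₐ[Pk k m] A.toMod.S := Ideal.Quotient.mkₐ (Pk k m) A.I
  have hφ : Function.Surjective φ := Ideal.Quotient.mkₐ_surjective (Pk k m) A.I
  have hker : ∀ x, φ x = 0 ↔ x ∈ A.I := fun x => Ideal.Quotient.eq_zero_iff_mem
  have hg : φ (A.g i) = A.toMod.g i := rfl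
  refine ⟨Algebra.FormallySmooth.of_comp_surjective fun B _ _ J hJ ψ => ?_, ?_⟩
  · choose y hy using fun a : Fin n => Ideal.Quotient.mk_surjective (I := J)
      (ψ (algebraMap A.toMod.S (A.toMod.Ch {i}) (φ (MvPolynomial.X a))))
    obtain ⟨w, hw⟩ := Ideal.Quotient.mk_surjective (I := J)
      (ψ (IsLocalization.Away.invSelf (S := A.toMod.Ch {i}) (A.toMod.g i)))
    let ev : Qk k m (Option (Fin n)) →ₐ[Pk k m] B := MvPolynomial.aeval fun o => o.elim w y
    let ψ' : Qk k m (Fin n) →ₐ[Pk k m] B ⧸ J :=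
      ψ.comp ((IsScalarTower.toAlgHom (Pk k m) A.toMod.S (A.toMod.Ch {i})).comp φ)
    have hψ' : ∀ x, ψ' x = ψ (algebraMap A.toMod.S (A.toMod.Ch {i}) (φ x)) := fun x => rfl
    have h1 : (Ideal.Quotient.mkₐ (Pk k m) J).comp (ev.comp (MvPolynomial.rename some)) = ψ' := by
      refine MvPolynomial.algHom_ext fun a => ?_
      rw [hψ', ← hy a]
      simp [ev]
    have h1' : ∀ x, Ideal.Quotient.mk J (ev (MvPolynomial.rename some x)) = ψ' x := fun x =>
      DFunLike.congr_fun h1 x
    have h2 : ∀ u, ev (A.rel i u) ∈ J := fun u => by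
      rw [← Ideal.Quotient.eq_zero_iff_mem]
      cases u with
      | none =>
        have e1 : ev (MvPolynomial.X none) = w := by simp [ev]
        rw [rel, map_sub, map_mul, map_one, map_sub, map_mul, map_one, h1', e1, hw, hψ', hg,
          ← map_mul, mul_comm, IsLocalization.Away.mul_invSelf, map_one, sub_self]
      | some j =>
        rw [rel, h1', hψ', (hker _).2 (Ideal.subset_span ⟨j, rfl⟩), map_zero, map_zero]
    let e : Qk k m (Fin n) →ₐ[Pk k m] B := ev.comp (MvPolynomial.aeval z)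
    have h3 : (Ideal.Quotient.mkₐ (Pk k m) J).comp e = ψ' := by
      refine MvPolynomial.algHom_ext fun a => ?_
      rw [← h1', MvPolynomial.rename_X]
      have e1 : e (MvPolynomial.X a) = ev (z a) := by simp [e]
      rw [AlgHom.comp_apply, e1, Ideal.Quotient.mkₐ_eq_mk, Ideal.Quotient.eq, ← map_sub, hc a,
        map_sum]
      exact Ideal.sum_mem _ fun u _ => by rw [map_mul]; exact J.mul_mem_left _ (h2 u)
    have h3' : ∀ x, Ideal.Quotient.mk J (e x) = ψ' x := fun x => DFunLike.congr_fun h3 x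
    have he : ∀ x, φ x = 0 → e x = 0 := fun x hx => by
      have : A.I ≤ RingHom.ker e := by
        refine Ideal.span_le.2 ?_
        rintro _ ⟨j, rfl⟩
        have e1 : e (A.f j) ∈ J ^ 2 := by
          rw [AlgHom.comp_apply, hc' j, map_sum]
          refine Ideal.sum_mem _ fun u _ => ?_
          rw [map_sum]
          refine Ideal.sum_mem _ fun u' _ => ?_
          rw [map_mul, map_mul, pow_two]
          exact Ideal.mul_mem_left _ _ (Ideal.mul_mem_mul (h2 u) (h2 u'))
        rw [hJ] at e1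
        exact e1
      exact this ((hker x).1 hx)
    have hu : IsUnit (e (A.g i)) := by
      rw [← IsNilpotent.isUnit_quotient_mk_iff (I := J) ⟨2, hJ⟩, h3', hψ', hg]
      exact (IsLocalization.Away.algebraMap_isUnit (A.toMod.g i)).map ψ
    obtain ⟨L, hL⟩ := SmCert_lift (T := A.toMod.Ch {i}) φ hφ (A.g i) (A.toMod.g i) hg e he hu
    refine ⟨L, AlgHom.coe_ringHom_injective (A.toMod.ch_ext fun t => ?_)⟩
    obtain ⟨x, rfl⟩ := hφ t
    exact (congrArg (Ideal.Quotient.mk J) (hL x)).trans (h3' x)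
  · have f1 : Algebra.FinitePresentation (Pk k m) A.toMod.S :=
      Algebra.FinitePresentation.quotient (I := A.I)
        (Submodule.fg_span (Set.finite_range A.f))
    have f2 : Algebra.FinitePresentation A.toMod.S (A.toMod.Ch {i}) :=
      IsLocalization.Away.finitePresentation (A.toMod.g i)
    exact Algebra.FinitePresentation.trans (Pk k m) A.toMod.S (A.toMod.Ch {i})

end Pres

end Pool.Agent.P.MP_824f38_ag.V
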