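import Pool.Agent.P.MP_824f38_ag.V.CharP
import Pool.Agent.P.MP_824f38_ag.V.SerreMod
import Pool.Agent.P.MP_824f38_ag.V.BCCech
import Pool.Agent.P.MP_824f38_ag.V.BCMod
import Pool.Agent.P.MP_824f38_ag.V.Hom
import Pool.Agent.P.MP_824f38_ag.V.SmCert
import Pool.Agent.P.MP_824f38_ag.V.PrCert
import Pool.Agent.P.MP_824f38_ag.V.Desc
import Pool.Agent.P.MP_824f38_ag.V.Stmts

/-! Reduction to positive characteristic. -/

set_option linter.unusedVariables false
set_option linter.unusedSectionVars false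
set_option linter.style.haveILetI false

namespace Pool.Agent.P.MP_824f38_ag.V

variable {m : ℕ} {V : Type} [LinearOrder V] [Fintype V]

theorem exists_descent (X : Mod ℂ m V) [Algebra.FiniteType ℂ X.S] (hP : X.Proper) (hs : X.Sm) :
    ∃ (A : Subalgebra ℤ ℂ) (Y : Mod A m V), Algebra.FiniteType ℤ A ∧ Algebra.FiniteType A Y.S ∧
      Y.Proper ∧ Y.Sm ∧ Nonempty (BC Y X) := by
  obtain ⟨n, s, B, ⟨h⟩⟩ := exists_presents X
  obtain ⟨A, B0, hA, rfl, h1, h2⟩ := exists_pres_descent B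
    (fun i => Pres.smCert_of_smooth h i (hs {i} (Finset.singleton_nonempty i)))
    (Pres.prCert_of_proper h hP)
  exact ⟨A, B0.toMod, hA, B0.finiteType_toMod, B0.proper_of_prCert h2,
    B0.toMod.sm_of' fun i => B0.smooth_of_smCert i (h1 i), B0.bc_of_presents X h⟩

namespace Mod

variable {k : Type} [CommRing k] (X : Mod k m V)

/-- cocycles as a module over the ring of degree zero -/
def ZS (p : ℕ) (l : Dg m) (q : ℕ) : Submodule X.S0 (∀ I, X.W I) where
  carrier := {z | IsCyc X.res (X.L p l) q z}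
  zero_mem' := ⟨zero_mem _, map_zero _⟩
  add_mem' := fun ha hb => ⟨add_mem ha.1 hb.1, by rw [map_add, ha.2, hb.2, add_zero]⟩
  smul_mem' := fun s z hz => ⟨fun I => ⟨zero_add l ▸ smul_mem_L s.2 (hz.1 I).1, fun h => by
      rw [Pi.smul_apply, (hz.1 I).2 h, smul_zero]⟩, by
    change cech X.res ((s : X.S) • z) = 0
    rw [cech_smul, hz.2, smul_zero]⟩

/-- coboundaries as a module over the ring of degree zero -/
def BS (p : ℕ) (l : Dg m) (q : ℕ) : Submodule X.S0 (∀ I, X.W I) where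
  carrier := {z | IsBd X.res (X.L p l) q z}
  zero_mem' := ⟨0, zero_mem _, rfl, map_zero _⟩
  add_mem' := by
    rintro _ _ ⟨a, ha, ha0, rfl⟩ ⟨b, hb, hb0, rfl⟩
    exact ⟨a + b, add_mem ha hb, by rw [Pi.add_apply, ha0, hb0, add_zero], map_add _ _ _⟩
  smul_mem' := by
    rintro s _ ⟨z, hz, hz0, rfl⟩
    exact ⟨s • z, fun I => ⟨zero_add l ▸ smul_mem_L s.2 (hz I).1, fun h => by
      rw [Pi.smul_apply, (hz I).2 h, smul_zero]⟩, by rw [Pi.smul_apply, hz0, smul_zero],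
      X.cech_smul (s : X.S) z⟩

end Mod

theorem nakayama_aux {R N : Type} [CommRing R] [AddCommGroup N] [Module R N] (Z B : Submodule R N)
    {n : ℕ} (t : Fin n → N) (ht : ∀ j, t j ∈ Z) (hZ : ∀ z ∈ Z, ∃ a : Fin n → R, z - ∑ j, a j • t j ∈ B)
    (Q : Ideal R) (hQ : ∀ z ∈ Z, z ∈ Q • Z ⊔ B) : ∃ r : R, r - 1 ∈ Q ∧ ∀ z ∈ Z, r • z ∈ B := by
  classical
  have hfg : (Z.map B.mkQ).FG := by
    refine ⟨Finset.univ.image (fun j => B.mkQ (t j)), le_antisymm ?_ ?_⟩
    · rw [Submodule.span_le]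
      intro x hx
      obtain ⟨j, -, rfl⟩ := Finset.mem_image.1 (Finset.mem_coe.1 hx)
      exact ⟨t j, ht j, rfl⟩
    · rintro _ ⟨z, hz, rfl⟩
      obtain ⟨a, ha⟩ := hZ z hz
      have : B.mkQ z = ∑ j, a j • B.mkQ (t j) := by
        have h0 : B.mkQ (z - ∑ j, a j • t j) = 0 := (Submodule.Quotient.mk_eq_zero B).2 ha
        simpa only [map_sub, map_sum, map_smul, sub_eq_zero] using h0
      rw [this]
      exact Submodule.sum_mem _ fun j _ => Submodule.smul_mem _ _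
        (Submodule.subset_span (by simp))
  obtain ⟨r, hr, h⟩ := Submodule.exists_sub_one_mem_and_smul_eq_zero_of_fg_of_le_smul Q _ hfg (by
    rintro _ ⟨z, hz, rfl⟩
    obtain ⟨x, hx, y, hy, rfl⟩ := Submodule.mem_sup.1 (hQ z hz)
    rw [map_add, show B.mkQ y = 0 from (Submodule.Quotient.mk_eq_zero B).2 hy, add_zero,
      ← Submodule.map_smul'']
    exact ⟨x, hx, rfl⟩)
  exact ⟨r, hr, fun z hz => (Submodule.Quotient.mk_eq_zero B).1 (h _ ⟨z, hz, rfl⟩)⟩

theorem finiteType_int (A B : Type) [CommRing A] [CommRing B] [Algebra A B]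
    [Algebra.FiniteType ℤ A] [Algebra.FiniteType A B] : Algebra.FiniteType ℤ B :=
  Algebra.FiniteType.trans (S := A) inferInstance inferInstance

theorem ctors_mul {A : Type} [CommRing A] (Y : Mod A m V) {t : A} (s : A) {p : ℕ} {l : Dg m}
    {q : ℕ} (h : Y.CTors t p l q) : Y.CTors (s * t) p l q := fun z hz => by
  have := (Y.BS p l q).smul_mem (algebraMap A Y.S0 s) (h z hz)
  rwa [algebraMap_smul, ← mul_smul] at this

/-- one step of the descending induction -/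
theorem tors_step {A : Type} [CommRing A] [IsDomain A] [CharZero A] [Algebra.FiniteType ℤ A]
    (Y : Mod A m V) [Algebra.FiniteType A Y.S] (hχ : ∀ j, 1 ≤ Y.χ j) (hP : Y.Proper) (hs : Y.Sm)
    {n : ℕ} (hd : Y.Dim n) (i j : ℕ) (hj : 1 ≤ j) (hij : n < i + j) (t : A) (ht : t ≠ 0)
    (h : ∀ q, j + 1 ≤ q → Y.CTors t i 1 q) : ∃ s : A, s ≠ 0 ∧ Y.CTors s i 1 j := by
  haveI : IsNoetherianRing A := Algebra.FiniteType.isNoetherianRing ℤ A
  by_contra hcon
  push Not at hcon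
  -- the annihilator of the cohomology meets `A` in zero
  let Ann : Ideal Y.S0 := (Y.BS i 1 j).colon (Y.ZS i 1 j)
  have hAnn : ∀ r : Y.S0, r ∈ Ann ↔ ∀ z ∈ Y.ZS i 1 j, r • z ∈ Y.BS i 1 j := fun r =>
    Submodule.mem_colon
  have hdis : Disjoint (Ann : Set Y.S0)
      ((nonZeroDivisors A).map (algebraMap A Y.S0) : Submonoid Y.S0) := by
    rw [Set.disjoint_left]
    rintro _ hr ⟨s, hs0, rfl⟩
    refine hcon s (nonZeroDivisors.ne_zero hs0) fun z hz => ?_
    have := (hAnn _).1 hr z hz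
    rwa [algebraMap_smul] at this
  obtain ⟨P, hPp, hAP, hPd⟩ := Ideal.exists_le_prime_disjoint Ann _ hdis
  have hinj : ∀ s : A, algebraMap A (Y.S0 ⧸ P) s = 0 → s = 0 := fun s h0 => by
    by_contra hne
    exact Set.disjoint_left.1 hPd (Ideal.Quotient.eq_zero_iff_mem.1 h0)
      ⟨s, mem_nonZeroDivisors_of_ne_zero hne, rfl⟩
  haveI : CharZero (Y.S0 ⧸ P) :=
    charZero_of_injective_ringHom ((injective_iff_map_eq_zero (algebraMap A _)).2 hinj)
  haveI := Y.finiteType_S0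
  haveI := finiteType_int A (Y.S0 ⧸ P)
  -- the bound of Serre vanishing
  choose e0 he0 using fun a => Y.serre_van hP a 0
  let e : ℕ := (Finset.range (n + 1)).sup e0 + 1
  obtain ⟨p, hp, hpb, ψ, hψ⟩ := exists_hom_zmod (Y.S0 ⧸ P) (algebraMap A _ t)
    (fun h0 => ht (hinj t h0)) (n + ∑ j, (e * Y.χ j).toNat)
  haveI := Fact.mk hp
  letI : Algebra A (ZMod (p ^ 2)) := (ψ.comp (algebraMap A _)).toAlgebra
  letI : Algebra (ZMod (p ^ 2)) (ZMod p) := (ZMod.castHom (dvd_pow_self p two_ne_zero) _).toAlgebra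
  letI : Algebra A (ZMod p) :=
    ((algebraMap (ZMod (p ^ 2)) (ZMod p)).comp (algebraMap A (ZMod (p ^ 2)))).toAlgebra
  haveI : IsScalarTower A (ZMod (p ^ 2)) (ZMod p) := IsScalarTower.of_algebraMap_eq fun _ => rfl
  obtain ⟨Y2, ⟨b2⟩⟩ := exists_BC Y (ZMod (p ^ 2))
  obtain ⟨Y1, ⟨b1⟩⟩ := exists_BC Y2 (ZMod p)
  obtain ⟨b⟩ := b2.trans b1
  have hbd : ∀ j, 1 ≤ e * Y.χ j ∧ e * Y.χ j < p := fun j => by
    have h1 : (1 : ℤ) ≤ e * Y.χ j := by
      have : (1 : ℤ) ≤ e := by simp [e]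
      nlinarith [hχ j]
    have h2 := Finset.single_le_sum (f := fun j => (e * Y.χ j).toNat) (fun _ _ => Nat.zero_le _)
      (Finset.mem_univ j)
    omega
  let r : Fin m → Fin p := fun j => ⟨(p - e * Y.χ j).toNat, by have := hbd j; omega⟩
  have hr : Mod.fdeg p 1 r = 0 + e • Y.χ := by
    funext j
    have := hbd j
    have h3 : (0 + e • Y.χ) j = e * Y.χ j := by simp
    simp only [h3, Mod.fdeg, r, Pi.one_apply, mul_one]
    omega
  have hex : CEx Y1.res (Y1.L i 1) j := by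
    refine charp b1 (b2.sm hs) (b.dim_up hd) (by omega) 1 r (fun a q ha hq => ?_) i j hij
    rw [hr]
    refine b.cex_of_bounded hs 1 (by simp) a _ 1 le_rfl (fun q hq z hz => ?_) q hq
    rw [one_smul]
    refine he0 a e ?_ q hq z hz
    exact (Finset.le_sup (f := e0) (Finset.mem_range.2 (by omega))).trans (Nat.le_succ _)
  let χ : Y.S0 →+* ZMod p :=
    (algebraMap (ZMod (p ^ 2)) (ZMod p)).comp (ψ.comp (Ideal.Quotient.mk P))
  obtain ⟨N, T, hT, hgen⟩ := Y.serre_fin hP i 1 j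
  obtain ⟨u, hu, hu'⟩ := nakayama_aux (Y.ZS i 1 j) (Y.BS i 1 j) T hT
    (fun z hz => by
      obtain ⟨a, ha, hb⟩ := hgen z hz
      exact ⟨fun j => ⟨a j, ha j⟩, hb⟩) (RingHom.ker χ)
    (fun z hz => by
      obtain ⟨N', c, y, hy, hb⟩ := b.cyc_down (ZMod.ringHom_surjective _) hs t
        (hψ.map (algebraMap (ZMod (p ^ 2)) (ZMod p))) i 1 j hj h hex z hz
      refine Submodule.mem_sup.2 ⟨∑ i, c i • y i, Submodule.sum_mem _ fun i _ => ?_, _, hb,
        by abel⟩
      rw [← algebraMap_smul Y.S0 (c i) (y i)]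
      exact Submodule.smul_mem_smul (hy i).1 (hy i).2)
  have h1 : χ u = 0 := by
    have : Ideal.Quotient.mk P u = 0 := Ideal.Quotient.eq_zero_iff_mem.2 (hAP ((hAnn u).2 hu'))
    simp [χ, this]
  rw [RingHom.mem_ker, map_sub, h1, map_one] at hu
  simp at hu

theorem tors_all {A : Type} [CommRing A] [IsDomain A] [CharZero A] [Algebra.FiniteType ℤ A]
    (Y : Mod A m V) [Algebra.FiniteType A Y.S] (hχ : ∀ j, 1 ≤ Y.χ j) (hP : Y.Proper) (hs : Y.Sm)
    {n : ℕ} (hd : Y.Dim n) (i d : ℕ) : ∀ j, 1 ≤ j → n < i + j → Fintype.card V ≤ j + d →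
      ∃ t : A, t ≠ 0 ∧ ∀ q, j ≤ q → Y.CTors t i 1 q := by
  induction d with
  | zero =>
    refine fun j _ _ h => ⟨1, one_ne_zero, fun q hq z hz => ?_⟩
    rw [one_smul]
    exact cex_of_card _ _ (by omega) z hz
  | succ d ih =>
    intro j h1 h2 h3
    obtain ⟨t, ht, h⟩ := ih (j + 1) (by omega) (by omega) (by omega)
    obtain ⟨s, hs0, hs'⟩ := tors_step Y hχ hP hs hd i j h1 h2 t ht h
    refine ⟨s * t, mul_ne_zero hs0 ht, fun q hq => ?_⟩
    rcases hq.eq_or_lt with rfl | hq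
    · exact mul_comm t s ▸ ctors_mul Y t hs'
    · exact ctors_mul Y s (h q hq)

theorem vanish : VanishStmt := by
  intro m V _ _ X ft hχ hP hs n hd p q hq hpq
  obtain ⟨A, Y, hA, hY, hP', hs', ⟨b⟩⟩ := exists_descent X hP hs
  have hinj : Function.Injective (algebraMap A ℂ) := Subtype.val_injective
  obtain ⟨t, ht, h⟩ := tors_all Y (b.hχ ▸ hχ) hP' hs' (b.dim_down hinj hs' hd) p
    (Fintype.card V) q hq hpq (by omega)
  haveI : Module.Flat A ℂ := by
    haveI : FaithfulSMul A ℂ := (faithfulSMul_iff_algebraMap_injective A ℂ).2 hinj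
    letI := FractionRing.liftAlgebra A ℂ
    haveI : Module.Flat A (FractionRing A) := IsLocalization.flat _ (nonZeroDivisors A)
    exact Module.Flat.trans A (FractionRing A) ℂ
  exact b.cex_of_flat t (Ne.isUnit fun h0 => ht (hinj (h0.trans (map_zero _).symm))) p 1 q hq
    (h q le_rfl)

end Pool.Agent.P.MP_824f38_ag.V
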