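import Pool.Agent.P.MP_824f38_ag.V.CartDefs

set_option linter.unusedVariables false
set_option linter.unusedSectionVars false

namespace Pool.Agent.P.MP_824f38_ag.V

/-- the Frobenius map of a ring in which `p` vanishes -/
def OpA_frob (p : ℕ) [Fact p.Prime] {B : Type} [CommRing B] (hp : (p : B) = 0) : B →+* B where
  toFun a := a ^ p
  map_one' := one_pow p
  map_mul' a b := mul_pow a b p
  map_zero' := zero_pow (Fact.out : p.Prime).ne_zero
  map_add' a b := by
    obtain ⟨r, hr⟩ := exists_add_pow_prime_eq (Fact.out : p.Prime) a b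
    rw [hr, hp]
    simp

section
variable {k A T : Type} [CommRing k] [CommRing A] [Algebra k A] [Ring T]

theorem OpA_alt_central (φ : A →+* T) (hφ : ∀ a t, φ a * t = t * φ a)
    (D : A →+ T) (hD : ∀ a b, D (a * b) = φ a * D b + φ b * D a)
    (hk : ∀ c : k, D (algebraMap k A c) = 0) (c : ℕ → ℕ) :
    ∃ F : DRk k A →+ T, ∀ (i : ℕ) (b : A) (a : Fin i → A), F (fn k b * wdk k a) =
      φ b * (c i • ∑ π : Equiv.Perm (Fin i),
        (Equiv.Perm.sign π : ℤ) • (List.ofFn fun t => D (a (π t))).prod) := by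
  let _ : Algebra A T := φ.toAlgebra' hφ
  let _ : Module k T := Module.compHom T (algebraMap k A)
  have hs : ∀ (a : A) (t : T), a • t = φ a * t := fun _ _ => rfl
  have hs' : ∀ (c : k) (t : T), c • t = φ (algebraMap k A c) * t := fun _ _ => rfl
  have : IsScalarTower k A T := ⟨fun c a t => by
    rw [hs, hs', hs, Algebra.smul_def, map_mul, mul_assoc]⟩
  let D' : Derivation k A T := Derivation.mk'
    { toFun := D
      map_add' := D.map_add
      map_smul' := fun c a => by
        rw [Algebra.smul_def, hD, hk, mul_zero, add_zero]; rfl }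
    (fun a b => hD a b)
  let l := D'.liftKaehlerDifferential
  have hl : ∀ a, l (KaehlerDifferential.D k A a) = D a := fun a =>
    Derivation.liftKaehlerDifferential_comp_D D' a
  refine ⟨(ExteriorAlgebra.liftAlternating fun i => c i • MultilinearMap.alternatization
    ((MultilinearMap.mkPiAlgebraFin A i T).compLinearMap fun _ => l)).toAddMonoidHom,
    fun i b a => ?_⟩
  rw [← smul_eq, LinearMap.toAddMonoidHom_coe, map_smul, wdk_eq_ιMulti,
    ExteriorAlgebra.liftAlternating_apply_ιMulti, hs, AlternatingMap.smul_apply,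
    MultilinearMap.alternatization_apply]
  simp only [MultilinearMap.domDomCongr_apply, MultilinearMap.compLinearMap_apply,
    MultilinearMap.mkPiAlgebraFin_apply, hl, Units.smul_def]

theorem OpA_alt (φ : A →+* T) (D : A →+ T) (hφ : ∀ a b, φ a * D b = D b * φ a)
    (hD : ∀ a b, D (a * b) = φ a * D b + φ b * D a)
    (hk : ∀ c : k, D (algebraMap k A c) = 0) (c : ℕ → ℕ) :
    ∃ F : DRk k A →+ T, ∀ (i : ℕ) (b : A) (a : Fin i → A), F (fn k b * wdk k a) =
      φ b * (c i • ∑ π : Equiv.Perm (Fin i),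
        (Equiv.Perm.sign π : ℤ) • (List.ofFn fun t => D (a (π t))).prod) := by
  let C : Subring T := Subring.centralizer (Set.range φ)
  have h1 : ∀ a, φ a ∈ C := fun a => Subring.mem_centralizer_iff.2 (by
    rintro _ ⟨b, rfl⟩; rw [← map_mul, ← map_mul, mul_comm])
  have h2 : ∀ a, D a ∈ C := fun a => Subring.mem_centralizer_iff.2 (by
    rintro _ ⟨b, rfl⟩; exact hφ b a)
  obtain ⟨F, hF⟩ := OpA_alt_central (k := k) (φ.codRestrict C h1)
    (fun a t => Subtype.ext (Subring.mem_centralizer_iff.1 t.2 _ ⟨a, rfl⟩))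
    (D.codRestrict C h2) (fun a b => Subtype.ext (hD a b)) (fun c => Subtype.ext (hk c)) c
  refine ⟨C.subtype.toAddMonoidHom.comp F, fun i b a => ?_⟩
  change C.subtype (F _) = _
  rw [hF]
  simp only [map_mul, map_nsmul, map_sum, map_zsmul, map_list_prod, List.map_ofFn]
  rfl

end

namespace DId

variable {p : ℕ} [Fact p.Prime] {P B V : Type} [CommRing P] [CommRing B] [Algebra P B]
  [LinearOrder V] (D : DId p P B V)

theorem Z_mem (v : V) (a : B) : D.Z v a ∈ Fk P B 1 := by
  obtain ⟨u, hu⟩ := D.Z_cart v a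
  rw [hu]
  exact add_mem (fn_mul_mem _ (dk_mem a)) (dk_mem u)

theorem Z_closed (v : V) (a : B) : dR (D.Z v a) = 0 := by
  obtain ⟨u, hu⟩ := D.Z_cart v a
  rw [hu, map_add, dR_dk, dR_mul, dR_dk, dR_fn, mul_zero, add_zero, add_zero]
  rcases p - 1 with _ | n
  · simp
  · rw [dk_pow, mul_assoc, dk_sq, mul_zero]

/- `exists_lift` with `φ = fn ∘ frobenius`, `D = Z v`; `one_sq` -/
theorem exists_theta (hp : (p : B) = 0) (v : V) : ∃ Θ, D.IsTheta v Θ ∧ IsCart p Θ := by
  obtain ⟨Θ, h1, h2⟩ := exists_lift (k := P) ((fn P).comp (OpA_frob p hp)) (D.Z v)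
    (fun _ _ => fn_comm _ _) (D.Z_mul v) (D.Z_base v) (fun a => one_sq (D.Z_mem v a))
  exact ⟨Θ, ⟨h1, h2⟩, h1, fun a => (h2 a).symm ▸ D.Z_cart v a⟩

theorem OpA_zF_add (F : Finset V) (a b : B) : D.zF F (a + b) = D.zF F a + D.zF F b := by
  unfold zF
  split_ifs <;> simp

theorem OpA_hF_add (F F' : Finset V) (a b : B) :
    D.hF F F' (a + b) = D.hF F F' a + D.hF F F' b := by
  unfold hF
  split_ifs <;> simp

theorem OpA_zF_mul (F : Finset V) (a b : B) :
    D.zF F (a * b) = fn P (a ^ p) * D.zF F b + fn P (b ^ p) * D.zF F a := by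
  unfold zF
  split_ifs
  · exact D.Z_mul _ a b
  · simp

theorem OpA_hF_mul (F F' : Finset V) (a b : B) :
    D.hF F F' (a * b) = a ^ p * D.hF F F' b + b ^ p * D.hF F F' a := by
  unfold hF
  split_ifs
  · exact D.H_mul _ _ a b
  · simp

theorem OpA_zF_base (F : Finset V) (c : P) : D.zF F (algebraMap P B c) = 0 := by
  unfold zF
  split_ifs
  · exact D.Z_base _ c
  · rfl

theorem OpA_hF_base (F F' : Finset V) (c : P) : D.hF F F' (algebraMap P B c) = 0 := by
  unfold hF
  split_ifs
  · exact D.H_base _ _ c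
  · rfl

/-- multiplication of cochains by a function -/
noncomputable def OpA_mul (P B V : Type) [CommRing P] [CommRing B] [Algebra P B] :
    B →+* AddMonoid.End (Finset V → DRk P B) :=
  Module.toAddMonoidEnd B (Finset V → DRk P B)

theorem OpA_mul_apply (b : B) (β : Finset V → DRk P B) (F : Finset V) :
    OpA_mul P B V b β F = fn P b * β F := smul_eq b (β F)

theorem OpA_ext {f g : AddMonoid.End (Finset V → DRk P B)} (h : ∀ β F, f β F = g β F) : f = g :=
  AddMonoidHom.ext fun β => funext (h β)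

theorem OpA_comm (a : B) (x y : DRk P B) : x * (fn P a * y) = fn P a * (x * y) := by
  rw [← mul_assoc, ← fn_comm, mul_assoc]

theorem exists_op (hp : (p : B) = 0) : ∃ A, D.IsOp A := by
  have hm : ∀ (f g : AddMonoid.End (Finset V → DRk P B)) β, (f * g) β = f (g β) := fun _ _ _ => rfl
  have ha : ∀ (f g : AddMonoid.End (Finset V → DRk P B)) β F, (f + g) β F = f β F + g β F :=
    fun _ _ _ _ => rfl
  have hφ : ∀ (b : B) β F, ((OpA_mul P B V).comp (OpA_frob p hp)) b β F = fn P (b ^ p) * β F :=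
    fun b β F => OpA_mul_apply _ β F
  let T' : B →+ AddMonoid.End (Finset V → DRk P B) := AddMonoidHom.mk' D.T fun a b =>
    OpA_ext fun β F => by
      simp only [ha, T_apply, OpA_zF_add, OpA_hF_add, map_add, add_mul, smul_add,
        Finset.sum_add_distrib]
      abel
  have hT : ∀ a, T' a = D.T a := fun _ => rfl
  obtain ⟨A, hA⟩ := OpA_alt (k := P) ((OpA_mul P B V).comp (OpA_frob p hp)) T'
    (fun a b => OpA_ext fun β F => by
      simp only [hm, hφ, hT, T_apply, mul_add, Finset.mul_sum, mul_smul_comm,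
        OpA_comm (a ^ p)])
    (fun a b => OpA_ext fun β F => by
      simp only [ha, hm, hφ, hT, T_apply, OpA_zF_mul, OpA_hF_mul, map_add, map_mul, add_mul,
        mul_add, smul_add, Finset.sum_add_distrib, Finset.mul_sum, mul_smul_comm, mul_assoc]
      abel)
    (fun c => OpA_ext fun β F => by
      simp [hT, T_apply, OpA_zF_base, OpA_hF_base])
    (fun i => ((i.factorial : ZMod p)⁻¹).val)
  refine ⟨A, fun i b a β F => ?_⟩
  rw [hA, hm, hφ]
  rfl

end DId

end Pool.Agent.P.MP_824f38_ag.V
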