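import Pool.Agent.P.MP_824f38_ag.V.OpA

set_option linter.unusedVariables false
set_option linter.unusedSectionVars false

namespace Pool.Agent.P.MP_824f38_ag.V

namespace DId

variable {p : ℕ} [Fact p.Prime] {P B V : Type} [CommRing P] [CommRing B] [Algebra P B]
  [LinearOrder V] (D : DId p P B V)

theorem T_empty (a : B) (β : Finset V → DRk P B) : D.T a β ∅ = 0 := by
  simp [T_apply, zF]

theorem OpB_Dt (β : Finset V → DRk P B) (F : Finset V) :
    Dt (cres V _) (fun _ => dR) β F =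
      ∑ x ∈ F, sgn F x • β (F.erase x) + (-1 : ℤ) ^ F.card • dR (β F) := rfl

theorem OpB_sign {F : Finset V} {x : V} (hx : x ∈ F) :
    (-1 : ℤ) ^ (F.erase x).card = -(-1) ^ F.card := by
  rw [← Finset.card_erase_add_one hx, pow_succ, mul_neg_one, neg_neg]

theorem OpB_Dt_Dt (β : Finset V → DRk P B) :
    Dt (cres V _) (fun _ => dR) (Dt (cres V _) (fun _ => dR) β) = 0 := by
  funext F
  have h := congrFun (cech_cech (r := cres V (DRk P B))
    ⟨fun _ _ _ => rfl, fun _ _ _ _ _ _ => rfl⟩ β) F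
  change ∑ x ∈ F, sgn F x • ∑ y ∈ F.erase x, sgn (F.erase x) y • β ((F.erase x).erase y) = 0 at h
  simp only [OpB_Dt, smul_add, Finset.sum_add_distrib, h, map_add, map_zsmul, map_sum, dR_dR,
    smul_zero, add_zero, zero_add, Pi.zero_apply]
  rw [Finset.smul_sum, ← Finset.sum_add_distrib]
  refine Finset.sum_eq_zero fun x hx => ?_
  rw [OpB_sign hx, neg_smul, smul_neg, smul_comm, neg_add_cancel]

theorem OpB_Dt_T0 {z : DRk P B} (hz : z ∈ Fk P B 1) (hc : dR z = 0) (β : Finset V → DRk P B) :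
    Dt (cres V _) (fun _ => dR) (fun F => (-1 : ℤ) ^ F.card • (z * β F)) =
      -fun F => (-1 : ℤ) ^ F.card • (z * Dt (cres V _) (fun _ => dR) β F) := by
  funext F
  simp only [OpB_Dt, Pi.neg_apply, mul_add, smul_add, map_zsmul, dR_mul, hc, inv_of_mem hz,
    zero_mul, zero_add, pow_one, neg_mul, one_mul, Finset.mul_sum, Finset.smul_sum, neg_add,
    mul_smul_comm, smul_neg, ← Finset.sum_neg_distrib]
  congr 1
  refine Finset.sum_congr rfl fun x hx => ?_
  rw [OpB_sign hx, neg_smul, smul_neg, smul_comm]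

theorem OpB_T_eq (o : V) (a : B) (β : Finset V → DRk P B) (h : β ∅ = 0) :
    D.T a β = (fun F => (-1 : ℤ) ^ F.card • (D.Z o a * β F)) +
      Dt (cres V _) (fun _ => dR) (fun F => fn P (D.hF {o} F a) * β F) -
      fun F => fn P (D.hF {o} F a) * Dt (cres V _) (fun _ => dR) β F := by
  funext F
  rcases F.eq_empty_or_nonempty with rfl | hF
  · simp [T_empty, OpB_Dt, h]
  have e : ∀ G (hG : G.Nonempty), D.hF {o} G a = D.H o (G.min' hG) a := fun G hG => by
    rw [DId.hF, dif_pos ⟨Finset.singleton_nonempty o, hG⟩, Finset.min'_singleton]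
  have e1 : D.zF F a = D.Z o a + dk P (D.hF {o} F a) := by
    rw [zF, dif_pos hF, e F hF, ← D.Z_sub]
  have e2 : ∀ x, fn P (D.hF F (F.erase x) a) * β (F.erase x) =
      fn P (D.hF {o} (F.erase x) a) * β (F.erase x) - fn P (D.hF {o} F a) * β (F.erase x) := by
    intro x
    rcases (F.erase x).eq_empty_or_nonempty with h0 | h0
    · simp [h0, h]
    · rw [e _ h0, e F hF, D.H_add o (F.min' hF) ((F.erase x).min' h0), DId.hF, dif_pos ⟨hF, h0⟩,
        map_add, add_mul, add_sub_cancel_left]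
  simp only [T_apply, Pi.sub_apply, Pi.add_apply, OpB_Dt, e1, e2, add_mul, mul_add, smul_add,
    smul_sub, Finset.sum_sub_distrib, dR_mul, dR_fn, inv_fn, Finset.mul_sum, mul_smul_comm]
  abel

theorem Dt_T (a : B) (β : Finset V → DRk P B) (h : β ∅ = 0) :
    Dt (cres V _) (fun _ => dR) (D.T a β) = -D.T a (Dt (cres V _) (fun _ => dR) β) := by
  rcases isEmpty_or_nonempty V with hV | ⟨⟨o⟩⟩
  · funext F
    rw [Finset.eq_empty_of_isEmpty F]
    simp [OpB_Dt, T_empty]
  have h' : Dt (cres V _) (fun _ => dR) β ∅ = 0 := by simp [OpB_Dt, h]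
  rw [D.OpB_T_eq o a β h, D.OpB_T_eq o a _ h', map_sub, map_add, OpB_Dt_Dt, OpB_Dt_Dt,
    OpB_Dt_T0 (D.Z_mem o a) (D.Z_closed o a)]
  funext F
  simp only [Pi.sub_apply, Pi.add_apply, Pi.neg_apply, Pi.zero_apply, mul_zero]
  abel

theorem OpB_alt {i : ℕ} (a : Fin i → B) (β : Finset V → DRk P B) :
    D.Alt a β = ((i.factorial : ZMod p)⁻¹).val • ∑ π : Equiv.Perm (Fin i),
      (Equiv.Perm.sign π : ℤ) • ((List.ofFn fun t => a (π t)).map D.T).prod β := by
  have e : ∀ E : AddMonoid.End (Finset V → DRk P B), E β = AddMonoidHom.eval β E := fun _ => rfl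
  simp only [List.map_ofFn, Function.comp_def, e]
  exact (map_nsmul (AddMonoidHom.eval β) _ _).trans (congrArg _ ((map_sum _ _ _).trans
    (Finset.sum_congr rfl fun π _ => map_zsmul (AddMonoidHom.eval β) _ _)))

theorem OpB_list (S : ℕ → AddSubgroup (Finset V → DRk P B))
    (hT : ∀ n a, ∀ β ∈ S n, D.T a β ∈ S (n + 1)) (l : List B) {s : ℕ}
    {β : Finset V → DRk P B} (hβ : β ∈ S s) : (l.map D.T).prod β ∈ S (l.length + s) := by
  induction l with
  | nil => simpa using hβ
  | cons a l ih =>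
    rw [List.map_cons, List.prod_cons, List.length_cons, Nat.add_right_comm]
    exact hT _ a _ ih

/-- the cochains that vanish on a down-closed family -/
def OpB_van (P B : Type) [CommRing P] [CommRing B] [Algebra P B] (q : Finset V → Prop) :
    AddSubgroup (Finset V → DRk P B) where
  carrier := {β | ∀ F, q F → β F = 0}
  add_mem' := fun {a b} ha hb F hF => by rw [Pi.add_apply, ha F hF, hb F hF, add_zero]
  zero_mem' := fun _ _ => rfl
  neg_mem' := fun {a} ha F hF => by rw [Pi.neg_apply, ha F hF, neg_zero]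

theorem OpB_T_van {q : Finset V → Prop} (hq : ∀ F, ∀ x ∈ F, q F → q (F.erase x)) (a : B) :
    ∀ β ∈ OpB_van P B q, D.T a β ∈ OpB_van P B q := fun β hβ F hF => by
  rw [T_apply, hβ F hF, mul_zero, smul_zero, zero_add]
  exact Finset.sum_eq_zero fun x hx => by rw [hβ _ (hq F x hx hF), mul_zero, smul_zero]

theorem OpB_list_chain (l : List B) {β : Finset V → DRk P B} (h : β ∅ = 0) :
    Dt (cres V _) (fun _ => dR) ((l.map D.T).prod β) =
      (-1 : ℤ) ^ l.length • (l.map D.T).prod (Dt (cres V _) (fun _ => dR) β) := by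
  induction l with
  | nil => simp
  | cons a l ih =>
    have h0 : (l.map D.T).prod β ∅ = 0 := D.OpB_list (fun _ => OpB_van P B (· = ∅))
      (fun _ => D.OpB_T_van fun F x hx hF => by simp [hF]) l (s := 0)
      (fun F hF => by rw [hF, h]) ∅ rfl
    rw [List.map_cons, List.prod_cons, List.length_cons]
    change Dt _ _ (D.T a ((l.map D.T).prod β)) = _ • D.T a ((l.map D.T).prod _)
    rw [D.Dt_T a _ h0, ih, map_zsmul, pow_succ, mul_neg_one, neg_smul]

variable {D} {A : DRk P B →+ AddMonoid.End (Finset V → DRk P B)}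

theorem OpB_gen (hA : D.IsOp A) (S : ℕ → AddSubgroup (Finset V → DRk P B))
    (hT : ∀ n a, ∀ β ∈ S n, D.T a β ∈ S (n + 1))
    (hm : ∀ n c, ∀ β ∈ S n, (fun F => fn P c * β F) ∈ S n) {i s : ℕ} {ω : DRk P B}
    (hω : ω ∈ Fk P B i) {β : Finset V → DRk P B} (hβ : β ∈ S s) : A ω β ∈ S (i + s) := by
  refine Fk_wdk_induction (P := fun ω => A ω β ∈ S (i + s)) ?_ (fun x y hx hy => ?_)
    (fun b a => ?_) hω
  · rw [map_zero]
    exact zero_mem _
  · rw [map_add]
    exact add_mem hx hy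
  · rw [funext (hA i b a β)]
    refine hm _ _ _ ?_
    rw [OpB_alt]
    refine nsmul_mem (sum_mem fun π _ => zsmul_mem ?_ _) _
    simpa using D.OpB_list S hT (List.ofFn fun t => a (π t)) hβ

theorem OpB_op_van (hA : D.IsOp A) {q : Finset V → Prop}
    (hq : ∀ F, ∀ x ∈ F, q F → q (F.erase x)) (ω : DRk P B) {β : Finset V → DRk P B}
    (hβ : β ∈ OpB_van P B q) : A ω β ∈ OpB_van P B q := by
  induction ω using homog_induction with
  | h0 i ω hω =>
    exact OpB_gen hA (fun _ => OpB_van P B q) (fun _ => D.OpB_T_van hq)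
      (fun _ c γ hγ F hF => by
        change fn P c * γ F = 0
        rw [hγ F hF, mul_zero]) hω (s := 0) hβ
  | hadd x y hx hy =>
    rw [map_add]
    exact add_mem hx hy

theorem IsOp.empty (hA : D.IsOp A) (ω : DRk P B) (β : Finset V → DRk P B) (h : β ∅ = 0) :
    A ω β ∅ = 0 :=
  OpB_op_van hA (q := (· = ∅)) (fun F x hx hF => by simp [hF]) ω
    (fun F hF => by rw [hF, h]) ∅ rfl

theorem IsOp.chain (hp : (p : B) = 0) (hA : D.IsOp A) (ω : DRk P B) (β : Finset V → DRk P B)
    (h : β ∅ = 0) : Dt (cres V _) (fun _ => dR) (A ω β) =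
      A (inv ω) (Dt (cres V _) (fun _ => dR) β) := by
  induction ω using wdk_induction with
  | hz =>
    rw [map_zero inv, map_zero A]
    exact map_zero (Dt (cres V (DRk P B)) (fun _ => dR))
  | hadd x y hx hy =>
    rw [map_add, map_add, map_add]
    exact (map_add _ _ _).trans (congrArg₂ _ hx hy)
  | h i b a =>
    have e1 : inv (fn P b * wdk P a) = (-1 : ℤ) ^ i • (fn P b * wdk P a) := by
      rw [inv_of_mem (fn_mul_mem b (wdk_mem a)), zsmul_eq_mul]
      push_cast
      rfl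
    have e2 : Dt (cres V _) (fun _ => dR) (D.Alt a β) =
        (-1 : ℤ) ^ i • D.Alt a (Dt (cres V _) (fun _ => dR) β) := by
      simp only [OpB_alt, map_nsmul, map_sum, map_zsmul, D.OpB_list_chain _ h, List.length_ofFn]
      rw [smul_comm ((-1 : ℤ) ^ i), Finset.smul_sum (r := (-1 : ℤ) ^ i)]
      exact congrArg _ (Finset.sum_congr rfl fun π _ => smul_comm _ _ _)
    rw [e1, map_zsmul, funext (hA i b a β)]
    funext F
    change _ = (-1 : ℤ) ^ i • A (fn P b * wdk P a) _ F
    rw [hA, ← mul_smul_comm, ← Pi.smul_apply, ← e2]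
    simp only [OpB_Dt, dR_fn_mul (dk_pow_char p hp b), mul_add, Finset.mul_sum, mul_smul_comm]

theorem IsOp.supp (hA : D.IsOp A) (ω : DRk P B) (β : Finset V → DRk P B) (F0 : Finset V)
    (h : ∀ F, ¬F0 ⊆ F → β F = 0) (F : Finset V) (hF : ¬F0 ⊆ F) : A ω β F = 0 :=
  OpB_op_van hA (q := fun F => ¬F0 ⊆ F)
    (fun F x _ hF h' => hF (h'.trans (Finset.erase_subset x F))) ω h F hF

/-- the cochains of a given total degree -/
def OpB_td (P B V : Type) [CommRing P] [CommRing B] [Algebra P B] (s : ℕ) :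
    AddSubgroup (Finset V → DRk P B) where
  carrier := {β | TotDeg (B := fun _ => B) s β}
  add_mem' := fun {a b} ha hb F => ⟨fun n hn => add_mem ((ha F).1 n hn) ((hb F).1 n hn),
    fun hF => by rw [Pi.add_apply, (ha F).2 hF, (hb F).2 hF, add_zero]⟩
  zero_mem' := fun _ => ⟨fun _ _ => zero_mem _, fun _ => rfl⟩
  neg_mem' := fun {a} ha F => ⟨fun n hn => neg_mem ((ha F).1 n hn),
    fun hF => by rw [Pi.neg_apply, (ha F).2 hF, neg_zero]⟩

theorem IsOp.deg (hA : D.IsOp A) {i s : ℕ} {ω : DRk P B} (hω : ω ∈ Fk P B i)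
    {β : Finset V → DRk P B} (h : TotDeg (B := fun _ => B) s β) :
    TotDeg (B := fun _ => B) (i + s) (A ω β) := by
  refine OpB_gen hA (OpB_td P B V) (fun n a γ hγ F => ⟨fun r hr => ?_, fun hF => ?_⟩)
    (fun n c γ hγ F => ⟨fun r hr => fn_mul_mem c ((hγ F).1 r hr), fun hF => ?_⟩) hω h
  · rw [T_apply]
    refine add_mem (zsmul_mem ?_ _) (sum_mem fun x hx => zsmul_mem (fn_mul_mem _
      ((hγ _).1 r (by have := Finset.card_erase_add_one hx; omega))) _)
    rcases r with _ | r
    · rw [(hγ F).2 (by omega), mul_zero]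
      exact zero_mem _
    · have hz : D.zF F a ∈ Fk P B 1 := by
        unfold zF
        split_ifs
        · exact D.Z_mem _ a
        · exact zero_mem _
      exact add_comm 1 r ▸ mul_mem hz ((hγ F).1 r (by omega))
  · rw [T_apply, (hγ F).2 (by omega), mul_zero, smul_zero, zero_add]
    exact Finset.sum_eq_zero fun x hx => by
      rw [(hγ _).2 (by have := Finset.card_erase_add_one hx; omega), mul_zero, smul_zero]
  · change fn P c * γ F = 0
    rw [(hγ F).2 hF, mul_zero]

end DId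

end Pool.Agent.P.MP_824f38_ag.V
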