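import Pool.Agent.P.MP_824f38_ag.V.OpB

set_option linter.unusedVariables false
set_option linter.unusedSectionVars false

namespace Pool.Agent.P.MP_824f38_ag.V

namespace DId

variable {p : ℕ} [Fact p.Prime] {P B V : Type} [CommRing P] [CommRing B] [Algebra P B]
  [LinearOrder V] {D : DId p P B V} {A : DRk P B →+ AddMonoid.End (Finset V → DRk P B)}

/-- evaluation of an operator on a cochain at a set -/
def OpC_ev {N : Type} [AddCommGroup N] (β : Finset V → N) (F : Finset V) :
    AddMonoid.End (Finset V → N) →+ N :=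
  AddMonoidHom.mk' (fun T => T β F) (fun _ _ => rfl)

theorem OpC_mul {N : Type} [AddCommGroup N] (S T : AddMonoid.End N) (x : N) :
    (S * T) x = S (T x) := rfl

theorem OpC_alt (D : DId p P B V) {i : ℕ} (a : Fin i → B) (β : Finset V → DRk P B)
    (F : Finset V) : D.Alt a β F = ((i.factorial : ZMod p)⁻¹).val •
      ∑ π : Equiv.Perm (Fin i), (Equiv.Perm.sign π : ℤ) •
        (List.ofFn fun t => D.T (a (π t))).prod β F := by
  change OpC_ev β F (D.Alt a) = _
  rw [Alt, map_nsmul, map_sum]
  simp only [map_zsmul]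
  rfl

theorem OpC_prod (D : DId p P B V) {F0 : Finset V} (hF : F0.Nonempty) {i : ℕ} (a : Fin i → B)
    (β : Finset V → DRk P B) (h : ∀ F, ¬F0 ⊆ F → β F = 0) :
    (∀ F, ¬F0 ⊆ F → (List.ofFn fun t => D.T (a t)).prod β F = 0) ∧
      (List.ofFn fun t => D.T (a t)).prod β F0 = (-1 : ℤ) ^ (F0.card * i) •
        ((List.ofFn fun t => D.Z (F0.min' hF) (a t)).prod * β F0) := by
  induction i with
  | zero => exact ⟨fun F hF => by simpa using h F hF, by simp⟩
  | succ i ih =>
    obtain ⟨h1, h2⟩ := ih (fun t => a t.succ)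
    simp only [List.ofFn_succ, List.prod_cons, OpC_mul, T_apply]
    refine ⟨fun F hF => ?_, ?_⟩
    · rw [h1 F hF, Finset.sum_eq_zero fun x _ => by
        rw [h1 _ (fun hh => hF (hh.trans (Finset.erase_subset _ _))), mul_zero, smul_zero]]
      simp
    · rw [Finset.sum_eq_zero fun x hx => by
        rw [h1 _ (fun hh => Finset.notMem_erase x F0 (hh hx)), mul_zero, smul_zero], h2, zF,
        dif_pos hF, add_zero, mul_smul_comm, smul_smul, ← pow_add, mul_assoc, mul_add, mul_one,
        add_comm]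

theorem OpC_perm (D : DId p P B V) (v : V) {i : ℕ} (a : Fin i → B) (π : Equiv.Perm (Fin i)) :
    (Equiv.Perm.sign π : ℤ) • (List.ofFn fun t => D.Z v (a (π t))).prod =
      (List.ofFn fun t => D.Z v (a t)).prod := by
  have hm : ∀ x, ∃ m, ExteriorAlgebra.ι B m = D.Z v x := fun x => by
    have := D.Z_mem v x
    change _ ∈ _ ^ 1 at this
    rw [pow_one] at this
    exact this
  choose m hm using hm
  simp only [← hm]
  have h1 := (ExteriorAlgebra.ιMulti B i).map_perm (fun t => m (a t)) π
  rw [ExteriorAlgebra.ιMulti_apply, ExteriorAlgebra.ιMulti_apply] at h1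
  simp only [Function.comp_apply] at h1
  rw [h1, Units.smul_def, smul_smul, ← Units.val_mul, Int.units_mul_self, Units.val_one, one_smul]

theorem OpC_fact (hp : (p : B) = 0) {i : ℕ} (hi : i < p) (x : DRk P B) :
    ((i.factorial : ZMod p)⁻¹).val • i.factorial • x = x := by
  have hp' : p.Prime := Fact.out
  have h0 : (i.factorial : ZMod p) ≠ 0 := by
    rw [Ne, ZMod.natCast_eq_zero_iff, hp'.dvd_factorial]
    omega
  have h1 : (((i.factorial : ZMod p)⁻¹.val * i.factorial : ℕ) : ZMod p) = ((1 : ℕ) : ZMod p) := by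
    rw [Nat.cast_mul, ZMod.natCast_zmod_val, inv_mul_cancel₀ h0, Nat.cast_one]
  rw [ZMod.natCast_eq_natCast_iff'] at h1
  rw [smul_smul, ← Nat.div_add_mod (_ * _) p, h1, Nat.mod_eq_of_lt hp'.one_lt, add_smul, one_smul,
    mul_smul, ← Nat.cast_smul_eq_nsmul B p, hp, zero_smul, zero_add]

theorem OpC_nat {B' : Type} [CommRing B'] [Algebra P B'] {D' : DId p P B' V}
    {φ : B →+* B'} {hc : Compat P P φ} {I : Finset V} (hn : D.Nat D' φ hc I) {i : ℕ}
    (a : Fin i → B) (β : Finset V → DRk P B) (β' : Finset V → DRk P B')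
    (h : ∀ F, F ⊆ I → pullk φ hc (β F) = β' F) (F : Finset V) (hF : F ⊆ I) :
    pullk φ hc ((List.ofFn fun t => D.T (a t)).prod β F) =
      (List.ofFn fun t => D'.T (φ (a t))).prod β' F := by
  induction i generalizing F with
  | zero => simpa using h F hF
  | succ i ih =>
    have h1 := ih (fun t => a t.succ)
    simp only [List.ofFn_succ, List.prod_cons, OpC_mul, T_apply, map_add, map_sum,
      map_zsmul, map_mul, pullk_fn]
    congr 1
    · rw [h1 F hF]
      congr 2
      unfold zF
      by_cases hne : F.Nonempty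
      · rw [dif_pos hne, dif_pos hne, hn.Z _ (hF (F.min'_mem hne))]
      · rw [dif_neg hne, dif_neg hne, map_zero]
    · refine Finset.sum_congr rfl fun x _ => ?_
      have hx : F.erase x ⊆ I := (Finset.erase_subset _ _).trans hF
      rw [h1 _ hx]
      congr 3
      unfold DId.hF
      by_cases hne : F.Nonempty ∧ (F.erase x).Nonempty
      · rw [dif_pos hne, dif_pos hne,
          hn.H _ (hF (F.min'_mem hne.1)) _ (hx ((F.erase x).min'_mem hne.2))]
      · rw [dif_neg hne, dif_neg hne, map_zero]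

/- On cochains supported on the supersets of `F0`, `(T a β) F0 = ε • Z (min F0) a * β F0`, and `T`
preserves this support. The one-forms `Z v a` anticommute: write `Z v a = ι (m a)` and use
`AlternatingMap.map_perm` for `ExteriorAlgebra.ιMulti`. The sum over permutations gives `i!`,
and `((i! : ZMod p)⁻¹).val * i! ≡ 1 mod p` for `i < p`. -/
theorem IsOp.lead (hp : (p : B) = 0) (hA : D.IsOp A) {F0 : Finset V} (hF : F0.Nonempty)
    {Θ : DRk P B →+* DRk P B} (hΘ : D.IsTheta (F0.min' hF) Θ) {i : ℕ} (hi : i < p) {ω : DRk P B}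
    (hω : ω ∈ Fk P B i) (β : Finset V → DRk P B) (h : ∀ F, ¬F0 ⊆ F → β F = 0) :
    A ω β F0 = (-1 : ℤ) ^ (F0.card * i) • (Θ ω * β F0) := by
  refine Fk_wdk_induction
    (P := fun ω => A ω β F0 = (-1 : ℤ) ^ (F0.card * i) • (Θ ω * β F0)) ?_
    (fun x y h1 h2 => ?_) (fun b a => ?_) hω
  · simp
  · rw [map_add, map_add, add_mul, smul_add, ← h1, ← h2]; rfl
  · have hw : Θ (wdk P a) = (List.ofFn fun t => D.Z (F0.min' hF) (a t)).prod := by
      rw [wdk, map_list_prod, List.map_ofFn]
      congr 2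
      funext t
      exact hΘ.2 _
    have h2 : ∀ π : Equiv.Perm (Fin i), (Equiv.Perm.sign π : ℤ) •
        (List.ofFn fun t => D.T (a (π t))).prod β F0 =
        (-1 : ℤ) ^ (F0.card * i) • (Θ (wdk P a) * β F0) := fun π => by
      rw [(OpC_prod D hF (fun t => a (π t)) β h).2, smul_comm, ← smul_mul_assoc, OpC_perm, hw]
    rw [hA, OpC_alt, Finset.sum_congr rfl fun π _ => h2 π, Finset.sum_const, Finset.card_univ,
      Fintype.card_perm, Fintype.card_fin, OpC_fact hp hi, map_mul, hΘ.1, mul_smul_comm, mul_assoc]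

/- the relation `∀ F ⊆ I, pullk (β F) = β' F` is preserved by `T a`, `T (φ a)`; `pullk_wdk` -/
theorem IsOp.nat {B' : Type} [CommRing B'] [Algebra P B'] {D' : DId p P B' V}
    {A' : DRk P B' →+ AddMonoid.End (Finset V → DRk P B')} (hA : D.IsOp A) (hA' : D'.IsOp A')
    {φ : B →+* B'} {hc : Compat P P φ} {I : Finset V} (hn : D.Nat D' φ hc I) (ω : DRk P B)
    (β : Finset V → DRk P B) (β' : Finset V → DRk P B')
    (h : ∀ F, F ⊆ I → pullk φ hc (β F) = β' F) (F : Finset V) (hF : F ⊆ I) :
    pullk φ hc (A ω β F) = A' (pullk φ hc ω) β' F := by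
  induction ω using wdk_induction with
  | hz => simp
  | hadd x y h1 h2 =>
    rw [map_add, map_add, map_add]
    change pullk φ hc (A x β F + A y β F) = A' _ β' F + A' _ β' F
    rw [map_add, h1, h2]
  | h i b a =>
    rw [map_mul (pullk φ hc), pullk_fn, pullk_wdk, hA, hA', map_mul, pullk_fn, map_pow, OpC_alt,
      OpC_alt, map_nsmul, map_sum]
    simp only [map_zsmul, OpC_nat hn _ β β' h F hF]

end DId

end Pool.Agent.P.MP_824f38_ag.V
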