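import Pool.Agent.P.MP_824f38_ag.V.PresDefs
import Pool.Agent.P.MP_824f38_ag.V.BCLib
import Pool.Agent.P.MP_824f38_ag.V.Gens

set_option linter.unusedVariables false
set_option linter.unusedSectionVars false

namespace Pool.Agent.P.MP_824f38_ag.V

open TensorProduct

theorem PresBC_CC {k : Type} [CommRing k] {m : ℕ} {V τ : Type} {X : Mod k m V}
    (φ : Qk k m τ →ₐ[Pk k m] X.S) (c : k) :
    φ (MvPolynomial.C (MvPolynomial.C c)) = algebraMap k X.S c :=
  (φ.commutes _).trans (IsScalarTower.algebraMap_apply k (Pk k m) X.S c).symm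

theorem PresBC_mem {k : Type} [CommRing k] {m : ℕ} {V τ : Type} {X : Mod k m V} {d : τ → Dg m}
    (φ : Qk k m τ →ₐ[Pk k m] X.S) (hy : ∀ a, φ (MvPolynomial.X a) ∈ X.H (d a)) {l : Dg m}
    {x : Qk k m τ} (hx : x ∈ Hg (ρQ k d) l) : φ x ∈ X.H l := by
  have h1 : ∀ {l x}, x ∈ Hg (ρQ k d) l → φ x ∈ X.H l → X.ρ (φ x) =
      AddMonoidAlgebra.mapRingHom (Dg m) (φ : Qk k m τ →+* X.S) (ρQ k d x) := fun h1 h2 => by
    rw [mem_Hg.1 h1, mem_Hg.1 h2, AddMonoidAlgebra.mapRingHom_single]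
    rfl
  have h2 : X.ρ.comp (φ : Qk k m τ →+* X.S) =
      (AddMonoidAlgebra.mapRingHom (Dg m) (φ : Qk k m τ →+* X.S)).comp (ρQ k d) :=
    MvPolynomial.ringHom_ext' (MvPolynomial.ringHom_ext
      (fun c => h1 (ρQ_CC d c) (PresBC_CC φ c ▸ X.hk c))
      fun j => h1 (ρQ_CX d j) ((φ.commutes _).symm ▸ X.hσ j)) fun i => h1 (ρQ_X d i) (hy i)
  refine (DFunLike.congr_fun h2 x).trans ?_
  rw [RingHom.comp_apply, mem_Hg.1 hx, AddMonoidAlgebra.mapRingHom_single]
  rfl

theorem PresBC_pr {k : Type} [CommRing k] {m : ℕ} {V τ : Type} {X : Mod k m V} {d : τ → Dg m}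
    (φ : Qk k m τ →ₐ[Pk k m] X.S) (hy : ∀ a, φ (MvPolynomial.X a) ∈ X.H (d a)) (l : Dg m)
    (x : Qk k m τ) : φ (pr (ρQ k d) l x) = pr X.ρ l (φ x) :=
  ((isCo_ρQ d).pr_comm (φ : Qk k m τ →+* X.S).toAddMonoidHom id Function.injective_id
    (fun _ _ h => PresBC_mem φ hy h) l x).symm

namespace Pres

variable {k k' : Type} [CommRing k] [CommRing k'] {m : ℕ} {V : Type} {n s : ℕ}

theorem Presents.mem {A : Pres k m V n s} {X : Mod k m V} (h : A.Presents X) {l : Dg m}
    {x : Qk k m (Fin n)} (hx : x ∈ Hg (ρQ k A.d) l) : h.φ x ∈ X.H l := PresBC_mem h.φ h.hy hx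

theorem PresBC_isBC [Algebra k k'] (A : Pres k m V n s) (X : Mod k' m V)
    (h : (A.map (algebraMap k k')).Presents X) {S : Type} [CommRing S] [Algebra k S]
    (π : Qk k m (Fin n) →ₐ[k] S) (hπ : Function.Surjective π) (hI : ∀ j, π (A.f j) = 0)
    (β : S →+* X.S) (hβ : ∀ x, β (π x) = h.φ (mapQ (algebraMap k k') m _ x))
    (hk : ∀ c, β (algebraMap k _ c) = algebraMap k' X.S (algebraMap k k' c)) : IsBC k k' β := by
  let : Algebra k X.S := ((algebraMap k' X.S).comp (algebraMap k k')).toAlgebra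
  have : IsScalarTower k k' X.S := IsScalarTower.of_algebraMap_eq fun _ => rfl
  let F : k' ⊗[k] S →ₐ[k'] X.S :=
    Algebra.TensorProduct.lift (Algebra.ofId k' X.S) ⟨β, hk⟩ fun _ _ => Commute.all _ _
  have hF : ∀ x, F (1 ⊗ₜ x) = β x := fun x => by simp [F]
  let G : Qk k' m (Fin n) →+* k' ⊗[k] S := MvPolynomial.eval₂Hom
    (MvPolynomial.eval₂Hom (algebraMap k' _)
      fun j => (1 : k') ⊗ₜ[k] π (MvPolynomial.C (MvPolynomial.X j)))
    fun i => (1 : k') ⊗ₜ[k] π (MvPolynomial.X i)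
  have hC : ∀ c, G (MvPolynomial.C (MvPolynomial.C c)) = algebraMap k' _ c := fun c => by
    simp only [G, MvPolynomial.eval₂Hom_C]
  have hG : ∀ x, G (mapQ (algebraMap k k') m _ x) = 1 ⊗ₜ π x := fun x => by
    refine DFunLike.congr_fun (?_ : G.comp (mapQ (algebraMap k k') m _) =
      ((Algebra.TensorProduct.includeRight (R := k) (A := k')).comp π).toRingHom) x
    refine MvPolynomial.ringHom_ext' (MvPolynomial.ringHom_ext (fun c => ?_) fun j => ?_)
      fun i => ?_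
    · simp only [mapQ, RingHom.comp_apply, MvPolynomial.map_C, hC]
      rw [← IsScalarTower.algebraMap_apply]
      exact (((Algebra.TensorProduct.includeRight (R := k) (A := k')).comp π).commutes c).symm
    · simp [G, mapQ]
    · simp [G, mapQ]
  have hFG : ∀ y, F (G y) = h.φ y := fun y => by
    refine DFunLike.congr_fun (?_ : F.toRingHom.comp G = h.φ.toRingHom) y
    refine MvPolynomial.ringHom_ext' (MvPolynomial.ringHom_ext (fun c => ?_) fun j => ?_)
      fun i => ?_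
    · exact ((congrArg F (hC c)).trans (F.commutes c)).trans (PresBC_CC h.φ c).symm
    · simp [G, hF, hβ, mapQ]
    · simp [G, hF, hβ, mapQ]
  have hs : Function.Surjective G := fun z => by
    induction z with
    | zero => exact ⟨0, map_zero G⟩
    | tmul c x =>
      obtain ⟨x, rfl⟩ := hπ x
      refine ⟨MvPolynomial.C (MvPolynomial.C c) * mapQ (algebraMap k k') m _ x, ?_⟩
      rw [map_mul, hC, hG]
      simp
    | add x y hx hy =>
      obtain ⟨x, rfl⟩ := hx
      obtain ⟨y, rfl⟩ := hy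
      exact ⟨x + y, map_add G x y⟩
  refine ⟨LinearEquiv.ofBijective F.toLinearMap
    ⟨(injective_iff_map_eq_zero F).2 fun z hz => ?_, fun z => ?_⟩, hF⟩
  · obtain ⟨y, rfl⟩ := hs z
    refine (Ideal.span_le (I := RingHom.ker G)).2 ?_ ((h.ker y).1 ((hFG y).symm.trans hz))
    rintro _ ⟨j, rfl⟩
    exact (hG (A.f j)).trans (by rw [hI, tmul_zero])
  · obtain ⟨y, rfl⟩ := h.surj z
    exact ⟨G y, hFG y⟩

theorem bc_of_presents [Algebra k k'] (A : Pres k m V n s) (X : Mod k' m V)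
    (h : (A.map (algebraMap k k')).Presents X) : Nonempty (BC A.toMod X) := by
  let β : (Qk k m (Fin n) ⧸ A.I) →+* X.S := Ideal.Quotient.lift A.I
    (h.φ.toRingHom.comp (mapQ (algebraMap k k') m _)) fun a ha => by
      refine (Ideal.span_le (I := RingHom.ker _)).2 ?_ ha
      rintro _ ⟨j, rfl⟩
      exact (h.ker _).2 (Ideal.subset_span ⟨j, rfl⟩)
  have hβ : ∀ x, β (Ideal.Quotient.mk A.I x) = h.φ (mapQ (algebraMap k k') m _ x) := fun _ => rfl
  have hk : ∀ c, β (algebraMap k _ c) = algebraMap k' X.S (algebraMap k k' c) := fun c => by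
    refine (hβ (MvPolynomial.C (MvPolynomial.C c))).trans ?_
    rw [mapQ, MvPolynomial.map_C, MvPolynomial.map_C, PresBC_CC]
  refine ⟨β, hk, fun j => ?_, fun l x hx => ?_, h.hχ, h.hg,
    PresBC_isBC A X h (S := A.toMod.S) (Ideal.Quotient.mkₐ k A.I) Ideal.Quotient.mk_surjective
      (fun j => (Ideal.Quotient.eq_zero_iff_mem (I := A.I)).2 (Ideal.subset_span ⟨j, rfl⟩))
      β hβ hk⟩
  · refine (hβ (MvPolynomial.C (MvPolynomial.X j))).trans ?_
    rw [mapQ, MvPolynomial.map_C, MvPolynomial.map_X]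
    exact h.φ.commutes _
  · obtain ⟨x, rfl⟩ := Ideal.Quotient.mk_surjective x
    have h1 := (isCo_ρQ A.d).pr_comm (ρ' := A.ρ) (Ideal.Quotient.mk A.I).toAddMonoidHom id
      Function.injective_id (fun _ _ h => A.mk_mem h) l x
    have h2 : Ideal.Quotient.mk A.I x = Ideal.Quotient.mk A.I (pr (ρQ k A.d) l x) :=
      (pr_of_mem hx).symm.trans h1
    exact h2 ▸ h.mem (mapQ_mem _ A.d ((isCo_ρQ A.d).pr_mem l x))

theorem finiteType_toMod (A : Pres k m V n s) : Algebra.FiniteType k A.toMod.S := by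
  have : Algebra.FiniteType k (Qk k m (Fin n)) :=
    Algebra.FiniteType.trans (S := Pk k m) inferInstance inferInstance
  exact Algebra.FiniteType.of_surjective (Ideal.Quotient.mkₐ k A.I) Ideal.Quotient.mk_surjective

end Pres

theorem exists_presents {k : Type} [CommRing k] [IsNoetherianRing k] {m : ℕ} {V : Type}
    (X : Mod k m V) [Algebra.FiniteType k X.S] :
    ∃ (n s : ℕ) (A : Pres k m V n s), Nonempty (A.Presents X) := by
  obtain ⟨n, y, d, hy, ht⟩ := X.exists_gens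
  let φ : Qk k m (Fin n) →ₐ[Pk k m] X.S := MvPolynomial.aeval y
  have h1 : ∀ a, φ (MvPolynomial.X a) ∈ X.H (d a) := fun a =>
    (MvPolynomial.aeval_X (R := Pk k m) y a).symm ▸ hy a
  have hs : Function.Surjective φ := fun z => by
    have h : Algebra.adjoin k (Set.range y) ≤ (φ.restrictScalars k).range := by
      refine Algebra.adjoin_le ?_
      rintro _ ⟨a, rfl⟩
      exact ⟨MvPolynomial.X a, MvPolynomial.aeval_X y a⟩
    exact h (ht ▸ Algebra.mem_top)
  obtain ⟨T, hT, hT'⟩ := (Submodule.fg_span_iff_fg_span_finset_subset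
    {x | φ x = 0 ∧ ∃ l, x ∈ Hg (ρQ k d) l}).1 (IsNoetherian.noetherian (R := Qk k m (Fin n)) _)
  choose df hdf using fun j : Fin T.card => (hT (T.equivFin.symm j).2).2
  choose g hg using fun i => hs (X.g i)
  have h2 : Set.range (fun j => (T.equivFin.symm j : Qk k m (Fin n))) = T :=
    (T.equivFin.symm.surjective.range_comp Subtype.val).trans Subtype.range_coe
  refine ⟨n, T.card, ⟨d, fun j => T.equivFin.symm j, df, hdf, X.χ, fun i => pr (ρQ k d) X.χ (g i),
    fun i => (isCo_ρQ d).pr_mem _ _⟩, ⟨φ, hs, fun x => ?_, h1, rfl, fun i => ?_⟩⟩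
  · rw [Pres.I, h2]
    refine ⟨fun hx => ?_, fun hx => (Ideal.span_le (I := RingHom.ker φ)).2
      (fun x hx => (hT hx).1) hx⟩
    obtain ⟨t, ht⟩ := (isCo_ρQ d).exists_sum x
    rw [← ht t subset_rfl]
    refine sum_mem fun l _ => hT'.le (Submodule.subset_span ⟨?_, l, (isCo_ρQ d).pr_mem l x⟩)
    rw [PresBC_pr φ h1, hx, map_zero]
  · exact (PresBC_pr φ h1 _ _).trans (hg i ▸ pr_of_mem (hg i ▸ X.hg i))

end Pool.Agent.P.MP_824f38_ag.V
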