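import Pool.Agent.P.MP_824f38_ag.V.Defs

/-! Models given by homogeneous generators and relations. -/

set_option linter.unusedSimpArgs false
set_option linter.unusedVariables false
set_option linter.unusedSectionVars false

namespace Pool.Agent.P.MP_824f38_ag.V

open AddMonoidAlgebra

/-- polynomials over `k[σ]` -/
abbrev Qk (k : Type) [CommRing k] (m : ℕ) (τ : Type) : Type := MvPolynomial τ (Pk k m)

section
variable (k : Type) [CommRing k] {m : ℕ} {τ : Type}

/-- the grading of `k[σ][y]` with `deg σ_j = - e_j`, `deg y_i = d i` -/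
noncomputable def ρQ (d : τ → Dg m) : Qk k m τ →+* AddMonoidAlgebra (Qk k m τ) (Dg m) :=
  MvPolynomial.eval₂Hom
    (MvPolynomial.eval₂Hom (singleZeroRingHom.comp (MvPolynomial.C.comp MvPolynomial.C))
      fun j => single (-Pi.single j 1) (MvPolynomial.C (MvPolynomial.X j)))
    fun i => single (d i) (MvPolynomial.X i)

variable {k}

theorem ρQ_CC (d : τ → Dg m) (c : k) :
    (MvPolynomial.C (MvPolynomial.C c) : Qk k m τ) ∈ Hg (ρQ k d) 0 := by simp [mem_Hg, ρQ]

theorem ρQ_CX (d : τ → Dg m) (j : Fin m) :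
    (MvPolynomial.C (MvPolynomial.X j) : Qk k m τ) ∈ Hg (ρQ k d) (-Pi.single j 1) := by
  simp [mem_Hg, ρQ]

theorem ρQ_X (d : τ → Dg m) (i : τ) : (MvPolynomial.X i : Qk k m τ) ∈ Hg (ρQ k d) (d i) := by
  simp [mem_Hg, ρQ]

theorem closure_mul_Hg {T M : Type} [Ring T] [AddCommGroup M] {ρ : T →+* AddMonoidAlgebra T M}
    {x h : T} (hx : x ∈ AddSubgroup.closure {y | ∃ l, y ∈ Hg ρ l}) {l : M} (hh : h ∈ Hg ρ l) :
    x * h ∈ AddSubgroup.closure {y | ∃ l, y ∈ Hg ρ l} := by
  induction hx using AddSubgroup.closure_induction with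
  | zero => rw [zero_mul]; exact zero_mem _
  | add a b _ _ ha hb => rw [add_mul]; exact add_mem ha hb
  | neg a _ ha => rw [neg_mul]; exact neg_mem ha
  | mem a ha => obtain ⟨l', ha⟩ := ha; exact IsCo.of_mem (Hg_mul ha hh)

theorem isCo_ρQ (d : τ → Dg m) : IsCo (ρQ k d) := by
  intro x
  induction x using MvPolynomial.induction_on with
  | C c =>
    induction c using MvPolynomial.induction_on with
    | C c => exact IsCo.of_mem (ρQ_CC d c)
    | add p q hp hq => rw [map_add]; exact add_mem hp hq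
    | mul_X p j hp => rw [map_mul]; exact closure_mul_Hg hp (ρQ_CX d j)
  | add p q hp hq => exact add_mem hp hq
  | mul_X p j hp => exact closure_mul_Hg hp (ρQ_X d j)

/-- change of the coefficient ring -/
noncomputable def mapQ {k' : Type} [CommRing k'] (φ : k →+* k') (m : ℕ) (τ : Type) :
    Qk k m τ →+* Qk k' m τ := MvPolynomial.map (MvPolynomial.map φ)

theorem ρQ_mapQ {k' : Type} [CommRing k'] (φ : k →+* k') (d : τ → Dg m) (x : Qk k m τ) :
    ρQ k' d (mapQ φ m τ x) = mapRingHom (Dg m) (mapQ φ m τ) (ρQ k d x) := by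
  refine DFunLike.congr_fun (?_ : (ρQ k' d).comp (mapQ φ m τ) =
    (mapRingHom (Dg m) (mapQ φ m τ)).comp (ρQ k d)) x
  refine MvPolynomial.ringHom_ext' (MvPolynomial.ringHom_ext (fun c => ?_) (fun j => ?_))
    (fun i => ?_) <;> simp [ρQ, mapQ]

theorem mapQ_mem {k' : Type} [CommRing k'] (φ : k →+* k') (d : τ → Dg m) {l : Dg m}
    {x : Qk k m τ} (hx : x ∈ Hg (ρQ k d) l) : mapQ φ m τ x ∈ Hg (ρQ k' d) l := by
  rw [mem_Hg] at *
  rw [ρQ_mapQ, hx, mapRingHom_single]

theorem mapQ_injective {k' : Type} [CommRing k'] {φ : k →+* k'} (h : Function.Injective φ) :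
    Function.Injective (mapQ φ m τ) :=
  MvPolynomial.map_injective _ (MvPolynomial.map_injective _ h)

theorem mem_of_mapQ {k' : Type} [CommRing k'] {φ : k →+* k'} (h : Function.Injective φ)
    (d : τ → Dg m) {l : Dg m} {x : Qk k m τ} (hx : mapQ φ m τ x ∈ Hg (ρQ k' d) l) :
    x ∈ Hg (ρQ k d) l := by
  rw [mem_Hg] at *
  rw [ρQ_mapQ, ← mapRingHom_single] at hx
  exact AddMonoidAlgebra.map_injective (mapQ φ m τ).toAddMonoidHom (mapQ_injective h) hx

end

/-- homogeneous generators and relations -/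
structure Pres (k : Type) [CommRing k] (m : ℕ) (V : Type) (n s : ℕ) where
  d : Fin n → Dg m
  f : Fin s → Qk k m (Fin n)
  df : Fin s → Dg m
  hf : ∀ j, f j ∈ Hg (ρQ k d) (df j)
  χ : Dg m
  g : V → Qk k m (Fin n)
  hg : ∀ i, g i ∈ Hg (ρQ k d) χ

namespace Pres

variable {k : Type} [CommRing k] {m : ℕ} {V : Type} {n s : ℕ} (A : Pres k m V n s)

/-- the ideal of relations -/
noncomputable def I : Ideal (Qk k m (Fin n)) := Ideal.span (Set.range A.f)

/-- the grading of the quotient -/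
noncomputable def ρ : (Qk k m (Fin n) ⧸ A.I) →+*
    AddMonoidAlgebra (Qk k m (Fin n) ⧸ A.I) (Dg m) :=
  Ideal.Quotient.lift A.I ((mapRingHom (Dg m) (Ideal.Quotient.mk A.I)).comp (ρQ k A.d))
    (fun a ha => by
      refine (Ideal.span_le (I := RingHom.ker _)).2 ?_ ha
      rintro _ ⟨j, rfl⟩
      have : Ideal.Quotient.mk A.I (A.f j) = 0 :=
        Ideal.Quotient.eq_zero_iff_mem.2 (Ideal.subset_span ⟨j, rfl⟩)
      simp [RingHom.mem_ker, mem_Hg.1 (A.hf j), this])

theorem mk_mem {l : Dg m} {x : Qk k m (Fin n)} (hx : x ∈ Hg (ρQ k A.d) l) :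
    Ideal.Quotient.mk A.I x ∈ Hg A.ρ l := by
  rw [mem_Hg] at *
  simp [ρ, hx]

/-- the model of a presentation -/
noncomputable def toMod : Mod k m V where
  S := Qk k m (Fin n) ⧸ A.I
  ρ := A.ρ
  co := fun x => by
    obtain ⟨x, rfl⟩ := Ideal.Quotient.mk_surjective x
    induction x using (isCo_ρQ A.d).induction with
    | h0 l x hx => exact IsCo.of_mem (A.mk_mem hx)
    | hadd x y hx hy => rw [map_add]; exact add_mem hx hy
  hk := fun c => A.mk_mem (ρQ_CC A.d c)
  hσ := fun j => A.mk_mem (ρQ_CX A.d j)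
  χ := A.χ
  g := fun i => Ideal.Quotient.mk A.I (A.g i)
  hg := fun i => A.mk_mem (A.hg i)

/-- the relations of the chart `i`, in the variables `y` and an inverse of `g i` -/
noncomputable def rel (i : V) : Option (Fin s) → Qk k m (Option (Fin n))
  | none => MvPolynomial.X none * MvPolynomial.rename some (A.g i) - 1
  | some j => MvPolynomial.rename some (A.f j)

/-- certificate for the smoothness of the chart `i` -/
def SmCert (i : V) : Prop :=
  ∃ (z : Fin n → Qk k m (Option (Fin n)))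
    (c : Fin n → Option (Fin s) → Qk k m (Option (Fin n)))
    (c' : Fin s → Option (Fin s) → Option (Fin s) → Qk k m (Option (Fin n))),
    (∀ a, z a - MvPolynomial.X (some a) = ∑ u, c a u * A.rel i u) ∧
    ∀ j, MvPolynomial.aeval z (A.f j) = ∑ u, ∑ u', c' j u u' * (A.rel i u * A.rel i u')

/-- the monomial `σ ^ r * y ^ e` -/
noncomputable def mon (A : Pres k m V n s) (r : Fin m → ℕ) (e : Fin n → ℕ) : Qk k m (Fin n) :=
  MvPolynomial.C (∏ j, MvPolynomial.X j ^ r j) * ∏ a, MvPolynomial.X a ^ e a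

/-- its degree -/
def dmon (r : Fin m → ℕ) (e : Fin n → ℕ) : Dg m := -(fun j => (r j : ℤ)) + ∑ a, e a • A.d a

/-- certificate for properness: finitely many monomials with a power in the ideal of the
sections, one of which divides each monomial of degree a positive multiple of `χ` -/
def PrCert [Fintype V] : Prop :=
  ∃ (N : ℕ) (r : Fin N → Fin m → ℕ) (e : Fin N → Fin n → ℕ) (w : Fin N → ℕ)
    (c : Fin N → V → Qk k m (Fin n)) (c' : Fin N → Fin s → Qk k m (Fin n)),
    (∀ u, A.mon (r u) (e u) ^ w u = ∑ i, c u i * A.g i + ∑ j, c' u j * A.f j) ∧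
    ∀ (r' : Fin m → ℕ) (e' : Fin n → ℕ) (a : ℕ), 1 ≤ a → A.dmon r' e' = a • A.χ →
      ∃ u, r u ≤ r' ∧ e u ≤ e'

/-- `A` presents the model `X` -/
structure Presents (X : Mod k m V) where
  φ : Qk k m (Fin n) →ₐ[Pk k m] X.S
  surj : Function.Surjective φ
  ker : ∀ x, φ x = 0 ↔ x ∈ A.I
  hy : ∀ a, φ (MvPolynomial.X a) ∈ X.H (A.d a)
  hχ : X.χ = A.χ
  hg : ∀ i, φ (A.g i) = X.g i

/-- change of coefficients -/
noncomputable def map {k' : Type} [CommRing k'] (φ : k →+* k') : Pres k' m V n s where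
  d := A.d
  f := fun j => mapQ φ m _ (A.f j)
  df := A.df
  hf := fun j => mapQ_mem φ A.d (A.hf j)
  χ := A.χ
  g := fun i => mapQ φ m _ (A.g i)
  hg := fun i => mapQ_mem φ A.d (A.hg i)

end Pres

end Pool.Agent.P.MP_824f38_ag.V
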