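import Pool.Agent.P.MP_824f38_ag.V.SerreDefs

set_option linter.unusedVariables false
set_option linter.unusedSectionVars false

namespace Pool.Agent.P.MP_824f38_ag.V

open MvPolynomial

namespace SD

variable {R V : Type} [CommRing R] [LinearOrder V] {W : Finset V → Type}
  [∀ I, AddCommGroup (W I)] [∀ I, Module (MvPolynomial V R) (W I)] (D : SD R V W)
  {N N' : Submodule (MvPolynomial V R) (W ∅)} {k : ℤ} {I : Finset V}

theorem SerreA_bij_mul {A M : Type} [CommRing A] [AddCommGroup M] [Module A M] {a b : A}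
    (ha : Function.Bijective fun x : M => a • x) (hb : Function.Bijective fun x : M => b • x) :
    Function.Bijective fun x : M => (a * b) • x := by
  have : (fun x : M => (a * b) • x) = (fun x : M => a • x) ∘ fun x : M => b • x :=
    funext fun x => mul_smul a b x
  rw [this]
  exact ha.comp hb

theorem SerreA_bij_one {A M : Type} [CommRing A] [AddCommGroup M] [Module A M] :
    Function.Bijective fun x : M => (1 : A) • x := by
  have : (fun x : M => (1 : A) • x) = id := funext fun x => one_smul A x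
  rw [this]
  exact Function.bijective_id

theorem SerreA_bij_pow {A M : Type} [CommRing A] [AddCommGroup M] [Module A M] {a : A}
    (ha : Function.Bijective fun x : M => a • x) (e : ℕ) :
    Function.Bijective fun x : M => a ^ e • x := by
  induction e with
  | zero => simpa only [pow_zero] using SerreA_bij_one
  | succ e ih => simpa only [pow_succ] using SerreA_bij_mul ih ha

include D in
theorem SerreA_bij_sub {I J : Finset V} (h : I ⊆ J) (e : ℕ) :
    Function.Bijective fun x : W J => xI R I ^ e • x := by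
  refine SerreA_bij_pow ?_ e
  exact Finset.prod_induction (fun i => (X i : MvPolynomial V R))
    (fun a => Function.Bijective fun x : W J => a • x) (fun a b => SerreA_bij_mul) SerreA_bij_one
    fun i hi => D.unit J i (h hi)

include D in
theorem xI_bijective (I : Finset V) (e : ℕ) :
    Function.Bijective fun x : W I => xI R I ^ e • x := D.SerreA_bij_sub (Finset.Subset.refl I) e

theorem π_Xpow (k : ℤ) (J : Finset V) (v : V) (e : ℕ) (x : W J) :
    D.π (k + e) J ((X v : MvPolynomial V R) ^ e • x) = (X v : MvPolynomial V R) ^ e • D.π k J x := by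
  induction e with
  | zero => simp
  | succ e ih =>
    rw [pow_succ', mul_smul, mul_smul, Nat.cast_succ, ← add_assoc, D.π_X, ih]

theorem π_xI (k : ℤ) (I J : Finset V) (e : ℕ) (x : W J) :
    D.π (k + e * I.card) J (xI R I ^ e • x) = xI R I ^ e • D.π k J x := by
  induction I using Finset.induction_on with
  | empty => simp [xI]
  | insert a I ha ih =>
    have e1 : xI R (insert a I) = X a * xI R I := Finset.prod_insert ha
    have e2 : k + e * ((insert a I).card : ℤ) = k + e * I.card + e := by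
      rw [Finset.card_insert_of_notMem ha]
      push_cast
      ring
    rw [e1, e2, mul_pow, mul_smul, mul_smul, D.π_Xpow, ih]

theorem SerreA_xI_sdiff {I J : Finset V} (h : I ⊆ J) : xI R (J \ I) * xI R I = xI R J :=
  Finset.prod_sdiff h

theorem ext_mono (h : N' ≤ N) : D.ext N' k I ≤ D.ext N k I := by
  rintro y ⟨h1, e, w, hw, he⟩
  exact ⟨h1, e, w, h hw, he⟩

theorem ext_bot {y : W I} (h : y ∈ D.ext ⊥ k I) : y = 0 := by
  obtain ⟨_, e, w, hw, he⟩ := h
  rw [(Submodule.mem_bot _).1 hw, map_zero] at he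
  exact (D.xI_bijective I e).1 (he.trans (smul_zero _).symm)

theorem mem_ext_empty {y : W ∅} : y ∈ D.ext N k ∅ ↔ D.π k ∅ y = y ∧ y ∈ N := by
  have e1 : xI R (∅ : Finset V) = 1 := Finset.prod_empty
  constructor
  · rintro ⟨h1, e, w, hw, he⟩
    rw [e1, one_pow, one_smul, D.isFun.id] at he
    exact ⟨h1, he ▸ hw⟩
  · rintro ⟨h1, h2⟩
    exact ⟨h1, 0, y, h2, by rw [pow_zero, one_smul, D.isFun.id]⟩

theorem ext_res {J : Finset V} (h : I ⊆ J) {y : W I} (hy : y ∈ D.ext N k I) :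
    D.r I J h y ∈ D.ext N k J := by
  obtain ⟨h1, e, w, hw, he⟩ := hy
  refine ⟨by rw [D.π_r, h1], e, xI R (J \ I) ^ e • w, N.smul_mem _ hw, ?_⟩
  rw [← SerreA_xI_sdiff h, mul_pow, mul_smul, ← D.r_smul, he, D.isFun.comp, D.r_smul]

theorem ext_C (a : R) {y : W I} (hy : y ∈ D.ext N k I) :
    (C a : MvPolynomial V R) • y ∈ D.ext N k I := by
  obtain ⟨h1, e, w, hw, he⟩ := hy
  refine ⟨by rw [D.π_C, h1], e, (C a : MvPolynomial V R) • w, N.smul_mem _ hw, ?_⟩
  rw [smul_comm, he, D.r_smul]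

theorem ext_X (v : V) {y : W I} (hy : y ∈ D.ext N k I) :
    (X v : MvPolynomial V R) • y ∈ D.ext N (k + 1) I := by
  obtain ⟨h1, e, w, hw, he⟩ := hy
  refine ⟨by rw [D.π_X, h1], e, (X v : MvPolynomial V R) • w, N.smul_mem _ hw, ?_⟩
  rw [smul_comm, he, D.r_smul]

theorem cech_smul (a : MvPolynomial V R) (c : ∀ I, W I) : cech D.r (a • c) = a • cech D.r c := by
  funext J
  simp only [cech_apply, Pi.smul_apply, D.r_smul, Finset.smul_sum, smul_comm a]

theorem cech_ext {c : ∀ I, W I} (hc : ∀ I, c I ∈ D.ext N k I) (J : Finset V) :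
    cech D.r c J ∈ D.ext N k J := by
  rw [cech_apply]
  exact sum_mem fun a _ => zsmul_mem (D.ext_res _ (hc _)) _

/-- division of a homogeneous element by a power of `x_I` -/
theorem SerreA_div (e : ℕ) {w : W ∅} (hw : w ∈ N) (hπ : D.π (k + e * I.card) ∅ w = w) :
    ∃ y ∈ D.ext N k I, xI R I ^ e • y = D.r ∅ I (Finset.empty_subset I) w := by
  obtain ⟨y, hy⟩ := (D.xI_bijective I e).2 (D.r ∅ I (Finset.empty_subset I) w)
  have hy' : xI R I ^ e • y = D.r ∅ I (Finset.empty_subset I) w := hy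
  refine ⟨y, ⟨(D.xI_bijective I e).1 ?_, e, w, hw, hy'⟩, hy'⟩
  show xI R I ^ e • D.π k I y = xI R I ^ e • y
  rw [← D.π_xI, hy', D.π_r, hπ]

theorem ext_shift (hN : D.Homog N) (hN' : D.Homog N') (v : V) {y : W I}
    (hy : y ∈ D.ext (shift v N' N) (k + 1) I) :
    ∃ y1 ∈ D.ext N k I, y - (X v : MvPolynomial V R) • y1 ∈ D.ext N' (k + 1) I := by
  obtain ⟨h1, e, w0, hw0, he⟩ := hy
  obtain ⟨_, ⟨w, hw, rfl⟩, w', hw', rfl⟩ := Submodule.mem_sup.1 hw0
  obtain ⟨y1, hy1, he1⟩ := D.SerreA_div (I := I) e ((hN w hw).1 (k + e * I.card))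
    (D.π_same _ _ _)
  refine ⟨y1, hy1, by rw [map_sub, h1, D.π_X, hy1.1], e, D.π (k + 1 + e * I.card) ∅ w',
    (hN' w' hw').1 _, ?_⟩
  have h2 := congrArg (D.π (k + 1 + e * I.card) I) he
  rw [D.π_xI, h1, D.π_r, map_add, LinearMap.lsmul_apply, add_right_comm k 1, D.π_X, map_add,
    D.r_smul, ← he1] at h2
  rw [smul_sub, h2, smul_comm, add_sub_cancel_left, add_right_comm k 1]

theorem ext_colon (v : V) {y : W I} (hy : y ∈ D.ext N k I)
    (h : (X v : MvPolynomial V R) • y ∈ D.ext N' (k + 1) I) : y ∈ D.ext (colon v N' N) k I := by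
  obtain ⟨h1, e, w, hw, he⟩ := hy
  obtain ⟨_, e', w', hw', he'⟩ := h
  obtain ⟨f, hf⟩ := D.inj I (Finset.empty_subset I)
    (xI R I ^ e' • (X v : MvPolynomial V R) • w - xI R I ^ e • w') (by
      rw [map_sub, D.r_smul, D.r_smul, D.r_smul, ← he, ← he', sub_eq_zero, smul_comm (X v),
        smul_comm])
  refine ⟨h1, f + e' + e, xI R I ^ (f + e') • w, ⟨N.smul_mem _ hw, ?_⟩, ?_⟩
  · show (X v : MvPolynomial V R) • xI R I ^ (f + e') • w ∈ N'
    rw [smul_sub, sub_eq_zero] at hf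
    rw [smul_comm, pow_add, mul_smul, hf]
    exact N'.smul_mem _ (N'.smul_mem _ hw')
  · rw [D.r_smul, ← he, pow_add _ (f + e'), mul_smul]

theorem ext_of_colon (v : V) {y : W I} (hy : y ∈ D.ext (colon v N' N) k I) :
    (X v : MvPolynomial V R) • y ∈ D.ext N' (k + 1) I := by
  obtain ⟨h1, e, w, hw, he⟩ := hy
  refine ⟨by rw [D.π_X, h1], e, (X v : MvPolynomial V R) • w, hw.2, ?_⟩
  rw [smul_comm, he, D.r_smul]

theorem X_mem_shift (v : V) {y : W I} (hy : y ∈ D.ext N k I) :
    (X v : MvPolynomial V R) • y ∈ D.ext (shift v N' N) (k + 1) I := by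
  obtain ⟨h1, e, w, hw, he⟩ := hy
  refine ⟨by rw [D.π_X, h1], e, (X v : MvPolynomial V R) • w,
    Submodule.mem_sup_left ⟨w, hw, rfl⟩, ?_⟩
  rw [smul_comm, he, D.r_smul]

theorem homog_colon (hN : D.Homog N) (hN' : D.Homog N') (v : V) : D.Homog (colon v N' N) := by
  intro w hw
  refine ⟨fun k => ⟨(hN w hw.1).1 k, ?_⟩, (hN w hw.1).2⟩
  show (X v : MvPolynomial V R) • D.π k ∅ w ∈ N'
  rw [← D.π_X]
  exact (hN' _ hw.2).1 _

theorem SerreA_sum {w : W I} {s t : Finset ℤ} (h : ∑ k ∈ s, D.π k I w = w) (hst : s ⊆ t) :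
    ∑ k ∈ t, D.π k I w = w := by
  rw [← Finset.sum_subset hst, h]
  intro j _ hj
  rw [← h, map_sum]
  exact Finset.sum_eq_zero fun i hi => D.π_ne _ _ _ _ fun e => hj (e ▸ hi)

theorem homog_shift (hN : D.Homog N) (hN' : D.Homog N') (v : V) : D.Homog (shift v N' N) := by
  intro w0 hw0
  obtain ⟨_, ⟨w, hw, rfl⟩, w', hw', rfl⟩ := Submodule.mem_sup.1 hw0
  rw [LinearMap.lsmul_apply]
  refine ⟨fun k => ?_, ?_⟩
  · obtain ⟨j, rfl⟩ : ∃ j, k = j + 1 := ⟨k - 1, by ring⟩
    rw [map_add, D.π_X]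
    exact add_mem (Submodule.mem_sup_left ⟨_, (hN w hw).1 j, rfl⟩)
      (Submodule.mem_sup_right ((hN' w' hw').1 _))
  · obtain ⟨s, hs⟩ := (hN w hw).2
    obtain ⟨s', hs'⟩ := (hN' w' hw').2
    have h1 : ∑ k ∈ s.image (· + 1), D.π k ∅ ((X v : MvPolynomial V R) • w) =
        (X v : MvPolynomial V R) • w := by
      rw [Finset.sum_image fun a _ b _ e => add_right_cancel e]
      simp only [D.π_X]
      rw [← Finset.smul_sum, hs]
    refine ⟨s.image (· + 1) ∪ s', ?_⟩
    simp only [map_add, Finset.sum_add_distrib]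
    rw [D.SerreA_sum h1 Finset.subset_union_left, D.SerreA_sum hs' Finset.subset_union_right]

theorem SerreA_ext_Xpow (v : V) (e : ℕ) {y : W I} (hy : y ∈ D.ext N k I) :
    (X v : MvPolynomial V R) ^ e • y ∈ D.ext N (k + e) I := by
  obtain ⟨h1, f, w, hw, he⟩ := hy
  refine ⟨by rw [D.π_Xpow, h1], f, (X v : MvPolynomial V R) ^ e • w, N.smul_mem _ hw, ?_⟩
  rw [smul_comm, he, D.r_smul]

theorem SerreA_insert (v : V) (I : Finset V) : ∃ d : ℕ,
    xI R (insert v I) = X v ^ d * xI R I ∧ (insert v I).card = d + I.card := by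
  by_cases h : v ∈ I
  · exact ⟨0, by rw [Finset.insert_eq_of_mem h, pow_zero, one_mul],
      by rw [Finset.insert_eq_of_mem h, zero_add]⟩
  · exact ⟨1, by rw [pow_one]; exact Finset.prod_insert h,
      by rw [Finset.card_insert_of_notMem h, add_comm]⟩

/- localisation at one more variable -/
theorem ext_surj (hN : D.Homog N) (v : V) {y : W (insert v I)} (hy : y ∈ D.ext N k (insert v I)) :
    ∃ e0 : ℕ, ∀ e : ℕ, e0 ≤ e → ∃ y' ∈ D.ext N (k + e) I,
      D.r I (insert v I) (Finset.subset_insert v I) y' = (X v : MvPolynomial V R) ^ e • y := by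
  obtain ⟨h1, f, w, hw, he⟩ := hy
  obtain ⟨d, hd, hc⟩ := SerreA_insert (R := R) v I
  have h2 := congrArg (D.π (k + f * (insert v I).card) (insert v I)) he
  rw [D.π_xI, h1, D.π_r] at h2
  have hk : k + f * ((insert v I).card : ℤ) = k + (d * f : ℕ) + f * I.card := by
    rw [hc]
    push_cast
    ring
  rw [hk] at h2
  obtain ⟨y1, hy1, he1⟩ := D.SerreA_div (I := I) (k := k + (d * f : ℕ)) f ((hN w hw).1 _)
    (D.π_same _ _ _)
  have h3 : D.r I (insert v I) (Finset.subset_insert v I) y1 =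
      (X v : MvPolynomial V R) ^ (d * f) • y := by
    apply (D.SerreA_bij_sub (Finset.subset_insert v I) f).1
    show xI R I ^ f • _ = xI R I ^ f • _
    rw [← D.r_smul, he1, D.isFun.comp, ← h2, hd, mul_pow, ← pow_mul, mul_comm, mul_smul]
  refine ⟨d * f, fun e he => ?_⟩
  obtain ⟨g, rfl⟩ := Nat.exists_eq_add_of_le he
  refine ⟨(X v : MvPolynomial V R) ^ g • y1, ?_, ?_⟩
  · rw [Nat.cast_add, ← add_assoc]
    exact D.SerreA_ext_Xpow v g hy1
  · rw [D.r_smul, h3, smul_smul, ← pow_add, add_comm]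

theorem ext_inj (v : V) {y : W I} (hy : y ∈ D.ext N k I)
    (h : D.r I (insert v I) (Finset.subset_insert v I) y ∈ D.ext N' k (insert v I)) :
    ∃ e0 : ℕ, ∀ e : ℕ, e0 ≤ e → (X v : MvPolynomial V R) ^ e • y ∈ D.ext N' (k + e) I := by
  obtain ⟨h1, e, w, hw, he⟩ := hy
  obtain ⟨_, e', w', hw', he'⟩ := h
  obtain ⟨d, hd, -⟩ := SerreA_insert (R := R) v I
  obtain ⟨f, hf⟩ := D.inj (insert v I) (Finset.empty_subset _)
    (xI R (insert v I) ^ e' • w - xI R I ^ e • w') (by
      rw [map_sub, D.r_smul, D.r_smul, ← he', sub_eq_zero,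
        ← D.isFun.comp ∅ I (insert v I) (Finset.empty_subset I) (Finset.subset_insert v I),
        ← he, D.r_smul, smul_comm])
  rw [smul_sub, sub_eq_zero, smul_smul, ← pow_add] at hf
  have h0 : (X v : MvPolynomial V R) ^ (d * (f + e')) • y ∈
      D.ext N' (k + (d * (f + e') : ℕ)) I := by
    refine ⟨by rw [D.π_Xpow, h1], f + e' + e, xI R (insert v I) ^ f • xI R I ^ e • w',
      N'.smul_mem _ (N'.smul_mem _ hw'), ?_⟩
    rw [← hf, D.r_smul, ← he, hd, smul_smul, smul_smul, mul_pow, ← pow_mul]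
    congr 1
    ring
  refine ⟨d * (f + e'), fun g hg => ?_⟩
  obtain ⟨g, rfl⟩ := Nat.exists_eq_add_of_le hg
  rw [Nat.cast_add, ← add_assoc, pow_add, mul_comm (X v ^ _), mul_smul]
  exact D.SerreA_ext_Xpow v g h0

end SD

end Pool.Agent.P.MP_824f38_ag.V
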