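import Pool.Agent.P.MP_824f38_ag.V.SerreA

set_option linter.unusedVariables false
set_option linter.unusedSectionVars false

namespace Pool.Agent.P.MP_824f38_ag.V

open MvPolynomial

namespace SD

variable {R V : Type} [CommRing R] [LinearOrder V] [Fintype V] {W : Finset V → Type}
  [∀ I, AddCommGroup (W I)] [∀ I, Module (MvPolynomial V R) (W I)] (D : SD R V W)
  {N N' : Submodule (MvPolynomial V R) (W ∅)} {k : ℤ}

theorem SerreB_Xpow (v : V) (e : ℕ) {I : Finset V} {y : W I} (hy : y ∈ D.ext N k I) :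
    (X v : MvPolynomial V R) ^ e • y ∈ D.ext N (k + e) I := by
  induction e with
  | zero => simpa using hy
  | succ e ih =>
    have h1 := D.ext_X v ih
    rw [smul_smul, ← pow_succ'] at h1
    have h2 : k + ((e + 1 : ℕ) : ℤ) = k + e + 1 := by push_cast; ring
    rw [h2]
    exact h1

theorem SerreB_cone (v : V) (d : ∀ I, W I) (hd : ∀ J, v ∈ J → d J = 0) {I : Finset V}
    (hI : v ∉ I) : cech D.r d (insert v I) =
      sgn (insert v I) v • D.r I (insert v I) (Finset.subset_insert v I) (d I) := by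
  rw [cech_apply, Finset.sum_eq_single_of_mem v (Finset.mem_insert_self v I)]
  · rw [res_congr D.r d (Finset.erase_insert hI) _ (Finset.subset_insert v I)]
  · intro a _ hav
    rw [hd _ (Finset.mem_erase.2 ⟨hav.symm, Finset.mem_insert_self v I⟩), map_zero, smul_zero]

theorem SerreB_const (h : ∀ v : V, ∀ w ∈ N, (X v : MvPolynomial V R) • w ∈ N')
    (p : MvPolynomial V R) {w : W ∅} (hw : w ∈ N) :
    p • w - (C (constantCoeff p) : MvPolynomial V R) • w ∈ N' := by
  induction p using MvPolynomial.induction_on with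
  | C a => rw [constantCoeff_C, sub_self]; exact N'.zero_mem
  | add p q hp hq =>
    have h1 := N'.add_mem hp hq
    rw [map_add, map_add, add_smul, add_smul]
    convert h1 using 1
    abel
  | mul_X p i _ =>
    rw [map_mul, constantCoeff_X, mul_zero, map_zero, zero_smul, sub_zero, mul_smul]
    exact N'.smul_mem p (h i w hw)

theorem SerreB_pi_zero {w : W ∅} {s : Finset ℤ} (hs : ∑ d ∈ s, D.π d ∅ w = w) (hk : k ∉ s) :
    D.π k ∅ w = 0 := by
  rw [← hs, map_sum]
  exact Finset.sum_eq_zero fun d hd => D.π_ne k d ∅ w fun e => hk (e ▸ hd)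

theorem SerreB_pi_mem (hN : D.Homog N) {w : W ∅} (hw : w ∈ N) (k : ℤ) :
    D.π k ∅ w ∈ D.ext N k ∅ :=
  D.mem_ext_empty.2 ⟨D.π_same k ∅ w, (hN w hw).1 k⟩

theorem SerreB_pi_mon (u : V →₀ ℕ) (d : ℤ) (x : W ∅) :
    D.π (d + (u.degree : ℕ)) ∅ ((monomial u 1 : MvPolynomial V R) • x) =
      (monomial u 1 : MvPolynomial V R) • D.π d ∅ x := by
  induction u using Finsupp.induction with
  | zero =>
    have h1 : (monomial (0 : V →₀ ℕ) 1 : MvPolynomial V R) = 1 := rfl
    rw [h1, one_smul, one_smul, map_zero, Nat.cast_zero, add_zero]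
  | single_add a b f _ _ ih =>
    have h2 : d + ((Finsupp.degree (Finsupp.single a b + f) : ℕ) : ℤ) =
        d + (f.degree : ℕ) + b := by
      rw [map_add, Finsupp.degree_single]; push_cast; ring
    rw [h2, monomial_single_add, mul_smul, D.π_Xpow, ih, mul_smul]

/- Cone argument. With `ext_surj` choose one `e` and, for `v ∉ I`, `b I` with
`r (b I) = sgn (insert v I) v • x_v ^ e • c (insert v I)`; `b I = 0` for `v ∈ I`. Then
`c' = x_v ^ e c - cech b` vanishes on the `J` that contain `v`, and `cech c'` has values in `N'`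
(`cech_cech`); evaluating it on `insert v J` shows `r (c' J) ∈ ext N'`; `ext_inj`. -/
theorem nilp (hN : D.Homog N) (h : N' ≤ N) (v : V) {c : ∀ I, W I} (hc : D.RZ N' N k c) :
    ∃ e : ℕ, D.RB N' N (k + e) ((X v : MvPolynomial V R) ^ e • c) := by
  choose e0 he0 using fun I : Finset V => D.ext_surj hN v (hc.1 (insert v I))
  obtain ⟨e1, he1⟩ : ∃ e1 : ℕ, ∀ I, e0 I ≤ e1 :=
    ⟨Finset.univ.sup e0, fun I => Finset.le_sup (Finset.mem_univ I)⟩
  choose b0 hb0 hr0 using fun I : Finset V => he0 I e1 (he1 I)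
  obtain ⟨b, hb⟩ : ∃ b : ∀ I, W I, ∀ I, b I = if v ∈ I then 0 else sgn (insert v I) v • b0 I :=
    ⟨_, fun _ => rfl⟩
  have hbz : ∀ J, v ∈ J → b J = 0 := fun J hJ => by rw [hb, if_pos hJ]
  have hbm : ∀ I, b I ∈ D.ext N (k + e1) I := fun I => by
    rw [hb]
    split_ifs
    · exact zero_mem _
    · exact zsmul_mem (hb0 I) _
  obtain ⟨c', hc'⟩ : ∃ c' : ∀ I, W I, c' = (X v : MvPolynomial V R) ^ e1 • c - cech D.r b :=
    ⟨_, rfl⟩
  have hcz : ∀ J, v ∈ J → c' J = 0 := by
    intro J hJ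
    obtain ⟨I, hI, rfl⟩ : ∃ I, v ∉ I ∧ J = insert v I :=
      ⟨J.erase v, Finset.notMem_erase v J, (Finset.insert_erase hJ).symm⟩
    rw [hc', Pi.sub_apply, Pi.smul_apply, D.SerreB_cone v b hbz hI, hb, if_neg hI, map_zsmul,
      smul_smul (sgn _ _), sgn_sq, one_smul, hr0, sub_self]
  have hcm : ∀ I, c' I ∈ D.ext N (k + e1) I := fun I => by
    rw [hc', Pi.sub_apply, Pi.smul_apply]
    exact sub_mem (D.SerreB_Xpow v e1 (hc.1 I)) (D.cech_ext hbm I)
  have hcc : ∀ J, cech D.r c' J ∈ D.ext N' (k + e1) J := fun J => by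
    rw [hc', map_sub, cech_cech D.isFun, sub_zero, D.cech_smul, Pi.smul_apply]
    exact D.SerreB_Xpow v e1 (hc.2 J)
  have hin : ∀ I, ∃ e0 : ℕ, ∀ e : ℕ, e0 ≤ e →
      (X v : MvPolynomial V R) ^ e • c' I ∈ D.ext N' (k + e1 + e) I := by
    intro I
    by_cases hI : v ∈ I
    · exact ⟨0, fun e _ => by rw [hcz I hI, smul_zero]; exact zero_mem _⟩
    · refine D.ext_inj v (hcm I) ?_
      have h1 := zsmul_mem (hcc (insert v I)) (sgn (insert v I) v)
      rwa [D.SerreB_cone v c' hcz hI, smul_smul, sgn_sq, one_smul] at h1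
  choose e2 he2 using hin
  obtain ⟨e3, he3⟩ : ∃ e3 : ℕ, ∀ I, e2 I ≤ e3 :=
    ⟨Finset.univ.sup e2, fun I => Finset.le_sup (Finset.mem_univ I)⟩
  have hk : k + ((e3 + e1 : ℕ) : ℤ) = k + e1 + e3 := by push_cast; ring
  refine ⟨e3 + e1, (X v : MvPolynomial V R) ^ e3 • b, fun I => ?_, fun J => ?_⟩
  · rw [hk, Pi.smul_apply]
    exact D.SerreB_Xpow v e3 (hbm I)
  · have h1 := he2 J e3 (he3 J)
    rw [hc', Pi.sub_apply, Pi.smul_apply, smul_sub, smul_smul, ← pow_add] at h1
    rw [hk, D.cech_smul, Pi.smul_apply, Pi.smul_apply]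
    exact h1

/- all variables act as zero on `N / N'` -/
theorem base_ne (h : ∀ v : V, ∀ w ∈ N, (X v : MvPolynomial V R) • w ∈ N') {I : Finset V}
    (hI : I.Nonempty) : D.ext N k I ≤ D.ext N' k I := by
  rintro y ⟨hy, e, w, hw, he⟩
  obtain ⟨i, hi⟩ := hI
  refine ⟨hy, e + 1, xI R I • w, ?_, ?_⟩
  · rw [xI, ← Finset.prod_erase_mul I _ hi, mul_smul]
    exact N'.smul_mem _ (h i w hw)
  · rw [D.r_smul, ← he, smul_smul, pow_succ']

/- `N` is spanned by finitely many `w j`; a polynomial is a constant modulo the variables, so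
`y = π k y ≡ ∑ C (a j) • π k (w j)` modulo `N'` -/
theorem base_empty (hN : D.Homog N) (hN' : D.Homog N') (fg : N.FG)
    (h : ∀ v : V, ∀ w ∈ N, (X v : MvPolynomial V R) • w ∈ N') :
    ∃ (n : ℕ) (w : Fin n → W ∅), (∀ j, w j ∈ N) ∧ ∀ k, ∀ y ∈ D.ext N k ∅, ∃ a : Fin n → R,
      y - ∑ j, (C (a j) : MvPolynomial V R) • D.π k ∅ (w j) ∈ D.ext N' k ∅ := by
  obtain ⟨n, w, hw⟩ := Submodule.fg_iff_exists_fin_generating_family.1 fg
  have hwN : ∀ j, w j ∈ N := fun j => hw ▸ Submodule.subset_span ⟨j, rfl⟩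
  refine ⟨n, w, hwN, fun k y hy => ?_⟩
  obtain ⟨hy1, hy2⟩ := D.mem_ext_empty.1 hy
  rw [← hw] at hy2
  obtain ⟨p, hp⟩ := (Submodule.mem_span_range_iff_exists_fun _).1 hy2
  refine ⟨fun j => constantCoeff (p j), ?_⟩
  have h1 : y - ∑ j, (C (constantCoeff (p j)) : MvPolynomial V R) • w j ∈ N' := by
    rw [← hp, ← Finset.sum_sub_distrib]
    exact N'.sum_mem fun j _ => SerreB_const h (p j) (hwN j)
  have h2 := D.SerreB_pi_mem hN' h1 k
  rw [map_sub, hy1, map_sum] at h2
  simpa only [D.π_C] using h2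

theorem base_rex (hN : D.Homog N) (hN' : D.Homog N') (fg : N.FG)
    (h : ∀ v : V, ∀ w ∈ N, (X v : MvPolynomial V R) • w ∈ N') :
    ∃ k0 : ℤ, ∀ k, k0 ≤ k → D.REx N' N k := by
  obtain ⟨n, w, hwN, hw⟩ := D.base_empty hN hN' fg h
  choose s hs using fun j => (hN (w j) (hwN j)).2
  obtain ⟨k1, hk1⟩ := (Finset.univ.biUnion s).bddAbove
  refine ⟨k1 + 1, fun k hk c hc => ⟨0, fun I => zero_mem _, fun J => ?_⟩⟩
  rw [map_zero, Pi.zero_apply, sub_zero]
  rcases J.eq_empty_or_nonempty with rfl | hJ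
  · obtain ⟨a, ha⟩ := hw k _ (hc.1 ∅)
    have h0 : ∀ j, D.π k ∅ (w j) = 0 := fun j => D.SerreB_pi_zero (hs j) fun hm => by
      have h1 := hk1 (Finset.mem_coe.2 (Finset.mem_biUnion.2 ⟨j, Finset.mem_univ j, hm⟩))
      omega
    simpa only [h0, smul_zero, Finset.sum_const_zero, sub_zero] using ha
  · exact D.base_ne h hJ (hc.1 J)

theorem base_rfg (hN : D.Homog N) (hN' : D.Homog N') (fg : N.FG)
    (h : ∀ v : V, ∀ w ∈ N, (X v : MvPolynomial V R) • w ∈ N') (k : ℤ) : D.RFG N' N k := by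
  obtain ⟨n, w, hwN, hw⟩ := D.base_empty hN hN' fg h
  obtain ⟨t, ht0, ht1⟩ : ∃ t : Fin n → ∀ I, W I, (∀ j, t j ∅ = D.π k ∅ (w j)) ∧
      ∀ j I, I ≠ ∅ → t j I = 0 :=
    ⟨fun j => Pi.single ∅ (D.π k ∅ (w j)), fun j => Pi.single_eq_same _ _,
      fun j I hI => Pi.single_eq_of_ne hI _⟩
  have htm : ∀ j I, t j I ∈ D.ext N k I := by
    intro j I
    rcases I.eq_empty_or_nonempty with rfl | hI
    · rw [ht0]
      exact D.SerreB_pi_mem hN (hwN j) k
    · rw [ht1 j I hI.ne_empty]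
      exact zero_mem _
  refine ⟨n, t, fun j => ⟨htm j, fun J => ?_⟩, fun c hc => ?_⟩
  · rcases J.eq_empty_or_nonempty with rfl | hJ
    · rw [cech_empty]
      exact zero_mem _
    · exact D.base_ne h hJ (D.cech_ext (htm j) J)
  · obtain ⟨a, ha⟩ := hw k _ (hc.1 ∅)
    refine ⟨a, 0, fun I => zero_mem _, fun J => ?_⟩
    rw [map_zero, Pi.zero_apply, sub_zero, Pi.sub_apply, Finset.sum_apply]
    rcases J.eq_empty_or_nonempty with rfl | hJ
    · simpa only [Pi.smul_apply, ht0] using ha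
    · refine D.base_ne h hJ (sub_mem (hc.1 J) (sum_mem fun j _ => ?_))
      rw [Pi.smul_apply]
      exact D.ext_C (a j) (htm j J)

/- the part of degree `k` is spanned over `R` by the finitely many `monomial u 1 • π d (w j)` with
`d + |u| = k`, `d` in the finite set of degrees of the generators -/
theorem piece_fg (hN : D.Homog N) (fg : N.FG) (k : ℤ) : ∃ (n : ℕ) (t : Fin n → W ∅),
    (∀ j, t j ∈ D.ext N k ∅) ∧ ∀ y ∈ D.ext N k ∅, ∃ a : Fin n → R,
      y = ∑ j, (C (a j) : MvPolynomial V R) • t j := by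
  obtain ⟨m, w, hw⟩ := Submodule.fg_iff_exists_fin_generating_family.1 fg
  have hwN : ∀ j, w j ∈ N := fun j => hw ▸ Submodule.subset_span ⟨j, rfl⟩
  choose s hs using fun j => (hN (w j) (hwN j)).2
  obtain ⟨S, hS⟩ : ∃ S : Set (W ∅), S = ⋃ j, ⋃ d ∈ s j,
      (fun u : V →₀ ℕ => (monomial u 1 : MvPolynomial V R) • D.π d ∅ (w j)) ''
        {u | u.degree = (k - d).toNat ∧ d ≤ k} := ⟨_, rfl⟩
  have hfin : S.Finite := by
    rw [hS]
    refine Set.finite_iUnion fun j => Set.Finite.biUnion (s j).finite_toSet fun d _ => ?_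
    exact ((Finsupp.finite_of_degree_eq _).subset fun u hu => hu.1).image _
  have hmon : ∀ j d (u : V →₀ ℕ),
      D.π (d + (u.degree : ℕ)) ∅ ((monomial u 1 : MvPolynomial V R) • D.π d ∅ (w j)) =
        (monomial u 1 : MvPolynomial V R) • D.π d ∅ (w j) := fun j d u => by
    rw [D.SerreB_pi_mon, D.π_same]
  obtain ⟨n, t, -, ht⟩ := hfin.fin_param
  refine ⟨n, t, fun j => ?_, fun y hy => ?_⟩
  · have h1 : t j ∈ S := ht ▸ Set.mem_range_self j
    rw [hS] at h1
    simp only [Set.mem_iUnion] at h1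
    obtain ⟨i, d, -, u, hu, he⟩ := h1
    have hk : k = d + (u.degree : ℕ) := by
      have h2 := hu.1
      have h3 := hu.2
      omega
    rw [← he, hk]
    exact D.mem_ext_empty.2 ⟨hmon i d u, N.smul_mem _ ((hN _ (hwN i)).1 d)⟩
  · let P : AddSubgroup (W ∅) :=
      { carrier := {z | ∃ a : Fin n → R, z = ∑ j, (C (a j) : MvPolynomial V R) • t j}
        zero_mem' := ⟨0, by simp⟩
        add_mem' := by
          rintro _ _ ⟨a, rfl⟩ ⟨a', rfl⟩
          exact ⟨a + a', by simp only [Pi.add_apply, map_add, add_smul, Finset.sum_add_distrib]⟩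
        neg_mem' := by
          rintro _ ⟨a, rfl⟩
          exact ⟨-a, by simp only [Pi.neg_apply, map_neg, neg_smul, Finset.sum_neg_distrib]⟩ }
    have hP : ∀ (a : R), ∀ z ∈ S, (C a : MvPolynomial V R) • z ∈ P := by
      intro a z hz
      rw [← ht] at hz
      obtain ⟨i, rfl⟩ := hz
      refine ⟨Pi.single i a, ?_⟩
      rw [Finset.sum_eq_single_of_mem i (Finset.mem_univ i), Pi.single_eq_same]
      intro j _ hj
      rw [Pi.single_eq_of_ne hj, map_zero, zero_smul]
    have key : ∀ j, ∀ d ∈ s j, ∀ p : MvPolynomial V R, D.π k ∅ (p • D.π d ∅ (w j)) ∈ P := by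
      intro j d hd p
      induction p using MvPolynomial.induction_on' with
      | monomial u a =>
        have h1 : (monomial u a : MvPolynomial V R) = C a * monomial u 1 := by
          rw [C_mul_monomial, mul_one]
        rw [h1, mul_smul, D.π_C]
        by_cases hk : k = d + (u.degree : ℕ)
        · rw [hk, hmon]
          refine hP a _ ?_
          rw [hS]
          simp only [Set.mem_iUnion]
          exact ⟨j, d, hd, u, ⟨by omega, by omega⟩, rfl⟩
        · rw [← hmon, D.π_ne _ _ _ _ hk, smul_zero]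
          exact zero_mem _
      | add p q hp hq =>
        rw [add_smul, map_add]
        exact add_mem hp hq
    obtain ⟨hy1, hy2⟩ := D.mem_ext_empty.1 hy
    rw [← hw] at hy2
    obtain ⟨p, hp⟩ := (Submodule.mem_span_range_iff_exists_fun _).1 hy2
    have h2 : y ∈ P := by
      rw [← hy1, ← hp, map_sum]
      refine sum_mem fun j _ => ?_
      rw [← hs j, Finset.smul_sum, map_sum]
      exact sum_mem fun d hd => key j d hd (p j)
    exact h2

end SD

end Pool.Agent.P.MP_824f38_ag.V
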