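import Pool.Agent.P.MP_824f38_ag.V.SerreB

set_option linter.unusedVariables false
set_option linter.unusedSectionVars false

namespace Pool.Agent.P.MP_824f38_ag.V

open MvPolynomial

namespace SD

variable {R V : Type} [CommRing R] [LinearOrder V] [Fintype V] {W : Finset V → Type}
  [∀ I, AddCommGroup (W I)] [∀ I, Module (MvPolynomial V R) (W I)] (D : SD R V W)
  {N N' : Submodule (MvPolynomial V R) (W ∅)} {k : ℤ}

theorem step_inj (hN : D.Homog N) (hN' : D.Homog N') (h : N' ≤ N) (v : V)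
    (h1 : D.REx N' (colon v N' N) k) (h2 : D.REx (shift v N' N) N (k + 1)) {c : ∀ I, W I}
    (hc : D.RZ N' N k c) (hb : D.RB N' N (k + 1) ((X v : MvPolynomial V R) • c)) :
    D.RB N' N k c := by
  obtain ⟨b, b1, b2⟩ := hb
  obtain ⟨b', -, c2⟩ := h2 b ⟨b1, fun J => by
    have := sub_mem (D.X_mem_shift (N' := N') v (hc.1 J)) (D.ext_mono le_sup_right (b2 J))
    rwa [Pi.smul_apply, sub_sub_cancel] at this⟩
  choose b'' d1 d2 using fun J => D.ext_shift hN hN' v (c2 J)
  have e : (X v : MvPolynomial V R) • (c - cech D.r b'') = ((X v : MvPolynomial V R) • c -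
      cech D.r b) + cech D.r (b - cech D.r b' - (X v : MvPolynomial V R) • b'') := by
    rw [map_sub, map_sub, cech_cech D.isFun, D.cech_smul, smul_sub]
    abel
  obtain ⟨a, a1, a2⟩ := h1 (c - cech D.r b'') ⟨fun J => D.ext_colon v
    (sub_mem (hc.1 J) (D.cech_ext d1 J)) (by
      have := add_mem (b2 J) (D.cech_ext
        (c := b - cech D.r b' - (X v : MvPolynomial V R) • b'') d2 J)
      rw [← Pi.smul_apply, e]
      exact this), fun J => by
    rw [map_sub, cech_cech D.isFun, sub_zero]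
    exact hc.2 J⟩
  refine ⟨b'' + a, fun I => add_mem (d1 I) (D.ext_mono inf_le_left (a1 I)), fun J => ?_⟩
  rw [map_add, Pi.add_apply, ← sub_sub]
  exact a2 J

theorem SerreC_desc (hN : D.Homog N) (hN' : D.Homog N') (h : N' ≤ N) (v : V) {k0 : ℤ}
    (h1 : ∀ k, k0 ≤ k → D.REx N' (colon v N' N) k)
    (h2 : ∀ k, k0 ≤ k → D.REx (shift v N' N) N k) (e : ℕ) : ∀ k, k0 ≤ k → ∀ c : ∀ I, W I,
      D.RZ N' N k c → D.RB N' N (k + e) ((X v : MvPolynomial V R) ^ e • c) → D.RB N' N k c := by
  induction e with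
  | zero => exact fun k _ c _ hb => by simpa using hb
  | succ e ih =>
    intro k hk c hc hb
    refine D.step_inj hN hN' h v (h1 k hk) (h2 _ (by omega)) hc (ih (k + 1) (by omega) _
      ⟨fun I => D.ext_X v (hc.1 I), fun J => ?_⟩ ?_)
    · rw [D.cech_smul]
      exact D.ext_X v (hc.2 J)
    · rwa [smul_smul, ← pow_succ, add_assoc, add_comm 1, ← Nat.cast_succ]

theorem SerreC_ind [IsNoetherianRing R] (A : Finset V) :
    ∀ N N' : Submodule (MvPolynomial V R) (W ∅), D.Homog N → D.Homog N' → N' ≤ N → N.FG →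
      (∀ i, i ∉ A → ∀ w ∈ N, (X i : MvPolynomial V R) • w ∈ N') →
      ∃ k0 : ℤ, ∀ k, k0 ≤ k → D.REx N' N k := by
  induction A using Finset.induction_on with
  | empty => exact fun N N' hN hN' _ fg h => D.base_rex hN hN' fg fun v => h v (by simp)
  | insert v A _ ih =>
    intro N N' hN hN' h fg hk
    obtain ⟨k1, h1⟩ := ih (colon v N' N) N' (D.homog_colon hN hN' v) hN'
      (fun w hw => ⟨h hw, N'.smul_mem _ hw⟩) (fg.of_le inf_le_left) fun i hi w hw => by
        by_cases e : i = v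
        · exact e ▸ hw.2
        · exact hk i (by simp [e, hi]) w hw.1
    obtain ⟨k2, h2⟩ := ih N (shift v N' N) hN (D.homog_shift hN hN' v)
      (sup_le (by rintro _ ⟨w, hw, rfl⟩; exact N.smul_mem _ hw) h) fg fun i hi w hw => by
        by_cases e : i = v
        · exact Submodule.mem_sup_left ⟨w, hw, by rw [e]; rfl⟩
        · exact Submodule.mem_sup_right (hk i (by simp [e, hi]) w hw)
    refine ⟨max k1 k2, fun k hk c hc => ?_⟩
    obtain ⟨e, he⟩ := D.nilp hN h v hc
    exact D.SerreC_desc hN hN' h v (fun k hk => h1 k (le_of_max_le_left hk))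
      (fun k hk => h2 k (le_of_max_le_right hk)) e k hk c hc he

theorem serre_rex [IsNoetherianRing R] (hN : D.Homog N) (hN' : D.Homog N') (h : N' ≤ N)
    (fg : N.FG) : ∃ k0 : ℤ, ∀ k, k0 ≤ k → D.REx N' N k :=
  D.SerreC_ind Finset.univ N N' hN hN' h fg fun i hi => absurd (Finset.mem_univ i) hi

end SD

end Pool.Agent.P.MP_824f38_ag.V
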