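import Pool.Agent.P.MP_824f38_ag.V.SerreC

set_option linter.unusedVariables false
set_option linter.unusedSectionVars false

namespace Pool.Agent.P.MP_824f38_ag.V

open MvPolynomial

section Abstract

variable {R M M' : Type} [CommRing R] [AddCommGroup M] [Module R M] [AddCommGroup M']
  [Module R M']

/-- `Z` is finitely generated modulo `B` -/
def SerreD_RelFG (B Z : Submodule R M) : Prop := ∃ T : Submodule R M, T.FG ∧ Z ≤ T ⊔ B

theorem SerreD_pull [IsNoetherianRing R] (f : M →ₗ[R] M') {B' Z' : Submodule R M'}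
    (h : SerreD_RelFG B' Z') {Γ : Submodule R M} (hΓ : ∀ x ∈ Γ, f x ∈ Z') :
    ∃ T : Submodule R M, T.FG ∧ T ≤ Γ ∧ ∀ x ∈ Γ, ∃ t ∈ T, f (x - t) ∈ B' := by
  obtain ⟨T', hT', hle⟩ := h
  have h1 : Γ.map (B'.mkQ ∘ₗ f) ≤ T'.map B'.mkQ := by
    rintro _ ⟨x, hx, rfl⟩
    obtain ⟨t, ht, b, hb, e⟩ := Submodule.mem_sup.1 (hle (hΓ x hx))
    refine ⟨t, ht, ?_⟩
    rw [LinearMap.comp_apply, ← e, map_add, Submodule.mkQ_apply B' b,
      (Submodule.Quotient.mk_eq_zero B').2 hb, add_zero]
  have h2 : (Γ.map (B'.mkQ ∘ₗ f)).FG := (hT'.map _).of_le h1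
  obtain ⟨n, s, hs⟩ := Submodule.fg_iff_exists_fin_generating_family.1 h2
  have h3 : ∀ j, ∃ x ∈ Γ, (B'.mkQ ∘ₗ f) x = s j := fun j =>
    Submodule.mem_map.1 (hs ▸ Submodule.subset_span (Set.mem_range_self j))
  choose u hu hu' using h3
  refine ⟨Submodule.span R (Set.range u), Submodule.fg_span (Set.finite_range u),
    Submodule.span_le.2 (Set.range_subset_iff.2 hu), fun x hx => ?_⟩
  have h4 : (B'.mkQ ∘ₗ f) x ∈ Submodule.span R (Set.range s) :=
    hs ▸ Submodule.mem_map_of_mem hx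
  obtain ⟨a, ha⟩ := (Submodule.mem_span_range_iff_exists_fun R).1 h4
  refine ⟨∑ j, a j • u j, (Submodule.mem_span_range_iff_exists_fun R).2 ⟨a, rfl⟩, ?_⟩
  rw [← Submodule.Quotient.mk_eq_zero B']
  change (B'.mkQ ∘ₗ f) (x - ∑ j, a j • u j) = 0
  rw [map_sub, map_sum, ← ha, sub_eq_zero]
  exact Finset.sum_congr rfl fun j _ => by rw [map_smul, hu']

theorem SerreD_corr [IsNoetherianRing R] {Z K B : Submodule R M} {Z' B' : Submodule R M'}
    (Γ : Submodule R (M × M')) (ha : ∀ c ∈ Z, ∃ b, (c, b) ∈ Γ) (hb : ∀ x ∈ Γ, x.2 ∈ Z')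
    (hc : SerreD_RelFG B' Z') (hd : ∀ x ∈ Γ, x.2 ∈ B' → x.1 ∈ K) (he : SerreD_RelFG B K) :
    SerreD_RelFG B Z := by
  obtain ⟨T, hT, hTΓ, hx⟩ := SerreD_pull (LinearMap.snd R M M') hc hb
  obtain ⟨T0, hT0, hK⟩ := he
  refine ⟨T.map (LinearMap.fst R M M') ⊔ T0, (hT.map _).sup hT0, fun c hc => ?_⟩
  obtain ⟨b, hcb⟩ := ha c hc
  obtain ⟨t, ht, h1⟩ := hx _ hcb
  have h2 := hK (hd _ (Γ.sub_mem hcb (hTΓ ht)) h1)
  have e : c = t.1 + ((c, b) - t).1 := by simp
  rw [e, sup_assoc]
  exact Submodule.add_mem_sup (Submodule.mem_map_of_mem (f := LinearMap.fst R M M') ht) h2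

end Abstract

namespace SD

variable {R V : Type} [CommRing R] [LinearOrder V] [Fintype V] {W : Finset V → Type}
  [∀ I, AddCommGroup (W I)] [∀ I, Module (MvPolynomial V R) (W I)] (D : SD R V W)
  {N N' : Submodule (MvPolynomial V R) (W ∅)} {k : ℤ}

/-- cochains as a module over the ground ring -/
@[reducible] noncomputable def SerreD_mod : Module R (∀ I, W I) :=
  Module.compHom _ (C : R →+* MvPolynomial V R)

attribute [local instance] SerreD_mod

theorem SerreD_smul (a : R) (c : ∀ I, W I) : a • c = (C a : MvPolynomial V R) • c := rfl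

/-- cochains with values in the localisations of `N` -/
def SerreD_L (N : Submodule (MvPolynomial V R) (W ∅)) (k : ℤ) : Submodule R (∀ I, W I) where
  carrier := {c | ∀ I, c I ∈ D.ext N k I}
  zero_mem' := fun I => zero_mem _
  add_mem' := fun ha hb I => add_mem (ha I) (hb I)
  smul_mem' := fun a c hc I => D.ext_C a (hc I)

/-- the differential as a linear map -/
def SerreD_d : (∀ I, W I) →ₗ[R] (∀ I, W I) where
  toFun := cech D.r
  map_add' := map_add _
  map_smul' := fun a c => D.cech_smul (C a) c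

/-- multiplication by a variable as a linear map -/
noncomputable def SerreD_x (v : V) : (∀ I, W I) →ₗ[R] (∀ I, W I) where
  toFun c := (X v : MvPolynomial V R) • c
  map_add' := smul_add _
  map_smul' := fun a c => by
    rw [RingHom.id_apply, SerreD_smul, SerreD_smul, smul_comm]

/-- relative cocycles -/
noncomputable def SerreD_Z (N' N : Submodule (MvPolynomial V R) (W ∅)) (k : ℤ) : Submodule R (∀ I, W I) :=
  D.SerreD_L N k ⊓ (D.SerreD_L N' k).comap D.SerreD_d

/-- relative coboundaries -/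
noncomputable def SerreD_B (N' N : Submodule (MvPolynomial V R) (W ∅)) (k : ℤ) : Submodule R (∀ I, W I) :=
  (D.SerreD_L N k).map D.SerreD_d ⊔ D.SerreD_L N' k

theorem SerreD_mem_Z {c : ∀ I, W I} : c ∈ D.SerreD_Z N' N k ↔ D.RZ N' N k c := Iff.rfl

theorem SerreD_mem_B {c : ∀ I, W I} : c ∈ D.SerreD_B N' N k ↔ D.RB N' N k c := by
  constructor
  · intro h
    obtain ⟨_, ⟨b, hb, rfl⟩, y, hy, rfl⟩ := Submodule.mem_sup.1 h
    refine ⟨b, hb, fun J => ?_⟩
    have e : (D.SerreD_d b + y) J - cech D.r b J = y J := by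
      change cech D.r b J + y J - cech D.r b J = y J
      abel
    rw [e]
    exact hy J
  · rintro ⟨b, hb, hc⟩
    refine Submodule.mem_sup.2 ⟨cech D.r b, ⟨b, hb, rfl⟩, c - cech D.r b, hc, ?_⟩
    abel

theorem SerreD_rfg_iff [IsNoetherianRing R] :
    D.RFG N' N k ↔ SerreD_RelFG (D.SerreD_B N' N k) (D.SerreD_Z N' N k) := by
  constructor
  · rintro ⟨n, t, -, ht⟩
    refine ⟨Submodule.span R (Set.range t), Submodule.fg_span (Set.finite_range t),
      fun c hc => ?_⟩
    obtain ⟨a, ha⟩ := ht c hc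
    refine Submodule.mem_sup.2 ⟨∑ j, a j • t j,
      (Submodule.mem_span_range_iff_exists_fun R).2 ⟨a, rfl⟩, _, D.SerreD_mem_B.2 ha, ?_⟩
    simp only [SerreD_smul]
    abel
  · intro h
    obtain ⟨T, hT, hTZ, hx⟩ := SerreD_pull LinearMap.id h (Γ := D.SerreD_Z N' N k)
      fun x hx => hx
    obtain ⟨n, s, rfl⟩ := Submodule.fg_iff_exists_fin_generating_family.1 hT
    refine ⟨n, s, fun j => hTZ (Submodule.subset_span (Set.mem_range_self j)), fun c hc => ?_⟩
    obtain ⟨t, ht, h1⟩ := hx c hc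
    obtain ⟨a, rfl⟩ := (Submodule.mem_span_range_iff_exists_fun R).1 ht
    exact ⟨a, D.SerreD_mem_B.1 h1⟩

/- Work with the `R`-module structure `Module.compHom _ C` on cochains, and the submodules `Z`, `B`
of relative cocycles and coboundaries. Useful abstract lemmas over a Noetherian ring, with
`RelFG B Z := ∃ T, T.FG ∧ Z ≤ T ⊔ B`: (i) if `B ≤ Z` one can take `T ≤ Z`; (ii) if `f` is linear,
`RelFG B' Z'`, `Z ≤ comap f Z'` and `RelFG B (Z ⊓ comap f B')` then `RelFG B Z`.
Here `f = x_v •`. A cocycle `c` with `x_v c = cech b + N'` gives a relative cocycle `b` of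
`(N2, N)`; the map from such `b` (a submodule of the cocycles of `(N2, N)`, finitely generated
modulo coboundaries) to the class of `c` modulo cocycles of `(N', N1)` and coboundaries is onto;
argue as in `step_inj`. -/
theorem step_fg [IsNoetherianRing R] (hN : D.Homog N) (hN' : D.Homog N') (h : N' ≤ N) (v : V)
    (h1 : D.RFG N' (colon v N' N) k) (h2 : D.RFG (shift v N' N) N (k + 1))
    (h3 : D.RFG N' N (k + 1)) : D.RFG N' N k := by
  rw [SerreD_rfg_iff] at h1 h2 h3 ⊢
  have hcol : colon v N' N ≤ N := inf_le_left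
  have hsh : N' ≤ shift v N' N := le_sup_right
  refine SerreD_corr (K := D.SerreD_Z N' N k ⊓ (D.SerreD_B N' N (k + 1)).comap (SerreD_x v))
    ((D.SerreD_Z N' N k).comap (LinearMap.fst R _ _) ⊓ (SerreD_x v).graph)
    (fun c hc => ⟨SerreD_x v c, hc, rfl⟩) ?_ h3 ?_ ?_
  · rintro ⟨c, b⟩ ⟨hc, e⟩
    obtain rfl : b = SerreD_x v c := e
    refine ⟨fun I => D.ext_X v (hc.1 I), fun J => ?_⟩
    change cech D.r ((X v : MvPolynomial V R) • c) J ∈ _
    rw [D.cech_smul]
    exact D.ext_X v (hc.2 J)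
  · rintro ⟨c, b⟩ ⟨hc, e⟩ hb
    obtain rfl : b = SerreD_x v c := e
    exact ⟨hc, hb⟩
  refine SerreD_corr (K := D.SerreD_Z N' (colon v N' N) k ⊔ D.SerreD_B N' N k)
    ((D.SerreD_Z N' N k).comap (LinearMap.fst R _ _) ⊓
      ((D.SerreD_L N (k + 1)).comap (LinearMap.snd R _ _) ⊓
        (D.SerreD_L N' (k + 1)).comap ((SerreD_x v).coprod (-D.SerreD_d))))
    ?_ ?_ h2 ?_ ?_
  · rintro c ⟨hc, hb⟩
    obtain ⟨b, hb1, hb2⟩ := D.SerreD_mem_B.1 hb
    refine ⟨b, hc, hb1, fun J => ?_⟩
    have := hb2 J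
    rw [sub_eq_add_neg] at this
    exact this
  · rintro ⟨c, b⟩ ⟨hc, hb1, hb2⟩
    refine ⟨hb1, fun J => ?_⟩
    have h4 : (X v : MvPolynomial V R) • c J + -cech D.r b J ∈ D.ext N' (k + 1) J := hb2 J
    have hc' : D.RZ N' N k c := hc
    have h5 := sub_mem (D.X_mem_shift (N' := N') v (hc'.1 J)) (D.ext_mono hsh h4)
    have e : (X v : MvPolynomial V R) • c J - ((X v : MvPolynomial V R) • c J + -cech D.r b J) =
        cech D.r b J := by abel
    rw [e] at h5
    exact h5
  · rintro ⟨c, b⟩ ⟨hc, hb1, hb2⟩ hb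
    obtain ⟨b', hb', hy⟩ := D.SerreD_mem_B.1 hb
    choose y1 hy1 hy2 using fun J => D.ext_shift hN hN' v (hy J)
    have hn := D.cech_ext (c := b - cech D.r b' - (X v : MvPolynomial V R) • y1) hy2
    rw [map_sub, map_sub, cech_cech D.isFun, sub_zero, D.cech_smul] at hn
    refine Submodule.mem_sup.2 ⟨c - cech D.r y1, ⟨fun J => ?_, fun J => ?_⟩, cech D.r y1,
      D.SerreD_mem_B.2 ⟨y1, hy1, fun J => by rw [sub_self]; exact zero_mem _⟩, sub_add_cancel _ _⟩
    · refine D.ext_colon v (sub_mem (hc.1 J) (D.cech_ext hy1 J)) ?_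
      have h4 : (X v : MvPolynomial V R) • c J + -cech D.r b J ∈ D.ext N' (k + 1) J := hb2 J
      have h5 : cech D.r b J - (X v : MvPolynomial V R) • cech D.r y1 J ∈ D.ext N' (k + 1) J :=
        hn J
      have h6 := add_mem h4 h5
      have e : (X v : MvPolynomial V R) • c J + -cech D.r b J +
          (cech D.r b J - (X v : MvPolynomial V R) • cech D.r y1 J) =
          (X v : MvPolynomial V R) • (c - cech D.r y1) J := by
        rw [Pi.sub_apply, smul_sub]
        abel
      rw [e] at h6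
      exact h6
    · change cech D.r (c - cech D.r y1) J ∈ _
      rw [map_sub, cech_cech D.isFun, sub_zero]
      exact hc.2 J
  · obtain ⟨T, hT, hle⟩ := h1
    refine ⟨T, hT, sup_le (hle.trans (sup_le_sup_left ?_ _)) le_sup_right⟩
    intro c hc
    obtain ⟨b, hb1, hb2⟩ := D.SerreD_mem_B.1 hc
    exact D.SerreD_mem_B.2 ⟨b, fun I => D.ext_mono hcol (hb1 I), hb2⟩

/- the same induction on `A` as in `serre_rex`; inside the step, descending induction on `k`
from the bound of `serre_rex` (`Int.le_induction_down`) -/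
theorem serre_rfg [IsNoetherianRing R] (hN : D.Homog N) (hN' : D.Homog N') (h : N' ≤ N)
    (fg : N.FG) (k : ℤ) : D.RFG N' N k := by
  classical
  have key : ∀ (A : Finset V) (N N' : Submodule (MvPolynomial V R) (W ∅)), D.Homog N →
      D.Homog N' → N' ≤ N → N.FG →
      (∀ i, i ∉ A → ∀ w ∈ N, (X i : MvPolynomial V R) • w ∈ N') → ∀ k, D.RFG N' N k := by
    intro A
    induction A using Finset.induction_on with
    | empty =>
      intro N N' hN hN' h fg hx k
      exact D.base_rfg hN hN' fg (fun v => hx v (Finset.notMem_empty v)) k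
    | insert v A hv ih =>
      intro N N' hN hN' h fg hx k
      have h1 : ∀ k, D.RFG N' (colon v N' N) k := by
        refine ih _ _ (D.homog_colon hN hN' v) hN'
          (fun w hw => ⟨h hw, N'.smul_mem _ hw⟩) (fg.of_le inf_le_left) fun i hi w hw => ?_
        by_cases e : i = v
        · subst e
          exact hw.2
        · exact hx i (fun h' => (Finset.mem_insert.1 h').elim e hi) w hw.1
      have h2 : ∀ k, D.RFG (shift v N' N) N k := by
        refine ih _ _ hN (D.homog_shift hN hN' v) (sup_le ?_ h) fg fun i hi w hw => ?_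
        · rintro _ ⟨w, hw, rfl⟩
          exact N.smul_mem _ hw
        · by_cases e : i = v
          · subst e
            exact Submodule.mem_sup_left ⟨w, hw, rfl⟩
          · exact Submodule.mem_sup_right
              (hx i (fun h' => (Finset.mem_insert.1 h').elim e hi) w hw)
      obtain ⟨k0, hk0⟩ := D.serre_rex hN hN' h fg
      have h3 : ∀ k, k0 ≤ k → D.RFG N' N k := fun k hk =>
        ⟨0, Fin.elim0, fun j => j.elim0, fun c hc => ⟨Fin.elim0, by
          rw [Finset.univ_eq_empty, Finset.sum_empty, sub_zero]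
          exact hk0 k hk c hc⟩⟩
      rcases le_total k0 k with hk | hk
      · exact h3 k hk
      · refine Int.leInductionDown (motive := fun k _ => D.RFG N' N k) (h3 k0 le_rfl)
          (fun m _ hm => ?_) k hk
        refine D.step_fg hN hN' h v (h1 _) (h2 _) ?_
        rwa [sub_add_cancel]
  exact key Finset.univ N N' hN hN' h fg (fun i hi => absurd (Finset.mem_univ i) hi) k

end SD

end Pool.Agent.P.MP_824f38_ag.V
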