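import Pool.Agent.P.MP_824f38_ag.V.Cech

/-! Setting for Serre's finiteness and vanishing theorems. -/

set_option linter.unusedSimpArgs false
set_option linter.unusedVariables false
set_option linter.unusedSectionVars false

namespace Pool.Agent.P.MP_824f38_ag.V

open MvPolynomial

/-- the monomial attached to a finite set of variables -/
noncomputable def xI (R : Type) [CommRing R] {V : Type} (I : Finset V) : MvPolynomial V R :=
  ∏ i ∈ I, X i

/-- A family of modules over `R[x_v]` with degree projectors, in which `x_v` acts bijectively on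
`W I` for `v ∈ I` and the kernel of `W ∅ → W I` is torsion. -/
structure SD (R V : Type) [CommRing R] [LinearOrder V] (W : Finset V → Type)
    [∀ I, AddCommGroup (W I)] [∀ I, Module (MvPolynomial V R) (W I)] where
  r : Res W
  isFun : IsFun r
  r_smul : ∀ I J h (a : MvPolynomial V R) x, r I J h (a • x) = a • r I J h x
  π : ℤ → ∀ I, W I →+ W I
  π_same : ∀ k I x, π k I (π k I x) = π k I x
  π_ne : ∀ k k' I x, k ≠ k' → π k I (π k' I x) = 0
  π_r : ∀ k I J h x, π k J (r I J h x) = r I J h (π k I x)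
  π_X : ∀ k I (i : V) x, π (k + 1) I ((X i : MvPolynomial V R) • x) =
    (X i : MvPolynomial V R) • π k I x
  π_C : ∀ k I (a : R) x, π k I ((C a : MvPolynomial V R) • x) = (C a : MvPolynomial V R) • π k I x
  unit : ∀ I, ∀ i ∈ I, Function.Bijective fun x : W I => (X i : MvPolynomial V R) • x
  inj : ∀ I h w, r ∅ I h w = 0 → ∃ e : ℕ, xI R I ^ e • w = 0

namespace SD

variable {R V : Type} [CommRing R] [LinearOrder V] {W : Finset V → Type}
  [∀ I, AddCommGroup (W I)] [∀ I, Module (MvPolynomial V R) (W I)] (D : SD R V W)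

/-- homogeneous submodules -/
def Homog (N : Submodule (MvPolynomial V R) (W ∅)) : Prop :=
  ∀ w ∈ N, (∀ k, D.π k ∅ w ∈ N) ∧ ∃ s : Finset ℤ, ∑ k ∈ s, D.π k ∅ w = w

/-- the part of degree `k` of the localisation of `N` -/
def ext (N : Submodule (MvPolynomial V R) (W ∅)) (k : ℤ) (I : Finset V) : AddSubgroup (W I) where
  carrier := {y | D.π k I y = y ∧
    ∃ (e : ℕ) (w : W ∅), w ∈ N ∧ xI R I ^ e • y = D.r ∅ I (Finset.empty_subset I) w}
  zero_mem' := ⟨map_zero _, 0, 0, zero_mem _, by simp⟩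
  neg_mem' := by
    rintro y ⟨h, e, w, hw, he⟩
    exact ⟨by rw [map_neg, h], e, -w, neg_mem hw, by rw [smul_neg, he, map_neg]⟩
  add_mem' := by
    rintro y y' ⟨h, e, w, hw, he⟩ ⟨h', e', w', hw', he'⟩
    refine ⟨by rw [map_add, h, h'], e + e', xI R I ^ e' • w + xI R I ^ e • w',
      add_mem (N.smul_mem _ hw) (N.smul_mem _ hw'), ?_⟩
    rw [map_add, D.r_smul, D.r_smul, ← he, ← he', smul_add, smul_smul, smul_smul, ← pow_add,
      ← pow_add, add_comm e' e]

theorem mem_ext {N : Submodule (MvPolynomial V R) (W ∅)} {k : ℤ} {I : Finset V} {y : W I} :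
    y ∈ D.ext N k I ↔ D.π k I y = y ∧
      ∃ (e : ℕ) (w : W ∅), w ∈ N ∧ xI R I ^ e • y = D.r ∅ I (Finset.empty_subset I) w := Iff.rfl

/-- `{w ∈ N | x_v w ∈ N'}` -/
noncomputable def colon (v : V) (N' N : Submodule (MvPolynomial V R) (W ∅)) :
    Submodule (MvPolynomial V R) (W ∅) :=
  N ⊓ N'.comap (LinearMap.lsmul (MvPolynomial V R) (W ∅) (X v))

/-- `x_v N + N'` -/
noncomputable def shift (v : V) (N' N : Submodule (MvPolynomial V R) (W ∅)) :
    Submodule (MvPolynomial V R) (W ∅) :=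
  N.map (LinearMap.lsmul (MvPolynomial V R) (W ∅) (X v)) ⊔ N'

/-- relative cocycles of the augmented complex -/
def RZ (N' N : Submodule (MvPolynomial V R) (W ∅)) (k : ℤ) (c : ∀ I, W I) : Prop :=
  (∀ I, c I ∈ D.ext N k I) ∧ ∀ J, cech D.r c J ∈ D.ext N' k J

/-- relative coboundaries of the augmented complex -/
def RB (N' N : Submodule (MvPolynomial V R) (W ∅)) (k : ℤ) (c : ∀ I, W I) : Prop :=
  ∃ b : ∀ I, W I, (∀ I, b I ∈ D.ext N k I) ∧ ∀ J, c J - cech D.r b J ∈ D.ext N' k J

/-- relative exactness -/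
def REx (N' N : Submodule (MvPolynomial V R) (W ∅)) (k : ℤ) : Prop :=
  ∀ c, D.RZ N' N k c → D.RB N' N k c

/-- relative finite generation over `R` -/
def RFG (N' N : Submodule (MvPolynomial V R) (W ∅)) (k : ℤ) : Prop :=
  ∃ (n : ℕ) (t : Fin n → ∀ I, W I), (∀ j, D.RZ N' N k (t j)) ∧ ∀ c, D.RZ N' N k c →
    ∃ a : Fin n → R, D.RB N' N k (c - ∑ j, (C (a j) : MvPolynomial V R) • t j)

end SD

end Pool.Agent.P.MP_824f38_ag.V
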